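import Pool.Agent.Lib_MP_f1937f_jd.Defs

/-!
# The main term

PROOF. Let `G r = ∑_{f ∣ r} μ (r / f) C f` (Moebius inverse of `C`), so `C g = ∑_{r ∣ g} G r` for `g ≥ 1` and
`|G r| ≤ B ∑_{f ∣ r} f` for `r ∣ q`. Then `∑ h, w h C (gcd h q) = ∑_{r ∣ q} G r ∑_{r ∣ h} w h` and
`∑_{g ∣ q} φ (q / g) / q C g = ∑_{r ∣ q} G r / r`, and the difference is `∑_{r ∣ q} (G r / r) (r ∑_{r ∣ h} w h - 1)`.
-/

set_option autoImplicit false

namespace Pool.Agent.JD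

open Finset Pool.Agent.TB Pool.Agent.JB

/-- Moebius inverse of `C` -/
private noncomputable def fG (C : ℕ → ℝ) (q : ℕ) : ℝ :=
  ∑ x ∈ q.divisorsAntidiagonal, ((ArithmeticFunction.moebius x.1 : ℤ) : ℝ) * C x.2

private theorem fG_sum (C : ℕ → ℝ) (g : ℕ) (hg : 0 < g) : ∑ q ∈ g.divisors, fG C q = C g :=
  (ArithmeticFunction.sum_eq_iff_sum_mul_moebius_eq (f := fG C) (g := C)).2
    (fun _ _ => rfl) g hg

private theorem fG_le (C : ℕ → ℝ) (B : ℝ) (n q : ℕ) (hn : 0 < n) (hC : ∀ f ∈ n.divisors, 0 ≤ C f ∧ C f ≤ B * f) (hqn : q ∣ n) :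
    |fG C q| ≤ B * ∑ f ∈ q.divisors, (f : ℝ) := by
  unfold fG
  refine (Finset.abs_sum_le_sum_abs _ _).trans ?_
  have h1 : ∑ f ∈ q.divisors, (f : ℝ) = ∑ x ∈ q.divisorsAntidiagonal, (x.2 : ℝ) := by
    rw [Nat.sum_divisorsAntidiagonal' (fun _ j => (j : ℝ))]
  rw [h1, Finset.mul_sum]
  refine Finset.sum_le_sum fun x hx => ?_
  have hx' := Nat.mem_divisorsAntidiagonal.1 hx
  have hx2 : x.2 ∣ q := ⟨x.1, by rw [← hx'.1]; ring⟩
  obtain ⟨h3, h2⟩ := hC x.2 (Nat.mem_divisors.2 ⟨hx2.trans hqn, hn.ne'⟩)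
  rw [abs_mul, abs_of_nonneg h3]
  have h4 : |((ArithmeticFunction.moebius x.1 : ℤ) : ℝ)| ≤ 1 := by
    have := ArithmeticFunction.abs_moebius_le_one (n := x.1)
    exact_mod_cast this
  calc |((ArithmeticFunction.moebius x.1 : ℤ) : ℝ)| * C x.2 ≤ 1 * (B * (x.2 : ℝ)) :=
        mul_le_mul h4 h2 h3 zero_le_one
    _ = B * x.2 := one_mul _

/-- `∑_{q ∣ g ∣ n} φ (n / g) = n / q` -/
private theorem mD_tot (n q : ℕ) (hn : 0 < n) (hq : q ∣ n) :
    ∑ g ∈ n.divisors.filter (q ∣ ·), ((n / g).totient : ℝ) = (n : ℝ) / q := by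
  obtain ⟨r, rfl⟩ := hq
  have hq0 : 0 < q := Nat.pos_of_ne_zero (by rintro rfl; simp at hn)
  have hr0 : 0 < r := Nat.pos_of_ne_zero (by rintro rfl; simp at hn)
  have h1 : (q * r).divisors.filter (q ∣ ·) = r.divisors.image (fun g => q * g) := by
    ext g
    simp only [mem_filter, Nat.mem_divisors, mem_image]
    constructor
    · rintro ⟨⟨h2, h3⟩, ⟨k, rfl⟩⟩
      exact ⟨k, ⟨Nat.dvd_of_mul_dvd_mul_left hq0 h2, hr0.ne'⟩, rfl⟩
    · rintro ⟨k, ⟨h2, h3⟩, rfl⟩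
      exact ⟨⟨Nat.mul_dvd_mul_left q h2, hn.ne'⟩, Dvd.intro k rfl⟩
  rw [h1, Finset.sum_image (fun a _ b _ h => Nat.eq_of_mul_eq_mul_left hq0 h)]
  have h2 : ∀ g ∈ r.divisors, ((q * r / (q * g)).totient : ℝ) = ((r / g).totient : ℝ) := by
    intro g _
    rw [Nat.mul_div_mul_left _ _ hq0]
  rw [Finset.sum_congr rfl h2, Nat.sum_div_divisors r (fun k => ((k.totient : ℕ) : ℝ))]
  have h3 := Nat.sum_totient r
  have h4 : ∑ k ∈ r.divisors, ((k.totient : ℕ) : ℝ) = (r : ℝ) := by exact_mod_cast h3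
  rw [h4]
  have : (q : ℝ) ≠ 0 := by positivity
  push_cast
  field_simp

/-- PIECE [JD-A3] (about 120 lines, adapt `Lib_MP_f1937f_jb/MainD.lean`: `CC d t f` becomes `C f`, `CC_le` becomes `hC`). -/
theorem main_F (C : ℕ → ℝ) (B : ℝ) (q : ℕ) (hq : 0 < q) (hC : ∀ f ∈ q.divisors, 0 ≤ C f ∧ C f ≤ B * f) (X : ℕ) (w : ℕ → ℝ) :
    |∑ h ∈ Icc 1 X, w h * C (Nat.gcd h q) - ∑ g ∈ q.divisors, ((q / g).totient : ℝ) / q * C g| ≤
      ∑ r ∈ q.divisors, B * (∑ f ∈ r.divisors, (f : ℝ)) / r * |(r : ℝ) * ∑ h ∈ (Icc 1 X).filter (r ∣ ·), w h - 1| := by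
  have hq' : (q : ℝ) ≠ 0 := by positivity
  have h1 : ∑ h ∈ Icc 1 X, w h * C (Nat.gcd h q) =
      ∑ r ∈ q.divisors, fG C r * ∑ h ∈ (Icc 1 X).filter (r ∣ ·), w h := by
    have h2 : ∀ h ∈ Icc 1 X, w h * C (Nat.gcd h q) =
        ∑ r ∈ q.divisors, if r ∣ h then fG C r * w h else 0 := by
      intro h hh
      have hh0 : 0 < h := (mem_Icc.1 hh).1
      rw [← fG_sum C (Nat.gcd h q) (Nat.gcd_pos_of_pos_left q hh0), Finset.mul_sum, ← Finset.sum_filter]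
      refine Finset.sum_congr ?_ (fun r _ => mul_comm _ _)
      ext r
      simp only [Nat.mem_divisors, mem_filter, Nat.dvd_gcd_iff]
      constructor
      · rintro ⟨⟨a, b⟩, -⟩
        exact ⟨⟨b, hq.ne'⟩, a⟩
      · rintro ⟨⟨b, -⟩, a⟩
        exact ⟨⟨a, b⟩, (Nat.gcd_pos_of_pos_left q hh0).ne'⟩
    rw [Finset.sum_congr rfl h2, Finset.sum_comm]
    refine Finset.sum_congr rfl fun r _ => ?_
    rw [← Finset.sum_filter, Finset.mul_sum]
  have h3 : ∑ g ∈ q.divisors, ((q / g).totient : ℝ) / q * C g = ∑ r ∈ q.divisors, fG C r / r := by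
    have h4 : ∀ g ∈ q.divisors, ((q / g).totient : ℝ) / q * C g =
        ∑ r ∈ q.divisors, if r ∣ g then ((q / g).totient : ℝ) / q * fG C r else 0 := by
      intro g hg
      have hg0 : 0 < g := Nat.pos_of_mem_divisors hg
      have hgn : g ∣ q := Nat.dvd_of_mem_divisors hg
      rw [← fG_sum C g hg0, Finset.mul_sum, ← Finset.sum_filter]
      refine Finset.sum_congr ?_ (fun r _ => rfl)
      ext r
      simp only [Nat.mem_divisors, mem_filter]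
      constructor
      · rintro ⟨a, -⟩
        exact ⟨⟨a.trans hgn, hq.ne'⟩, a⟩
      · rintro ⟨-, a⟩
        exact ⟨a, hg0.ne'⟩
    rw [Finset.sum_congr rfl h4, Finset.sum_comm]
    refine Finset.sum_congr rfl fun r hr => ?_
    have hr0 : (r : ℝ) ≠ 0 := by
      have := Nat.pos_of_mem_divisors hr
      positivity
    rw [← Finset.sum_filter, ← Finset.sum_mul, ← Finset.sum_div,
      mD_tot q r hq (Nat.dvd_of_mem_divisors hr)]
    field_simp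
  rw [h1, h3, ← Finset.sum_sub_distrib]
  refine (Finset.abs_sum_le_sum_abs _ _).trans (Finset.sum_le_sum fun r hr => ?_)
  have hr0 : (0 : ℝ) < r := by
    have := Nat.pos_of_mem_divisors hr
    exact_mod_cast this
  have h5 : fG C r * ∑ h ∈ (Icc 1 X).filter (r ∣ ·), w h - fG C r / r =
      fG C r / r * ((r : ℝ) * ∑ h ∈ (Icc 1 X).filter (r ∣ ·), w h - 1) := by
    field_simp
  rw [h5, abs_mul, abs_div, abs_of_pos hr0]
  refine mul_le_mul_of_nonneg_right ?_ (abs_nonneg _)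
  exact div_le_div_of_nonneg_right (fG_le C B q r hq hC (Nat.dvd_of_mem_divisors hr)) hr0.le

end Pool.Agent.JD
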