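import Pool.Agent.Lib_MP_f1937f_jd.Defs

/-!
# One level
-/

set_option autoImplicit false

namespace Pool.Agent.JD

open Finset Pool.Agent.TB Pool.Agent.JB

/-- PIECE [JD-A1] (about 100 lines, adapt `term_h` of `Lib_MP_f1937f_jb/TermH.lean`: `CC d a h` becomes `C h a`, `m` becomes `K q`, `L = K (h / gcd h q * q)`). PROOF. `L` is a multiple of `K h` and of `K q`. Partition the `a` by their
class `b < L`; `C h a = C h b` (`hF.per`), and `K q ∣ a - t` iff `K q ∣ b - t`. By `hF.avg` (with `m := q`). -/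
theorem term_F (K p : ℕ) (u : ℤ → ℝ) (C : ℕ → ℤ → ℝ) (hF : Fam K p u C) (hK : 0 < K) (h q : ℕ) (hh : 0 < h) (hq : 0 < q)
    (hc : p.Coprime h) (t : ℤ) (S : Finset ℤ) (F : ℤ → ℝ) (κ : ℝ) :
    ∃ c : ℤ, |∑ a ∈ S.filter (fun a => ((K * q : ℕ) : ℤ) ∣ a - t), C h a * F a - C (Nat.gcd h q) t / ((K * q : ℕ) : ℝ) * κ| ≤
      ((h / Nat.gcd h q : ℕ) : ℝ) * C (Nat.gcd h q) t *
        |∑ a ∈ S.filter (fun a => ((h / Nat.gcd h q * (K * q) : ℕ) : ℤ) ∣ a - c), F a - κ / ((h / Nat.gcd h q * (K * q) : ℕ) : ℝ)| := by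
  classical
  obtain ⟨g, hg⟩ : ∃ g, g = Nat.gcd h q := ⟨_, rfl⟩
  have havg0 := hF.avg h q t hh hq hc
  rw [← hg] at havg0 ⊢
  have hgh : g ∣ h := hg ▸ Nat.gcd_dvd_left h q
  have hgq : g ∣ q := hg ▸ Nat.gcd_dvd_right h q
  obtain ⟨w, hw⟩ : ∃ w, w = h / g := ⟨_, rfl⟩
  rw [← hw] at havg0 ⊢
  have hhw : h = w * g := by rw [hw, Nat.div_mul_cancel hgh]
  have hw0 : 0 < w := Nat.pos_of_ne_zero (by rintro rfl; omega)
  obtain ⟨m, hm'⟩ : ∃ m, m = K * q := ⟨_, rfl⟩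
  have hm : 0 < m := hm' ▸ Nat.mul_pos hK hq
  obtain ⟨L, hL⟩ : ∃ L, L = w * m := ⟨_, rfl⟩
  rw [show K * (w * q) = w * (K * q) by ring, ← hm', ← hL] at havg0
  rw [← hm', ← hL]
  have hL0 : 0 < L := hL ▸ Nat.mul_pos hw0 hm
  have hmL : (m : ℤ) ∣ (L : ℤ) := by
    rw [hL]
    push_cast
    exact dvd_mul_left _ _
  have hhL : ((K * h : ℕ) : ℤ) ∣ (L : ℤ) := by
    obtain ⟨q', hq'⟩ := hgq
    have : L = K * h * q' := by rw [hL, hm', hhw, hq']; ring
    rw [this, Nat.cast_mul (K * h) q']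
    exact dvd_mul_right _ _
  have hLz : (0 : ℤ) < L := by exact_mod_cast hL0
  have hLr : (0 : ℝ) < L := by exact_mod_cast hL0
  have hmr : (0 : ℝ) < m := by exact_mod_cast hm
  obtain ⟨X, hX⟩ : ∃ X : ℕ → ℝ, X = fun b : ℕ => ∑ a ∈ S.filter (fun a => (L : ℤ) ∣ a - (b : ℤ)), F a := ⟨_, rfl⟩
  obtain ⟨R, hR⟩ : ∃ R, R = (range L).filter (fun b : ℕ => (m : ℤ) ∣ (b : ℤ) - t) := ⟨_, rfl⟩
  have havg : ∑ b ∈ R, C h b = (w : ℝ) * C g t := by rw [hR]; exact havg0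
  have hfib : ∀ (a : ℤ) (b : ℕ), b < L → ((a % (L : ℤ)).toNat = b ↔ (L : ℤ) ∣ a - (b : ℤ)) := by
    intro a b hb
    have h0 : 0 ≤ a % (L : ℤ) := Int.emod_nonneg _ hLz.ne'
    have hbz : (b : ℤ) < L := by exact_mod_cast hb
    constructor
    · intro h1
      have h2 : a % (L : ℤ) = b := by omega
      rw [← h2]
      exact Int.dvd_self_sub_emod
    · intro h1
      have h3 : a % (L : ℤ) = (b : ℤ) % (L : ℤ) :=
        Int.emod_eq_emod_iff_emod_sub_eq_zero.2 (Int.emod_eq_zero_of_dvd h1)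
      rw [h3, Int.emod_eq_of_lt (by positivity) hbz]
      simp
  have hsum : ∑ a ∈ S.filter (fun a => (m : ℤ) ∣ a - t), C h a * F a = ∑ b ∈ R, C h b * X b := by
    rw [← Finset.sum_fiberwise_of_maps_to (g := fun a : ℤ => (a % (L : ℤ)).toNat) (t := R)]
    · refine Finset.sum_congr rfl fun b hb => ?_
      rw [hR, mem_filter, mem_range] at hb
      obtain ⟨hbL, hbt⟩ := hb
      rw [hX]
      dsimp only
      rw [mul_sum, filter_filter]
      refine Finset.sum_congr ?_ fun a ha => ?_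
      · ext a
        rw [mem_filter, mem_filter, hfib a b hbL]
        constructor
        · rintro ⟨h1, h2, h3⟩
          exact ⟨h1, h3⟩
        · rintro ⟨h1, h3⟩
          refine ⟨h1, ?_, h3⟩
          have e : a - t = (a - b) + (b - t) := by ring
          rw [e]
          exact dvd_add (hmL.trans h3) hbt
      · rw [mem_filter] at ha
        have h1 : (L : ℤ) ∣ a - b := ha.2
        rw [hF.per h a b hh (hhL.trans h1)]
    · intro a ha
      rw [mem_filter] at ha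
      have h0 : 0 ≤ a % (L : ℤ) := Int.emod_nonneg _ hLz.ne'
      have h1 : a % (L : ℤ) < L := Int.emod_lt_of_pos _ hLz
      rw [hR, mem_filter, mem_range]
      refine ⟨by omega, ?_⟩
      rw [Int.toNat_of_nonneg h0]
      have e : a % (L : ℤ) - t = (a - t) - (a - a % (L : ℤ)) := by ring
      rw [e]
      exact dvd_sub ha.2 (hmL.trans Int.dvd_self_sub_emod)
  have hmain : C g t / m * κ = ∑ b ∈ R, C h b * (κ / L) := by
    rw [← sum_mul, havg, hL]
    have hwr : (0 : ℝ) < w := by exact_mod_cast hw0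
    push_cast
    field_simp
  obtain ⟨b₀, hb₀, hmax⟩ := Finset.exists_max_image (range L) (fun b => |X b - κ / L|) ⟨0, mem_range.2 hL0⟩
  refine ⟨(b₀ : ℤ), ?_⟩
  have hXb : ∑ a ∈ S.filter (fun a => (L : ℤ) ∣ a - (b₀ : ℤ)), F a = X b₀ := by rw [hX]
  rw [hXb, hsum, hmain, ← sum_sub_distrib, ← havg, sum_mul]
  refine (Finset.abs_sum_le_sum_abs _ _).trans (sum_le_sum fun b hb => ?_)
  rw [← mul_sub, abs_mul, abs_of_nonneg (hF.nonneg h b)]
  refine mul_le_mul_of_nonneg_left (hmax b ?_) (hF.nonneg h b)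
  rw [hR, mem_filter] at hb
  exact hb.1

end Pool.Agent.JD
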