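import Pool.Agent.Lib_MP_f1937f_jd.Defs
import Pool.Agent.Lib_MP_f1937f_jb.Rho

/-!
# Roots in a residue class, Chinese remainder theorem
-/

set_option autoImplicit false

namespace Pool.Agent.JD

open Finset Pool.Agent.TB Pool.Agent.JB

/-- the same for `W = S² e` and a modulus `Q = W f` -/
private theorem rs_mul_aux (S W Q f : ℕ) (lam d a : ℤ) (hQ : Q = W * f) (h1 : S ∣ W) (h2 : S ∣ Q) (h : W.Coprime f) :
    Nat.card {x : ZMod Q // ZMod.castHom h2 (ZMod S) x = (lam : ZMod S) ∧ x ^ 2 - (a : ZMod Q) * x + (d : ZMod Q) = 0} =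
      Nat.card {x : ZMod W // ZMod.castHom h1 (ZMod S) x = (lam : ZMod S) ∧ x ^ 2 - (a : ZMod W) * x + (d : ZMod W) = 0} *
        Nat.card {c : ZMod f // c ^ 2 - (a : ZMod f) * c + (d : ZMod f) = 0} := by
  subst hQ
  rw [← Nat.card_prod]
  refine Nat.card_congr ?_
  refine ((ZMod.chineseRemainder h).toEquiv.subtypeEquiv
    (q := fun x : ZMod W × ZMod f => (ZMod.castHom h1 (ZMod S) x.1 = (lam : ZMod S) ∧
      x.1 ^ 2 - (a : ZMod W) * x.1 + (d : ZMod W) = 0) ∧ (x.2 ^ 2 - (a : ZMod f) * x.2 + (d : ZMod f) = 0)) ?_).trans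
    (Equiv.subtypeProdEquivProd (p := fun x : ZMod W => ZMod.castHom h1 (ZMod S) x = (lam : ZMod S) ∧
        x ^ 2 - (a : ZMod W) * x + (d : ZMod W) = 0)
      (q := fun x : ZMod f => x ^ 2 - (a : ZMod f) * x + (d : ZMod f) = 0))
  intro c
  have h3 : c ^ 2 - (a : ZMod (W * f)) * c + (d : ZMod (W * f)) = 0 ↔
      (ZMod.chineseRemainder h) (c ^ 2 - (a : ZMod (W * f)) * c + (d : ZMod (W * f))) = 0 :=
    (map_eq_zero_iff _ (ZMod.chineseRemainder h).injective).symm
  have h4 : ZMod.castHom h2 (ZMod S) c = ZMod.castHom h1 (ZMod S) ((ZMod.chineseRemainder h) c).1 := by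
    have h5 : ZMod.castHom h2 (ZMod S) = ((ZMod.castHom h1 (ZMod S)).comp (RingHom.fst (ZMod W) (ZMod f))).comp
        ((ZMod.chineseRemainder h) : ZMod (W * f) →+* ZMod W × ZMod f) := Subsingleton.elim _ _
    rw [h5]
    rfl
  rw [h3, h4, Prod.ext_iff, and_assoc]
  simp only [map_add, map_sub, map_mul, map_pow, map_intCast, Prod.fst_add, Prod.fst_sub, Prod.fst_mul, Prod.pow_fst,
    Prod.fst_intCast, Prod.fst_zero, Prod.snd_add, Prod.snd_sub, Prod.snd_mul, Prod.pow_snd, Prod.snd_intCast, Prod.snd_zero]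
  exact Iff.rfl

/-- PIECE [JD-P4] (about 80 lines). PROOF. `ZMod (S² (e f)) ≃ ZMod (S² e) × ZMod f` (`ZMod.chineseRemainder` after `S² (e f) = (S² e) f`; you may first generalise the
modulus: `∀ Q (hQ : Q = S ^ 2 * e * f) (h : S ∣ Q), Nat.card {x : ZMod Q // ...} = ..`, `subst`). The class modulo `S` only concerns the first factor. -/
theorem rs_mul (S : ℕ) (lam d a : ℤ) (e f : ℕ) (hS : 0 < S) (he : 0 < e) (hf : 0 < f) (h : f.Coprime (S * e)) :
    rs S lam d a (e * f) = rs S lam d a e * rho d a f := by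
  unfold rs rho
  refine rs_mul_aux S (S ^ 2 * e) (S ^ 2 * (e * f)) f lam d a (by ring) (sdvd S e) (sdvd S (e * f)) ?_
  have h1 : f.Coprime S := Nat.Coprime.coprime_mul_right_right h
  have h2 : f.Coprime e := Nat.Coprime.coprime_mul_left_right h
  exact (Nat.Coprime.mul_left (Nat.Coprime.pow_left 2 h1.symm) h2.symm)

end Pool.Agent.JD
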