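import Pool.Agent.Lib_MP_f1937f_jd.Defs

/-!
# Sums over the divisors of a product of coprime numbers
-/

set_option autoImplicit false

namespace Pool.Agent.JD

open Finset Pool.Agent.TB Pool.Agent.JB

/-- PIECE [JD-P2] (both theorems, about 70 lines). PROOF. The divisors of `a b` are the products `x y`, `x ∣ a`, `y ∣ b`, uniquely
(`Nat.Coprime.sum_divisors_mul`-type lemmas or `Nat.divisors_mul`, `Nat.Coprime.card_divisors_mul`, `Finset.sum_bij`); `(a b) / (x y) = (a / x) (b / y)`, `Nat.totient_mul`. -/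
theorem sum_div_mul (a b : ℕ) (ha : 0 < a) (hb : 0 < b) (h : a.Coprime b) (F : ℕ → ℝ) :
    ∑ g ∈ (a * b).divisors, ((a * b / g).totient : ℝ) * F g =
      ∑ x ∈ a.divisors, ∑ y ∈ b.divisors, ((a / x).totient : ℝ) * ((b / y).totient : ℝ) * F (x * y) := by
  rw [← Finset.sum_product' (f := fun x y => ((a / x).totient : ℝ) * ((b / y).totient : ℝ) * F (x * y))]
  refine Finset.sum_nbij' (fun g => (g.gcd a, g.gcd b)) (fun p => p.1 * p.2) ?_ ?_ ?_ ?_ ?_
  · intro g _
    rw [Finset.mem_product, Nat.mem_divisors, Nat.mem_divisors]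
    exact ⟨⟨Nat.gcd_dvd_right g a, ha.ne'⟩, ⟨Nat.gcd_dvd_right g b, hb.ne'⟩⟩
  · intro p hp
    rw [Finset.mem_product, Nat.mem_divisors, Nat.mem_divisors] at hp
    rw [Nat.mem_divisors]
    exact ⟨mul_dvd_mul hp.1.1 hp.2.1, (Nat.mul_pos ha hb).ne'⟩
  · intro g hg
    rw [Nat.mem_divisors] at hg
    change g.gcd a * g.gcd b = g
    rw [← h.gcd_mul]
    exact Nat.gcd_eq_left hg.1
  · intro p hp
    rw [Finset.mem_product, Nat.mem_divisors, Nat.mem_divisors] at hp
    obtain ⟨x, y⟩ := p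
    change ((x * y).gcd a, (x * y).gcd b) = (x, y)
    have h1 : y.Coprime a := Nat.Coprime.coprime_dvd_left hp.2.1 h.symm
    have h2 : x.Coprime b := Nat.Coprime.coprime_dvd_left hp.1.1 h
    rw [Nat.Coprime.gcd_mul_right_cancel x h1, Nat.Coprime.gcd_mul_left_cancel y h2,
      Nat.gcd_eq_left hp.1.1, Nat.gcd_eq_left hp.2.1]
  · intro g hg
    rw [Nat.mem_divisors] at hg
    have h0 : g.gcd a * g.gcd b = g := by
      rw [← h.gcd_mul]
      exact Nat.gcd_eq_left hg.1
    change ((a * b / g).totient : ℝ) * F g = ((a / g.gcd a).totient : ℝ) *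
      ((b / g.gcd b).totient : ℝ) * F (g.gcd a * g.gcd b)
    rw [h0]
    congr 1
    have h1 : a * b / g = a / g.gcd a * (b / g.gcd b) := by
      rw [Nat.div_mul_div_comm (Nat.gcd_dvd_right g a) (Nat.gcd_dvd_right g b), h0]
    have h2 : (a / g.gcd a).Coprime (b / g.gcd b) :=
      (h.coprime_dvd_left (Nat.div_dvd_of_dvd (Nat.gcd_dvd_right g a))).coprime_dvd_right
        (Nat.div_dvd_of_dvd (Nat.gcd_dvd_right g b))
    rw [h1, Nat.totient_mul h2]
    push_cast
    rfl

/-- `∑_{x ∣ a} φ (a / x) = a` -/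
theorem sum_tot (a : ℕ) (ha : 0 < a) : ∑ x ∈ a.divisors, ((a / x).totient : ℝ) = a := by
  have h1 : ∑ x ∈ a.divisors, (a / x).totient = a := by
    rw [Nat.sum_div_divisors a Nat.totient]
    exact Nat.sum_totient a
  exact_mod_cast h1

end Pool.Agent.JD
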