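import Pool.Agent.Lib_MP_f1937f_jd.PartL
import Pool.Agent.Lib_MP_f1937f_jd.SumDiv
import Pool.Agent.Lib_MP_f1937f_jd.RsMul
import Pool.Agent.Lib_MP_f1937f_jb.Ident

/-!
# The convolution identity
-/

set_option autoImplicit false

namespace Pool.Agent.JD

open Finset Pool.Agent.TB Pool.Agent.JB

private theorem cop_cvi {a b : ℕ} (h : ∀ l : ℕ, l.Prime → l ∣ a → ¬ l ∣ b) : a.Coprime b := by
  by_contra h1
  obtain ⟨l, hl, h2, h3⟩ := Nat.Prime.not_coprime_iff_dvd.1 h1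
  exact h l hl h2 h3

private theorem fact_cvi (a b : ℕ) (f g : ℕ → ℝ) :
    ∑ x ∈ a.divisors, ∑ y ∈ b.divisors, ((a / x).totient : ℝ) * ((b / y).totient : ℝ) * (f x * g y) =
      (∑ x ∈ a.divisors, ((a / x).totient : ℝ) * f x) * ∑ y ∈ b.divisors, ((b / y).totient : ℝ) * g y := by
  rw [Finset.sum_mul_sum]
  refine Finset.sum_congr rfl fun x _ => Finset.sum_congr rfl fun y _ => ?_
  ring

/-- PIECE [JD-P12] (about 120 lines). `m = mN * mS * mO`: `mN` made of primes of `N`, `mS` of primes of `S`, `mO` prime to `M = N S`. PROOF. By `sum_div_mul`, `rs_mul` (`e = eS eO`) and `ident`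
(`kap`-product times `∑ φ (mO / e) ρ(e)` is `∑ φ (mO / g) CC(g)`) the left side is `mN * (∑_{x ∣ mS} φ (mS / x) rs(x)) * (∑_{y ∣ mO} φ (mO / y) CC(y))`. The right side: `sum_div_mul` twice; for
`g = x₀ x y` (`x₀ ∣ mN`, `x ∣ mS`, `y ∣ mO`) `pr S g = x`, `co M g = y` (`pr_mul`, `co_mul`, `pr_eq_self`, `co_eq_self`), `∑ φ (mN / x₀) = mN` (`sum_tot`). -/
theorem conv_id (M N S mN mS mO : ℕ) (hM : M = N * S) (hNS : N.Coprime S) (hN0 : 0 < mN) (hS0 : 0 < mS) (hO0 : 0 < mO) (hSp : 0 < S)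
    (hN : ∀ l : ℕ, l.Prime → l ∣ mN → l ∣ N) (hS : ∀ l : ℕ, l.Prime → l ∣ mS → l ∣ S) (hO : ∀ l : ℕ, l.Prime → l ∣ mO → ¬ l ∣ M)
    (lam d t : ℤ) :
    (∏ l ∈ mO.primeFactors, kap l) * (mN * ∑ e ∈ (mS * mO).divisors, ((mS * mO / e).totient : ℝ) * (rs S lam d t e : ℝ)) =
      ∑ g ∈ (mN * (mS * mO)).divisors, ((mN * (mS * mO) / g).totient : ℝ) * ((rs S lam d t (pr S g) : ℝ) * CC d t (co M g)) := by
  have hSM : S ∣ M := hM ▸ Dvd.intro_left N rfl
  have hNM : N ∣ M := hM ▸ Dvd.intro S rfl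
  have hnot : ∀ l : ℕ, l.Prime → l ∣ N → ¬ l ∣ S := fun l hl h1 h2 =>
    (Nat.Prime.not_coprime_iff_dvd.2 ⟨l, hl, h1, h2⟩) hNS
  have c1 : mS.Coprime mO := cop_cvi fun l hl h1 h2 => hO l hl h2 ((hS l hl h1).trans hSM)
  have c2 : mN.Coprime (mS * mO) := by
    refine cop_cvi fun l hl h1 h2 => ?_
    rcases (hl.dvd_mul).1 h2 with h3 | h3
    · exact hnot l hl (hN l hl h1) (hS l hl h3)
    · exact hO l hl h3 ((hN l hl h1).trans hNM)
  have hSO : 0 < mS * mO := Nat.mul_pos hS0 hO0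
  -- the common value
  have hL : ∑ e ∈ (mS * mO).divisors, ((mS * mO / e).totient : ℝ) * (rs S lam d t e : ℝ) =
      (∑ x ∈ mS.divisors, ((mS / x).totient : ℝ) * (rs S lam d t x : ℝ)) *
        ∑ y ∈ mO.divisors, ((mO / y).totient : ℝ) * (rho d t y : ℝ) := by
    rw [sum_div_mul mS mO hS0 hO0 c1 (fun e => (rs S lam d t e : ℝ)), ← fact_cvi]
    refine Finset.sum_congr rfl fun x hx => Finset.sum_congr rfl fun y hy => ?_
    have hx1 : x ∣ mS := Nat.dvd_of_mem_divisors hx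
    have hy1 : y ∣ mO := Nat.dvd_of_mem_divisors hy
    have hx0 : 0 < x := Nat.pos_of_dvd_of_pos hx1 hS0
    have hy0 : 0 < y := Nat.pos_of_dvd_of_pos hy1 hO0
    have hc : y.Coprime (S * x) := by
      refine cop_cvi fun l hl h1 h2 => hO l hl (h1.trans hy1) ?_
      rcases (hl.dvd_mul).1 h2 with h3 | h3
      · exact h3.trans hSM
      · exact (hS l hl (h3.trans hx1)).trans hSM
    simp only [rs_mul S lam d t x y hSp hx0 hy0 hc, Nat.cast_mul]
  have hR : ∑ g ∈ (mN * (mS * mO)).divisors, ((mN * (mS * mO) / g).totient : ℝ) *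
      ((rs S lam d t (pr S g) : ℝ) * CC d t (co M g)) =
      mN * ∑ w ∈ (mS * mO).divisors, ((mS * mO / w).totient : ℝ) *
        ((rs S lam d t (pr S w) : ℝ) * CC d t (co M w)) := by
    rw [sum_div_mul mN (mS * mO) hN0 hSO c2 (fun g => (rs S lam d t (pr S g) : ℝ) * CC d t (co M g))]
    have h1 := fact_cvi mN (mS * mO) (fun _ => 1) (fun w => (rs S lam d t (pr S w) : ℝ) * CC d t (co M w))
    simp only [mul_one, one_mul] at h1
    rw [sum_tot mN hN0] at h1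
    rw [← h1]
    refine Finset.sum_congr rfl fun x hx => Finset.sum_congr rfl fun w hw => ?_
    have hx1 : x ∣ mN := Nat.dvd_of_mem_divisors hx
    have hw1 : w ∣ mS * mO := Nat.dvd_of_mem_divisors hw
    have hx0 : 0 < x := Nat.pos_of_dvd_of_pos hx1 hN0
    have hw0 : 0 < w := Nat.pos_of_dvd_of_pos hw1 hSO
    have e1 : pr S (x * w) = pr S w := by
      rw [pr_mul S x w hx0 hw0, (co_eq_self S x hx0 fun l hl h2 => hnot l hl (hN l hl (h2.trans hx1))).1, one_mul]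
    have e2 : co M (x * w) = co M w := by
      rw [co_mul M x w hx0 hw0, (pr_eq_self M x hx0 fun l hl h2 => (hN l hl (h2.trans hx1)).trans hNM).2, one_mul]
    simp only [e1, e2]
  have hR2 : ∑ w ∈ (mS * mO).divisors, ((mS * mO / w).totient : ℝ) *
      ((rs S lam d t (pr S w) : ℝ) * CC d t (co M w)) =
      (∑ x ∈ mS.divisors, ((mS / x).totient : ℝ) * (rs S lam d t x : ℝ)) *
        ∑ y ∈ mO.divisors, ((mO / y).totient : ℝ) * CC d t y := by
    rw [sum_div_mul mS mO hS0 hO0 c1 (fun w => (rs S lam d t (pr S w) : ℝ) * CC d t (co M w)), ← fact_cvi]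
    refine Finset.sum_congr rfl fun x hx => Finset.sum_congr rfl fun y hy => ?_
    have hx1 : x ∣ mS := Nat.dvd_of_mem_divisors hx
    have hy1 : y ∣ mO := Nat.dvd_of_mem_divisors hy
    have hx0 : 0 < x := Nat.pos_of_dvd_of_pos hx1 hS0
    have hy0 : 0 < y := Nat.pos_of_dvd_of_pos hy1 hO0
    have e1 : pr S (x * y) = x := by
      rw [pr_mul S x y hx0 hy0, (pr_eq_self S x hx0 fun l hl h2 => hS l hl (h2.trans hx1)).1,
        (co_eq_self S y hy0 fun l hl h2 h3 => hO l hl (h2.trans hy1) (h3.trans hSM)).1, mul_one]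
    have e2 : co M (x * y) = y := by
      rw [co_mul M x y hx0 hy0, (pr_eq_self M x hx0 fun l hl h2 => (hS l hl (h2.trans hx1)).trans hSM).2,
        (co_eq_self M y hy0 fun l hl h2 => hO l hl (h2.trans hy1)).2, one_mul]
    simp only [e1, e2]
  rw [hR, hR2, hL, ← ident d t mO hO0]
  ring

end Pool.Agent.JD
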