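import Pool.Agent.Lib_MP_f1937f_jd.Defs
import Pool.Agent.Lib_MP_f1937f_jb.Rho

/-!
# Roots in a residue class
-/

set_option autoImplicit false

namespace Pool.Agent.JD

open Finset Pool.Agent.TB Pool.Agent.JB

/-- PIECE [JD-P3] (first two theorems, about 60 lines). -/
theorem rs_congr (S : ℕ) (lam d a a' : ℤ) (e : ℕ) (h : ((S ^ 2 * e : ℕ) : ℤ) ∣ a - a') : rs S lam d a e = rs S lam d a' e := by
  have h1 : (a : ZMod (S ^ 2 * e)) = (a' : ZMod (S ^ 2 * e)) := by
    rw [ZMod.intCast_eq_intCast_iff_dvd_sub, ← dvd_neg, neg_sub]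
    exact h
  unfold rs
  rw [h1]

/-- `x = lam` and `x² - a x + d = 0` modulo `S` give `lam (2 lam - a) = 0` modulo `S` (`d = lam²` mod `S`), `lam` is a unit modulo `S` as `d` is. -/
theorem rs_zero (S : ℕ) (lam d a : ℤ) (e : ℕ) (hS : 0 < S) (he : 0 < e) (hd : (S : ℤ) ∣ d - lam ^ 2) (hc : IsCoprime d (S : ℤ))
    (h : ¬ (S : ℤ) ∣ a - 2 * lam) : rs S lam d a e = 0 := by
  unfold rs
  rw [Nat.card_eq_zero]
  left
  rw [isEmpty_subtype]
  rintro x ⟨h1, h2⟩
  apply h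
  have h3 := congrArg (ZMod.castHom (sdvd S e) (ZMod S)) h2
  simp only [map_add, map_sub, map_pow, map_mul, map_intCast, map_zero, h1] at h3
  have h4 : ((lam * (2 * lam - a) : ℤ) : ZMod S) = 0 := by
    have h5 : ((d - lam ^ 2 : ℤ) : ZMod S) = 0 := (ZMod.intCast_zmod_eq_zero_iff_dvd _ S).2 hd
    push_cast at h5 ⊢
    linear_combination h3 - h5
  rw [ZMod.intCast_zmod_eq_zero_iff_dvd] at h4
  have h6 : IsCoprime (lam ^ 2) (S : ℤ) := by
    obtain ⟨k, hk⟩ := hd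
    have : lam ^ 2 = d + (S : ℤ) * (-k) := by linear_combination -hk
    rw [this]
    exact hc.add_mul_left_left _
  have h7 : IsCoprime lam (S : ℤ) := by
    rw [pow_two] at h6
    exact h6.of_mul_left_left
  have h8 := (h7.symm).dvd_of_dvd_mul_left h4
  rw [← dvd_neg, neg_sub]
  exact h8

end Pool.Agent.JD
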