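import Pool.Agent.Lib_MP_f1937f_jd.Defs
import Pool.Agent.Lib_MP_f1937f_jb.Yz

/-!
# Triples, scalar class
-/

set_option autoImplicit false

namespace Pool.Agent.JD

open Finset Pool.Agent.TB Pool.Agent.JB

/-- the preimage of a set under a surjective homomorphism -/
private theorem card_preim_scal {A B : Type} [AddCommGroup A] [AddCommGroup B] [Finite A] [Finite B]
    (φ : A →+ B) (hφ : Function.Surjective φ) (P : B → Prop) :
    Nat.card {a : A // P (φ a)} * Nat.card B = Nat.card {b : B // P b} * Nat.card A := by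
  classical
  have key : ∀ P : B → Prop, Nat.card {a : A // P (φ a)} =
      Nat.card {b : B // P b} * Nat.card φ.ker := by
    intro P
    rw [← Nat.card_prod]
    refine Nat.card_congr
      { toFun := fun a => (⟨φ a.1, a.2⟩, ⟨a.1 - Function.surjInv hφ (φ a.1), ?_⟩)
        invFun := fun b => ⟨Function.surjInv hφ b.1.1 + b.2.1, ?_⟩
        left_inv := ?_
        right_inv := ?_ }
    · rw [AddMonoidHom.mem_ker, map_sub, Function.surjInv_eq hφ, sub_self]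
    · rw [map_add, Function.surjInv_eq hφ, (AddMonoidHom.mem_ker).1 b.2.2, add_zero]
      exact b.1.2
    · rintro ⟨a, ha⟩
      simp
    · rintro ⟨⟨b, hb⟩, ⟨k, hk⟩⟩
      have hk' : φ k = 0 := (AddMonoidHom.mem_ker).1 hk
      have h1 : φ (Function.surjInv hφ b + k) = b := by
        rw [map_add, Function.surjInv_eq hφ, hk', add_zero]
      ext
      · simp [h1]
      · simp [h1]
  have h1 := key P
  have h2 := key (fun _ => True)
  have h3 : Nat.card {a : A // True} = Nat.card A := Nat.card_congr (Equiv.subtypeUnivEquiv fun _ => trivial)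
  have h4 : Nat.card {b : B // True} = Nat.card B := Nat.card_congr (Equiv.subtypeUnivEquiv fun _ => trivial)
  rw [h3, h4] at h2
  rw [h1, h2]
  ring

/-- the multiples of `S` modulo `S² r` -/
private theorem exists_equiv_scal (S r : ℕ) (hS : 0 < S) (hr : 0 < r) (h : S ∣ S ^ 2 * r) :
    ∃ e : {y : ZMod (S ^ 2 * r) // ZMod.castHom h (ZMod S) y = 0} ≃ ZMod (S * r),
      ∀ y : {y : ZMod (S ^ 2 * r) // ZMod.castHom h (ZMod S) y = 0},
        (y : ZMod (S ^ 2 * r)) = ((S * (e y).val : ℕ) : ZMod (S ^ 2 * r)) := by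
  have : NeZero S := ⟨hS.ne'⟩
  have : NeZero (S * r) := ⟨(Nat.mul_pos hS hr).ne'⟩
  have : NeZero (S ^ 2 * r) := ⟨by positivity⟩
  let f : ZMod (S * r) → {y : ZMod (S ^ 2 * r) // ZMod.castHom h (ZMod S) y = 0} :=
    fun a => ⟨((S * a.val : ℕ) : ZMod (S ^ 2 * r)), by
      rw [map_natCast, Nat.cast_mul, ZMod.natCast_self, zero_mul]⟩
  have hlt : ∀ a : ZMod (S * r), S * a.val < S ^ 2 * r := by
    intro a
    have h1 : S * a.val < S * (S * r) := Nat.mul_lt_mul_of_pos_left (ZMod.val_lt a) hS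
    calc S * a.val < S * (S * r) := h1
      _ = S ^ 2 * r := by ring
  have hinj : Function.Injective f := by
    intro a b hab
    have h1 : ((S * a.val : ℕ) : ZMod (S ^ 2 * r)) = ((S * b.val : ℕ) : ZMod (S ^ 2 * r)) :=
      congrArg Subtype.val hab
    have h2 := congrArg ZMod.val h1
    rw [ZMod.val_natCast_of_lt (hlt a), ZMod.val_natCast_of_lt (hlt b)] at h2
    exact ZMod.val_injective _ (Nat.eq_of_mul_eq_mul_left hS h2)
  have hsurj : Function.Surjective f := by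
    rintro ⟨y, hy⟩
    have h1 : S ∣ y.val := by
      rw [← ZMod.natCast_zmod_val y, map_natCast] at hy
      exact (ZMod.natCast_eq_zero_iff _ _).1 hy
    obtain ⟨k, hk⟩ := h1
    have hk2 : k < S * r := by
      have h2 := ZMod.val_lt y
      rw [hk] at h2
      have h3 : S * k < S * (S * r) := by
        calc S * k < S ^ 2 * r := h2
          _ = S * (S * r) := by ring
      exact Nat.lt_of_mul_lt_mul_left h3
    refine ⟨(k : ZMod (S * r)), Subtype.ext ?_⟩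
    change ((S * ((k : ZMod (S * r))).val : ℕ) : ZMod (S ^ 2 * r)) = y
    rw [ZMod.val_natCast_of_lt hk2, ← hk, ZMod.natCast_zmod_val]
  let e := Equiv.ofBijective f ⟨hinj, hsurj⟩
  refine ⟨e.symm, fun y => ?_⟩
  have := congrArg Subtype.val (e.apply_symm_apply y)
  exact this.symm

private theorem cast_val_scal (m n : ℕ) (hm : 0 < m) (h : n ∣ m) (a : ZMod m) :
    ZMod.castHom h (ZMod n) a = ((a.val : ℤ) : ZMod n) := by
  have : NeZero m := ⟨hm.ne'⟩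
  conv_lhs => rw [← ZMod.natCast_zmod_val a]
  rw [map_natCast, Int.cast_natCast]

private theorem key_scal (S r : ℕ) (hS : 0 < S) (hr : 0 < r) (h : r ∣ S * r) (c : ℤ) (a b : ZMod (S * r)) :
    (((S * a.val : ℕ) : ZMod (S ^ 2 * r)) * ((S * b.val : ℕ) : ZMod (S ^ 2 * r)) = (c : ZMod (S ^ 2 * r))) ↔
      ((S ^ 2 : ℕ) : ℤ) ∣ c ∧ ZMod.castHom h (ZMod r) a * ZMod.castHom h (ZMod r) b =
        ((c / ((S ^ 2 : ℕ) : ℤ) : ℤ) : ZMod r) := by
  have h1 : ((S * a.val : ℕ) : ZMod (S ^ 2 * r)) * ((S * b.val : ℕ) : ZMod (S ^ 2 * r)) =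
      ((((S ^ 2 : ℕ) : ℤ) * ((a.val : ℤ) * (b.val : ℤ)) : ℤ) : ZMod (S ^ 2 * r)) := by push_cast; ring
  rw [h1, cast_val_scal _ _ (Nat.mul_pos hS hr) h, cast_val_scal _ _ (Nat.mul_pos hS hr) h,
    ← Int.cast_mul, ZMod.intCast_eq_intCast_iff_dvd_sub, ZMod.intCast_eq_intCast_iff_dvd_sub]
  have hS2 : ((S ^ 2 : ℕ) : ℤ) ≠ 0 := by positivity
  have h2 : ((S ^ 2 * r : ℕ) : ℤ) = ((S ^ 2 : ℕ) : ℤ) * (r : ℤ) := by push_cast; ring
  constructor
  · intro h3
    have h4 : ((S ^ 2 : ℕ) : ℤ) ∣ c := by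
      have h5 : ((S ^ 2 : ℕ) : ℤ) ∣ ((S ^ 2 * r : ℕ) : ℤ) := by rw [h2]; exact Dvd.intro _ rfl
      have h6 := dvd_add (h5.trans h3) (Dvd.intro ((a.val : ℤ) * (b.val : ℤ)) rfl)
      rwa [sub_add_cancel] at h6
    obtain ⟨q, rfl⟩ := h4
    refine ⟨Dvd.intro _ rfl, ?_⟩
    rw [Int.mul_ediv_cancel_left _ hS2]
    rw [h2, ← mul_sub] at h3
    exact (mul_dvd_mul_iff_left hS2).1 h3
  · rintro ⟨⟨q, rfl⟩, h3⟩
    rw [Int.mul_ediv_cancel_left _ hS2] at h3
    rw [h2, ← mul_sub]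
    exact mul_dvd_mul_left _ h3

/-- the pairs of multiples of `S` modulo `S² r` of product `c` -/
private theorem card_pair_scal (S r : ℕ) (hS : 0 < S) (hr : 0 < r) (h : S ∣ S ^ 2 * r) (c : ℤ) :
    Nat.card {v : ZMod (S ^ 2 * r) × ZMod (S ^ 2 * r) // (ZMod.castHom h (ZMod S) v.1 = 0 ∧
      ZMod.castHom h (ZMod S) v.2 = 0) ∧ v.1 * v.2 = (c : ZMod (S ^ 2 * r))} =
      ∑ e ∈ r.divisors, (if ((S ^ 2 * e : ℕ) : ℤ) ∣ c then S ^ 2 * (e * (r / e).totient) else 0) := by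
  have : NeZero S := ⟨hS.ne'⟩
  have : NeZero r := ⟨hr.ne'⟩
  have : NeZero (S * r) := ⟨(Nat.mul_pos hS hr).ne'⟩
  have hd : r ∣ S * r := Dvd.intro_left _ rfl
  have hS2 : ((S ^ 2 : ℕ) : ℤ) ≠ 0 := by positivity
  obtain ⟨e, he⟩ := exists_equiv_scal S r hS hr h
  have h1 : Nat.card {v : ZMod (S ^ 2 * r) × ZMod (S ^ 2 * r) // (ZMod.castHom h (ZMod S) v.1 = 0 ∧
      ZMod.castHom h (ZMod S) v.2 = 0) ∧ v.1 * v.2 = (c : ZMod (S ^ 2 * r))} =
      Nat.card {a : ZMod (S * r) × ZMod (S * r) // ((S ^ 2 : ℕ) : ℤ) ∣ c ∧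
        ZMod.castHom hd (ZMod r) a.1 * ZMod.castHom hd (ZMod r) a.2 =
          ((c / ((S ^ 2 : ℕ) : ℤ) : ℤ) : ZMod r)} := by
    refine Nat.card_congr
      { toFun := fun v => ⟨(e ⟨v.1.1, v.2.1.1⟩, e ⟨v.1.2, v.2.1.2⟩), ?_⟩
        invFun := fun a => ⟨((e.symm a.1.1 : ZMod (S ^ 2 * r)), (e.symm a.1.2 : ZMod (S ^ 2 * r))),
          ⟨(e.symm a.1.1).2, (e.symm a.1.2).2⟩, ?_⟩
        left_inv := ?_
        right_inv := ?_ }
    · rw [← key_scal S r hS hr hd c, ← he, ← he]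
      exact v.2.2
    · have h2 := (key_scal S r hS hr hd c a.1.1 a.1.2).2 a.2
      have h3 := he (e.symm a.1.1)
      have h4 := he (e.symm a.1.2)
      rw [Equiv.apply_symm_apply] at h3 h4
      rw [h3, h4]
      exact h2
    · rintro ⟨⟨y, z⟩, hv⟩
      refine Subtype.ext (Prod.ext ?_ ?_)
      · exact congrArg Subtype.val (e.symm_apply_apply ⟨y, hv.1.1⟩)
      · exact congrArg Subtype.val (e.symm_apply_apply ⟨z, hv.1.2⟩)
    · rintro ⟨⟨y, z⟩, hv⟩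
      refine Subtype.ext (Prod.ext ?_ ?_)
      · exact e.apply_symm_apply y
      · exact e.apply_symm_apply z
  rw [h1]
  by_cases hc : ((S ^ 2 : ℕ) : ℤ) ∣ c
  · obtain ⟨q, rfl⟩ := hc
    have hdv : ((S ^ 2 : ℕ) : ℤ) ∣ ((S ^ 2 : ℕ) : ℤ) * q := Dvd.intro _ rfl
    rw [Int.mul_ediv_cancel_left _ hS2]
    have h2 := card_preim_scal (A := ZMod (S * r) × ZMod (S * r)) (B := ZMod r × ZMod r)
      (AddMonoidHom.prodMap (ZMod.castHom hd (ZMod r)).toAddMonoidHom (ZMod.castHom hd (ZMod r)).toAddMonoidHom)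
      (Prod.map_surjective.2 ⟨ZMod.castHom_surjective hd, ZMod.castHom_surjective hd⟩)
      (fun b => b.1 * b.2 = ((q : ℤ) : ZMod r))
    rw [card_yz r hr q, Nat.card_prod, Nat.card_prod, Nat.card_zmod, Nat.card_zmod] at h2
    have h3 : Nat.card {a : ZMod (S * r) × ZMod (S * r) // ((S ^ 2 : ℕ) : ℤ) ∣ ((S ^ 2 : ℕ) : ℤ) * q ∧
        ZMod.castHom hd (ZMod r) a.1 * ZMod.castHom hd (ZMod r) a.2 = ((q : ℤ) : ZMod r)} * (r * r) =
        (S ^ 2 * ∑ e ∈ r.divisors, (if (e : ℤ) ∣ q then e * (r / e).totient else 0)) * (r * r) := by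
      calc _ = (∑ e ∈ r.divisors, (if (e : ℤ) ∣ q then e * (r / e).totient else 0)) * (S * r * (S * r)) := by
            rw [← h2]
            congr 1
            refine Nat.card_congr (Equiv.subtypeEquivRight fun a => ?_)
            exact ⟨fun h => h.2, fun h => ⟨hdv, h⟩⟩
        _ = _ := by ring
    rw [Nat.eq_of_mul_eq_mul_right (Nat.mul_pos hr hr) h3, Finset.mul_sum]
    refine Finset.sum_congr rfl fun e _ => ?_
    have h4 : ((S ^ 2 * e : ℕ) : ℤ) ∣ ((S ^ 2 : ℕ) : ℤ) * q ↔ (e : ℤ) ∣ q := by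
      rw [Nat.cast_mul]
      exact mul_dvd_mul_iff_left hS2
    rw [mul_ite, mul_zero]
    exact if_congr h4.symm rfl rfl
  · have h2 : Nat.card {a : ZMod (S * r) × ZMod (S * r) // ((S ^ 2 : ℕ) : ℤ) ∣ c ∧
        ZMod.castHom hd (ZMod r) a.1 * ZMod.castHom hd (ZMod r) a.2 =
          ((c / ((S ^ 2 : ℕ) : ℤ) : ℤ) : ZMod r)} = 0 := by
      rw [Nat.card_eq_zero]
      exact Or.inl ⟨fun a => hc a.2.1⟩
    rw [h2, eq_comm]
    refine Finset.sum_eq_zero fun e _ => if_neg fun h3 => hc ?_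
    refine Dvd.dvd.trans ?_ h3
    rw [Nat.cast_mul]
    exact Dvd.intro _ rfl

/-- the classes modulo `S² r` of the roots modulo `S² e` -/
private theorem card_root_scal (S r : ℕ) (hS : 0 < S) (hr : 0 < r) (h : S ∣ S ^ 2 * r) (lam t d : ℤ)
    (e : ℕ) (he : e ∣ r) :
    e * Nat.card {x : ZMod (S ^ 2 * r) // ZMod.castHom h (ZMod S) x = (lam : ZMod S) ∧
      ((S ^ 2 * e : ℕ) : ℤ) ∣ (x.val : ℤ) * (t - x.val) - d} = r * rs S lam d t e := by
  have he0 : 0 < e := Nat.pos_of_dvd_of_pos he hr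
  have hQ : 0 < S ^ 2 * r := by positivity
  have hE : 0 < S ^ 2 * e := by positivity
  have : NeZero (S ^ 2 * r) := ⟨hQ.ne'⟩
  have : NeZero (S ^ 2 * e) := ⟨hE.ne'⟩
  have hd : S ^ 2 * e ∣ S ^ 2 * r := mul_dvd_mul_left _ he
  have h1 := card_preim_scal (ZMod.castHom hd (ZMod (S ^ 2 * e))).toAddMonoidHom (ZMod.castHom_surjective hd)
    (fun x => ZMod.castHom (sdvd S e) (ZMod S) x = (lam : ZMod S) ∧
      x ^ 2 - (t : ZMod (S ^ 2 * e)) * x + (d : ZMod (S ^ 2 * e)) = 0)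
  rw [Nat.card_zmod, Nat.card_zmod] at h1
  have h2 : Nat.card {x : ZMod (S ^ 2 * r) // ZMod.castHom h (ZMod S) x = (lam : ZMod S) ∧
      ((S ^ 2 * e : ℕ) : ℤ) ∣ (x.val : ℤ) * (t - x.val) - d} =
      Nat.card {x : ZMod (S ^ 2 * r) // ZMod.castHom (sdvd S e) (ZMod S)
        ((ZMod.castHom hd (ZMod (S ^ 2 * e))).toAddMonoidHom x) = (lam : ZMod S) ∧
        ((ZMod.castHom hd (ZMod (S ^ 2 * e))).toAddMonoidHom x) ^ 2 - (t : ZMod (S ^ 2 * e)) *
          ((ZMod.castHom hd (ZMod (S ^ 2 * e))).toAddMonoidHom x) + (d : ZMod (S ^ 2 * e)) = 0} := by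
    refine Nat.card_congr (Equiv.subtypeEquivRight fun x => ?_)
    have h3 : (ZMod.castHom hd (ZMod (S ^ 2 * e))).toAddMonoidHom x = (((x.val : ℕ) : ℤ) : ZMod (S ^ 2 * e)) :=
      cast_val_scal _ _ hQ hd x
    rw [h3, cast_val_scal _ _ hQ h x, map_intCast]
    refine and_congr Iff.rfl ?_
    have h4 : ((((x.val : ℕ) : ℤ) : ZMod (S ^ 2 * e))) ^ 2 - (t : ZMod (S ^ 2 * e)) *
        (((x.val : ℕ) : ℤ) : ZMod (S ^ 2 * e)) + (d : ZMod (S ^ 2 * e)) =
        ((-((x.val : ℤ) * (t - x.val) - d) : ℤ) : ZMod (S ^ 2 * e)) := by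
      push_cast; ring
    rw [h4, ZMod.intCast_zmod_eq_zero_iff_dvd, dvd_neg]
  rw [← h2] at h1
  have h5 : S ^ 2 * (e * Nat.card {x : ZMod (S ^ 2 * r) // ZMod.castHom h (ZMod S) x = (lam : ZMod S) ∧
      ((S ^ 2 * e : ℕ) : ℤ) ∣ (x.val : ℤ) * (t - x.val) - d}) = S ^ 2 * (r * rs S lam d t e) := by
    unfold rs
    linarith [h1]
  exact Nat.eq_of_mul_eq_mul_left (by positivity) h5

/-- PIECE [JD-P11] (about 200 lines). PROOF. Fix `x` modulo `S² r` in the class of `lam`, `c = x (t - x) - d` (an integer). The `y` which are `0` modulo `S` are the `S y'`, `y'` modulo `S r`, likewise `z`;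
`S² y' z' = c` modulo `S² r` iff `S² ∣ c` and `y' z' = c / S²` modulo `r`. The number of the `(y', z')` modulo `S r` is `S²` times the number modulo `r`, which is `card_yz` (`Lib_MP_f1937f_jb/Yz.lean`):
`∑_{e ∣ r, e ∣ c / S²} e φ (r / e)`. So `T3 = S² ∑_{e ∣ r} e φ (r / e) #{x modulo S² r in the class : S² e ∣ x (t - x) - d}` and, by the fibres of `ZMod (S² r) → ZMod (S² e)`, the last number is
`(r / e) rs S lam d t e` (see `card_root`, `card_preim` in `Lib_MP_f1937f_jb/TrDet.lean`). -/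
theorem T3_scal (S r : ℕ) (hS : 0 < S) (hr : 0 < r) (h : S ∣ S ^ 2 * r) (lam t d : ℤ) :
    T3 S (S ^ 2 * r) h lam 0 0 t d = S ^ 2 * r * ∑ e ∈ r.divisors, (r / e).totient * rs S lam d t e := by
  classical
  have hQ : 0 < S ^ 2 * r := by positivity
  have : NeZero (S ^ 2 * r) := ⟨hQ.ne'⟩
  unfold T3
  rw [Nat.card_congr (Equiv.subtypeProdEquivSigmaSubtype
    (fun (x : ZMod (S ^ 2 * r)) (y : ZMod (S ^ 2 * r) × ZMod (S ^ 2 * r)) =>
      (ZMod.castHom h (ZMod S) x = (lam : ZMod S) ∧ ZMod.castHom h (ZMod S) y.1 = ((0 : ℤ) : ZMod S) ∧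
        ZMod.castHom h (ZMod S) y.2 = ((0 : ℤ) : ZMod S)) ∧
      x * ((t : ZMod (S ^ 2 * r)) - x) - y.1 * y.2 = (d : ZMod (S ^ 2 * r)))), Nat.card_sigma]
  have h1 : ∀ x : ZMod (S ^ 2 * r), Nat.card {y : ZMod (S ^ 2 * r) × ZMod (S ^ 2 * r) //
      (ZMod.castHom h (ZMod S) x = (lam : ZMod S) ∧ ZMod.castHom h (ZMod S) y.1 = ((0 : ℤ) : ZMod S) ∧
        ZMod.castHom h (ZMod S) y.2 = ((0 : ℤ) : ZMod S)) ∧
      x * ((t : ZMod (S ^ 2 * r)) - x) - y.1 * y.2 = (d : ZMod (S ^ 2 * r))} =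
      ∑ e ∈ r.divisors, (if ZMod.castHom h (ZMod S) x = (lam : ZMod S) ∧
        ((S ^ 2 * e : ℕ) : ℤ) ∣ (x.val : ℤ) * (t - x.val) - d then S ^ 2 * (e * (r / e).totient) else 0) := by
    intro x
    by_cases hx : ZMod.castHom h (ZMod S) x = (lam : ZMod S)
    · have h2 : ∀ e, (if ZMod.castHom h (ZMod S) x = (lam : ZMod S) ∧
          ((S ^ 2 * e : ℕ) : ℤ) ∣ (x.val : ℤ) * (t - x.val) - d then S ^ 2 * (e * (r / e).totient) else 0) =
          (if ((S ^ 2 * e : ℕ) : ℤ) ∣ (x.val : ℤ) * (t - x.val) - d then S ^ 2 * (e * (r / e).totient) else 0) :=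
        fun e => if_congr ⟨fun h => h.2, fun h => ⟨hx, h⟩⟩ rfl rfl
      rw [Finset.sum_congr rfl fun e _ => h2 e, ← card_pair_scal S r hS hr h]
      refine Nat.card_congr (Equiv.subtypeEquivRight fun y => ?_)
      push_cast
      rw [ZMod.natCast_zmod_val]
      constructor
      · rintro ⟨⟨_, h3, h4⟩, h5⟩
        exact ⟨⟨h3, h4⟩, by rw [← h5]; ring⟩
      · rintro ⟨⟨h3, h4⟩, h5⟩
        exact ⟨⟨hx, h3, h4⟩, by rw [h5]; ring⟩
    · rw [Finset.sum_eq_zero fun e _ => if_neg fun h2 => hx h2.1, Nat.card_eq_zero]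
      exact Or.inl ⟨fun a => hx a.2.1.1⟩
  rw [Finset.sum_congr rfl fun x _ => h1 x, Finset.sum_comm, Finset.mul_sum]
  refine Finset.sum_congr rfl fun e he => ?_
  have h2 := card_root_scal S r hS hr h lam t d e (Nat.dvd_of_mem_divisors he)
  rw [Nat.card_eq_fintype_card, Fintype.card_subtype] at h2
  rw [← Finset.sum_filter, Finset.sum_const, smul_eq_mul]
  calc _ = S ^ 2 * (r / e).totient * (e * #{x : ZMod (S ^ 2 * r) | ZMod.castHom h (ZMod S) x = (lam : ZMod S) ∧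
        ((S ^ 2 * e : ℕ) : ℤ) ∣ (x.val : ℤ) * (t - x.val) - d}) := by ring
    _ = _ := by rw [h2]; ring

end Pool.Agent.JD
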