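import Pool.Agent.Lib_MP_f1937f_jd.Strip

/-!
# Triples, all primes at which the matrix is not scalar
-/

set_option autoImplicit false

namespace Pool.Agent.JD

open Finset Pool.Agent.TB Pool.Agent.JB

/-- PIECE [JD-P10] (about 50 lines). PROOF. Induction on `r` (`Nat.recOnMul`-like, or strong induction: `r = r' l`), `strip` with `Q := Q * r'`; `l ^ (2 v) ∣ M ^ 2 ∣ Q`. -/
theorem strip_all (M N S r Q : ℕ) (hM : 0 < M) (hQ : 0 < Q) (hMQ : M ^ 2 ∣ Q) (h : M ∣ Q) (h' : M ∣ Q * r) (hr : 0 < r)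
    (hrN : ∀ l : ℕ, l.Prime → l ∣ r → l ∣ N) (al be ga de t d : ℤ) (hb : Blk M N S al be ga de) (ht : (M : ℤ) ∣ t - (al + de)) :
    T3 M (Q * r) h' al be ga t d = r ^ 2 * T3 M Q h al be ga t d := by
  have hmain : ∀ r : ℕ, 0 < r → (∀ l : ℕ, l.Prime → l ∣ r → l ∣ N) → ∀ Q : ℕ, 0 < Q → M ^ 2 ∣ Q →
      ∀ (h : M ∣ Q) (h' : M ∣ Q * r), T3 M (Q * r) h' al be ga t d = r ^ 2 * T3 M Q h al be ga t d := by
    intro r
    induction r using Nat.recOnMul with
    | zero => intro h0; exact absurd h0 (lt_irrefl 0)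
    | one =>
      intro _ _ Q _ _ h h'
      have e : ∀ Q' : ℕ, Q' = Q → ∀ h'' : M ∣ Q', T3 M Q' h'' al be ga t d = 1 ^ 2 * T3 M Q h al be ga t d := by
        rintro Q' rfl h''
        ring
      exact e (Q * 1) (mul_one Q) h'
    | prime p hp =>
      intro _ hN Q hQ hMQ h h'
      refine strip M Q p (M.factorization p) hM hQ h h' hp rfl ?_ al be ga de t d ht (hb.ns p hp (hN p hp dvd_rfl))
      refine Dvd.dvd.trans ?_ hMQ
      rw [mul_comm 2, pow_mul]
      exact pow_dvd_pow_of_dvd (Nat.ordProj_dvd M p) 2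
    | mul a b iha ihb =>
      intro hab hN Q hQ hMQ h h'
      have ha : 0 < a := Nat.pos_of_ne_zero (by rintro rfl; simp at hab)
      have hb0 : 0 < b := Nat.pos_of_ne_zero (by rintro rfl; simp at hab)
      have h1 : M ∣ Q * a := h.mul_right a
      have h2 : M ∣ Q * a * b := h1.mul_right b
      have e1 := iha ha (fun l hl hla => hN l hl (hla.mul_right b)) Q hQ hMQ h h1
      have e2 := ihb hb0 (fun l hl hlb => hN l hl (hlb.mul_left a)) (Q * a) (Nat.mul_pos hQ ha) (hMQ.mul_right a) h1 h2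
      have e : ∀ Q' : ℕ, Q' = Q * a * b → ∀ h'' : M ∣ Q', T3 M Q' h'' al be ga t d = T3 M (Q * a * b) h2 al be ga t d := by
        rintro Q' rfl h''
        rfl
      rw [e (Q * (a * b)) (mul_assoc Q a b).symm h', e2, e1]
      ring
  exact hmain r hr hrN Q hQ hMQ h h'

end Pool.Agent.JD
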