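import Pool.Agent.Lib_MP_f1937f_jd.Defs

/-!
# Triples, Chinese remainder theorem
-/

set_option autoImplicit false

namespace Pool.Agent.JD

open Finset Pool.Agent.TB Pool.Agent.JB

private theorem cast_cond {M₁ M₂ Q : ℕ} (hc : M₁.Coprime M₂) (h : M₁ * M₂ ∣ Q) (f₁ : ZMod Q →+* ZMod M₁)
    (f₂ : ZMod Q →+* ZMod M₂) (al : ℤ) (x : ZMod Q) :
    ZMod.castHom h (ZMod (M₁ * M₂)) x = (al : ZMod (M₁ * M₂)) ↔ f₁ x = (al : ZMod M₁) ∧ f₂ x = (al : ZMod M₂) := by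
  have e1 : f₁ x = (ZMod.chineseRemainder hc (ZMod.castHom h (ZMod (M₁ * M₂)) x)).1 := by
    have : f₁ = ((RingHom.fst (ZMod M₁) (ZMod M₂)).comp (ZMod.chineseRemainder hc).toRingHom).comp
        (ZMod.castHom h (ZMod (M₁ * M₂))) := RingHom.ext_zmod _ _
    rw [this]
    rfl
  have e2 : f₂ x = (ZMod.chineseRemainder hc (ZMod.castHom h (ZMod (M₁ * M₂)) x)).2 := by
    have : f₂ = ((RingHom.snd (ZMod M₁) (ZMod M₂)).comp (ZMod.chineseRemainder hc).toRingHom).comp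
        (ZMod.castHom h (ZMod (M₁ * M₂))) := RingHom.ext_zmod _ _
    rw [this]
    rfl
  rw [e1, e2]
  constructor
  · intro hx
    rw [hx, map_intCast]
    exact ⟨rfl, rfl⟩
  · rintro ⟨h1, h2⟩
    apply (ZMod.chineseRemainder hc).injective
    rw [map_intCast]
    exact Prod.ext h1 h2

private theorem eq_cond {Q₁ Q₂ : ℕ} (hc : Q₁.Coprime Q₂) (t d : ℤ) (x y z : ZMod (Q₁ * Q₂)) :
    x * ((t : ZMod (Q₁ * Q₂)) - x) - y * z = (d : ZMod (Q₁ * Q₂)) ↔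
      (ZMod.chineseRemainder hc x).1 * ((t : ZMod Q₁) - (ZMod.chineseRemainder hc x).1) -
          (ZMod.chineseRemainder hc y).1 * (ZMod.chineseRemainder hc z).1 = (d : ZMod Q₁) ∧
        (ZMod.chineseRemainder hc x).2 * ((t : ZMod Q₂) - (ZMod.chineseRemainder hc x).2) -
          (ZMod.chineseRemainder hc y).2 * (ZMod.chineseRemainder hc z).2 = (d : ZMod Q₂) := by
  rw [← (ZMod.chineseRemainder hc).injective.eq_iff, Prod.ext_iff]
  simp only [map_sub, map_mul, map_intCast, Prod.fst_sub, Prod.snd_sub, Prod.fst_mul, Prod.snd_mul,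
    Prod.fst_intCast, Prod.snd_intCast]

/-- the Chinese remainder theorem for triples -/
private noncomputable def tri {Q₁ Q₂ : ℕ} (hc : Q₁.Coprime Q₂) :
    (ZMod (Q₁ * Q₂) × ZMod (Q₁ * Q₂) × ZMod (Q₁ * Q₂)) ≃
      (ZMod Q₁ × ZMod Q₁ × ZMod Q₁) × (ZMod Q₂ × ZMod Q₂ × ZMod Q₂) where
  toFun v := (((ZMod.chineseRemainder hc v.1).1, (ZMod.chineseRemainder hc v.2.1).1, (ZMod.chineseRemainder hc v.2.2).1),
    ((ZMod.chineseRemainder hc v.1).2, (ZMod.chineseRemainder hc v.2.1).2, (ZMod.chineseRemainder hc v.2.2).2))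
  invFun w := ((ZMod.chineseRemainder hc).symm (w.1.1, w.2.1), (ZMod.chineseRemainder hc).symm (w.1.2.1, w.2.2.1),
    (ZMod.chineseRemainder hc).symm (w.1.2.2, w.2.2.2))
  left_inv v := by
    simp only [Prod.mk.eta, RingEquiv.symm_apply_apply]
  right_inv w := by
    simp only [RingEquiv.apply_symm_apply, Prod.mk.eta]

/-- PIECE [JD-P8] (about 100 lines). PROOF. `ZMod (Q₁ Q₂) ≃+* ZMod Q₁ × ZMod Q₂` (`ZMod.chineseRemainder`) on the three coordinates; an element of `ZMod (Q₁ Q₂)` reduces to the class of the integer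
`al` modulo `M₁ M₂` iff its components do modulo `M₁` and modulo `M₂` (`M₁`, `M₂` are coprime; see `det_cond` in `Lib_MP_f1937f_jb/DensJ.lean` for such an equivalence). -/
theorem T3_crt (M₁ M₂ Q₁ Q₂ : ℕ) (h₁ : M₁ ∣ Q₁) (h₂ : M₂ ∣ Q₂) (hQ₁ : 0 < Q₁) (hQ₂ : 0 < Q₂) (hc : Q₁.Coprime Q₂)
    (h : M₁ * M₂ ∣ Q₁ * Q₂) (al be ga t d : ℤ) :
    T3 (M₁ * M₂) (Q₁ * Q₂) h al be ga t d = T3 M₁ Q₁ h₁ al be ga t d * T3 M₂ Q₂ h₂ al be ga t d := by
  have hcM : M₁.Coprime M₂ := Nat.Coprime.of_dvd h₁ h₂ hc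
  unfold T3
  rw [← Nat.card_prod, ← Nat.card_congr Equiv.subtypeProdEquivProd]
  refine Nat.card_congr (Equiv.subtypeEquiv (tri hc) fun v => ?_)
  have key : ∀ (al : ℤ) (x : ZMod (Q₁ * Q₂)), ZMod.castHom h (ZMod (M₁ * M₂)) x = (al : ZMod (M₁ * M₂)) ↔
      ZMod.castHom h₁ (ZMod M₁) (ZMod.chineseRemainder hc x).1 = (al : ZMod M₁) ∧
        ZMod.castHom h₂ (ZMod M₂) (ZMod.chineseRemainder hc x).2 = (al : ZMod M₂) := fun al x =>
    cast_cond hcM h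
      ((ZMod.castHom h₁ (ZMod M₁)).comp
        ((RingHom.fst (ZMod Q₁) (ZMod Q₂)).comp (ZMod.chineseRemainder hc).toRingHom))
      ((ZMod.castHom h₂ (ZMod M₂)).comp
        ((RingHom.snd (ZMod Q₁) (ZMod Q₂)).comp (ZMod.chineseRemainder hc).toRingHom)) al x
  rw [key, key, key, eq_cond hc]
  show _ ↔ ((ZMod.castHom h₁ (ZMod M₁) (ZMod.chineseRemainder hc v.1).1 = (al : ZMod M₁) ∧
      ZMod.castHom h₁ (ZMod M₁) (ZMod.chineseRemainder hc v.2.1).1 = (be : ZMod M₁) ∧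
      ZMod.castHom h₁ (ZMod M₁) (ZMod.chineseRemainder hc v.2.2).1 = (ga : ZMod M₁)) ∧ _) ∧
    ((ZMod.castHom h₂ (ZMod M₂) (ZMod.chineseRemainder hc v.1).2 = (al : ZMod M₂) ∧
      ZMod.castHom h₂ (ZMod M₂) (ZMod.chineseRemainder hc v.2.1).2 = (be : ZMod M₂) ∧
      ZMod.castHom h₂ (ZMod M₂) (ZMod.chineseRemainder hc v.2.2).2 = (ga : ZMod M₂)) ∧ _)
  tauto

end Pool.Agent.JD
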