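import Pool.Agent.Lib_MP_f1937f_jd.Defs

/-!
# Matrices and triples
-/

set_option autoImplicit false

namespace Pool.Agent.JD

open Finset Pool.Agent.TB Pool.Agent.JB

private theorem cast_eq {M : ℕ} {a b : ℤ} (h : (M : ℤ) ∣ a - b) : (a : ZMod M) = (b : ZMod M) := by
  rw [ZMod.intCast_eq_intCast_iff_dvd_sub]
  exact (dvd_sub_comm).1 h

private theorem cast_val {M : ℕ} (hM : 0 < M) (x : ZMod M) : (((x.val : ℕ) : ℤ) : ZMod M) = x := by
  have : NeZero M := ⟨hM.ne'⟩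
  rw [Int.cast_natCast, ZMod.natCast_zmod_val]

/-- the fourth entry -/
private theorem entry_eq {Q : ℕ} (t : ℤ) (g : GL (Fin 2) (ZMod Q)) (h : g.val.trace = (t : ZMod Q)) :
    g 1 1 = (t : ZMod Q) - g 0 0 := by
  rw [Matrix.trace_fin_two] at h
  exact eq_sub_of_add_eq' h

/-- PIECE [JD-P7] (all theorems of this file, about 150 lines; see `card_GL` in `Lib_MP_f1937f_jb/FibJ.lean`). -/
theorem T3_congr (M Q : ℕ) (h : M ∣ Q) (al be ga al' be' ga' t t' d : ℤ) (h1 : (M : ℤ) ∣ al - al') (h2 : (M : ℤ) ∣ be - be')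
    (h3 : (M : ℤ) ∣ ga - ga') (h4 : (Q : ℤ) ∣ t - t') : T3 M Q h al be ga t d = T3 M Q h al' be' ga' t' d := by
  unfold T3
  rw [cast_eq h1, cast_eq h2, cast_eq h3, cast_eq h4]

/-- A matrix of trace `t` is given by the entries `x, y, z` (the fourth one is `t - x`); the determinant is `d`, a unit modulo `Q`; the fourth entry reduces to the right class
modulo `M` because of the trace. -/
theorem NN_eq (M Q : ℕ) (hM : 0 < M) (hQ : 0 < Q) (h : M ∣ Q) (g₀ : GL (Fin 2) (ZMod M)) (t d : ℤ) (hd : IsCoprime d (Q : ℤ))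
    (ht : g₀.val.trace = (t : ZMod M)) :
    NN M Q h g₀ t d = T3 M Q h ((g₀ 0 0).val : ℤ) ((g₀ 0 1).val : ℤ) ((g₀ 1 0).val : ℤ) t d := by
  have hu : IsUnit (d : ZMod Q) := by
    obtain ⟨a, b, hab⟩ := hd
    refine IsUnit.of_mul_eq_one (a : ZMod Q) ?_
    have h1 := congrArg (Int.cast : ℤ → ZMod Q) hab
    push_cast at h1
    rw [ZMod.natCast_self, mul_zero, add_zero] at h1
    rw [mul_comm]
    exact h1
  unfold NN T3
  rw [cast_val hM, cast_val hM, cast_val hM]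
  have hmem : ∀ g : GL (Fin 2) (ZMod Q), Matrix.GeneralLinearGroup.map (ZMod.castHom h (ZMod M)) g = g₀ →
      g.val.det = (d : ZMod Q) → g.val.trace = (t : ZMod Q) →
      (ZMod.castHom h (ZMod M) (g 0 0) = g₀ 0 0 ∧ ZMod.castHom h (ZMod M) (g 0 1) = g₀ 0 1 ∧
        ZMod.castHom h (ZMod M) (g 1 0) = g₀ 1 0) ∧ g 0 0 * ((t : ZMod Q) - g 0 0) - g 0 1 * g 1 0 = (d : ZMod Q) := by
    intro g hg hdt htr
    have h1 : ∀ i j, ZMod.castHom h (ZMod M) (g i j) = g₀ i j := by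
      intro i j
      rw [← hg]
      rfl
    refine ⟨⟨h1 0 0, h1 0 1, h1 1 0⟩, ?_⟩
    rw [Matrix.det_fin_two] at hdt
    rw [← entry_eq t g htr]
    exact hdt
  refine Nat.card_congr (Equiv.ofBijective
    (fun g => ⟨(g.1 0 0, g.1 0 1, g.1 1 0), hmem g.1 g.2.1 g.2.2.1 g.2.2.2⟩) ⟨?_, ?_⟩)
  · rintro ⟨g, hg1, _, hg2⟩ ⟨g', hg1', _, hg2'⟩ he
    simp only [Subtype.mk.injEq, Prod.mk.injEq] at he
    obtain ⟨e1, e2, e3⟩ := he
    have e4 : g 1 1 = g' 1 1 := by rw [entry_eq t g hg2, entry_eq t g' hg2', e1]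
    apply Subtype.ext
    apply Units.ext
    ext i j
    fin_cases i <;> fin_cases j
    · exact e1
    · exact e2
    · exact e3
    · exact e4
  · rintro ⟨⟨a, b, c⟩, ⟨h1, h2, h3⟩, h4⟩
    have h1' : ZMod.castHom h (ZMod M) a = g₀ 0 0 := h1
    have h2' : ZMod.castHom h (ZMod M) b = g₀ 0 1 := h2
    have h3' : ZMod.castHom h (ZMod M) c = g₀ 1 0 := h3
    have h4' : a * ((t : ZMod Q) - a) - b * c = (d : ZMod Q) := h4
    have hdet : IsUnit (Matrix.det !![a, b; c, (t : ZMod Q) - a]) := by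
      rw [Matrix.det_fin_two_of, h4']
      exact hu
    refine ⟨⟨Matrix.GeneralLinearGroup.mk'' _ hdet, ?_, ?_, ?_⟩, ?_⟩
    · apply Units.ext
      ext i j
      fin_cases i <;> fin_cases j
      · exact h1'
      · exact h2'
      · exact h3'
      · show ZMod.castHom h (ZMod M) ((t : ZMod Q) - a) = g₀ 1 1
        rw [map_sub, map_intCast, h1', ← entry_eq t g₀ ht]
    · show Matrix.det !![a, b; c, (t : ZMod Q) - a] = _
      rw [Matrix.det_fin_two_of, h4']
    · show Matrix.trace !![a, b; c, (t : ZMod Q) - a] = _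
      rw [Matrix.trace_fin_two_of]
      ring
    · rfl

/-- the trace of the reduction is the reduction of the trace -/
theorem NN_zero (M Q : ℕ) (h : M ∣ Q) (g₀ : GL (Fin 2) (ZMod M)) (t d : ℤ) (ht : g₀.val.trace ≠ (t : ZMod M)) :
    NN M Q h g₀ t d = 0 := by
  unfold NN
  have : IsEmpty {g : GL (Fin 2) (ZMod Q) // Matrix.GeneralLinearGroup.map (ZMod.castHom h (ZMod M)) g = g₀ ∧
    g.val.det = (d : ZMod Q) ∧ g.val.trace = (t : ZMod Q)} := by
    refine ⟨fun g => ht ?_⟩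
    obtain ⟨g, hg, _, htr⟩ := g
    have h1 : ∀ i j, ZMod.castHom h (ZMod M) (g i j) = g₀ i j := by
      intro i j
      rw [← hg]
      rfl
    rw [Matrix.trace_fin_two] at htr
    have h2 := congrArg (ZMod.castHom h (ZMod M)) htr
    rw [map_add, map_intCast] at h2
    rw [Matrix.trace_fin_two]
    have h3 := h1 0 0
    have h4 := h1 1 1
    rw [← h2]
    exact (congrArg₂ (· + ·) h3 h4).symm
  exact Nat.card_of_isEmpty

end Pool.Agent.JD
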