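import Pool.Agent.Lib_MP_f1937f_jd.PartL
import Pool.Agent.Lib_MP_f1937f_jd.Rs
import Pool.Agent.Lib_MP_f1937f_jd.T3F
import Pool.Agent.Lib_MP_f1937f_jd.T3Crt
import Pool.Agent.Lib_MP_f1937f_jd.StripAll
import Pool.Agent.Lib_MP_f1937f_jd.Scal
import Pool.Agent.Lib_MP_f1937f_jd.ConvId

/-!
# The count formula for one matrix
-/

set_option autoImplicit false

namespace Pool.Agent.JD

open Finset Pool.Agent.TB Pool.Agent.JB

/-! ### auxiliary -/

private theorem T3_cast (M : ℕ) {Q Q' : ℕ} (e : Q = Q') (h : M ∣ Q) (h' : M ∣ Q') (al be ga t d : ℤ) :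
    T3 M Q h al be ga t d = T3 M Q' h' al be ga t d := by
  subst e
  rfl

private theorem T3_cast2 {M M' Q Q' : ℕ} (e1 : M = M') (e : Q = Q') (h : M ∣ Q) (h' : M' ∣ Q') (al be ga t d : ℤ) :
    T3 M Q h al be ga t d = T3 M' Q' h' al be ga t d := by
  subst e1
  subst e
  rfl

/-- the trace of `g₀` -/
private theorem trace_iff (M : ℕ) (hM : 0 < M) (g₀ : GL (Fin 2) (ZMod M)) (t : ℤ) :
    g₀.val.trace = (t : ZMod M) ↔ (M : ℤ) ∣ t - (((g₀ 0 0).val : ℤ) + ((g₀ 1 1).val : ℤ)) := by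
  have : NeZero M := ⟨hM.ne'⟩
  have e : g₀.val.trace = (((((g₀ 0 0).val : ℤ) + ((g₀ 1 1).val : ℤ)) : ℤ) : ZMod M) := by
    rw [Matrix.trace_fin_two]
    push_cast
    rw [ZMod.natCast_zmod_val, ZMod.natCast_zmod_val]
  rw [e, eq_comm, ← sub_eq_zero, ← Int.cast_sub, ZMod.intCast_zmod_eq_zero_iff_dvd]

/-- the determinant of `g₀` -/
private theorem det_dvd (M : ℕ) (hM : 0 < M) (g₀ : GL (Fin 2) (ZMod M)) (d : ℤ) (hdet : g₀.val.det = (d : ZMod M)) :
    (M : ℤ) ∣ d - (((g₀ 0 0).val : ℤ) * ((g₀ 1 1).val : ℤ) - ((g₀ 0 1).val : ℤ) * ((g₀ 1 0).val : ℤ)) := by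
  have : NeZero M := ⟨hM.ne'⟩
  rw [← ZMod.intCast_zmod_eq_zero_iff_dvd]
  rw [Matrix.det_fin_two] at hdet
  push_cast
  rw [ZMod.natCast_zmod_val, ZMod.natCast_zmod_val, ZMod.natCast_zmod_val, ZMod.natCast_zmod_val, ← hdet]
  exact sub_self _

/-- the case of a wrong trace -/
private theorem cnt_zero (M N S : ℕ) (hM : 0 < M) (al be ga de t d : ℤ) (hb : Blk M N S al be ga de)
    (hdet : (M : ℤ) ∣ d - (al * de - be * ga)) (hd : IsCoprime d (M : ℤ)) (ht : ¬ (M : ℤ) ∣ t - (al + de)) (g : ℕ) :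
    Cg M N S al be ga de d g t = 0 := by
  have hS0 : 0 < S := by
    rcases Nat.eq_zero_or_pos S with h | h
    · rw [hb.mul, h, mul_zero] at hM
      exact absurd hM (lt_irrefl 0)
    · exact h
  have hSM : (S : ℤ) ∣ (M : ℤ) := by
    rw [hb.mul]
    exact_mod_cast Dvd.intro_left N rfl
  unfold Cg
  by_cases hN : (N : ℤ) ∣ t - (al + de)
  · have hS : ¬ (S : ℤ) ∣ t - 2 * al := by
      intro hS
      apply ht
      have h1 : (S : ℤ) ∣ t - (al + de) := by
        have h2 : t - (al + de) = (t - 2 * al) + (al - de) := by ring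
        rw [h2]
        exact dvd_add hS hb.dad
      rw [hb.mul, Nat.cast_mul]
      exact IsCoprime.mul_dvd (Nat.isCoprime_iff_coprime.2 hb.cop) hN h1
    have hd2 : (S : ℤ) ∣ d - al ^ 2 := by
      have h1 : d - al ^ 2 = (d - (al * de - be * ga)) - al * (al - de) - be * ga := by ring
      rw [h1]
      exact dvd_sub (dvd_sub (hSM.trans hdet) (hb.dad.mul_left al)) (hb.dbe.mul_right ga)
    have hr : rs S al d t (pr S g) = 0 :=
      rs_zero S al d t (pr S g) hS0 (pr_pos S g) hd2 (hd.of_isCoprime_of_dvd_right hSM) hS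
    rw [hr]
    simp
  · rw [if_neg hN]
    simp

/-- the primes of `m` which do not divide `M` -/
private theorem filter_eq (M N S m : ℕ) (hm : 0 < m) (hMN : M = N * S) :
    m.primeFactors.filter (fun l => ¬ l ∣ M) = (co S (co N m)).primeFactors := by
  have hcN : 0 < co N m := co_pos N m
  ext l
  simp only [mem_filter, Nat.mem_primeFactors]
  constructor
  · rintro ⟨⟨hl, hlm, _⟩, hlM⟩
    refine ⟨hl, ?_, (co_pos _ _).ne'⟩
    rw [hMN] at hlM
    have h1 : ¬ l ∣ N := fun h => hlM (h.mul_right S)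
    have h2 : ¬ l ∣ S := fun h => hlM (h.mul_left N)
    have h3 : l ∣ co N m := by
      rw [← pr_mul_co N m hm] at hlm
      rcases hl.dvd_mul.1 hlm with h | h
      · exact absurd (pr_prime N m l hl h) h1
      · exact h
    rw [← pr_mul_co S (co N m) hcN] at h3
    rcases hl.dvd_mul.1 h3 with h | h
    · exact absurd (pr_prime S _ l hl h) h2
    · exact h
  · rintro ⟨hl, hlm, _⟩
    have h1 : l ∣ co N m := hlm.trans (co_dvd S _ hcN)
    refine ⟨⟨hl, h1.trans (co_dvd N m hm), hm.ne'⟩, ?_⟩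
    rw [hMN]
    intro h
    rcases hl.dvd_mul.1 h with h | h
    · exact co_prime N m l hl h1 h
    · exact co_prime S _ l hl hlm h

/-- the number of triples -/
private theorem T3_val (M N S mN r : ℕ) (hM : 0 < M) (hN0 : 0 < mN) (hr0 : 0 < r)
    (hN : ∀ l : ℕ, l.Prime → l ∣ mN → l ∣ N) (hr : ∀ l : ℕ, l.Prime → l ∣ r → ¬ l ∣ N)
    (h : M ∣ M ^ 2 * (mN * r)) (al be ga de t d : ℤ) (hb : Blk M N S al be ga de) (ht : (M : ℤ) ∣ t - (al + de)) :
    T3 M (M ^ 2 * (mN * r)) h al be ga t d = mN ^ 2 * (T3 N (N ^ 2) (dvd_pow_self N two_ne_zero) al be ga t d *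
      (S ^ 2 * r * ∑ e ∈ r.divisors, (r / e).totient * rs S al d t e)) := by
  have hN1 : 0 < N := by
    rcases Nat.eq_zero_or_pos N with h | h
    · rw [hb.mul, h, zero_mul] at hM
      exact absurd hM (lt_irrefl 0)
    · exact h
  have hS1 : 0 < S := by
    rcases Nat.eq_zero_or_pos S with h | h
    · rw [hb.mul, h, mul_zero] at hM
      exact absurd hM (lt_irrefl 0)
    · exact h
  have hMQ : M ^ 2 ∣ M ^ 2 * r := Dvd.intro _ rfl
  have hMQ1 : M ∣ M ^ 2 * r := (dvd_pow_self M two_ne_zero).trans hMQ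
  have hMQ2 : M ∣ M ^ 2 * r * mN := hMQ1.mul_right mN
  have e1 : M ^ 2 * (mN * r) = M ^ 2 * r * mN := by ring
  rw [T3_cast M e1 h hMQ2 al be ga t d,
    strip_all M N S mN (M ^ 2 * r) hM (by positivity) hMQ hMQ1 hMQ2 hN0 hN al be ga de t d hb ht]
  have e2 : M ^ 2 * r = N ^ 2 * (S ^ 2 * r) := by
    rw [hb.mul]
    ring
  have h₁ : N ∣ N ^ 2 := dvd_pow_self N two_ne_zero
  have h₂ : S ∣ S ^ 2 * r := (dvd_pow_self S two_ne_zero).mul_right r
  have hNr : N.Coprime r := by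
    rw [Nat.coprime_iff_gcd_eq_one]
    by_contra hne
    obtain ⟨l, hl, hl2⟩ := Nat.exists_prime_and_dvd hne
    exact hr l hl (hl2.trans (Nat.gcd_dvd_right _ _)) (hl2.trans (Nat.gcd_dvd_left _ _))
  have hc : (N ^ 2).Coprime (S ^ 2 * r) := by
    refine Nat.Coprime.mul_right ?_ ?_
    · exact Nat.Coprime.pow 2 2 hb.cop
    · exact Nat.Coprime.pow_left 2 hNr
  rw [T3_cast2 hb.mul e2 hMQ1 (mul_dvd_mul h₁ h₂) al be ga t d,
    T3_crt N S (N ^ 2) (S ^ 2 * r) h₁ h₂ (by positivity) (by positivity) hc _ al be ga t d,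
    T3_congr S (S ^ 2 * r) h₂ al be ga al 0 0 t t d (by simp) (by simpa using hb.dbe) (by simpa using hb.dga) (by simp),
    T3_scal S r hS1 hr0 h₂ al t d]

/-- PIECE [JD-P17] (about 180 lines). `al, be, ga, de` are the entries of `g₀`, `d = det g₀` modulo `M`, `d` prime to `M m`. PROOF. If `t` is not `tr g₀` modulo `M`: the left side is `0` (`NN_zero`), and so is `Cg`:
`N ∤ t - (al + de)` (first factor), or `S ∤ t - (al + de)`, i.e. `S ∤ t - 2 al` (`S ∣ al - de`), `rs_zero` (`d = al²` modulo `S` as `S ∣ be`). Otherwise: `m = mN * (mS * mO)` (`mN = pr N m`, `mS = pr S m`, `mO = co M m`;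
`pr M m = pr N m * pr S m` is not needed if you take `mN = pr N m`, `mS = pr S (co N m)`, `mO = co S (co N m)`); `NN_eq`; `strip_all` with `Q = M² (mS mO)`; `M² (mS mO) = N² (S² (mS mO))`,
`T3_crt`; `T3_congr` (`be`, `ga` are `0` modulo `S`), `T3_scal`; `conv_id`. With `r = mS mO`: `NN = mN² T_N S² r ∑_{e ∣ r} φ (r / e) rs e` and
`(M m / kap) ∑_{g ∣ m} φ (m / g) Cg = (N S mN r / kap) (T_N / N) S ∑_g φ (m / g) rs (pr S g) CC (co M g) = (N S mN r) (T_N / N) S mN ∑_{e ∣ r} φ (r / e) rs e`. -/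
theorem count_g (M N S m : ℕ) (hM : 0 < M) (hm : 0 < m) (h : M ∣ M ^ 2 * m) (g₀ : GL (Fin 2) (ZMod M)) (t d : ℤ)
    (hb : Blk M N S ((g₀ 0 0).val : ℤ) ((g₀ 0 1).val : ℤ) ((g₀ 1 0).val : ℤ) ((g₀ 1 1).val : ℤ))
    (hdet : g₀.val.det = (d : ZMod M)) (hd : IsCoprime d ((M * m : ℕ) : ℤ)) :
    (∏ l ∈ m.primeFactors.filter (fun l => ¬ l ∣ M), kap l) * (NN M (M ^ 2 * m) h g₀ t d : ℝ) =
      M * m * ∑ g ∈ m.divisors, ((m / g).totient : ℝ) *
        Cg M N S ((g₀ 0 0).val : ℤ) ((g₀ 0 1).val : ℤ) ((g₀ 1 0).val : ℤ) ((g₀ 1 1).val : ℤ) d g t := by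
  have hdM : IsCoprime d (M : ℤ) := by
    rw [Nat.cast_mul] at hd
    exact hd.of_mul_right_left
  have hdm : IsCoprime d (m : ℤ) := by
    rw [Nat.cast_mul] at hd
    exact hd.of_mul_right_right
  have hdet' := det_dvd M hM g₀ d hdet
  by_cases ht : (M : ℤ) ∣ t - (((g₀ 0 0).val : ℤ) + ((g₀ 1 1).val : ℤ))
  · -- the right trace
    have htr := (trace_iff M hM g₀ t).2 ht
    have hQ : IsCoprime d ((M ^ 2 * m : ℕ) : ℤ) := by
      rw [Nat.cast_mul, Nat.cast_pow]
      exact (hdM.pow_right).mul_right hdm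
    rw [NN_eq M (M ^ 2 * m) hM (by positivity) h g₀ t d hQ htr]
    generalize ((g₀ 0 0).val : ℤ) = al at *
    generalize ((g₀ 0 1).val : ℤ) = be at *
    generalize ((g₀ 1 0).val : ℤ) = ga at *
    generalize ((g₀ 1 1).val : ℤ) = de at *
    have hN1 : 0 < N := by
      rcases Nat.eq_zero_or_pos N with h | h
      · rw [hb.mul, h, zero_mul] at hM
        exact absurd hM (lt_irrefl 0)
      · exact h
    have hS1 : 0 < S := by
      rcases Nat.eq_zero_or_pos S with h | h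
      · rw [hb.mul, h, mul_zero] at hM
        exact absurd hM (lt_irrefl 0)
      · exact h
    rw [filter_eq M N S m hm hb.mul]
    have hcN : 0 < co N m := co_pos N m
    have hmN : 0 < pr N m := pr_pos N m
    have hmS : 0 < pr S (co N m) := pr_pos _ _
    have hmO : 0 < co S (co N m) := co_pos _ _
    have e3 : m = pr N m * (pr S (co N m) * co S (co N m)) := by
      rw [pr_mul_co S _ hcN, pr_mul_co N m hm]
    have pN : ∀ l : ℕ, l.Prime → l ∣ pr N m → l ∣ N := fun l hl h => pr_prime N m l hl h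
    have pS : ∀ l : ℕ, l.Prime → l ∣ pr S (co N m) → l ∣ S := fun l hl h => pr_prime S _ l hl h
    have pO : ∀ l : ℕ, l.Prime → l ∣ co S (co N m) → ¬ l ∣ M := by
      intro l hl h hlM
      rw [hb.mul] at hlM
      rcases hl.dvd_mul.1 hlM with h' | h'
      · exact co_prime N m l hl (h.trans (co_dvd S _ hcN)) h'
      · exact co_prime S _ l hl h h'
    have pr' : ∀ l : ℕ, l.Prime → l ∣ pr S (co N m) * co S (co N m) → ¬ l ∣ N := by
      intro l hl h
      rw [pr_mul_co S _ hcN] at h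
      exact co_prime N m l hl h
    have hid := conv_id M N S (pr N m) (pr S (co N m)) (co S (co N m)) hb.mul hb.cop hmN hmS hmO hS1 pN pS pO al d t
    rw [← e3] at hid
    have h' : M ∣ M ^ 2 * (pr N m * (pr S (co N m) * co S (co N m))) := by
      rw [← e3]
      exact h
    rw [T3_cast M (by rw [← e3] : M ^ 2 * m = M ^ 2 * (pr N m * (pr S (co N m) * co S (co N m)))) h h' al be ga t d,
      T3_val M N S (pr N m) (pr S (co N m) * co S (co N m)) hM hmN (Nat.mul_pos hmS hmO) pN pr' h' al be ga de t d hb ht]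
    have hNt : (N : ℤ) ∣ t - (al + de) := by
      refine dvd_trans ?_ ht
      rw [hb.mul]
      exact_mod_cast Dvd.intro S rfl
    have hR : ∑ g ∈ m.divisors, ((m / g).totient : ℝ) * Cg M N S al be ga de d g t =
        (T3 N (N ^ 2) (dvd_pow_self N two_ne_zero) al be ga t d : ℝ) / N * S *
          ∑ g ∈ m.divisors, ((m / g).totient : ℝ) * ((rs S al d t (pr S g) : ℝ) * CC d t (co M g)) := by
      rw [mul_sum]
      refine sum_congr rfl fun g _ => ?_
      unfold Cg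
      rw [if_pos hNt]
      ring
    rw [hR, ← hid]
    have hmc : (m : ℝ) = (pr N m : ℝ) * ((pr S (co N m) : ℝ) * (co S (co N m) : ℝ)) := by
      exact_mod_cast e3
    have hMc : (M : ℝ) = (N : ℝ) * (S : ℝ) := by exact_mod_cast hb.mul
    rw [hmc, hMc]
    push_cast
    have hNr : (N : ℝ) ≠ 0 := by positivity
    field_simp
  · -- the wrong trace
    have h1 : NN M (M ^ 2 * m) h g₀ t d = 0 := NN_zero M (M ^ 2 * m) h g₀ t d (fun e => ht ((trace_iff M hM g₀ t).1 e))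
    rw [h1]
    have h2 : ∑ g ∈ m.divisors, ((m / g).totient : ℝ) *
        Cg M N S ((g₀ 0 0).val : ℤ) ((g₀ 0 1).val : ℤ) ((g₀ 1 0).val : ℤ) ((g₀ 1 1).val : ℤ) d g t = 0 := by
      refine sum_eq_zero fun g _ => ?_
      rw [cnt_zero M N S hM _ _ _ _ t d hb hdet' hdM ht g, mul_zero]
    rw [h2]
    simp

end Pool.Agent.JD
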