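import Pool.Agent.Lib_MP_f1937f_jd.Defs

/-!
# The parts `pr P h` and `co P h` of a number
-/

set_option autoImplicit false

namespace Pool.Agent.JD

open Finset Pool.Agent.TB Pool.Agent.JB

private theorem prodAll_partL (h : ℕ) (hh : 0 < h) : ∏ l ∈ h.primeFactors, l ^ h.factorization l = h := by
  have h1 := Nat.factorization_prod_pow_eq_self (n := h) hh.ne'
  rw [Finsupp.prod, Nat.support_factorization] at h1
  exact h1

private theorem fac_zero_partL {h l : ℕ} (hl : l ∉ h.primeFactors) : h.factorization l = 0 := by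
  rw [← Nat.support_factorization, Finsupp.notMem_support_iff] at hl
  exact hl

private theorem pr_ext_partL (P h : ℕ) (T : Finset ℕ) (hT : h.primeFactors ⊆ T) :
    pr P h = ∏ l ∈ T.filter (fun l => l ∣ P), l ^ h.factorization l := by
  unfold pr
  refine Finset.prod_subset (Finset.filter_subset_filter _ hT) fun l hl hn => ?_
  rw [Finset.mem_filter] at hl
  rw [fac_zero_partL (fun h1 => hn (Finset.mem_filter.2 ⟨h1, hl.2⟩)), pow_zero]

private theorem co_ext_partL (P h : ℕ) (T : Finset ℕ) (hT : h.primeFactors ⊆ T) :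
    co P h = ∏ l ∈ T.filter (fun l => ¬ l ∣ P), l ^ h.factorization l := by
  unfold co
  refine Finset.prod_subset (Finset.filter_subset_filter _ hT) fun l hl hn => ?_
  rw [Finset.mem_filter] at hl
  rw [fac_zero_partL (fun h1 => hn (Finset.mem_filter.2 ⟨h1, hl.2⟩)), pow_zero]

/-- PIECE [JD-P1] (all theorems of this file, about 150 lines). PROOF. `Nat.factorization_prod_pow_eq_self` (`h = ∏ l ∈ h.primeFactors, l ^ h.factorization l`) split by
`l ∣ P`; the two parts have disjoint sets of prime factors. -/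
theorem pr_mul_co (P h : ℕ) (hh : 0 < h) : pr P h * co P h = h := by
  unfold pr co
  rw [Finset.prod_filter_mul_prod_filter_not]
  exact prodAll_partL h hh

theorem pr_pos (P h : ℕ) : 0 < pr P h := by
  unfold pr
  refine Finset.prod_pos fun l hl => pow_pos ?_ _
  exact (Nat.prime_of_mem_primeFactors (Finset.mem_filter.1 hl).1).pos

theorem co_pos (P h : ℕ) : 0 < co P h := by
  unfold co
  refine Finset.prod_pos fun l hl => pow_pos ?_ _
  exact (Nat.prime_of_mem_primeFactors (Finset.mem_filter.1 hl).1).pos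

theorem pr_one (P : ℕ) : pr P 1 = 1 := by
  unfold pr
  rw [Nat.primeFactors_one, Finset.filter_empty, Finset.prod_empty]

theorem co_one (P : ℕ) : co P 1 = 1 := by
  unfold co
  rw [Nat.primeFactors_one, Finset.filter_empty, Finset.prod_empty]

theorem pr_dvd (P h : ℕ) (hh : 0 < h) : pr P h ∣ h := Dvd.intro _ (pr_mul_co P h hh)

theorem co_dvd (P h : ℕ) (hh : 0 < h) : co P h ∣ h := Dvd.intro_left _ (pr_mul_co P h hh)

/-- the primes of `pr P h` divide `P` -/
theorem pr_prime (P h : ℕ) (l : ℕ) (hl : l.Prime) (h1 : l ∣ pr P h) : l ∣ P := by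
  unfold pr at h1
  rw [hl.prime.dvd_finset_prod_iff] at h1
  obtain ⟨l', h2, h3⟩ := h1
  rw [Finset.mem_filter] at h2
  have h4 : l = l' := (Nat.prime_dvd_prime_iff_eq hl (Nat.prime_of_mem_primeFactors h2.1)).1 (hl.dvd_of_dvd_pow h3)
  rw [h4]
  exact h2.2

/-- the primes of `co P h` do not divide `P` -/
theorem co_prime (P h : ℕ) (l : ℕ) (hl : l.Prime) (h1 : l ∣ co P h) : ¬ l ∣ P := by
  unfold co at h1
  rw [hl.prime.dvd_finset_prod_iff] at h1
  obtain ⟨l', h2, h3⟩ := h1
  rw [Finset.mem_filter] at h2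
  have h4 : l = l' := (Nat.prime_dvd_prime_iff_eq hl (Nat.prime_of_mem_primeFactors h2.1)).1 (hl.dvd_of_dvd_pow h3)
  rw [h4]
  exact h2.2

/-- `pr` is multiplicative (`Nat.factorization_mul`; the factorization of `pr P h` at `l` is `if l ∣ P then h.factorization l else 0`) -/
theorem pr_mul (P a b : ℕ) (ha : 0 < a) (hb : 0 < b) : pr P (a * b) = pr P a * pr P b := by
  have h1 : (a * b).primeFactors = a.primeFactors ∪ b.primeFactors := Nat.primeFactors_mul ha.ne' hb.ne'
  rw [pr_ext_partL P a (a * b).primeFactors (by rw [h1]; exact Finset.subset_union_left),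
    pr_ext_partL P b (a * b).primeFactors (by rw [h1]; exact Finset.subset_union_right), ← Finset.prod_mul_distrib]
  unfold pr
  refine Finset.prod_congr rfl fun l _ => ?_
  rw [Nat.factorization_mul ha.ne' hb.ne', Finsupp.add_apply, pow_add]

theorem co_mul (P a b : ℕ) (ha : 0 < a) (hb : 0 < b) : co P (a * b) = co P a * co P b := by
  have h1 : (a * b).primeFactors = a.primeFactors ∪ b.primeFactors := Nat.primeFactors_mul ha.ne' hb.ne'
  rw [co_ext_partL P a (a * b).primeFactors (by rw [h1]; exact Finset.subset_union_left),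
    co_ext_partL P b (a * b).primeFactors (by rw [h1]; exact Finset.subset_union_right), ← Finset.prod_mul_distrib]
  unfold co
  refine Finset.prod_congr rfl fun l _ => ?_
  rw [Nat.factorization_mul ha.ne' hb.ne', Finsupp.add_apply, pow_add]

/-- all primes of `a` divide `P` -/
theorem pr_eq_self (P a : ℕ) (ha : 0 < a) (h : ∀ l : ℕ, l.Prime → l ∣ a → l ∣ P) : pr P a = a ∧ co P a = 1 := by
  have h1 : a.primeFactors.filter (fun l => l ∣ P) = a.primeFactors :=
    Finset.filter_true_of_mem fun l hl => h l (Nat.prime_of_mem_primeFactors hl) (Nat.dvd_of_mem_primeFactors hl)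
  have h2 : pr P a = a := by
    unfold pr
    rw [h1]
    exact prodAll_partL a ha
  refine ⟨h2, ?_⟩
  have h3 := pr_mul_co P a ha
  rw [h2] at h3
  exact Nat.eq_of_mul_eq_mul_left ha (by rw [h3, mul_one])

/-- no prime of `a` divides `P` -/
theorem co_eq_self (P a : ℕ) (ha : 0 < a) (h : ∀ l : ℕ, l.Prime → l ∣ a → ¬ l ∣ P) : pr P a = 1 ∧ co P a = a := by
  have h1 : a.primeFactors.filter (fun l => ¬ l ∣ P) = a.primeFactors :=
    Finset.filter_true_of_mem fun l hl => h l (Nat.prime_of_mem_primeFactors hl) (Nat.dvd_of_mem_primeFactors hl)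
  have h2 : co P a = a := by
    unfold co
    rw [h1]
    exact prodAll_partL a ha
  refine ⟨?_, h2⟩
  have h3 := pr_mul_co P a ha
  rw [h2] at h3
  exact Nat.eq_of_mul_eq_mul_right ha (by rw [h3, one_mul])

end Pool.Agent.JD
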