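import Pool.Agent.Lib_MP_f1937f_jd.Defs
import Pool.Agent.Lib_MP_f1937f_jb.AvgP

/-!
# From one step to all averages
-/

set_option autoImplicit false

namespace Pool.Agent.JD

open Finset Pool.Agent.TB Pool.Agent.JB

/-- `i = i₁ + a i₂` -/
private theorem split_avgs (a : ℕ) (f : ℕ → ℝ) : ∀ b : ℕ,
    ∑ i ∈ range (a * b), f i = ∑ j ∈ range b, ∑ i ∈ range a, f (i + a * j) := by
  intro b
  induction b with
  | zero => simp
  | succ b ih =>
    rw [Nat.mul_succ, Finset.sum_range_add, ih, Finset.sum_range_succ]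
    congr 1
    refine Finset.sum_congr rfl fun i _ => ?_
    rw [add_comm i (a * b)]

/-- Part (1) of the proof. -/
private theorem one_avgs (K p : ℕ) (C : ℕ → ℤ → ℝ)
    (step : ∀ (h l : ℕ) (t : ℤ), 0 < h → l.Prime → p.Coprime (h * l) →
      ∑ i ∈ range l, C (h * l) (t + ((K * h : ℕ) : ℤ) * i) = l * C h t) (g : ℕ) (hg : 0 < g) :
    ∀ r : ℕ, 0 < r → p.Coprime (g * r) → ∀ t : ℤ,
      ∑ i ∈ range r, C (g * r) (t + ((K * g : ℕ) : ℤ) * i) = r * C g t := by
  intro r
  induction r using Nat.strong_induction_on with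
  | _ r ih =>
    intro hr hp t
    rcases Nat.eq_or_lt_of_le (Nat.one_le_iff_ne_zero.2 hr.ne') with h1 | h1
    · subst h1
      simp
    · obtain ⟨r', hr'⟩ := Nat.minFac_dvd r
      have hl : (Nat.minFac r).Prime := Nat.minFac_prime (by omega)
      obtain ⟨l, hl2⟩ : ∃ l, l = Nat.minFac r := ⟨_, rfl⟩
      rw [← hl2] at hr' hl
      have hr0 : 0 < r' := Nat.pos_of_ne_zero (by rintro rfl; simp at hr'; omega)
      have hlt : r' < r := by
        rw [hr']
        calc r' = 1 * r' := (one_mul r').symm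
          _ < l * r' := Nat.mul_lt_mul_of_pos_right hl.one_lt hr0
      have hre : r = r' * l := by rw [hr', mul_comm]
      have hp1 : p.Coprime (g * r' * l) := by rw [mul_assoc, ← hre]; exact hp
      have hp2 : p.Coprime (g * r') := Nat.Coprime.coprime_mul_right_right hp1
      have h2 := ih r' hlt hr0 hp2 t
      have h3 : ∀ i ∈ range r', ∑ j ∈ range l, C (g * r) (t + ((K * g : ℕ) : ℤ) * ((i + r' * j : ℕ) : ℤ)) =
          l * C (g * r') (t + ((K * g : ℕ) : ℤ) * i) := by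
        intro i _
        rw [← step (g * r') l (t + ((K * g : ℕ) : ℤ) * i) (Nat.mul_pos hg hr0) hl hp1]
        refine Finset.sum_congr rfl fun j _ => ?_
        rw [hre, ← mul_assoc]
        congr 1
        push_cast
        ring
      have h4 : ∑ i ∈ range r, C (g * r) (t + ((K * g : ℕ) : ℤ) * i) =
          ∑ i ∈ range r', ∑ j ∈ range l, C (g * r) (t + ((K * g : ℕ) : ℤ) * ((i + r' * j : ℕ) : ℤ)) := by
        have h5 := split_avgs r' (fun i => C (g * r) (t + ((K * g : ℕ) : ℤ) * i)) l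
        rw [← hre] at h5
        rw [h5, Finset.sum_comm]
      rw [h4, Finset.sum_congr rfl h3, ← Finset.mul_sum, h2, hre]
      push_cast
      ring

/-- Multiplication by a unit permutes the residues. -/
private theorem perm_avgs (h m : ℕ) (hh : 0 < h) (hc : Nat.Coprime h m) (F : ℕ → ℝ)
    (hF : ∀ i, F (i % h) = F i) : ∑ j ∈ range h, F (m * j) = ∑ i ∈ range h, F i := by
  have hmaps : ∀ j ∈ range h, (m * j) % h ∈ range h := fun j _ => Finset.mem_range.2 (Nat.mod_lt _ hh)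
  have hinj : Set.InjOn (fun j => (m * j) % h) (range h : Set ℕ) := by
    intro a ha b hb hab
    have ha' : a < h := Finset.mem_range.1 ha
    have hb' : b < h := Finset.mem_range.1 hb
    have h1 : m * a ≡ m * b [MOD h] := hab
    have h2 : a ≡ b [MOD h] := Nat.ModEq.cancel_left_of_coprime hc h1
    unfold Nat.ModEq at h2
    rwa [Nat.mod_eq_of_lt ha', Nat.mod_eq_of_lt hb'] at h2
  refine Finset.sum_nbij (fun j => (m * j) % h) hmaps hinj ?_ ?_
  · exact Finset.surjOn_of_injOn_of_card_le _ hmaps hinj le_rfl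
  · intro j _
    exact (hF (m * j)).symm

/-- PIECE [JD-P15] (about 150 lines). PROOF. (1) For `g ∣ h`: `∑_{i < h / g} C h (t + K g i) = (h / g) C g t`, by induction on `h / g` (strong, `h = g r`, `r = l r'`: write `i = i₁ + r' i₂`?? or
`C (g r' l) (t + K g i)`, `i = i₁ + r' i₂` with `i₁ < r'`, `i₂ < l`: `t + K g i = (t + K g i₁) + K (g r') i₂`, the inner sum over `i₂` is `l * C (g r') (t + K g i₁)` by `step`; then the induction hypothesis).
(2) Let `g = gcd h m`, `m = g m'`, `h = g h'`, `h'`, `m'` coprime. The `b < K (h' m)` with `K m ∣ b - t` are, modulo `K h' m` (a multiple of `K h`), the numbers `t + K m j`, `j < h'`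
(bijection `j ↦ (t + K m j) % (K h' m)`); `C h (t + K m j) = C h (t + K g (m' j))` depends on `m' j` modulo `h'` only, and `j ↦ m' j % h'` is a bijection of `range h'`. So the sum is that of (1). -/
theorem avg_of_step (K p : ℕ) (hK : 0 < K) (C : ℕ → ℤ → ℝ)
    (per : ∀ (h : ℕ) (a a' : ℤ), 0 < h → ((K * h : ℕ) : ℤ) ∣ a - a' → C h a = C h a')
    (step : ∀ (h l : ℕ) (t : ℤ), 0 < h → l.Prime → p.Coprime (h * l) →
      ∑ i ∈ range l, C (h * l) (t + ((K * h : ℕ) : ℤ) * i) = l * C h t) :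
    ∀ (h m : ℕ) (t : ℤ), 0 < h → 0 < m → p.Coprime h →
      ∑ b ∈ (range (K * (h / Nat.gcd h m * m))).filter (fun b : ℕ => ((K * m : ℕ) : ℤ) ∣ (b : ℤ) - t), C h b =
        ((h / Nat.gcd h m : ℕ) : ℝ) * C (Nat.gcd h m) t := by
  intro h m t hh hm hp
  obtain ⟨g, hg⟩ : ∃ g, g = Nat.gcd h m := ⟨_, rfl⟩
  have hg0 : 0 < g := by rw [hg]; exact Nat.gcd_pos_of_pos_left _ hh
  obtain ⟨h', hh'⟩ : g ∣ h := by rw [hg]; exact Nat.gcd_dvd_left h m
  obtain ⟨m', hm'⟩ : g ∣ m := by rw [hg]; exact Nat.gcd_dvd_right h m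
  have hh0 : 0 < h' := Nat.pos_of_ne_zero (by rintro rfl; simp at hh'; omega)
  have hcop : Nat.Coprime h' m' := by
    have h1 : Nat.gcd (g * h') (g * m') = g * Nat.gcd h' m' := Nat.gcd_mul_left g h' m'
    rw [← hh', ← hm', ← hg] at h1
    exact Nat.eq_of_mul_eq_mul_left hg0 (by rw [← h1, mul_one])
  have hdiv : h / g = h' := by rw [hh']; exact Nat.mul_div_cancel_left h' hg0
  rw [← hg, hdiv]
  have hA : 0 < K * m := Nat.mul_pos hK hm
  have hA' : (0 : ℤ) < ((K * m : ℕ) : ℤ) := by exact_mod_cast hA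
  obtain ⟨b0, hb0⟩ : ∃ b0 : ℕ, b0 = (t % ((K * m : ℕ) : ℤ)).toNat := ⟨_, rfl⟩
  have hb1 : (b0 : ℤ) = t % ((K * m : ℕ) : ℤ) := by
    have := Int.emod_nonneg t hA'.ne'
    omega
  have hb2 : b0 < K * m := by
    have := Int.emod_lt_of_pos t hA'
    omega
  have hbt : ((K * m : ℕ) : ℤ) ∣ (b0 : ℤ) - t := by
    rw [hb1]
    exact ⟨-(t / ((K * m : ℕ) : ℤ)), by have := Int.emod_add_mul_ediv t ((K * m : ℕ) : ℤ); linear_combination this⟩
  have hCt : C g t = C g b0 := by
    refine per g t b0 hg0 ?_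
    have h1 : ((K * g : ℕ) : ℤ) ∣ ((K * m : ℕ) : ℤ) :=
      Int.natCast_dvd_natCast.2 (Nat.mul_dvd_mul_left K ⟨m', hm'⟩)
    have h2 := dvd_neg.2 (h1.trans hbt)
    rwa [neg_sub] at h2
  rw [hCt, Finset.sum_filter, show K * (h' * m) = K * m * h' by ring, split_avgs (K * m)]
  have h1 : ∀ j ∈ range h', ∑ i ∈ range (K * m), (if ((K * m : ℕ) : ℤ) ∣ ((i + K * m * j : ℕ) : ℤ) - t then
      C h ((i + K * m * j : ℕ) : ℤ) else 0) = C h ((b0 : ℤ) + ((K * g : ℕ) : ℤ) * ((m' * j : ℕ) : ℤ)) := by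
    intro j _
    rw [Finset.sum_eq_single b0]
    · rw [if_pos]
      · congr 1
        rw [hm']
        push_cast
        ring
      · have h2 : ((b0 + K * m * j : ℕ) : ℤ) - t = ((b0 : ℤ) - t) + ((K * m : ℕ) : ℤ) * j := by
          push_cast
          ring
        rw [h2]
        exact dvd_add hbt (dvd_mul_right _ _)
    · intro i hi hne
      rw [if_neg]
      intro hd
      apply hne
      have hi' : i < K * m := Finset.mem_range.1 hi
      have h2 : ((K * m : ℕ) : ℤ) ∣ (i : ℤ) - b0 := by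
        have h3 : (i : ℤ) - b0 = (((i + K * m * j : ℕ) : ℤ) - t) - ((b0 : ℤ) - t) - ((K * m : ℕ) : ℤ) * j := by
          push_cast
          ring
        rw [h3]
        exact dvd_sub (dvd_sub hd hbt) (dvd_mul_right _ _)
      have h4 : (i : ℤ) % ((K * m : ℕ) : ℤ) = (b0 : ℤ) % ((K * m : ℕ) : ℤ) :=
        Int.emod_eq_emod_iff_emod_sub_eq_zero.mpr (Int.emod_eq_zero_of_dvd h2)
      rw [Int.emod_eq_of_lt (by positivity) (by exact_mod_cast hi'),
        Int.emod_eq_of_lt (by positivity) (by exact_mod_cast hb2)] at h4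
      exact_mod_cast h4
    · intro hb
      exact absurd (Finset.mem_range.2 hb2) hb
  rw [Finset.sum_congr rfl h1]
  have hF : ∀ i : ℕ, C h ((b0 : ℤ) + ((K * g : ℕ) : ℤ) * ((i % h' : ℕ) : ℤ)) =
      C h ((b0 : ℤ) + ((K * g : ℕ) : ℤ) * (i : ℤ)) := by
    intro i
    refine per h _ _ hh ?_
    refine ⟨-((i / h' : ℕ) : ℤ), ?_⟩
    have h2 : ((i % h' : ℕ) : ℤ) + (h' : ℤ) * ((i / h' : ℕ) : ℤ) = (i : ℤ) := by
      exact_mod_cast Nat.mod_add_div i h'
    rw [hh']
    push_cast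
    push_cast at h2
    linear_combination (K : ℤ) * g * h2
  rw [perm_avgs h' m' hh0 hcop (fun i => C h ((b0 : ℤ) + ((K * g : ℕ) : ℤ) * (i : ℤ))) hF]
  have hp' : p.Coprime (g * h') := by rw [← hh']; exact hp
  have h5 := one_avgs K p C step g hg0 h' hh0 hp' b0
  rw [← hh'] at h5
  exact h5

end Pool.Agent.JD
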