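import Pool.Agent.Lib_MP_f1937f_jd.Defs

/-!
# Lifts of a matrix with given determinant
-/

set_option autoImplicit false

namespace Pool.Agent.JD

open Finset Pool.Agent.TB Pool.Agent.JB

/-- the fibres of the reduction -/
private theorem card_fib {m m' : ℕ} (h : m ∣ m') (hm' : 0 < m') (y : ZMod m) :
    Nat.card {x : ZMod m' // ZMod.castHom h (ZMod m) x = y} = m' / m := by
  have hm : 0 < m := Nat.pos_of_dvd_of_pos h hm'
  have : NeZero m := ⟨hm.ne'⟩
  have : NeZero m' := ⟨hm'.ne'⟩
  have hs : Function.Surjective (ZMod.castHom h (ZMod m)) := ZMod.ringHom_surjective _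
  obtain ⟨x₀, hx₀⟩ := hs y
  set φ := ZMod.castHom h (ZMod m) with hφ
  have e1 : ∀ y : ZMod m, Nat.card {x : ZMod m' // φ x = y} = Nat.card {x : ZMod m' // φ x = 0} := by
    intro y
    obtain ⟨x₁, hx₁⟩ := hs y
    refine Nat.card_congr ⟨fun x => ⟨x.1 - x₁, by rw [map_sub, x.2, hx₁, sub_self]⟩,
      fun x => ⟨x.1 + x₁, by rw [map_add, x.2, hx₁, zero_add]⟩, fun x => ?_, fun x => ?_⟩
    · apply Subtype.ext
      simp
    · apply Subtype.ext
      simp
  have e2 : Nat.card (ZMod m') = ∑ y : ZMod m, Nat.card {x : ZMod m' // φ x = y} := by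
    rw [← Nat.card_sigma]
    exact (Nat.card_congr (Equiv.sigmaFiberEquiv φ)).symm
  simp only [e1] at e2
  rw [Finset.sum_const, Finset.card_univ, Nat.card_zmod, ZMod.card, smul_eq_mul] at e2
  rw [e1 y]
  exact (Nat.div_eq_of_eq_mul_right hm e2).symm

/-- units modulo `m'` are detected modulo `m` -/
private theorem isUnit_of_cast {m m' : ℕ} (h : m ∣ m') (hm' : 0 < m') (hp : ∀ l : ℕ, l.Prime → l ∣ m' → l ∣ m)
    (d : ZMod m') (h1 : IsUnit (ZMod.castHom h (ZMod m) d)) : IsUnit d := by
  have : NeZero m' := ⟨hm'.ne'⟩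
  have hd : d = ((d.val : ℕ) : ZMod m') := (ZMod.natCast_zmod_val d).symm
  rw [hd, map_natCast, ZMod.isUnit_iff_coprime] at h1
  rw [hd, ZMod.isUnit_iff_coprime]
  by_contra hc
  obtain ⟨p, hpp, hp1, hp2⟩ := Nat.Prime.not_coprime_iff_dvd.1 hc
  exact Nat.not_coprime_of_dvd_of_dvd hpp.one_lt hp1 (hp p hpp hp2) h1

/-- `diag (u, 1)` -/
private def dg {R : Type} [CommRing R] (u : Rˣ) : GL (Fin 2) R :=
  ⟨!![(u : R), 0; 0, 1], !![((u⁻¹ : Rˣ) : R), 0; 0, 1], by
    rw [Matrix.mul_fin_two]
    ext i j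
    fin_cases i <;> fin_cases j <;> simp, by
    rw [Matrix.mul_fin_two]
    ext i j
    fin_cases i <;> fin_cases j <;> simp⟩

private theorem dg_mul {R : Type} [CommRing R] (u v : Rˣ) : dg (u * v) = dg u * dg v := by
  apply Units.ext
  show !![((u * v : Rˣ) : R), 0; 0, 1] = !![(u : R), 0; 0, 1] * !![(v : R), 0; 0, 1]
  rw [Matrix.mul_fin_two]
  ext i j
  fin_cases i <;> fin_cases j <;> simp

private theorem dg_one {R : Type} [CommRing R] : dg (1 : Rˣ) = 1 := by
  apply Units.ext
  show !![((1 : Rˣ) : R), 0; 0, 1] = 1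
  ext i j
  fin_cases i <;> fin_cases j <;> simp

private theorem det_dg {R : Type} [CommRing R] (u : Rˣ) : Matrix.GeneralLinearGroup.det (dg u) = u := by
  apply Units.ext
  show Matrix.det !![(u : R), 0; 0, 1] = u
  rw [Matrix.det_fin_two_of]
  ring

private theorem map_dg {R S : Type} [CommRing R] [CommRing S] (φ : R →+* S) (u : Rˣ) :
    Matrix.GeneralLinearGroup.map φ (dg u) = dg (Units.map (φ : R →* S) u) := by
  apply Units.ext
  ext i j
  fin_cases i <;> fin_cases j
  · rfl
  · exact map_zero φ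
  · exact map_zero φ
  · exact map_one φ

private theorem map_det {R S : Type} [CommRing R] [CommRing S] (φ : R →+* S) (g : GL (Fin 2) R) :
    Units.map (φ : R →* S) (Matrix.GeneralLinearGroup.det g) =
      Matrix.GeneralLinearGroup.det (Matrix.GeneralLinearGroup.map φ g) := by
  apply Units.ext
  show φ (Matrix.det g.val) = Matrix.det (Matrix.map g.val φ)
  rw [Matrix.det_fin_two, Matrix.det_fin_two]
  simp

/-- all lifts -/
private theorem card_lifts {m m' : ℕ} (h : m ∣ m') (hm' : 0 < m') (hp : ∀ l : ℕ, l.Prime → l ∣ m' → l ∣ m)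
    (g₀ : GL (Fin 2) (ZMod m)) :
    Nat.card {g : GL (Fin 2) (ZMod m') // Matrix.GeneralLinearGroup.map (ZMod.castHom h (ZMod m)) g = g₀} =
      (m' / m) ^ 4 := by
  have hm : 0 < m := Nat.pos_of_dvd_of_pos h hm'
  set φ := ZMod.castHom h (ZMod m) with hφ
  have e : Nat.card {g : GL (Fin 2) (ZMod m') // Matrix.GeneralLinearGroup.map φ g = g₀} =
      Nat.card ({x : ZMod m' // φ x = g₀ 0 0} × {x : ZMod m' // φ x = g₀ 0 1} ×
        {x : ZMod m' // φ x = g₀ 1 0} × {x : ZMod m' // φ x = g₀ 1 1}) := by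
    have h0 : ∀ g : GL (Fin 2) (ZMod m'), Matrix.GeneralLinearGroup.map φ g = g₀ → ∀ i j, φ (g i j) = g₀ i j := by
      intro g hg i j
      rw [← hg]
      rfl
    have h1 : ∀ g : {g : GL (Fin 2) (ZMod m') // Matrix.GeneralLinearGroup.map φ g = g₀}, ∀ i j, φ (g.1 i j) = g₀ i j :=
      fun g => h0 g.1 g.2
    refine Nat.card_congr (Equiv.ofBijective
      (fun g => (⟨g.1 0 0, h1 g 0 0⟩, ⟨g.1 0 1, h1 g 0 1⟩, ⟨g.1 1 0, h1 g 1 0⟩, ⟨g.1 1 1, h1 g 1 1⟩)) ⟨?_, ?_⟩)
    · rintro ⟨g, hg⟩ ⟨g', hg'⟩ he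
      simp only [Prod.mk.injEq, Subtype.mk.injEq] at he
      obtain ⟨e1, e2, e3, e4⟩ := he
      apply Subtype.ext
      apply Units.ext
      ext i j
      fin_cases i <;> fin_cases j
      · exact e1
      · exact e2
      · exact e3
      · exact e4
    · rintro ⟨⟨a, ha⟩, ⟨b, hb⟩, ⟨c, hc⟩, ⟨x, hx⟩⟩
      have hu : IsUnit (a * x - b * c) := by
        apply isUnit_of_cast h hm' hp
        rw [← hφ, map_sub, map_mul, map_mul, ha, hb, hc, hx]
        have h2 := (Matrix.isUnit_iff_isUnit_det _).1 g₀.isUnit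
        rw [Matrix.det_fin_two] at h2
        exact h2
      have hdet : IsUnit (Matrix.det !![a, b; c, x]) := by
        rw [Matrix.det_fin_two_of]
        exact hu
      refine ⟨⟨Matrix.GeneralLinearGroup.mk'' _ hdet, ?_⟩, ?_⟩
      · apply Units.ext
        ext i j
        fin_cases i <;> fin_cases j
        · exact ha
        · exact hb
        · exact hc
        · exact hx
      · rfl
  rw [e, Nat.card_prod, Nat.card_prod, Nat.card_prod, card_fib h hm', card_fib h hm', card_fib h hm', card_fib h hm']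
  ring

/-- PIECE [JD-P13] (about 150 lines). `m` and `m'` have the same prime factors. PROOF. The lifts of `g₀` to matrices modulo `m'` are given by lifts of the four entries, `(m' / m)⁴` of them (fibres of
`ZMod m' → ZMod m`), all of them are invertible (the determinant is a unit modulo `m`, hence modulo `m'`; `unit_of` in `Lib_MP_f1937f_jb/FibJ.lean`). The determinant is one of the `m' / m` lifts of
`det g₀`, and for two such lifts `d`, `d'` (units) the left multiplication by `diag (d' / d, 1)`, which is `1` modulo `m`, is a bijection from the lifts of determinant `d` to those of determinant `d'`. -/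
theorem fib3 (m m' : ℕ) (h : m ∣ m') (hm' : 0 < m') (hp : ∀ l : ℕ, l.Prime → l ∣ m' → l ∣ m) (g₀ : GL (Fin 2) (ZMod m))
    (d : ZMod m') (hd : IsUnit d) (hdet : ZMod.castHom h (ZMod m) d = g₀.val.det) :
    Nat.card {g : GL (Fin 2) (ZMod m') // Matrix.GeneralLinearGroup.map (ZMod.castHom h (ZMod m)) g = g₀ ∧ g.val.det = d} =
      (m' / m) ^ 3 := by
  have hm : 0 < m := Nat.pos_of_dvd_of_pos h hm'
  set φ := ZMod.castHom h (ZMod m) with hφ
  have hdu : ((hd.unit : (ZMod m')ˣ) : ZMod m') = d := hd.unit_spec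
  have hdφ : Units.map (φ : ZMod m' →* ZMod m) hd.unit = Matrix.GeneralLinearGroup.det g₀ := by
    apply Units.ext
    show φ (hd.unit : ZMod m') = g₀.val.det
    rw [hdu]
    exact hdet
  have hval : ∀ g : GL (Fin 2) (ZMod m'), g.val.det = d ↔ Matrix.GeneralLinearGroup.det g = hd.unit := by
    intro g
    constructor
    · intro h1
      apply Units.ext
      rw [hdu]
      exact h1
    · intro h1
      rw [← hdu, ← h1]
      rfl
  have e1 : Nat.card {g : GL (Fin 2) (ZMod m') // Matrix.GeneralLinearGroup.map φ g = g₀} =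
      Nat.card ({x : ZMod m' // φ x = g₀.val.det} ×
        {g : GL (Fin 2) (ZMod m') // Matrix.GeneralLinearGroup.map φ g = g₀ ∧ g.val.det = d}) := by
    have hφd : ∀ g : GL (Fin 2) (ZMod m'), Matrix.GeneralLinearGroup.map φ g = g₀ → φ g.val.det = g₀.val.det := by
      intro g hg
      have h1 := congrArg Units.val (map_det φ g)
      rw [hg] at h1
      exact h1
    have hkey : ∀ u v : (ZMod m')ˣ, Units.map (φ : ZMod m' →* ZMod m) u = Units.map (φ : ZMod m' →* ZMod m) v →
        ∀ g : GL (Fin 2) (ZMod m'), Matrix.GeneralLinearGroup.map φ g = g₀ →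
          Matrix.GeneralLinearGroup.map φ (dg (u * v⁻¹) * g) = g₀ := by
      intro u v huv g hg
      rw [map_mul, map_dg, map_mul, map_inv, huv, mul_inv_cancel, dg_one, one_mul, hg]
    have hun : ∀ x : ZMod m', φ x = g₀.val.det → IsUnit x := by
      intro x hx
      apply isUnit_of_cast h hm' hp
      rw [← hφ, hx]
      exact (Matrix.isUnit_iff_isUnit_det _).1 g₀.isUnit
    have hun2 : ∀ (x : ZMod m') (hx : φ x = g₀.val.det),
        Units.map (φ : ZMod m' →* ZMod m) (hun x hx).unit = Matrix.GeneralLinearGroup.det g₀ := by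
      intro x hx
      apply Units.ext
      show φ ((hun x hx).unit : ZMod m') = g₀.val.det
      rw [(hun x hx).unit_spec, hx]
    have hgd : ∀ g : GL (Fin 2) (ZMod m'), Matrix.GeneralLinearGroup.map φ g = g₀ →
        Units.map (φ : ZMod m' →* ZMod m) (Matrix.GeneralLinearGroup.det g) = Matrix.GeneralLinearGroup.det g₀ := by
      intro g hg
      rw [map_det, hg]
    refine Nat.card_congr
      { toFun := fun g => (⟨g.1.val.det, hφd g.1 g.2⟩,
          ⟨dg (hd.unit * (Matrix.GeneralLinearGroup.det g.1)⁻¹) * g.1,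
            hkey _ _ (by rw [hdφ, hgd g.1 g.2]) g.1 g.2, (hval _).2 ?_⟩)
        invFun := fun y => ⟨dg ((hun y.1.1 y.1.2).unit * hd.unit⁻¹) * y.2.1,
          hkey _ _ (by rw [hdφ, hun2 _ y.1.2]) y.2.1 y.2.2.1⟩
        left_inv := ?_
        right_inv := ?_ }
    · rw [map_mul, det_dg, inv_mul_cancel_right]
    · rintro ⟨g, hg⟩
      apply Subtype.ext
      show dg ((hun g.val.det (hφd g hg)).unit * hd.unit⁻¹) * (dg (hd.unit * (Matrix.GeneralLinearGroup.det g)⁻¹) * g) = g
      have h1 : (hun g.val.det (hφd g hg)).unit = Matrix.GeneralLinearGroup.det g := by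
        apply Units.ext
        rw [IsUnit.unit_spec]
        rfl
      rw [h1, ← mul_assoc, ← dg_mul]
      have h2 : Matrix.GeneralLinearGroup.det g * hd.unit⁻¹ * (hd.unit * (Matrix.GeneralLinearGroup.det g)⁻¹) = 1 := by
        group
      rw [h2, dg_one, one_mul]
    · rintro ⟨⟨x, hx⟩, ⟨g, hg, hg2⟩⟩
      have h0 := (hval g).1 hg2
      have h1 : Matrix.GeneralLinearGroup.det (dg ((hun x hx).unit * hd.unit⁻¹) * g) = (hun x hx).unit := by
        rw [map_mul, det_dg, h0, inv_mul_cancel_right]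
      refine Prod.ext (Subtype.ext ?_) (Subtype.ext ?_)
      · show (dg ((hun x hx).unit * hd.unit⁻¹) * g).val.det = x
        have h2 := congrArg Units.val h1
        rw [IsUnit.unit_spec] at h2
        exact h2
      · show dg (hd.unit * (Matrix.GeneralLinearGroup.det (dg ((hun x hx).unit * hd.unit⁻¹) * g))⁻¹) *
          (dg ((hun x hx).unit * hd.unit⁻¹) * g) = g
        rw [h1, ← mul_assoc, ← dg_mul]
        have h2 : hd.unit * (hun x hx).unit⁻¹ * ((hun x hx).unit * hd.unit⁻¹) = 1 := by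
          group
        rw [h2, dg_one, one_mul]
  rw [card_lifts h hm' hp g₀, Nat.card_prod, card_fib h hm'] at e1
  have hr : 0 < m' / m := Nat.div_pos (Nat.le_of_dvd hm' h) hm
  have e2 : (m' / m) * (m' / m) ^ 3 = (m' / m) *
      Nat.card {g : GL (Fin 2) (ZMod m') // Matrix.GeneralLinearGroup.map φ g = g₀ ∧ g.val.det = d} := by
    rw [← e1]
    ring
  exact (Nat.eq_of_mul_eq_mul_left hr e2).symm

end Pool.Agent.JD
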