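import Pool.Agent.Lib_MP_f1937f_jd.Defs
import Pool.Agent.Lib_MP_f1937f_jb.Avg

/-!
# `CC`, one step
-/

set_option autoImplicit false

namespace Pool.Agent.JD

open Finset Pool.Agent.TB Pool.Agent.JB

/-- PIECE [JD-P6] (about 80 lines). PROOF. `JB.avg_lcm` with `h := e * l`, `m := e`: `gcd (e l) e = e`, `h / gcd * m = l * e`: the sum of `CC d b (e * l)` over the `b < l e`, `e ∣ b - t`
is `l * CC d t e`. These `b` are, modulo `e l`, the numbers `t + e w i`, `i < l` (`l ∤ w`): the map `i ↦ (t + e w i) % (e l)` is a bijection; `CC_congr`. -/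
theorem cc_step (d t w : ℤ) (e l : ℕ) (he : 0 < e) (hl : l.Prime) (hc : IsCoprime d ((e * l : ℕ) : ℤ)) (hw : ¬ (l : ℤ) ∣ w) :
    ∑ i ∈ range l, CC d (t + (e : ℤ) * w * i) (e * l) = l * CC d t e := by
  have hel : 0 < e * l := Nat.mul_pos he hl.pos
  have h1 := avg_lcm d (e * l) e hel he hc t
  have hg : Nat.gcd (e * l) e = e := Nat.gcd_eq_right (dvd_mul_right e l)
  rw [hg, Nat.mul_div_cancel_left l he] at h1
  rw [← h1]
  have hZ : (0 : ℤ) < ((e * l : ℕ) : ℤ) := by exact_mod_cast hel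
  have heZ : (e : ℤ) ≠ 0 := by exact_mod_cast he.ne'
  have hlZ : (0 : ℤ) < (l : ℤ) := by exact_mod_cast hl.pos
  have hlp : Prime (l : ℤ) := Nat.prime_iff_prime_int.mp hl
  have hf : ∀ i : ℕ, ((((t + (e : ℤ) * w * i) % ((e * l : ℕ) : ℤ)).toNat : ℕ) : ℤ) =
      (t + (e : ℤ) * w * i) % ((e * l : ℕ) : ℤ) := fun i => Int.toNat_of_nonneg (Int.emod_nonneg _ hZ.ne')
  have hd : ∀ x : ℤ, ((e * l : ℕ) : ℤ) ∣ x - x % ((e * l : ℕ) : ℤ) := fun x =>
    ⟨x / ((e * l : ℕ) : ℤ), by have := Int.emod_add_mul_ediv x ((e * l : ℕ) : ℤ); linear_combination -this⟩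
  refine Finset.sum_bij (fun i _ => ((t + (e : ℤ) * w * i) % ((e * l : ℕ) : ℤ)).toNat) ?_ ?_ ?_ ?_
  · intro i _
    rw [Finset.mem_filter, Finset.mem_range]
    refine ⟨?_, ?_⟩
    · have h2 := Int.emod_lt_of_pos (t + (e : ℤ) * w * i) hZ
      rw [← hf i] at h2
      have h3 : ((t + (e : ℤ) * w * i) % ((e * l : ℕ) : ℤ)).toNat < e * l := by exact_mod_cast h2
      rw [mul_comm l e]
      exact h3
    · rw [hf i]
      obtain ⟨c, hc⟩ := hd (t + (e : ℤ) * w * i)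
      refine ⟨w * i - l * c, ?_⟩
      push_cast at hc ⊢
      linear_combination -hc
  · intro i hi j hj hij
    rw [Finset.mem_range] at hi hj
    have h2 : (t + (e : ℤ) * w * i) % ((e * l : ℕ) : ℤ) = (t + (e : ℤ) * w * j) % ((e * l : ℕ) : ℤ) := by
      rw [← hf i, ← hf j]
      exact_mod_cast hij
    obtain ⟨c, hc⟩ := hd (t + (e : ℤ) * w * i)
    obtain ⟨c', hc'⟩ := hd (t + (e : ℤ) * w * j)
    rw [h2] at hc
    have h3 : (e : ℤ) * (w * ((i : ℤ) - j)) = e * (l * (c - c')) := by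
      push_cast at hc hc'
      linear_combination hc - hc'
    have h4 := mul_left_cancel₀ heZ h3
    have h5 : (l : ℤ) ∣ w * ((i : ℤ) - j) := ⟨c - c', h4⟩
    have h6 : (l : ℤ) ∣ (i : ℤ) - j := (hlp.dvd_or_dvd h5).resolve_left hw
    have h7 : (i : ℤ) - j = 0 := by
      refine Int.eq_zero_of_abs_lt_dvd h6 ?_
      rw [abs_lt]
      constructor <;> omega
    omega
  · intro b hb
    rw [Finset.mem_filter, Finset.mem_range] at hb
    obtain ⟨hb1, c, hc⟩ := hb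
    have h2 : IsCoprime (l : ℤ) w := (hlp.coprime_iff_not_dvd).mpr hw
    obtain ⟨u, v, huv⟩ := h2
    have h3 : 0 ≤ (c * v) % (l : ℤ) := Int.emod_nonneg _ hlZ.ne'
    have h4 : (c * v) % (l : ℤ) < l := Int.emod_lt_of_pos _ hlZ
    refine ⟨((c * v) % (l : ℤ)).toNat, ?_, ?_⟩
    · rw [Finset.mem_range]
      omega
    · have h5 : (((((c * v) % (l : ℤ)).toNat : ℕ)) : ℤ) = (c * v) % (l : ℤ) := Int.toNat_of_nonneg h3
      have h6 : (t + (e : ℤ) * w * ((((c * v) % (l : ℤ)).toNat : ℕ) : ℤ)) % ((e * l : ℕ) : ℤ) = (b : ℤ) := by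
        rw [h5]
        have h7 : ((e * l : ℕ) : ℤ) ∣ (t + (e : ℤ) * w * ((c * v) % (l : ℤ))) - (b : ℤ) := by
          have h8 := Int.emod_add_mul_ediv (c * v) (l : ℤ)
          refine ⟨-(w * ((c * v) / l)) - u * c, ?_⟩
          push_cast
          linear_combination (e : ℤ) * w * h8 - hc + (e : ℤ) * c * huv
        have h9 : (t + (e : ℤ) * w * ((c * v) % (l : ℤ))) % ((e * l : ℕ) : ℤ) = (b : ℤ) % ((e * l : ℕ) : ℤ) :=
          ((Int.modEq_iff_dvd).2 h7).symm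
        rw [h9]
        refine Int.emod_eq_of_lt (by positivity) ?_
        rw [mul_comm e l]
        exact_mod_cast hb1
      show ((t + (e : ℤ) * w * ((((c * v) % (l : ℤ)).toNat : ℕ) : ℤ)) % ((e * l : ℕ) : ℤ)).toNat = b
      rw [h6]
      simp
  · intro i _
    refine CC_congr (by simp) ?_
    rw [hf i]
    exact hd _

end Pool.Agent.JD
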