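import Pool.Agent.Lib_MP_f1937f_jd.Defs
import Pool.Agent.Lib_MP_f1937f_jb.RankJ

/-!
# Slots
-/

set_option autoImplicit false

namespace Pool.Agent.JD

open Finset Pool.Agent.TB Pool.Agent.JB

/-- the number of the primes `≤ z` of the class of `c` -/
private def Fc (K c z : ℕ) : ℕ := (((range (z + 1)).filter Nat.Prime).filter (fun q => q ≡ c [MOD K])).card

private lemma Fc_succ_slotl (K c z : ℕ) (h : Fc K c z < Fc K c (z + 1)) :
    (z + 1).Prime ∧ z + 1 ≡ c [MOD K] ∧ Fc K c (z + 1) = Fc K c z + 1 := by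
  unfold Fc at h ⊢
  rw [range_add_one (n := z + 1), filter_insert] at h ⊢
  by_cases h1 : (z + 1).Prime
  · rw [if_pos h1, filter_insert] at h ⊢
    by_cases h2 : z + 1 ≡ c [MOD K]
    · rw [if_pos h2] at h ⊢
      refine ⟨h1, h2, ?_⟩
      rw [card_insert_of_notMem]
      intro h3
      rw [mem_filter, mem_filter, mem_range] at h3
      omega
    · rw [if_neg h2] at h
      exact absurd h (lt_irrefl _)
  · rw [if_neg h1] at h
    exact absurd h (lt_irrefl _)

private lemma Fc_gap_slotl (K c x y : ℕ) (hxy : x < y) :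
    Fc K c x + (((Ioo x y).filter Nat.Prime).filter (fun q => q ≡ c [MOD K])).card = Fc K c (y - 1) := by
  unfold Fc
  rw [← card_union_of_disjoint]
  · congr 1
    ext q
    simp only [mem_union, mem_filter, mem_range, mem_Ioo]
    constructor
    · rintro (⟨⟨h1, h2⟩, h3⟩ | ⟨⟨h1, h2⟩, h3⟩)
      · exact ⟨⟨by omega, h2⟩, h3⟩
      · exact ⟨⟨by omega, h2⟩, h3⟩
    · rintro ⟨⟨h1, h2⟩, h3⟩
      by_cases h : q ≤ x
      · exact Or.inl ⟨⟨by omega, h2⟩, h3⟩
      · exact Or.inr ⟨⟨by omega, h2⟩, h3⟩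
  · rw [disjoint_left]
    intro q h1 h2
    rw [mem_filter, mem_filter, mem_range] at h1
    rw [mem_filter, mem_filter, mem_Ioo] at h2
    omega

private lemma exists_val_slotl (j n : ℕ) : ∃ k, n < k ∧ k ≤ n + 2 ^ (j + 1) ∧ padicValNat 2 k = j := by
  obtain ⟨P, hP⟩ : ∃ P : ℕ, P = 2 ^ j := ⟨_, rfl⟩
  have hP0 : 0 < P := by rw [hP]; positivity
  have h1 : n < P * (n / P + 1) := Nat.lt_mul_div_succ n hP0
  have h2 : P * (n / P) ≤ n := Nat.mul_div_le n P
  have h3 : ∃ s, (n / P + 1 = 2 * s + 1) ∨ (n / P + 2 = 2 * s + 1) := by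
    rcases Nat.even_or_odd' (n / P) with ⟨s, hs | hs⟩
    · exact ⟨s, Or.inl (by omega)⟩
    · exact ⟨s + 1, Or.inr (by omega)⟩
  obtain ⟨s, hs⟩ := h3
  refine ⟨P * (2 * s + 1), ?_, ?_, ?_⟩
  · refine lt_of_lt_of_le h1 (Nat.mul_le_mul_left _ ?_)
    omega
  · have h4 : P * (2 * s + 1) ≤ P * (n / P + 2) := Nat.mul_le_mul_left _ (by omega)
    have h5 : P * (n / P + 2) = P * (n / P) + 2 * P := by ring
    rw [pow_succ, ← hP]
    omega
  · rw [hP, padicValNat.mul (by positivity) (by omega), padicValNat.prime_pow,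
      padicValNat.eq_zero_of_not_dvd (by omega), add_zero]

private lemma rkJ_Fc_slotl (K c z : ℕ) (h : z ≡ c [MOD K]) : rkJ K z = padicValNat 2 (Fc K c z) := by
  unfold rkJ Fc
  congr 2
  refine Finset.filter_congr fun q _ => ?_
  exact ⟨fun h1 => h1.trans h, fun h1 => h1.trans h.symm⟩

private lemma class_gap_slotl (K c j x y : ℕ)
    (h : ∀ z, x < z → z < y → ¬ (z.Prime ∧ z ≡ c [MOD K] ∧ rkJ K z = j)) :
    (((Ioo x y).filter Nat.Prime).filter (fun q => q ≡ c [MOD K])).card ≤ 2 ^ (j + 1) := by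
  by_contra hcon
  rw [not_le] at hcon
  have hxy : x < y := by
    by_contra hxy
    rw [Ioo_eq_empty (by omega)] at hcon
    simp at hcon
  have h1 := Fc_gap_slotl K c x y hxy
  obtain ⟨k, hk1, hk2, hk3⟩ := exists_val_slotl j (Fc K c x)
  have hex : ∃ z, k ≤ Fc K c (x + z) := ⟨y - 1 - x, by
    have e : x + (y - 1 - x) = y - 1 := by omega
    rw [e]
    omega⟩
  classical
  obtain ⟨z, hz1, hz2⟩ : ∃ z, k ≤ Fc K c (x + z) ∧ ∀ z' < z, ¬ k ≤ Fc K c (x + z') :=
    ⟨Nat.find hex, Nat.find_spec hex, fun z' hz' => Nat.find_min hex hz'⟩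
  have hz0 : z ≠ 0 := by
    rintro rfl
    rw [add_zero] at hz1
    omega
  obtain ⟨w, rfl⟩ := Nat.exists_eq_succ_of_ne_zero hz0
  have hw := hz2 w (Nat.lt_succ_self w)
  have hlt : Fc K c (x + w) < Fc K c (x + w + 1) := by
    have e : x + w.succ = x + w + 1 := rfl
    rw [e] at hz1
    omega
  obtain ⟨g1, g2, g3⟩ := Fc_succ_slotl K c (x + w) hlt
  have hval : Fc K c (x + w + 1) = k := by
    have e : x + w.succ = x + w + 1 := rfl
    rw [e] at hz1
    omega
  have hlt2 : x + w + 1 < y := by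
    by_contra hge
    have hle : y - 1 ≤ x + w := by omega
    have hmono : Fc K c (y - 1) ≤ Fc K c (x + w) := by
      unfold Fc
      refine card_le_card (filter_subset_filter _ (filter_subset_filter _ ?_))
      intro q hq
      rw [mem_range] at hq ⊢
      omega
    omega
  refine h (x + w + 1) (by omega) hlt2 ⟨g1, g2, ?_⟩
  rw [rkJ_Fc_slotl K c _ g2, hval, hk3]

/-- PIECE [JD-B2] (about 120 lines). PROOF. Let `x < y`. For every class `c < K`, the primes `p` with `x < p < y`, `p ≡ c` modulo `K` have consecutive ranks (the rank of `p` is the number of the primes `≤ p` of its class; `rkJ K p` is its 2-adic valuation); among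
`2 ^ (j + 1)` consecutive positive integers one has 2-adic valuation `j`; so if no prime `z` of the class with `x < z < y` has `rkJ K z = j`, there are fewer than `2 ^ (j + 1)` of them. Sum over the classes. `P` is a set of primes which is a union of classes
in the sense of `hP`. -/
theorem slot_gap (K j : ℕ) (hK : 0 < K) (P : ℕ → Prop) [DecidablePred P] (hP : ∀ p p' : ℕ, p.Prime → p'.Prime → p ≡ p' [MOD K] → P p → P p') (x y : ℕ)
    (h : ∀ z, x < z → z < y → ¬ (z.Prime ∧ P z ∧ rkJ K z = j)) :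
    ((Ioo x y).filter (fun p => p.Prime ∧ P p)).card ≤ K * 2 ^ (j + 1) := by
  classical
  have h1 : ((Ioo x y).filter (fun p => p.Prime ∧ P p)) ⊆ (range K).biUnion fun c =>
      ((Ioo x y).filter (fun p => p.Prime ∧ P p)).filter (fun q => q ≡ c [MOD K]) := by
    intro p hp
    rw [mem_biUnion]
    refine ⟨p % K, mem_range.2 (Nat.mod_lt _ hK), ?_⟩
    rw [mem_filter]
    exact ⟨hp, (Nat.mod_modEq p K).symm⟩
  refine (card_le_card h1).trans (card_biUnion_le.trans ?_)
  have h2 : ∀ c ∈ range K, (((Ioo x y).filter (fun p => p.Prime ∧ P p)).filter (fun q => q ≡ c [MOD K])).card ≤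
      2 ^ (j + 1) := by
    intro c _
    rcases (((Ioo x y).filter (fun p => p.Prime ∧ P p)).filter (fun q => q ≡ c [MOD K])).eq_empty_or_nonempty
      with h3 | ⟨p₀, hp₀⟩
    · rw [h3, card_empty]
      exact Nat.zero_le _
    · rw [mem_filter, mem_filter] at hp₀
      refine le_trans (card_le_card ?_) (class_gap_slotl K c j x y ?_)
      · intro q hq
        rw [mem_filter, mem_filter] at hq ⊢
        exact ⟨⟨hq.1.1, hq.1.2.1⟩, hq.2⟩
      · intro z hz1 hz2 hz3
        exact h z hz1 hz2 ⟨hz3.1, hP p₀ z hp₀.1.2.1 hz3.1 (hp₀.2.trans hz3.2.1.symm) hp₀.1.2.2, hz3.2.2⟩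
  refine (sum_le_sum h2).trans ?_
  rw [sum_const, card_range, smul_eq_mul]

end Pool.Agent.JD
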