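import Pool.Agent.Lib_MP_f1937f_jd.Defs

/-!
# Thresholds
-/

set_option autoImplicit false

namespace Pool.Agent.JD

open Finset

/-- PIECE [JD-B4] (both theorems, about 100 lines). PROOF. `thr j = max over i ≤ j of (q i, i), plus ⌈exp (∑ i ∈ range (j + 1), c i)⌉₊`, for instance
`thr j = (∑ i ∈ range (j + 1), (q i + i)) + ⌈exp (∑ i ∈ range (j + 1), c i)⌉₊`, monotone in `j`. If `thr j ≤ x` for `j ∈ J` let `j₀` be the largest element of `J`: `∑ j ∈ J, c j ≤ ∑ i ∈ range (j₀ + 1), c i ≤ log (thr j₀) ≤ log x`. -/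
theorem thr_exists (c : ℕ → ℝ) (hc : ∀ j, 0 ≤ c j) (q : ℕ → ℕ) : ∃ thr : ℕ → ℕ, (∀ j, q j ≤ thr j ∧ j ≤ thr j) ∧
    ∀ (x : ℕ) (J : Finset ℕ), 2 ≤ x → (∀ j ∈ J, thr j ≤ x) → ∑ j ∈ J, c j ≤ Real.log x := by
  refine ⟨fun j => (∑ i ∈ range (j + 1), (q i + i)) + ⌈Real.exp (∑ i ∈ range (j + 1), c i)⌉₊, ?_, ?_⟩
  · intro j
    have h1 : q j + j ≤ ∑ i ∈ range (j + 1), (q i + i) :=
      single_le_sum (f := fun i => q i + i) (fun i _ => Nat.zero_le _) (mem_range.mpr (Nat.lt_succ_self j))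
    constructor
    · change q j ≤ (∑ i ∈ range (j + 1), (q i + i)) + ⌈Real.exp (∑ i ∈ range (j + 1), c i)⌉₊
      omega
    · change j ≤ (∑ i ∈ range (j + 1), (q i + i)) + ⌈Real.exp (∑ i ∈ range (j + 1), c i)⌉₊
      omega
  · intro x J hx hJ
    have hx0 : (0 : ℝ) < x := by exact_mod_cast (by omega : 0 < x)
    rcases J.eq_empty_or_nonempty with rfl | hne
    · rw [sum_empty]
      exact Real.log_nonneg (by exact_mod_cast (by omega : 1 ≤ x))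
    · set j₀ := J.max' hne with hj₀
      have h1 : J ⊆ range (j₀ + 1) := fun j hj => mem_range.mpr (Nat.lt_succ_of_le (J.le_max' j hj))
      have h2 : ∑ j ∈ J, c j ≤ ∑ i ∈ range (j₀ + 1), c i :=
        sum_le_sum_of_subset_of_nonneg h1 (fun i _ _ => hc i)
      have h3 := hJ j₀ (J.max'_mem hne)
      have h3' : ⌈Real.exp (∑ i ∈ range (j₀ + 1), c i)⌉₊ ≤ x := le_trans (Nat.le_add_left _ _) h3
      have h4 : Real.exp (∑ i ∈ range (j₀ + 1), c i) ≤ x := Nat.ceil_le.mp h3'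
      exact h2.trans ((Real.le_log_iff_exp_le hx0).mpr h4)

/-- PROOF. `1 / (2 √n) ≤ √n - √(n - 1)`. -/
theorem sum_half_sqrt (x : ℕ) : ∑ n ∈ Icc 1 x, 1 / (2 * √(n : ℝ)) ≤ √(x : ℝ) := by
  induction x with
  | zero => simp
  | succ x ih =>
    rw [sum_Icc_succ_top (by omega)]
    have h0 : (0 : ℝ) ≤ x := Nat.cast_nonneg x
    have hp : 0 < √(((x + 1 : ℕ) : ℝ)) := Real.sqrt_pos.mpr (by positivity)
    have hs : √(((x + 1 : ℕ) : ℝ)) ^ 2 = (x : ℝ) + 1 := by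
      rw [Real.sq_sqrt (by positivity)]
      push_cast
      ring
    have hr : √(x : ℝ) ^ 2 = (x : ℝ) := Real.sq_sqrt h0
    have hk : 1 / (2 * √(((x + 1 : ℕ) : ℝ))) ≤ √(((x + 1 : ℕ) : ℝ)) - √(x : ℝ) := by
      rw [div_le_iff₀ (by positivity)]
      nlinarith [sq_nonneg (√(((x + 1 : ℕ) : ℝ)) - √(x : ℝ))]
    linarith

end Pool.Agent.JD
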