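import Pool.Agent.Lib_MP_f1937f_jd.FamG

/-!
# Allowed traces
-/

set_option autoImplicit false

namespace Pool.Agent.JD

open Finset Pool.Agent.TB Pool.Agent.JB

private theorem card_pos_allow {M m : ℕ} (hm : 0 < m) (h : M ∣ m) (G : Subgroup (GL (Fin 2) (ZMod M))) (p : ℕ) (t : ℤ)
    (hg : ∃ g : GL (Fin 2) (ZMod m), Matrix.GeneralLinearGroup.map (ZMod.castHom h (ZMod M)) g ∈ G ∧
      g.val.det = (p : ZMod m) ∧ g.val.trace = (t : ZMod m)) : 0 < dG M G m h p t := by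
  haveI : NeZero m := ⟨hm.ne'⟩
  obtain ⟨g, h1, h2, h3⟩ := hg
  haveI : Finite (GL (Fin 2) (ZMod m)) := inferInstance
  unfold dG
  refine div_pos ?_ ?_
  · haveI : Nonempty {g : GL (Fin 2) (ZMod m) // Matrix.GeneralLinearGroup.map (ZMod.castHom h (ZMod M)) g ∈ G ∧
        g.val.det = (p : ZMod m) ∧ g.val.trace = (t : ZMod m)} := ⟨⟨g, h1, h2, h3⟩⟩
    exact_mod_cast Nat.card_pos
  · haveI : Nonempty {g : GL (Fin 2) (ZMod m) // Matrix.GeneralLinearGroup.map (ZMod.castHom h (ZMod M)) g ∈ G ∧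
        g.val.det = (p : ZMod m)} := ⟨⟨g, h1, h2⟩⟩
    exact_mod_cast Nat.card_pos

private theorem exists_of_pos_allow {M m : ℕ} (h : M ∣ m) (G : Subgroup (GL (Fin 2) (ZMod M))) (p : ℕ) (t : ℤ)
    (hd : 0 < dG M G m h p t) : ∃ g : GL (Fin 2) (ZMod m), Matrix.GeneralLinearGroup.map (ZMod.castHom h (ZMod M)) g ∈ G ∧
      g.val.det = (p : ZMod m) ∧ g.val.trace = (t : ZMod m) := by
  by_contra hc
  have h1 : IsEmpty {g : GL (Fin 2) (ZMod m) // Matrix.GeneralLinearGroup.map (ZMod.castHom h (ZMod M)) g ∈ G ∧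
      g.val.det = (p : ZMod m) ∧ g.val.trace = (t : ZMod m)} := ⟨fun g => hc ⟨g.1, g.2⟩⟩
  unfold dG at hd
  rw [Nat.card_of_isEmpty, Nat.cast_zero, zero_div] at hd
  exact lt_irrefl _ hd

private theorem reduce_allow {M m Q : ℕ} (h : M ∣ m) (hQ : m ∣ Q) (h' : M ∣ Q) (G : Subgroup (GL (Fin 2) (ZMod M))) (p : ℕ) (t : ℤ)
    (hg : ∃ g : GL (Fin 2) (ZMod Q), Matrix.GeneralLinearGroup.map (ZMod.castHom h' (ZMod M)) g ∈ G ∧
      g.val.det = (p : ZMod Q) ∧ g.val.trace = (t : ZMod Q)) :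
    ∃ g : GL (Fin 2) (ZMod m), Matrix.GeneralLinearGroup.map (ZMod.castHom h (ZMod M)) g ∈ G ∧
      g.val.det = (p : ZMod m) ∧ g.val.trace = (t : ZMod m) := by
  obtain ⟨g, h1, h2, h3⟩ := hg
  refine ⟨Matrix.GeneralLinearGroup.map (ZMod.castHom hQ (ZMod m)) g, ?_, ?_, ?_⟩
  · rw [← ZMod.castHom_comp h hQ, Matrix.GeneralLinearGroup.map_comp] at h1
    exact h1
  · have h4 := congrArg (ZMod.castHom hQ (ZMod m)) h2
    rw [map_natCast, Matrix.det_fin_two, map_sub, map_mul, map_mul] at h4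
    rw [Matrix.det_fin_two]
    exact h4
  · have h4 := congrArg (ZMod.castHom hQ (ZMod m)) h3
    rw [map_intCast, Matrix.trace_fin_two, map_add] at h4
    rw [Matrix.trace_fin_two]
    exact h4

/-- PIECE [JD-P21] (about 80 lines). PROOF. `→`: the definition with `m = M ^ 2`: the numerator of `uu` is positive (and the denominator). `←`: for `m` let `q` with `M² q = lcm (M²) m` (`M ^ 2 ∣ lcm`), prime to `p`. By `fam_G`,
`dG (M² q) p t = Dn (M ^ 2) C q t ≥ (φ (q) / q) C 1 t / (M² q) > 0` (the term `g = 1`), so there is `g` modulo `M² q` with the trace `t` and the determinant `p` reducing into `G`; reduce it modulo `m`. -/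
theorem alw_iff (M : ℕ) (hM : 0 < M) (G : Subgroup (GL (Fin 2) (ZMod M)))
    (hG : ∀ d : (ZMod M)ˣ, ∃ g ∈ G, g.val.det = (d : ZMod M)) (p : ℕ) (hp : p.Coprime M) (t : ℤ) :
    Alw M G p t ↔ 0 < uu M G p t := by
  have hK : 0 < M ^ 2 := by positivity
  constructor
  · intro h
    have h1 := card_pos_allow hK (dvd_pow_self M two_ne_zero) G p t
      (h.2 (M ^ 2) (dvd_pow_self M two_ne_zero) hK (hp.pow_right 2))
    have h2 : (0 : ℝ) < ((M ^ 2 : ℕ) : ℝ) := by exact_mod_cast hK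
    exact mul_pos h2 h1
  · intro hu
    refine ⟨hp, fun m h hm hpm => ?_⟩
    obtain ⟨q, hq⟩ : M ^ 2 ∣ Nat.lcm (M ^ 2) m := Nat.dvd_lcm_left _ _
    have hl : 0 < Nat.lcm (M ^ 2) m := Nat.lcm_pos hK hm
    have hq0 : 0 < q := by
      rcases Nat.eq_zero_or_pos q with h0 | h0
      · rw [h0, mul_zero] at hq
        omega
      · exact h0
    have hpl : p.Coprime (Nat.lcm (M ^ 2) m) := by
      have h1 : p.Coprime (M ^ 2 * m) := (hp.pow_right 2).mul_right hpm
      exact Nat.Coprime.coprime_dvd_right (Nat.lcm_dvd (Dvd.intro _ rfl) (Dvd.intro_left _ rfl)) h1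
    have hpq : p.Coprime q := by
      rw [hq] at hpl
      exact Nat.Coprime.coprime_dvd_right (Dvd.intro_left _ rfl) hpl
    obtain ⟨C, hC, hD⟩ := fam_G M hM G hG p hp
    have hMq : M ∣ M ^ 2 * q := (dvd_pow_self M two_ne_zero).mul_right q
    have h1 := hD q hMq hq0 hpq t
    have h2 : 0 < Dn (M ^ 2) C q t := by
      unfold Dn
      have hq' : (0 : ℝ) < q := by exact_mod_cast hq0
      refine div_pos ?_ (by
        have h3 : 0 < M ^ 2 * q := Nat.mul_pos hK hq0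
        exact_mod_cast h3)
      refine Finset.sum_pos' (fun g _ => mul_nonneg (div_nonneg (Nat.cast_nonneg _) hq'.le) (hC.nonneg g t))
        ⟨1, Nat.one_mem_divisors.2 hq0.ne', ?_⟩
      rw [Nat.div_one, hC.one]
      have h4 : (0 : ℝ) < (q.totient : ℝ) := by exact_mod_cast Nat.totient_pos.2 hq0
      exact mul_pos (div_pos h4 hq') hu
    rw [← h1] at h2
    have h3 := exists_of_pos_allow hMq G p t h2
    have hmq : m ∣ M ^ 2 * q := by
      rw [← hq]
      exact Nat.dvd_lcm_right _ _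
    exact reduce_allow h hmq hMq G p t h3

end Pool.Agent.JD
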