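import Pool.Agent.Lib_MP_f1937f_jd.DnF
import Pool.Agent.Lib_MP_f1937f_jb.PB

/-!
# All levels
-/

set_option autoImplicit false

namespace Pool.Agent.JD

open Finset Pool.Agent.TB Pool.Agent.JB

/-- PIECE [JD-A2] (about 130 lines, adapt `group_h` of `Lib_MP_f1937f_jb/GroupH.lean`; here `Wt 1`, so the support condition on `w` is empty, and `m₁ n` is replaced by `K q`). PROOF. `g = gcd h q`, `h = g e`, `e ≤ 3 H / g`.
`C g t ≤ g u t ≤ g K` (`Fam.le`, `hu.le`; `p.Coprime h` for all `h ≤ 3 H < p`, so `p.Coprime g`), so `w h * (e * C g t) ≤ w h * h * K ≤ 3 Cw K` (`h ≠ 1`: `w h ≤ Cw / H`, `h ≤ 3 H`; `h = 1`: `≤ Cw K`). The sum is at most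
`∑_{g ∣ q} 3 Cw K ∑_{e ≤ 3 H / g} |EE p k (e (K q)) (cf (g e))|`, `pb` with `m := K q`, `#divisors q ≤ q`. -/
theorem group_F (K : ℕ) (hK : 0 < K) (Cw c : ℝ) (hCw : 0 ≤ Cw) : ∃ C' : ℝ, 0 ≤ C' ∧ ∀ (H p k q : ℕ) (w : ℕ → ℝ) (cu : ℝ) (u : ℤ → ℝ)
    (C : ℕ → ℤ → ℝ), Fam K p u C → UV K cu u → 1 ≤ H → Wt 1 H Cw c w → 1 ≤ p → (∀ h ∈ Icc 1 (3 * H), p.Coprime h) →
    ((3 * H : ℕ) : ℝ) ^ 3 ≤ √(p : ℝ) → 0 < q → ∀ (t : ℤ) (cf : ℕ → ℤ),
    ∑ h ∈ Icc 1 (3 * H), w h * (((h / Nat.gcd h q : ℕ) : ℝ) * C (Nat.gcd h q) t) *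
        |EE p k (h / Nat.gcd h q * (K * q)) (cf h)| ≤
      C' * q * (k + 1) * √((K * q : ℕ) : ℝ) / √(p : ℝ) := by
  obtain ⟨C1, hC1, hpb⟩ := pb
  refine ⟨3 * Cw * K * C1, by positivity, fun H p k q w cu u C hF hu hH hw hp hcop hHp hq t cf => ?_⟩
  have hm : 1 ≤ K * q := Nat.mul_pos hK hq
  have hg0 : ∀ h, 0 < Nat.gcd h q := fun h => Nat.gcd_pos_of_pos_right h hq
  have hge : ∀ h, Nat.gcd h q * (h / Nat.gcd h q) = h := fun h => Nat.mul_div_cancel' (Nat.gcd_dvd_left h q)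
  have hterm : ∀ h ∈ Icc 1 (3 * H),
      w h * (((h / Nat.gcd h q : ℕ) : ℝ) * C (Nat.gcd h q) t) * |EE p k (h / Nat.gcd h q * (K * q)) (cf h)| ≤
        3 * Cw * K * |EE p k (h / Nat.gcd h q * (K * q)) (cf (Nat.gcd h q * (h / Nat.gcd h q)))| := by
    intro h hh
    have hc1 := hcop h hh
    rw [Finset.mem_Icc] at hh
    rw [hge]
    refine mul_le_mul_of_nonneg_right ?_ (abs_nonneg _)
    have h1 : C (Nat.gcd h q) t ≤ (Nat.gcd h q : ℕ) * (K : ℝ) :=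
      (hF.le hK _ t (hg0 h) (hc1.coprime_dvd_right (Nat.gcd_dvd_left h q))).trans
        (mul_le_mul_of_nonneg_left (hu.le t) (Nat.cast_nonneg _))
    have h2 : ((h / Nat.gcd h q : ℕ) : ℝ) * C (Nat.gcd h q) t ≤ h * K := by
      calc ((h / Nat.gcd h q : ℕ) : ℝ) * C (Nat.gcd h q) t ≤
            ((h / Nat.gcd h q : ℕ) : ℝ) * ((Nat.gcd h q : ℕ) * (K : ℝ)) :=
            mul_le_mul_of_nonneg_left h1 (Nat.cast_nonneg _)
        _ = h * K := by rw [← mul_assoc, ← Nat.cast_mul, Nat.mul_comm (h / Nat.gcd h q), hge]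
    have h3 : w h * (((h / Nat.gcd h q : ℕ) : ℝ) * C (Nat.gcd h q) t) ≤ w h * (h * K) :=
      mul_le_mul_of_nonneg_left h2 (hw.nonneg h)
    refine h3.trans ?_
    have hK0 : (0 : ℝ) ≤ K := Nat.cast_nonneg _
    have h6 : w h * h ≤ 3 * Cw := by
      by_cases h4 : h = 1
      · rw [h4, Nat.cast_one, mul_one]
        linarith [hw.one_le]
      · have hH' : (0 : ℝ) < H := Nat.cast_pos.mpr hH
        have h5 : (h : ℝ) ≤ 3 * H := by exact_mod_cast hh.2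
        calc w h * h ≤ Cw / H * (3 * H) :=
              mul_le_mul (hw.le h h4) h5 (Nat.cast_nonneg _) (div_nonneg hCw hH'.le)
          _ = 3 * Cw := by field_simp
    calc w h * (h * K) = w h * h * K := by ring
      _ ≤ 3 * Cw * K := mul_le_mul_of_nonneg_right h6 hK0
  have hsub : (Icc 1 (3 * H)).image (fun h => (⟨Nat.gcd h q, h / Nat.gcd h q⟩ : (_ : ℕ) × ℕ)) ⊆
        q.divisors.sigma (fun g => Icc 1 (3 * H / g)) := by
    intro x hx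
    obtain ⟨h, hh, rfl⟩ := Finset.mem_image.mp hx
    rw [Finset.mem_Icc] at hh
    rw [Finset.mem_sigma, Nat.mem_divisors, Finset.mem_Icc]
    refine ⟨⟨Nat.gcd_dvd_right h q, hq.ne'⟩, ?_, ?_⟩
    · exact Nat.div_pos (Nat.le_of_dvd (by omega) (Nat.gcd_dvd_left h q)) (hg0 h)
    · exact Nat.div_le_div_right hh.2
  have hinj : Set.InjOn (fun h => (⟨Nat.gcd h q, h / Nat.gcd h q⟩ : (_ : ℕ) × ℕ))
      (Icc 1 (3 * H) : Finset ℕ) := by
    intro a _ b _ hab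
    have h1 := congrArg (fun x : (_ : ℕ) × ℕ => x.1 * x.2) hab
    simp only [hge] at h1
    exact h1
  have hinner : ∀ g ∈ q.divisors, ∑ e ∈ Icc 1 (3 * H / g), 3 * Cw * K * |EE p k (e * (K * q)) (cf (g * e))| ≤
      3 * Cw * K * (C1 * (k + 1) * √((K * q : ℕ) : ℝ) / √(p : ℝ)) := by
    intro g _
    rw [← Finset.mul_sum]
    refine mul_le_mul_of_nonneg_left ?_ (by positivity)
    rcases Nat.eq_zero_or_pos (3 * H / g) with h0 | h0
    · rw [h0]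
      simp only [Finset.Icc_eq_empty (show ¬ (1 : ℕ) ≤ 0 by omega), Finset.sum_empty]
      positivity
    · refine hpb p k (K * q) (3 * H / g) hp hm h0 ?_ (fun e => cf (g * e))
      refine le_trans ?_ hHp
      have h1 : ((3 * H / g : ℕ) : ℝ) ≤ ((3 * H : ℕ) : ℝ) := Nat.cast_le.mpr (Nat.div_le_self _ _)
      exact pow_le_pow_left₀ (Nat.cast_nonneg _) h1 3
  calc ∑ h ∈ Icc 1 (3 * H), w h * (((h / Nat.gcd h q : ℕ) : ℝ) * C (Nat.gcd h q) t) *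
        |EE p k (h / Nat.gcd h q * (K * q)) (cf h)|
      ≤ ∑ h ∈ Icc 1 (3 * H),
        3 * Cw * K * |EE p k (h / Nat.gcd h q * (K * q)) (cf (Nat.gcd h q * (h / Nat.gcd h q)))| :=
        Finset.sum_le_sum hterm
    _ = ∑ x ∈ (Icc 1 (3 * H)).image (fun h => (⟨Nat.gcd h q, h / Nat.gcd h q⟩ : (_ : ℕ) × ℕ)),
          3 * Cw * K * |EE p k (x.2 * (K * q)) (cf (x.1 * x.2))| :=
        (Finset.sum_image
          (f := fun x : (_ : ℕ) × ℕ => 3 * Cw * K * |EE p k (x.2 * (K * q)) (cf (x.1 * x.2))|) hinj).symm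
    _ ≤ ∑ x ∈ q.divisors.sigma (fun g => Icc 1 (3 * H / g)),
          3 * Cw * K * |EE p k (x.2 * (K * q)) (cf (x.1 * x.2))| :=
        Finset.sum_le_sum_of_subset_of_nonneg hsub fun x _ _ => by positivity
    _ = ∑ g ∈ q.divisors, ∑ e ∈ Icc 1 (3 * H / g), 3 * Cw * K * |EE p k (e * (K * q)) (cf (g * e))| := by
        rw [Finset.sum_sigma]
    _ ≤ ∑ g ∈ q.divisors, 3 * Cw * K * (C1 * (k + 1) * √((K * q : ℕ) : ℝ) / √(p : ℝ)) :=
        Finset.sum_le_sum hinner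
    _ = (q.divisors.card : ℝ) * (3 * Cw * K * (C1 * (k + 1) * √((K * q : ℕ) : ℝ) / √(p : ℝ))) := by
        rw [Finset.sum_const, nsmul_eq_mul]
    _ ≤ (q : ℝ) * (3 * Cw * K * (C1 * (k + 1) * √((K * q : ℕ) : ℝ) / √(p : ℝ))) :=
        mul_le_mul_of_nonneg_right (Nat.cast_le.mpr (Nat.card_divisors_le_self q)) (by positivity)
    _ = 3 * Cw * K * C1 * q * (k + 1) * √((K * q : ℕ) : ℝ) / √(p : ℝ) := by ring

end Pool.Agent.JD
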