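import Pool.Agent.Lib_MP_f1937f_jd.TermF
import Pool.Agent.Lib_MP_f1937f_jd.GroupF
import Pool.Agent.Lib_MP_f1937f_jd.MainF
import Pool.Agent.Lib_MP_f1937f_jb.SigS
import Pool.Agent.Lib_MP_f1937f_jb.Wts

/-!
# The base law
-/

set_option autoImplicit false

namespace Pool.Agent.JD

open Finset Pool.Agent.TB Pool.Agent.JB

/-- the choice of `H` -/
private theorem bf_H (H₀ p : ℕ) (hp : (3 * H₀ + 6) ^ 6 ≤ p) : ∃ H : ℕ, H₀ ≤ H ∧ 2 ≤ H ∧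
    ((3 * H : ℕ) : ℝ) ^ 3 ≤ √(p : ℝ) ∧ ((3 * H : ℕ) : ℝ) ≤ (p : ℝ) ^ (1 / 6 : ℝ) ∧ 3 * H < p ∧
    √(p : ℝ) ≤ 216 * (H : ℝ) ^ 3 := by
  obtain ⟨r, hr⟩ : ∃ r : ℝ, r = (p : ℝ) ^ (1 / 6 : ℝ) := ⟨_, rfl⟩
  have hp0 : (0 : ℝ) ≤ (p : ℝ) := Nat.cast_nonneg p
  have hr0 : 0 ≤ r := hr ▸ Real.rpow_nonneg hp0 _
  have hr6 : r ^ 6 = p := by
    rw [hr, ← Real.rpow_natCast, ← Real.rpow_mul hp0]
    norm_num
  have hr3 : r ^ 3 = √(p : ℝ) := by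
    rw [hr, ← Real.rpow_natCast, ← Real.rpow_mul hp0, Real.sqrt_eq_rpow]
    norm_num
  have hrge : (3 * (H₀ : ℝ) + 6) ≤ r := by
    have h1 : (3 * (H₀ : ℝ) + 6) ^ 6 ≤ r ^ 6 := by
      rw [hr6]
      exact_mod_cast hp
    exact le_of_pow_le_pow_left₀ (by norm_num) hr0 h1
  have hH0r : (0 : ℝ) ≤ (H₀ : ℝ) := Nat.cast_nonneg _
  have hf1 : ((⌊r⌋₊ : ℕ) : ℝ) ≤ r := Nat.floor_le hr0
  have hf2 : r < (⌊r⌋₊ : ℕ) + 1 := Nat.lt_floor_add_one r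
  have hf3 : 3 * H₀ + 6 ≤ ⌊r⌋₊ := Nat.le_floor (by push_cast; exact hrge)
  refine ⟨⌊r⌋₊ / 3, by omega, by omega, ?_, ?_, ?_, ?_⟩
  · have h1 : 3 * (⌊r⌋₊ / 3) ≤ ⌊r⌋₊ := Nat.mul_div_le _ _
    have h2 : ((3 * (⌊r⌋₊ / 3) : ℕ) : ℝ) ≤ r := le_trans (by exact_mod_cast h1) hf1
    rw [← hr3]
    exact pow_le_pow_left₀ (Nat.cast_nonneg _) h2 3
  · have h1 : 3 * (⌊r⌋₊ / 3) ≤ ⌊r⌋₊ := Nat.mul_div_le _ _
    rw [← hr]
    exact le_trans (by exact_mod_cast h1) hf1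
  · have h1 : 3 * (⌊r⌋₊ / 3) ≤ ⌊r⌋₊ := Nat.mul_div_le _ _
    have h2 : ((3 * (⌊r⌋₊ / 3) : ℕ) : ℝ) ≤ r := le_trans (by exact_mod_cast h1) hf1
    have h3 : r < r ^ 6 := by
      have hr6' : 6 ≤ r := by linarith
      calc r < r * 2 := by linarith
        _ ≤ r * r ^ 5 := by
          have : (6 : ℝ) ^ 5 ≤ r ^ 5 := pow_le_pow_left₀ (by norm_num) hr6' 5
          have h5 : (2 : ℝ) ≤ r ^ 5 := by linarith
          exact mul_le_mul_of_nonneg_left h5 hr0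
        _ = r ^ 6 := by ring
    rw [hr6] at h3
    exact_mod_cast h2.trans_lt h3
  · rw [← hr3]
    have h1 : ⌊r⌋₊ ≤ 3 * (⌊r⌋₊ / 3) + 2 := by omega
    have h2 : ((⌊r⌋₊ : ℕ) : ℝ) ≤ 3 * ((⌊r⌋₊ / 3 : ℕ) : ℝ) + 2 := by exact_mod_cast h1
    have h3 : r ≤ 6 * ((⌊r⌋₊ / 3 : ℕ) : ℝ) := by
      have : 6 ≤ r := by linarith
      linarith
    calc r ^ 3 ≤ (6 * ((⌊r⌋₊ / 3 : ℕ) : ℝ)) ^ 3 := pow_le_pow_left₀ hr0 h3 3
      _ = 216 * ((⌊r⌋₊ / 3 : ℕ) : ℝ) ^ 3 := by ring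

/-- PIECE [JD-A4] (about 250 lines, adapt `base_J` of `Lib_MP_f1937f_jb/BaseJ.lean`, copy its private lemma `bj_H`). PROOF. `wt_exists 1`; `H = ⌊p ^ (1/6)⌋ / 3`; `W a = ∑ h ∈ Icc 1 (3 H), w h * C h a`. `W a ≥ w 1 * C 1 a ≥ (c / log p) u a`;
`W a ≤ (∑ w h h) K ≤ E p ^ (1/6)` and `W a = 0` if `u a = 0` (`Fam.le`: `0 ≤ C h a ≤ h * u a`). Equidistribution: `term_F`, `group_F` (`q (k+1) √(K q) ≤ √K q² (k+1)`), `main_F` with `B = K` (`C g t ≤ g u t ≤ K g`), `lam` of `Wt 1`, `sig_sum`: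
`(1 / (K q)) K 432 Cw (1 + log q) q ^ 3 / √p`, `1 + log q ≤ 3 log p`. The target for `k = 0` is `Dn K C q t = (∑ g ∣ q, φ (q / g) / q * C g t) / (K q)`. -/
theorem base_F (K : ℕ) (hK : 0 < K) : ∃ (E c : ℝ) (p₀ : ℕ), 0 ≤ E ∧ 0 < c ∧ 2 ≤ p₀ ∧ ∀ p : ℕ, p.Prime → p₀ ≤ p →
    ∀ (cu : ℝ) (u : ℤ → ℝ) (C : ℕ → ℤ → ℝ), Fam K p u C → UV K cu u →
    ∃ W : ℤ → ℝ, (∀ a, c / Real.log p * u a ≤ W a ∧ W a ≤ E * (p : ℝ) ^ (1 / 6 : ℝ)) ∧ (∀ a, u a = 0 → W a = 0) ∧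
      ∀ q : ℕ, 0 < q → q ≤ p → ¬ p ∣ q → ∀ (t : ℤ) (k : ℕ),
        |∑ a ∈ (V p).filter (fun a => ((K * q : ℕ) : ℤ) ∣ a - t), W a * sw p a * Uk k (xx p a) -
            (if k = 0 then Dn K C q t else 0)| ≤
          E * (q : ℝ) ^ 2 * (k + 1) * (Real.log p / √(p : ℝ)) := by
  classical
  obtain ⟨Cw, c, hCw, hc, H₀, hH₀, hw⟩ := wt_exists 1 one_pos
  obtain ⟨C', hC', hgr⟩ := group_F K hK Cw c hCw.le
  have hKr : (0 : ℝ) < K := by exact_mod_cast hK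
  refine ⟨2 * C' * √(K : ℝ) + 1296 * Cw + (1 + Cw) * K, c, (3 * H₀ + 6) ^ 6, by positivity, hc, ?_, ?_⟩
  · calc 2 ≤ 6 := by norm_num
      _ ≤ 3 * H₀ + 6 := by omega
      _ ≤ (3 * H₀ + 6) ^ 6 := Nat.le_self_pow (by norm_num) _
  intro p hpp hp cu u C hF hu
  obtain ⟨H, hHH, hH2, hH3, hH6, hHp, hHs⟩ := bf_H H₀ p hp
  obtain ⟨w, hW⟩ := hw H hHH
  have hp2 : 2 ≤ p := hpp.two_le
  have hp1 : 1 ≤ p := by omega
  have hpr : (2 : ℝ) ≤ p := by exact_mod_cast hp2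
  have hs0 : 0 < √(p : ℝ) := Real.sqrt_pos.2 (by linarith)
  have hHr : (2 : ℝ) ≤ H := by exact_mod_cast hH2
  have hlogH : 0 < Real.log H := Real.log_pos (by linarith)
  have hlogp : 1 / 2 ≤ Real.log p := by
    have h3 : Real.log 2 ≤ Real.log p := Real.log_le_log (by norm_num) hpr
    have := Real.log_two_gt_d9
    linarith
  have hcop : ∀ h ∈ Icc 1 (3 * H), p.Coprime h := by
    intro h hh
    rw [mem_Icc] at hh
    exact (Nat.Prime.coprime_iff_not_dvd hpp).2 fun hd => by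
      have := Nat.le_of_dvd (by omega) hd
      omega
  have hC0 : ∀ h ∈ Icc 1 (3 * H), ∀ a : ℤ, C h a ≤ h * u a := fun h hh a =>
    hF.le hK h a (by have := mem_Icc.1 hh; omega) (hcop h hh)
  have hW0 : ∀ a : ℤ, ∀ h ∈ Icc 1 (3 * H), 0 ≤ w h * C h a := fun a h _ =>
    mul_nonneg (hW.nonneg h) (hF.nonneg h a)
  refine ⟨fun a => ∑ h ∈ Icc 1 (3 * H), w h * C h a, fun a => ⟨?_, ?_⟩, ?_, ?_⟩
  · have h1 : w 1 * C 1 a ≤ ∑ h ∈ Icc 1 (3 * H), w h * C h a :=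
      single_le_sum (f := fun h => w h * C h a) (hW0 a) (mem_Icc.2 ⟨le_rfl, by omega⟩)
    rw [hF.one] at h1
    refine le_trans (mul_le_mul_of_nonneg_right (le_trans ?_ hW.one_ge) (hu.nonneg a)) h1
    refine div_le_div_of_nonneg_left hc.le hlogH ?_
    exact Real.log_le_log (by linarith) (by exact_mod_cast (by omega : H ≤ p))
  · have h1 : ∑ h ∈ Icc 1 (3 * H), w h * C h a ≤
        (∑ h ∈ Icc 1 (3 * H), w h) * (((3 * H : ℕ) : ℝ) * K) := by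
      rw [sum_mul]
      refine sum_le_sum fun h hh => mul_le_mul_of_nonneg_left ?_ (hW.nonneg h)
      have hh' := mem_Icc.1 hh
      have e1 : (h : ℝ) ≤ ((3 * H : ℕ) : ℝ) := by exact_mod_cast hh'.2
      exact (hC0 h hh a).trans (mul_le_mul e1 (hu.le a) (hu.nonneg a) (Nat.cast_nonneg _))
    have h2 := hW.lam 1 one_pos (Nat.coprime_one_left 1)
    have h3 : (Icc 1 (3 * H)).filter (1 ∣ ·) = Icc 1 (3 * H) := filter_true_of_mem fun h _ => one_dvd h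
    rw [h3, Nat.cast_one, one_mul] at h2
    have h4 : Cw * ((1 : ℝ) / H) ^ 3 ≤ Cw := by
      have : (1 : ℝ) / H ≤ 1 := by
        rw [div_le_one (by linarith)]
        linarith
      have h5 : ((1 : ℝ) / H) ^ 3 ≤ 1 := pow_le_one₀ (by positivity) this
      nlinarith
    have h5 : ∑ h ∈ Icc 1 (3 * H), w h ≤ 1 + Cw := by
      have := (abs_le.1 (h2.trans h4)).2
      linarith
    have h6 : (0 : ℝ) ≤ (p : ℝ) ^ (1 / 6 : ℝ) := Real.rpow_nonneg (by linarith) _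
    calc _ ≤ (∑ h ∈ Icc 1 (3 * H), w h) * (((3 * H : ℕ) : ℝ) * K) := h1
      _ ≤ (1 + Cw) * ((p : ℝ) ^ (1 / 6 : ℝ) * K) :=
          mul_le_mul h5 (mul_le_mul_of_nonneg_right hH6 hKr.le) (by positivity) (by linarith)
      _ = ((1 + Cw) * K) * (p : ℝ) ^ (1 / 6 : ℝ) := by ring
      _ ≤ _ := by
        refine mul_le_mul_of_nonneg_right ?_ h6
        have : 0 ≤ 2 * C' * √(K : ℝ) + 1296 * Cw := by positivity
        linarith
  · intro a ha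
    refine sum_eq_zero fun h hh => ?_
    have h1 := hC0 h hh a
    rw [ha, mul_zero] at h1
    rw [le_antisymm h1 (hF.nonneg h a), mul_zero]
  intro q hq hqp hpq t k
  obtain ⟨m, hm⟩ : ∃ m, m = K * q := ⟨_, rfl⟩
  rw [← hm]
  have hq1 : (1 : ℝ) ≤ q := by exact_mod_cast hq
  have hm0 : 0 < m := hm ▸ Nat.mul_pos hK hq
  have hmr : (0 : ℝ) < m := by exact_mod_cast hm0
  have hmeq : (m : ℝ) = K * q := by rw [hm]; push_cast; ring
  have hpcq : p.Coprime q := (Nat.Prime.coprime_iff_not_dvd hpp).2 hpq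
  obtain ⟨F, hFf⟩ : ∃ F : ℤ → ℝ, F = fun a => sw p a * Uk k (xx p a) := ⟨_, rfl⟩
  obtain ⟨κ, hκ⟩ : ∃ κ : ℝ, κ = if k = 0 then 1 else 0 := ⟨_, rfl⟩
  have hκ0 : 0 ≤ κ ∧ κ ≤ 1 := by
    rw [hκ]
    split_ifs <;> norm_num
  have hEE : ∀ (L : ℕ) (b : ℤ), ∑ a ∈ (V p).filter (fun a => (L : ℤ) ∣ a - b), F a - κ / (L : ℝ) = EE p k L b := by
    intro L b
    unfold EE
    rw [hFf, hκ]
    congr 1
    split_ifs
    · rfl
    · rw [zero_div]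
  have hterm : ∀ h : ℕ, ∃ b : ℤ, h ∈ Icc 1 (3 * H) →
      |∑ a ∈ (V p).filter (fun a => (m : ℤ) ∣ a - t), C h a * F a - C (Nat.gcd h q) t / m * κ| ≤
      ((h / Nat.gcd h q : ℕ) : ℝ) * C (Nat.gcd h q) t * |EE p k (h / Nat.gcd h q * m) b| := by
    intro h
    by_cases hh : h ∈ Icc 1 (3 * H)
    · have hh' := mem_Icc.1 hh
      obtain ⟨b, hb⟩ := term_F K p u C hF hK h q (by omega) hq (hcop h hh) t (V p) F κ
      rw [← hm, hEE] at hb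
      exact ⟨b, fun _ => hb⟩
    · exact ⟨0, fun h' => absurd h' hh⟩
  choose cf hcf using hterm
  have hgroup := hgr H p k q w cu u C hF hu (by omega) hW hp1 hcop hH3 hq t cf
  rw [← hm] at hgroup
  -- the sum
  have hsum : ∑ a ∈ (V p).filter (fun a => (m : ℤ) ∣ a - t),
      (∑ h ∈ Icc 1 (3 * H), w h * C h a) * sw p a * Uk k (xx p a) =
      ∑ h ∈ Icc 1 (3 * H), w h * ∑ a ∈ (V p).filter (fun a => (m : ℤ) ∣ a - t), C h a * F a := by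
    have e1 : ∀ a ∈ (V p).filter (fun a => (m : ℤ) ∣ a - t),
        (∑ h ∈ Icc 1 (3 * H), w h * C h a) * sw p a * Uk k (xx p a) =
        ∑ h ∈ Icc 1 (3 * H), w h * (C h a * F a) := by
      intro a _
      rw [hFf, mul_assoc, sum_mul]
      refine sum_congr rfl fun h _ => ?_
      ring
    rw [sum_congr rfl e1, sum_comm]
    refine sum_congr rfl fun h _ => ?_
    rw [mul_sum]
  have hA : |∑ h ∈ Icc 1 (3 * H), w h * ∑ a ∈ (V p).filter (fun a => (m : ℤ) ∣ a - t), C h a * F a -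
      ∑ h ∈ Icc 1 (3 * H), w h * (C (Nat.gcd h q) t / m * κ)| ≤
      C' * q * (k + 1) * √(m : ℝ) / √(p : ℝ) := by
    refine le_trans ?_ hgroup
    rw [← sum_sub_distrib]
    refine (abs_sum_le_sum_abs _ _).trans (sum_le_sum fun h hh => ?_)
    rw [← mul_sub, abs_mul, abs_of_nonneg (hW.nonneg h), mul_assoc]
    exact mul_le_mul_of_nonneg_left (hcf h hh) (hW.nonneg h)
  have hB : ∑ h ∈ Icc 1 (3 * H), w h * (C (Nat.gcd h q) t / m * κ) =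
      κ / m * ∑ h ∈ Icc 1 (3 * H), w h * C (Nat.gcd h q) t := by
    rw [mul_sum]
    refine sum_congr rfl fun h _ => ?_
    ring
  obtain ⟨S, hS⟩ : ∃ S : ℝ, S = ∑ g ∈ q.divisors, ((q / g).totient : ℝ) / q * C g t := ⟨_, rfl⟩
  have hD : |∑ h ∈ Icc 1 (3 * H), w h * C (Nat.gcd h q) t - S| ≤
      432 * K * Cw * (1 + Real.log q) * (q : ℝ) ^ 3 / √(p : ℝ) := by
    have hCB : ∀ f ∈ q.divisors, 0 ≤ C f t ∧ C f t ≤ (K : ℝ) * f := by
      intro f hf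
      have hfq := Nat.dvd_of_mem_divisors hf
      have hf0 := Nat.pos_of_mem_divisors hf
      refine ⟨hF.nonneg f t, (hF.le hK f t hf0 (hpcq.coprime_dvd_right hfq)).trans ?_⟩
      rw [mul_comm (K : ℝ)]
      exact mul_le_mul_of_nonneg_left (hu.le t) (Nat.cast_nonneg f)
    rw [hS]
    refine (main_F (fun g => C g t) K q hq hCB (3 * H) w).trans ?_
    have h1 : ∀ r ∈ q.divisors, (K : ℝ) * (∑ f ∈ r.divisors, (f : ℝ)) / r *
        |(r : ℝ) * ∑ h ∈ (Icc 1 (3 * H)).filter (r ∣ ·), w h - 1| ≤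
        K * Cw / (H : ℝ) ^ 3 * ((∑ f ∈ r.divisors, (f : ℝ)) / r * (r : ℝ) ^ 3) := by
      intro r hr
      have hr0 : 0 < r := Nat.pos_of_mem_divisors hr
      have h2 := hW.lam r hr0 (Nat.coprime_one_right r)
      have h3 : 0 ≤ (K : ℝ) * (∑ f ∈ r.divisors, (f : ℝ)) / r := by positivity
      calc _ ≤ (K : ℝ) * (∑ f ∈ r.divisors, (f : ℝ)) / r * (Cw * ((r : ℝ) / H) ^ 3) :=
            mul_le_mul_of_nonneg_left h2 h3
        _ = _ := by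
          rw [div_pow]
          ring
    refine (sum_le_sum h1).trans ?_
    rw [← mul_sum]
    have h4 := sig_sum q hq
    have hH30 : (0 : ℝ) < (H : ℝ) ^ 3 := by positivity
    have h5 : K * Cw / (H : ℝ) ^ 3 ≤ 216 * (K * Cw) / √(p : ℝ) := by
      rw [div_le_div_iff₀ hH30 hs0]
      have h6 : 0 ≤ K * Cw := by positivity
      nlinarith
    have hlogq : 0 ≤ Real.log q := Real.log_nonneg hq1
    calc _ ≤ 216 * (K * Cw) / √(p : ℝ) * (2 * (1 + Real.log q) * (q : ℝ) ^ 3) :=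
          mul_le_mul h5 h4 (sum_nonneg fun r _ => by positivity) (by positivity)
      _ = _ := by ring
  -- conclusion
  have htarget : (if k = 0 then Dn K C q t else 0) = κ / m * S := by
    rw [hκ, hS, hm]
    unfold Dn
    split_ifs
    · ring
    · ring
  rw [hsum, htarget]
  rw [hB] at hA
  have hlogq : Real.log q ≤ Real.log p := Real.log_le_log (by linarith) (by exact_mod_cast hqp)
  have hlogq0 : 0 ≤ Real.log q := Real.log_nonneg hq1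
  have hk0 : (0 : ℝ) ≤ k := Nat.cast_nonneg k
  obtain ⟨T, hT⟩ : ∃ T : ℝ, T = (q : ℝ) ^ 2 * (k + 1) := ⟨_, rfl⟩
  have hsq : √(q : ℝ) ≤ q := by
    rw [Real.sqrt_le_left (by linarith)]
    nlinarith
  have hT1 : q * (k + 1) * √(m : ℝ) ≤ √(K : ℝ) * T := by
    rw [hmeq, Real.sqrt_mul hKr.le, hT]
    calc (q : ℝ) * (k + 1) * (√(K : ℝ) * √(q : ℝ)) = √(K : ℝ) * (q * √(q : ℝ)) * (k + 1) := by ring
      _ ≤ √(K : ℝ) * (q * q) * (k + 1) := by gcongr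
      _ = _ := by ring
  have hT2 : K * (q : ℝ) ^ 3 / m ≤ T := by
    rw [hT, hmeq, div_le_iff₀ (by positivity)]
    calc K * (q : ℝ) ^ 3 = (q : ℝ) ^ 2 * 1 * (K * q) := by ring
      _ ≤ (q : ℝ) ^ 2 * (k + 1) * (K * q) := by
          gcongr
          linarith
  have hT0 : 0 ≤ T := by rw [hT]; positivity
  have hD' : |κ / m * ∑ h ∈ Icc 1 (3 * H), w h * C (Nat.gcd h q) t - κ / m * S| ≤
      1296 * Cw * T * (Real.log p / √(p : ℝ)) := by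
    rw [← mul_sub, abs_mul, abs_of_nonneg (div_nonneg hκ0.1 hmr.le)]
    calc κ / m * |∑ h ∈ Icc 1 (3 * H), w h * C (Nat.gcd h q) t - S| ≤
        1 / m * (432 * K * Cw * (1 + Real.log q) * (q : ℝ) ^ 3 / √(p : ℝ)) := by
          gcongr
          exact hκ0.2
      _ = 432 * Cw * (1 + Real.log q) * (K * (q : ℝ) ^ 3 / m) / √(p : ℝ) := by ring
      _ ≤ 432 * Cw * (3 * Real.log p) * T / √(p : ℝ) := by
          have e3 : 1 + Real.log q ≤ 3 * Real.log p := by linarith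
          gcongr
      _ = _ := by ring
  have hA' : |∑ h ∈ Icc 1 (3 * H), w h * ∑ a ∈ (V p).filter (fun a => (m : ℤ) ∣ a - t), C h a * F a -
      κ / m * ∑ h ∈ Icc 1 (3 * H), w h * C (Nat.gcd h q) t| ≤
      2 * C' * √(K : ℝ) * T * (Real.log p / √(p : ℝ)) := by
    refine hA.trans ?_
    calc C' * q * (k + 1) * √(m : ℝ) / √(p : ℝ) = C' * (q * (k + 1) * √(m : ℝ)) * 1 / √(p : ℝ) := by ring
      _ ≤ C' * (√(K : ℝ) * T) * (2 * Real.log p) / √(p : ℝ) := by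
          have e4 : 1 ≤ 2 * Real.log p := by linarith
          gcongr
      _ = _ := by ring
  have e5 := abs_sub_le (∑ h ∈ Icc 1 (3 * H), w h * ∑ a ∈ (V p).filter (fun a => (m : ℤ) ∣ a - t), C h a * F a)
    (κ / m * ∑ h ∈ Icc 1 (3 * H), w h * C (Nat.gcd h q) t) (κ / m * S)
  have hlp : 0 ≤ Real.log p / √(p : ℝ) := div_nonneg (by linarith) hs0.le
  calc _ ≤ _ := e5
    _ ≤ 2 * C' * √(K : ℝ) * T * (Real.log p / √(p : ℝ)) + 1296 * Cw * T * (Real.log p / √(p : ℝ)) :=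
        add_le_add hA' hD'
    _ = (2 * C' * √(K : ℝ) + 1296 * Cw) * T * (Real.log p / √(p : ℝ)) := by ring
    _ ≤ (2 * C' * √(K : ℝ) + 1296 * Cw + (1 + Cw) * K) * T * (Real.log p / √(p : ℝ)) := by
        have e6 : 2 * C' * √(K : ℝ) + 1296 * Cw ≤ 2 * C' * √(K : ℝ) + 1296 * Cw + (1 + Cw) * K := by
          have : 0 ≤ (1 + Cw) * K := by positivity
          linarith
        gcongr
    _ = _ := by
        rw [hT]
        ring

end Pool.Agent.JD
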