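import Pool.Agent.Lib_MP_f1937f_jd.Defs

/-!
# Scalar part of a matrix
-/

set_option autoImplicit false

namespace Pool.Agent.JD

open Finset Pool.Agent.TB Pool.Agent.JB

private theorem cop_blke (M : ℕ) {l q : ℕ} (hl : l.Prime) (hq : q.Prime) (h : l ≠ q) :
    (l ^ M.factorization l).Coprime (q ^ M.factorization q) :=
  Nat.Coprime.pow _ _ ((Nat.coprime_primes hl hq).2 h)

private theorem dvd_blke (M : ℕ) (s : Finset ℕ) (hs : ∀ l ∈ s, l.Prime) (z : ℤ)
    (h : ∀ l ∈ s, ((l ^ M.factorization l : ℕ) : ℤ) ∣ z) : ((∏ l ∈ s, l ^ M.factorization l : ℕ) : ℤ) ∣ z := by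
  rw [Nat.cast_prod]
  refine Finset.prod_dvd_of_coprime ?_ h
  intro l hl q hq hne
  exact Nat.isCoprime_iff_coprime.2 (cop_blke M (hs l hl) (hs q hq) hne)

/-- PIECE [JD-P14] (about 80 lines). PROOF. `S = ∏ l ^ M.factorization l` over the prime factors `l` of `M` for which `l ^ M.factorization l` divides `be`, `ga` and `al - de`, `N` the product over the other prime
factors; coprime prime powers dividing an integer have their product dividing it (`Finset.prod_dvd_of_coprime`-like). A prime `l ∣ N` is one of the other primes. -/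
theorem blk_exists (M : ℕ) (hM : 0 < M) (al be ga de : ℤ) : ∃ N S : ℕ, Blk M N S al be ga de := by
  classical
  set P : ℕ → Prop := fun l => ((l ^ M.factorization l : ℕ) : ℤ) ∣ be ∧ ((l ^ M.factorization l : ℕ) : ℤ) ∣ ga ∧
    ((l ^ M.factorization l : ℕ) : ℤ) ∣ al - de with hP
  have hpr : ∀ (Q : ℕ → Prop) [DecidablePred Q], ∀ l ∈ M.primeFactors.filter Q, l.Prime := fun Q _ l hl =>
    Nat.prime_of_mem_primeFactors (Finset.mem_filter.1 hl).1
  refine ⟨∏ l ∈ M.primeFactors.filter (fun l => ¬ P l), l ^ M.factorization l,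
    ∏ l ∈ M.primeFactors.filter P, l ^ M.factorization l, ?_, ?_, ?_, ?_, ?_, ?_⟩
  · rw [mul_comm, Finset.prod_filter_mul_prod_filter_not]
    exact (Nat.prod_factorization_pow_eq_self hM.ne').symm
  · refine Nat.Coprime.prod_left fun l hl => Nat.Coprime.prod_right fun q hq => ?_
    refine cop_blke M (hpr _ l hl) (hpr _ q hq) ?_
    rintro rfl
    exact (Finset.mem_filter.1 hl).2 (Finset.mem_filter.1 hq).2
  · exact dvd_blke M _ (hpr _) be fun l hl => (Finset.mem_filter.1 hl).2.1
  · exact dvd_blke M _ (hpr _) ga fun l hl => (Finset.mem_filter.1 hl).2.2.1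
  · exact dvd_blke M _ (hpr _) (al - de) fun l hl => (Finset.mem_filter.1 hl).2.2.2
  · intro l hl hdvd
    obtain ⟨q, hq, hlq⟩ := (Prime.dvd_finsetProd_iff (Nat.prime_iff.1 hl) _).1 hdvd
    have h1 : l = q := (Nat.prime_dvd_prime_iff_eq hl (hpr _ q hq)).1 (hl.dvd_of_dvd_pow hlq)
    rw [h1]
    exact (Finset.mem_filter.1 hq).2

end Pool.Agent.JD
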