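import Pool.Agent.Lib_MP_f1937f_jd.Defs

/-!
# Roots in a residue class, one step
-/

set_option autoImplicit false

namespace Pool.Agent.JD

open Finset Pool.Agent.TB Pool.Agent.JB

private lemma rst_card (N : ℕ) (hN : 0 < N) (P : ZMod N → Prop) [DecidablePred P] :
    Nat.card {x : ZMod N // P x} = ((range N).filter (fun n : ℕ => P (n : ZMod N))).card := by
  have : NeZero N := ⟨hN.ne'⟩
  rw [Nat.card_eq_fintype_card, Fintype.card_subtype]
  refine card_nbij' (fun x => x.val) (fun n => (n : ZMod N)) ?_ ?_ ?_ ?_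
  · intro x hx
    simp only [coe_filter, mem_univ, true_and, Set.mem_ofPred_eq, mem_range] at hx ⊢
    refine ⟨ZMod.val_lt x, ?_⟩
    rw [ZMod.natCast_zmod_val]
    exact hx
  · intro n hn
    simp only [coe_filter, mem_univ, true_and, Set.mem_ofPred_eq, mem_range] at hn ⊢
    exact hn.2
  · intro x _
    exact ZMod.natCast_zmod_val x
  · intro n hn
    simp only [coe_filter, Set.mem_ofPred_eq, mem_range] at hn
    exact ZMod.val_natCast_of_lt hn.1

private lemma rst_rs (S : ℕ) (lam d a : ℤ) (e : ℕ) (hS : 0 < S) (he : 0 < e) (Q : ℕ) (hQ : Q = S ^ 2 * e) :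
    rs S lam d a e = ∑ n ∈ range Q, if ((S : ℤ) ∣ (n : ℤ) - lam ∧ ((Q : ℕ) : ℤ) ∣ (n : ℤ) ^ 2 - a * n + d) then 1 else 0 := by
  classical
  subst hQ
  unfold rs
  rw [rst_card _ (by positivity), card_filter]
  refine sum_congr rfl fun n _ => ?_
  congr 1
  rw [map_natCast, eq_iff_iff]
  refine and_congr ?_ ?_
  · rw [← ZMod.intCast_zmod_eq_zero_iff_dvd, Int.cast_sub, sub_eq_zero, Int.cast_natCast]
  · rw [← ZMod.intCast_zmod_eq_zero_iff_dvd]
    push_cast
    rfl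

private lemma rst_one (l : ℕ) (hl : l.Prime) (y u : ℤ) (hu : ¬ (l : ℤ) ∣ u) :
    (∑ i ∈ range l, if ((l : ℤ) ∣ y - u * i) then 1 else 0) = 1 := by
  have : Fact l.Prime := ⟨hl⟩
  have hu0 : (u : ZMod l) ≠ 0 := fun h => hu ((ZMod.intCast_zmod_eq_zero_iff_dvd u l).1 h)
  rw [← card_filter, card_eq_one]
  refine ⟨((y : ZMod l) / (u : ZMod l)).val, ?_⟩
  ext i
  rw [mem_filter, mem_range, mem_singleton, ← ZMod.intCast_zmod_eq_zero_iff_dvd]
  push_cast
  rw [sub_eq_zero]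
  constructor
  · rintro ⟨h1, h2⟩
    have h3 : (y : ZMod l) / (u : ZMod l) = (i : ZMod l) := by
      rw [div_eq_iff hu0, h2, mul_comm]
    rw [h3, ZMod.val_natCast_of_lt h1]
  · intro h
    rw [h]
    refine ⟨ZMod.val_lt _, ?_⟩
    rw [ZMod.natCast_zmod_val]
    field_simp

private lemma rst_per (Q : ℕ) (f : ℕ → ℕ) (hf : ∀ n, f (n + Q) = f n) (l : ℕ) :
    ∑ n ∈ range (Q * l), f n = l * ∑ n ∈ range Q, f n := by
  have hf' : ∀ j n, f (Q * j + n) = f n := by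
    intro j
    induction j with
    | zero => intro n; simp
    | succ j ih => intro n; rw [Nat.mul_succ, add_right_comm, hf, ih]
  induction l with
  | zero => simp
  | succ l ih => rw [Nat.mul_succ, sum_range_add, ih, sum_congr rfl fun n _ => hf' l n]; ring

/-- PIECE [JD-P5] (about 120 lines). PROOF. Exchange the sums: for `x` modulo `S² e l` with `x = lam` modulo `S`, count the `i < l` with
`S² e l ∣ x² - (t + S² e w i) x + d`. There is none unless `S² e ∣ x² - t x + d`, and then exactly one: `x² - t x + d = S² e y`, the condition is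
`l ∣ y - w i x`, and `l ∤ w x` (`x` is a unit modulo `l`: `l ∣ S`, `x² - t x + d = 0` modulo `S`, so `x ∣ d` modulo `l`). The number of the `x` modulo `S² e l` (class of `lam`)
with `S² e ∣ x² - t x + d` is `l` times the number modulo `S² e` (fibres of `ZMod (S² e l) → ZMod (S² e)`). -/
theorem rs_step (S : ℕ) (lam d t w : ℤ) (e l : ℕ) (hS : 0 < S) (he : 0 < e) (hl : l.Prime) (hlS : l ∣ S) (hc : IsCoprime d (S : ℤ))
    (hw : ¬ (l : ℤ) ∣ w) :
    ∑ i ∈ range l, rs S lam d (t + ((S ^ 2 * e : ℕ) : ℤ) * w * i) (e * l) = l * rs S lam d t e := by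
  classical
  obtain ⟨Q, hQ⟩ : ∃ Q : ℕ, Q = S ^ 2 * e := ⟨_, rfl⟩
  rw [← hQ, rst_rs S lam d t e hS he Q hQ]
  have hQ0 : 0 < Q := by rw [hQ]; positivity
  have hlQ : (l : ℤ) ∣ (Q : ℤ) := by
    rw [hQ]
    exact_mod_cast (hlS.trans (dvd_pow_self S two_ne_zero)).mul_right e
  have hSQ : (S : ℤ) ∣ (Q : ℤ) := by
    rw [hQ]
    exact_mod_cast (dvd_pow_self S two_ne_zero).mul_right e
  have hld : ¬ (l : ℤ) ∣ d := by
    intro h
    have h1 : IsCoprime (l : ℤ) (l : ℤ) := IsCoprime.of_isCoprime_of_dvd_left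
      (IsCoprime.of_isCoprime_of_dvd_right hc (Int.natCast_dvd_natCast.2 hlS)) h
    have h2 := isCoprime_self.1 h1
    rw [Int.isUnit_iff] at h2
    have h3 := hl.two_le
    omega
  have hlp : Prime (l : ℤ) := Nat.prime_iff_prime_int.1 hl
  have h1 : ∀ i ∈ range l, rs S lam d (t + ((Q : ℕ) : ℤ) * w * i) (e * l) =
      ∑ n ∈ range (Q * l), if ((S : ℤ) ∣ (n : ℤ) - lam ∧ ((Q * l : ℕ) : ℤ) ∣ (n : ℤ) ^ 2 - (t + ((Q : ℕ) : ℤ) * w * i) * n + d) then 1 else 0 :=
    fun i _ => rst_rs S lam d _ (e * l) hS (Nat.mul_pos he hl.pos) (Q * l) (by rw [hQ, mul_assoc])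
  rw [sum_congr rfl h1, sum_comm]
  rw [← rst_per Q (fun n => if ((S : ℤ) ∣ (n : ℤ) - lam ∧ ((Q : ℕ) : ℤ) ∣ (n : ℤ) ^ 2 - t * n + d) then 1 else 0) ?_ l]
  · refine sum_congr rfl fun n _ => ?_
    by_cases hn : (S : ℤ) ∣ (n : ℤ) - lam ∧ ((Q : ℕ) : ℤ) ∣ (n : ℤ) ^ 2 - t * n + d
    · rw [if_pos hn]
      obtain ⟨y, hy⟩ := hn.2
      have hln : ¬ (l : ℤ) ∣ (n : ℤ) := by
        intro h
        apply hld
        have h2 : (l : ℤ) ∣ (n : ℤ) ^ 2 - t * n + d := hlQ.trans hn.2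
        have h3 : (l : ℤ) ∣ (n : ℤ) ^ 2 - t * n := dvd_sub (Dvd.dvd.pow h two_ne_zero) (Dvd.dvd.mul_left h t)
        exact (dvd_add_right h3).1 h2
      refine Eq.trans ?_ (rst_one l hl y (w * n) (fun h => (hlp.dvd_or_dvd h).elim hw hln))
      refine sum_congr rfl fun i _ => ?_
      congr 1
      rw [eq_iff_iff]
      have h4 : (n : ℤ) ^ 2 - (t + (Q : ℤ) * w * i) * n + d = Q * (y - w * n * i) := by
        linear_combination hy
      rw [h4, Nat.cast_mul]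
      have hQz : (Q : ℤ) ≠ 0 := by exact_mod_cast hQ0.ne'
      constructor
      · rintro ⟨-, h⟩
        exact (mul_dvd_mul_iff_left hQz).1 h
      · intro h
        exact ⟨hn.1, mul_dvd_mul_left _ h⟩
    · rw [if_neg hn]
      refine sum_eq_zero fun i _ => if_neg ?_
      rintro ⟨h2, h3⟩
      apply hn
      refine ⟨h2, ?_⟩
      have h4 : (Q : ℤ) ∣ (n : ℤ) ^ 2 - (t + (Q : ℤ) * w * i) * n + d :=
        (Int.natCast_dvd_natCast.2 (dvd_mul_right Q l)).trans h3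
      have h5 : (n : ℤ) ^ 2 - t * n + d = ((n : ℤ) ^ 2 - (t + (Q : ℤ) * w * i) * n + d) + Q * (w * i * n) := by ring
      rw [h5]
      exact dvd_add h4 (dvd_mul_right _ _)
  · intro n
    have h2 : ((S : ℤ) ∣ ((n + Q : ℕ) : ℤ) - lam) ↔ ((S : ℤ) ∣ (n : ℤ) - lam) := by
      have : ((n + Q : ℕ) : ℤ) - lam = ((n : ℤ) - lam) + Q := by push_cast; ring
      rw [this]
      exact dvd_add_left hSQ
    have h3 : ((Q : ℤ) ∣ ((n + Q : ℕ) : ℤ) ^ 2 - t * ((n + Q : ℕ) : ℤ) + d) ↔ ((Q : ℤ) ∣ (n : ℤ) ^ 2 - t * n + d) := by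
      have : ((n + Q : ℕ) : ℤ) ^ 2 - t * ((n + Q : ℕ) : ℤ) + d = ((n : ℤ) ^ 2 - t * n + d) + Q * (2 * n + Q - t) := by
        push_cast; ring
      rw [this]
      exact dvd_add_left (dvd_mul_right _ _)
    simp only [h2, h3]

end Pool.Agent.JD
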