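import Pool.Agent.Lib_MP_f1937f_jd.PartL
import Pool.Agent.Lib_MP_f1937f_jd.Rs
import Pool.Agent.Lib_MP_f1937f_jd.RsStep
import Pool.Agent.Lib_MP_f1937f_jd.CcStep
import Pool.Agent.Lib_MP_f1937f_jd.T3F

/-!
# The weights of one matrix
-/

set_option autoImplicit false

namespace Pool.Agent.JD

open Finset Pool.Agent.TB Pool.Agent.JB

/-- PIECE [JD-P16] (all theorems of this file, about 150 lines). -/
theorem Cg_nonneg (M N S : ℕ) (al be ga de d : ℤ) (h : ℕ) (t : ℤ) : 0 ≤ Cg M N S al be ga de d h t := by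
  have h1 := CC_nonneg d t (co M h)
  unfold Cg
  split_ifs <;> positivity

/-- the first factor of `Cg` -/
private noncomputable def cgF (N : ℕ) (al be ga de d t : ℤ) : ℝ :=
  if (N : ℤ) ∣ t - (al + de) then (T3 N (N ^ 2) (dvd_pow_self N two_ne_zero) al be ga t d : ℝ) / N else 0

private theorem cgF_congr (N : ℕ) (al be ga de d t t' : ℤ) (h : ((N ^ 2 : ℕ) : ℤ) ∣ t - t') :
    cgF N al be ga de d t = cgF N al be ga de d t' := by
  have h1 : (N : ℤ) ∣ t - t' := by
    refine Dvd.dvd.trans ?_ h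
    push_cast
    exact dvd_pow_self _ two_ne_zero
  unfold cgF
  refine if_congr ?_ ?_ rfl
  · constructor
    · intro h2
      have := dvd_sub h2 h1
      rwa [show t - (al + de) - (t - t') = t' - (al + de) by ring] at this
    · intro h2
      have := dvd_add h2 h1
      rwa [show t' - (al + de) + (t - t') = t - (al + de) by ring] at this
  · rw [T3_congr N (N ^ 2) _ al be ga al be ga t t' d (by simp) (by simp) (by simp) h]

private theorem Cg_eq (M N S : ℕ) (al be ga de d : ℤ) (h : ℕ) (t : ℤ) :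
    Cg M N S al be ga de d h t =
      cgF N al be ga de d t * (S * (rs S al d t (pr S h) : ℝ)) * CC d t (co M h) := rfl

/-- PROOF. `M² h` is a multiple of `N`, `N²`, `S² (pr S h)` and `co M h` (`pr_dvd`, `co_dvd`); `T3_congr`, `rs_congr`, `CC_congr`. -/
theorem Cg_per (M N S : ℕ) (hMN : M = N * S) (al be ga de d : ℤ) (h : ℕ) (a a' : ℤ) (hh : 0 < h) (hd : ((M ^ 2 * h : ℕ) : ℤ) ∣ a - a') :
    Cg M N S al be ga de d h a = Cg M N S al be ga de d h a' := by
  subst hMN
  rw [Cg_eq, Cg_eq]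
  have h1 : ((N ^ 2 : ℕ) : ℤ) ∣ a - a' := by
    refine Dvd.dvd.trans (Int.natCast_dvd_natCast.2 ?_) hd
    rw [mul_pow, mul_assoc]
    exact Dvd.intro _ rfl
  have h2 : ((S ^ 2 * pr S h : ℕ) : ℤ) ∣ a - a' := by
    refine Dvd.dvd.trans (Int.natCast_dvd_natCast.2 ?_) hd
    rw [mul_pow]
    exact Nat.mul_dvd_mul (Dvd.intro_left _ rfl) (pr_dvd S h hh)
  have h3 : ((co (N * S) h : ℕ) : ℤ) ∣ a - a' := by
    refine Dvd.dvd.trans (Int.natCast_dvd_natCast.2 ?_) hd
    exact (co_dvd _ h hh).trans (Dvd.intro_left _ rfl)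
  rw [cgF_congr N al be ga de d a a' h1, rs_congr S al d a a' (pr S h) h2,
    CC_congr (d := d) (d' := d) (by simp) h3]

/-- PROOF. `K = M²`, `K h i = M² h i`. Case `l ∣ N` : `pr S (h l) = pr S h`, `co M (h l) = co M h` (`pr_mul`, `co_mul`, `pr_eq_self`, `co_eq_self`, `l ∤ S`), so by `Cg_per` (with `h`) all `l` values are
`Cg h t`. Case `l ∣ S` : `co M (h l) = co M h`, `pr S (h l) = pr S h * l`; the first factor and `CC` do not change; `M² h = S² (pr S h) w` with `w = N² (h / pr S h)` prime to `l`: `rs_step`. Case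
`l ∤ M` : `pr S (h l) = pr S h`, `co M (h l) = co M h * l`; `M² h = (co M h) w`, `w` prime to `l`?? (`w = M² (h / co M h)`, all primes of which divide `M`): `cc_step`. -/
theorem Cg_step (M N S : ℕ) (hM : 0 < M) (hMN : M = N * S) (hNS : N.Coprime S) (al be ga de d : ℤ) (hdM : IsCoprime d (M : ℤ)) (h l : ℕ) (t : ℤ)
    (hh : 0 < h) (hl : l.Prime) (hc : IsCoprime d ((h * l : ℕ) : ℤ)) :
    ∑ i ∈ range l, Cg M N S al be ga de d (h * l) (t + ((M ^ 2 * h : ℕ) : ℤ) * i) = l * Cg M N S al be ga de d h t := by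
  have hl0 : 0 < l := hl.pos
  have hS0 : 0 < S := by
    rcases Nat.eq_zero_or_pos S with h0 | h0
    · subst h0
      simp at hMN
      omega
    · exact h0
  have hself : ∀ q : ℕ, q.Prime → q ∣ l → q = l := fun q hq h1 => (Nat.prime_dvd_prime_iff_eq hq hl).1 h1
  -- `K h i` is a multiple of `K h`
  have hK : ∀ i : ℕ, ((M ^ 2 * h : ℕ) : ℤ) ∣ (t + ((M ^ 2 * h : ℕ) : ℤ) * i) - t := fun i =>
    ⟨(i : ℤ), by ring⟩
  have hF : ∀ i : ℕ, cgF N al be ga de d (t + ((M ^ 2 * h : ℕ) : ℤ) * i) = cgF N al be ga de d t := by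
    intro i
    refine cgF_congr N al be ga de d _ _ (Dvd.dvd.trans (Int.natCast_dvd_natCast.2 ?_) (hK i))
    rw [hMN, mul_pow, mul_assoc]
    exact Dvd.intro _ rfl
  by_cases hlM : l ∣ M
  · -- `co` does not change
    have hco : co M (h * l) = co M h := by
      rw [co_mul M h l hh hl0, (pr_eq_self M l hl0 (fun q hq h1 => by rw [hself q hq h1]; exact hlM)).2, mul_one]
    have hCC : ∀ i : ℕ, CC d (t + ((M ^ 2 * h : ℕ) : ℤ) * i) (co M h) = CC d t (co M h) := by
      intro i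
      refine CC_congr (by simp) (Dvd.dvd.trans (Int.natCast_dvd_natCast.2 ?_) (hK i))
      exact (co_dvd _ h hh).trans (Dvd.intro_left _ rfl)
    by_cases hlS : l ∣ S
    · have hpr : pr S (h * l) = pr S h * l := by
        rw [pr_mul S h l hh hl0, (pr_eq_self S l hl0 (fun q hq h1 => by rw [hself q hq h1]; exact hlS)).1]
      have hlN : ¬ l ∣ N := by
        intro h1
        have := Nat.dvd_gcd h1 hlS
        rw [hNS.gcd_eq_one] at this
        exact hl.one_lt.ne' (Nat.dvd_one.1 this)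
      have hdS : IsCoprime d (S : ℤ) := by
        rw [hMN, Nat.cast_mul] at hdM
        exact hdM.of_mul_right_right
      have hw : ¬ ((l : ℤ) ∣ ((N ^ 2 * co S h : ℕ) : ℤ)) := by
        rw [Int.natCast_dvd_natCast, hl.dvd_mul]
        rintro (h1 | h1)
        · exact hlN (hl.dvd_of_dvd_pow h1)
        · exact co_prime S h l hl h1 hlS
      have hstep := rs_step S al d t ((N ^ 2 * co S h : ℕ) : ℤ) (pr S h) l hS0 (pr_pos S h) hl hlS hdS hw
      have hM2 : ∀ i : ℕ, t + ((M ^ 2 * h : ℕ) : ℤ) * i =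
          t + ((S ^ 2 * pr S h : ℕ) : ℤ) * ((N ^ 2 * co S h : ℕ) : ℤ) * i := by
        intro i
        have h1 : M ^ 2 * h = (S ^ 2 * pr S h) * (N ^ 2 * co S h) := by
          conv_lhs => rw [hMN, ← pr_mul_co S h hh]
          ring
        rw [h1]
        push_cast
        ring
      have hterm : ∀ i : ℕ, Cg M N S al be ga de d (h * l) (t + ((M ^ 2 * h : ℕ) : ℤ) * i) =
          cgF N al be ga de d t * S * CC d t (co M h) *
            (rs S al d (t + ((S ^ 2 * pr S h : ℕ) : ℤ) * ((N ^ 2 * co S h : ℕ) : ℤ) * i) (pr S h * l) : ℝ) := by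
        intro i
        rw [Cg_eq, hF i, hco, hCC i, hpr, hM2 i]
        ring
      rw [sum_congr rfl fun i _ => hterm i, ← mul_sum, ← Nat.cast_sum, hstep, Cg_eq]
      push_cast
      ring
    · have hpr : pr S (h * l) = pr S h := by
        rw [pr_mul S h l hh hl0, (co_eq_self S l hl0 (fun q hq h1 => by rw [hself q hq h1]; exact hlS)).1, mul_one]
      have hterm : ∀ i : ℕ, Cg M N S al be ga de d (h * l) (t + ((M ^ 2 * h : ℕ) : ℤ) * i) =
          Cg M N S al be ga de d h t := by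
        intro i
        rw [← Cg_per M N S hMN al be ga de d h _ _ hh (hK i), Cg_eq, Cg_eq, hco, hpr]
      rw [sum_congr rfl fun i _ => hterm i]
      simp
  · have hlS : ¬ l ∣ S := fun h1 => hlM (hMN ▸ h1.mul_left N)
    have hpr : pr S (h * l) = pr S h := by
      rw [pr_mul S h l hh hl0, (co_eq_self S l hl0 (fun q hq h1 => by rw [hself q hq h1]; exact hlS)).1, mul_one]
    have hco : co M (h * l) = co M h * l := by
      rw [co_mul M h l hh hl0, (co_eq_self M l hl0 (fun q hq h1 => by rw [hself q hq h1]; exact hlM)).2]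
    have hrs : ∀ i : ℕ, rs S al d (t + ((M ^ 2 * h : ℕ) : ℤ) * i) (pr S h) = rs S al d t (pr S h) := by
      intro i
      refine rs_congr S al d _ _ _ (Dvd.dvd.trans (Int.natCast_dvd_natCast.2 ?_) (hK i))
      rw [hMN, mul_pow]
      exact Nat.mul_dvd_mul (Dvd.intro_left _ rfl) (pr_dvd S h hh)
    have hw : ¬ ((l : ℤ) ∣ ((M ^ 2 * pr M h : ℕ) : ℤ)) := by
      rw [Int.natCast_dvd_natCast, hl.dvd_mul]
      rintro (h1 | h1)
      · exact hlM (hl.dvd_of_dvd_pow h1)
      · exact hlM (pr_prime M h l hl h1)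
    have hcc : IsCoprime d ((co M h * l : ℕ) : ℤ) :=
      hc.of_isCoprime_of_dvd_right (Int.natCast_dvd_natCast.2 (Nat.mul_dvd_mul (co_dvd M h hh) dvd_rfl))
    have hstep := cc_step d t ((M ^ 2 * pr M h : ℕ) : ℤ) (co M h) l (co_pos M h) hl hcc hw
    have hM2 : ∀ i : ℕ, t + ((M ^ 2 * h : ℕ) : ℤ) * i =
        t + ((co M h : ℕ) : ℤ) * ((M ^ 2 * pr M h : ℕ) : ℤ) * i := by
      intro i
      have h1 : M ^ 2 * h = co M h * (M ^ 2 * pr M h) := by
        conv_lhs => rw [← pr_mul_co M h hh]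
        ring
      rw [h1]
      push_cast
      ring
    have hterm : ∀ i : ℕ, Cg M N S al be ga de d (h * l) (t + ((M ^ 2 * h : ℕ) : ℤ) * i) =
        cgF N al be ga de d t * (S * (rs S al d t (pr S h) : ℝ)) *
          CC d (t + ((co M h : ℕ) : ℤ) * ((M ^ 2 * pr M h : ℕ) : ℤ) * i) (co M h * l) := by
      intro i
      rw [Cg_eq, hF i, hco, hpr, hrs i, hM2 i]
    rw [sum_congr rfl fun i _ => hterm i, ← mul_sum, hstep, Cg_eq]
    ring

end Pool.Agent.JD
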