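import Pool.Agent.Lib_MP_f1937f_jd.Defs

/-!
# Elementary properties of the densities
-/

set_option autoImplicit false

namespace Pool.Agent.JD

open Finset Pool.Agent.TB Pool.Agent.JB

/-- PIECE [JD-P22] (all theorems of this file, about 100 lines). -/
theorem DG_nonneg (M : ℕ) (G : Subgroup (GL (Fin 2) (ZMod M))) (d m : ℕ) (t : ℤ) : 0 ≤ DG M G d m t := by
  unfold DG
  split_ifs with h
  · unfold dG
    positivity
  · exact le_rfl

theorem DG_le_one (M : ℕ) (G : Subgroup (GL (Fin 2) (ZMod M))) (d m : ℕ) (hm : 0 < m) (t : ℤ) : DG M G d m t ≤ 1 := by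
  have : NeZero m := ⟨hm.ne'⟩
  unfold DG
  split_ifs with h
  · unfold dG
    refine div_le_one_of_le₀ ?_ (Nat.cast_nonneg _)
    norm_cast
    refine Nat.card_le_card_of_injective (fun g => ⟨g.1, g.2.1, g.2.2.1⟩) ?_
    intro g g' hg
    simp only [Subtype.mk.injEq] at hg
    exact Subtype.ext hg
  · exact zero_le_one

theorem DG_congr (M : ℕ) (G : Subgroup (GL (Fin 2) (ZMod M))) (d d' m : ℕ) (t : ℤ) (h : d ≡ d' [MOD m]) : DG M G d m t = DG M G d' m t := by
  have h1 : (d : ZMod m) = (d' : ZMod m) := (ZMod.natCast_eq_natCast_iff _ _ _).2 h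
  unfold DG dG
  rw [h1]

/-- the sum over the traces -/
theorem DG_sum (M : ℕ) (hM : 0 < M) (G : Subgroup (GL (Fin 2) (ZMod M)))
    (hG : ∀ d : (ZMod M)ˣ, ∃ g ∈ G, g.val.det = (d : ZMod M)) (d : ℕ) (hd : d.Coprime M) :
    ∑ t ∈ range M, DG M G d M (t : ℤ) = 1 := by
  classical
  have : NeZero M := ⟨hM.ne'⟩
  have hself : M ∣ M := dvd_rfl
  have e0 : ∀ t : ℤ, DG M G d M t = dG M G M hself d t := fun t => dif_pos hself
  simp_rw [e0]
  unfold dG
  rw [← Finset.sum_div]
  have hmap : ∀ g : GL (Fin 2) (ZMod M),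
      Matrix.GeneralLinearGroup.map (ZMod.castHom hself (ZMod M)) g = g := by
    intro g
    have h1 : ZMod.castHom hself (ZMod M) = RingHom.id (ZMod M) := Subsingleton.elim _ _
    rw [h1]
    ext i j
    rfl
  have hpos : 0 < Nat.card {g : GL (Fin 2) (ZMod M) //
      Matrix.GeneralLinearGroup.map (ZMod.castHom hself (ZMod M)) g ∈ G ∧
      g.val.det = (d : ZMod M)} := by
    obtain ⟨g, hg, hg'⟩ := hG (ZMod.unitOfCoprime d hd)
    have : Nonempty {g : GL (Fin 2) (ZMod M) //
      Matrix.GeneralLinearGroup.map (ZMod.castHom hself (ZMod M)) g ∈ G ∧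
      g.val.det = (d : ZMod M)} := ⟨⟨g, by rw [hmap]; exact hg, by rw [hg']; rfl⟩⟩
    exact Nat.card_pos
  have hsum : ∑ t ∈ range M, Nat.card {g : GL (Fin 2) (ZMod M) //
      Matrix.GeneralLinearGroup.map (ZMod.castHom hself (ZMod M)) g ∈ G ∧
      g.val.det = (d : ZMod M) ∧ g.val.trace = (((t : ℤ)) : ZMod M)} = Nat.card {g : GL (Fin 2) (ZMod M) //
      Matrix.GeneralLinearGroup.map (ZMod.castHom hself (ZMod M)) g ∈ G ∧
      g.val.det = (d : ZMod M)} := by
    simp_rw [Nat.card_eq_fintype_card, Fintype.card_subtype]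
    rw [Finset.card_eq_sum_card_fiberwise (f := fun g : GL (Fin 2) (ZMod M) => (g.val.trace).val)
      (t := range M) (fun g _ => by simpa using ZMod.val_lt _)]
    refine Finset.sum_congr rfl fun t ht => ?_
    rw [Finset.filter_filter]
    congr 1
    ext g
    simp only [Finset.mem_filter, Finset.mem_univ, true_and, and_assoc]
    refine and_congr_right fun _ => and_congr_right fun _ => ?_
    rw [Int.cast_natCast]
    constructor
    · intro h
      rw [h, ZMod.val_natCast_of_lt (Finset.mem_range.1 ht)]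
    · intro h
      rw [← h, ZMod.natCast_zmod_val]
  rw [div_eq_one_iff_eq (by exact_mod_cast hpos.ne')]
  exact_mod_cast hsum

end Pool.Agent.JD
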