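import Pool.Agent.Lib_MP_f1937f_jb.Defs

/-!
# Independence theorem for the Lang-Trotter conjecture: definitions

Library for `MP_f1937f_nt/Independence`. `K = M ^ 2`. `Fam`: a family of weights for the levels `h`; `Dn` its densities;
`T3` counts the matrices of given trace and determinant in a residue class, `rs` the roots of `x² - a x + d` in a residue class,
`pr P h` is the part of `h` made of the primes which divide `P`, `co P h` the complementary part.
-/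

set_option autoImplicit false

namespace Pool.Agent.JD

open Finset Pool.Agent.TB Pool.Agent.JB

/-! ## families of weights, for one prime `p` -/

/-- a family of weights of the levels `h`, with base modulus `K` and bottom function `u` -/
structure Fam (K p : ℕ) (u : ℤ → ℝ) (C : ℕ → ℤ → ℝ) : Prop where
  nonneg : ∀ h a, 0 ≤ C h a
  per : ∀ (h : ℕ) (a a' : ℤ), 0 < h → ((K * h : ℕ) : ℤ) ∣ a - a' → C h a = C h a'
  one : ∀ a, C 1 a = u a
  avg : ∀ (h m : ℕ) (t : ℤ), 0 < h → 0 < m → p.Coprime h →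
    ∑ b ∈ (range (K * (h / Nat.gcd h m * m))).filter (fun b : ℕ => ((K * m : ℕ) : ℤ) ∣ (b : ℤ) - t), C h b =
      ((h / Nat.gcd h m : ℕ) : ℝ) * C (Nat.gcd h m) t

/-- the density of the class `t` modulo `K q` -/
noncomputable def Dn (K : ℕ) (C : ℕ → ℤ → ℝ) (q : ℕ) (t : ℤ) : ℝ :=
  (∑ g ∈ q.divisors, ((q / g).totient : ℝ) / q * C g t) / ((K * q : ℕ) : ℝ)

/-- a law for the prime `p` with the densities `D q` modulo `K q`, jointly with the Sato-Tate distribution, with an error of the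
strength of GRH -/
structure GLK (K : ℕ) (D : ℕ → ℤ → ℝ) (C : ℝ) (p : ℕ) (ρ : ℤ → ℝ) : Prop where
  nonneg : ∀ a, 0 ≤ ρ a
  supp : ∀ a, ρ a ≠ 0 → a ∈ V p
  total : ∑ a ∈ V p, ρ a = 1
  equi : ∀ q : ℕ, 0 < q → q ≤ p → ¬ p ∣ q → ∀ (t : ℤ) (k : ℕ),
    |∑ a ∈ (V p).filter (fun a => ((K * q : ℕ) : ℤ) ∣ a - t), ρ a * Uk k (xx p a) - (if k = 0 then D q t else 0)| ≤
      C * (q : ℝ) ^ 2 * (k + 1) * (Real.log p / √(p : ℝ))

/-- the same for all moduli `m` divisible by `M` -/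
structure GLM (M : ℕ) (D : ℕ → ℤ → ℝ) (C : ℝ) (p : ℕ) (ρ : ℤ → ℝ) : Prop where
  nonneg : ∀ a, 0 ≤ ρ a
  supp : ∀ a, ρ a ≠ 0 → a ∈ V p
  total : ∑ a ∈ V p, ρ a = 1
  equi : ∀ m : ℕ, 0 < m → M ∣ m → m ≤ p → ¬ p ∣ m → ∀ (t : ℤ) (k : ℕ),
    |∑ a ∈ (V p).filter (fun a => (m : ℤ) ∣ a - t), ρ a * Uk k (xx p a) - (if k = 0 then D m t else 0)| ≤
      C * (m : ℝ) ^ 2 * (k + 1) * (Real.log p / √(p : ℝ))

/-- the complete joint information; `D d m t` is the density of the trace `t` modulo `m` for the determinant `d` -/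
def InfoD (M : ℕ) (D : ℕ → ℕ → ℤ → ℝ) (a : ℕ → ℤ) (s : ℝ) : Prop :=
  ∃ C : ℝ, ∀ m : ℕ, 0 < m → M ∣ m → ∀ (t : ℤ) (d : ℕ), d.Coprime m → ∀ k x : ℕ, 2 ≤ x →
    |∑ p ∈ ((range (x + 1)).filter Nat.Prime).filter (fun p => p ≡ d [MOD m] ∧ (m : ℤ) ∣ a p - t), Uk k (xx p (a p)) -
        (if k = 0 then D d m t else 0) *
          ((((range (x + 1)).filter Nat.Prime).filter (fun p => p ≡ d [MOD m])).card : ℝ)| ≤
      C * m * (k + 1) * √(x : ℝ) * Real.log ((m : ℝ) * (k + 2) * x) ^ s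

/-! ## counting matrices -/

/-- number of the triples `(x, y, z)` modulo `Q` in a class modulo `M` with `x (t - x) - y z = d` -/
noncomputable def T3 (M Q : ℕ) (h : M ∣ Q) (al be ga t d : ℤ) : ℕ :=
  Nat.card {v : ZMod Q × ZMod Q × ZMod Q // (ZMod.castHom h (ZMod M) v.1 = (al : ZMod M) ∧
    ZMod.castHom h (ZMod M) v.2.1 = (be : ZMod M) ∧ ZMod.castHom h (ZMod M) v.2.2 = (ga : ZMod M)) ∧
    v.1 * ((t : ZMod Q) - v.1) - v.2.1 * v.2.2 = (d : ZMod Q)}

theorem sdvd (S e : ℕ) : S ∣ S ^ 2 * e := (dvd_pow_self S two_ne_zero).mul_right e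

/-- number of the roots of `x² - a x + d` modulo `S² e` in the class of `lam` modulo `S` -/
noncomputable def rs (S : ℕ) (lam d a : ℤ) (e : ℕ) : ℕ :=
  Nat.card {x : ZMod (S ^ 2 * e) // ZMod.castHom (sdvd S e) (ZMod S) x = (lam : ZMod S) ∧
    x ^ 2 - (a : ZMod (S ^ 2 * e)) * x + (d : ZMod (S ^ 2 * e)) = 0}

/-- the part of `h` made of the primes which divide `P` -/
def pr (P h : ℕ) : ℕ := ∏ l ∈ h.primeFactors.filter (fun l => l ∣ P), l ^ h.factorization l

/-- the part of `h` made of the primes which do not divide `P` -/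
def co (P h : ℕ) : ℕ := ∏ l ∈ h.primeFactors.filter (fun l => ¬ l ∣ P), l ^ h.factorization l

/-- `M = N S`, the matrix `(al, be; ga, de)` is scalar modulo `S`, and not scalar modulo the exact power of `l` in `M` for any
prime `l ∣ N` -/
structure Blk (M N S : ℕ) (al be ga de : ℤ) : Prop where
  mul : M = N * S
  cop : N.Coprime S
  dbe : (S : ℤ) ∣ be
  dga : (S : ℤ) ∣ ga
  dad : (S : ℤ) ∣ al - de
  ns : ∀ l : ℕ, l.Prime → l ∣ N → ¬ (((l ^ M.factorization l : ℕ) : ℤ) ∣ be ∧ ((l ^ M.factorization l : ℕ) : ℤ) ∣ ga ∧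
    ((l ^ M.factorization l : ℕ) : ℤ) ∣ al - de)

/-- number of the matrices modulo `Q` which reduce to `g₀` modulo `M`, of trace `t` and determinant `d` -/
noncomputable def NN (M Q : ℕ) (h : M ∣ Q) (g₀ : GL (Fin 2) (ZMod M)) (t d : ℤ) : ℕ :=
  Nat.card {g : GL (Fin 2) (ZMod Q) // Matrix.GeneralLinearGroup.map (ZMod.castHom h (ZMod M)) g = g₀ ∧
    g.val.det = (d : ZMod Q) ∧ g.val.trace = (t : ZMod Q)}

/-- the weights for the matrix `(al, be; ga, de)` modulo `M = N S` -/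
noncomputable def Cg (M N S : ℕ) (al be ga de d : ℤ) (h : ℕ) (t : ℤ) : ℝ :=
  (if (N : ℤ) ∣ t - (al + de) then (T3 N (N ^ 2) (dvd_pow_self N two_ne_zero) al be ga t d : ℝ) / N else 0) *
    (S * (rs S al d t (pr S h) : ℝ)) * CC d t (co M h)

/-! ## densities -/

/-- the density of the trace `t` modulo `m` among the matrices of `GL₂(ℤ/m)` which reduce into `G` modulo `M` and have
determinant `d` -/
noncomputable def dG (M : ℕ) (G : Subgroup (GL (Fin 2) (ZMod M))) (m : ℕ) (h : M ∣ m) (d : ℕ) (t : ℤ) : ℝ :=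
  (Nat.card {g : GL (Fin 2) (ZMod m) // Matrix.GeneralLinearGroup.map (ZMod.castHom h (ZMod M)) g ∈ G ∧
      g.val.det = (d : ZMod m) ∧ g.val.trace = (t : ZMod m)} : ℝ) /
    (Nat.card {g : GL (Fin 2) (ZMod m) // Matrix.GeneralLinearGroup.map (ZMod.castHom h (ZMod M)) g ∈ G ∧
      g.val.det = (d : ZMod m)} : ℝ)

/-- `K = M ^ 2` times the density modulo `K` -/
noncomputable def uu (M : ℕ) (G : Subgroup (GL (Fin 2) (ZMod M))) (d : ℕ) (t : ℤ) : ℝ :=
  ((M ^ 2 : ℕ) : ℝ) * dG M G (M ^ 2) (dvd_pow_self M two_ne_zero) d t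

/-- the trace `t` is allowed for `p`: it occurs with the determinant `p` modulo every `m` prime to `p` -/
def Alw (M : ℕ) (G : Subgroup (GL (Fin 2) (ZMod M))) (p : ℕ) (t : ℤ) : Prop :=
  p.Coprime M ∧ ∀ (m : ℕ) (h : M ∣ m), 0 < m → p.Coprime m → ∃ g : GL (Fin 2) (ZMod m),
    Matrix.GeneralLinearGroup.map (ZMod.castHom h (ZMod M)) g ∈ G ∧ g.val.det = (p : ZMod m) ∧ g.val.trace = (t : ZMod m)

/-- `dG` without the proof of divisibility -/
noncomputable def DG (M : ℕ) (G : Subgroup (GL (Fin 2) (ZMod M))) (d m : ℕ) (t : ℤ) : ℝ :=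
  if h : M ∣ m then dG M G m h d t else 0

end Pool.Agent.JD
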