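import Pool.Agent.Lib_MP_f1937f_jd.Defs
import Pool.Agent.Lib_MP_f1937f_jb.Avg

/-!
# Elementary properties of families and their densities
-/

set_option autoImplicit false

namespace Pool.Agent.JD

open Finset Pool.Agent.TB Pool.Agent.JB

/-- PIECE [JD-A0] (all theorems of this file, about 100 lines). PROOF. `avg` with `m = 1` : the sum of `C h b` over `b < K h`, `K ∣ b - a`, is `h * C 1 a = h * u a`; it contains the term of the `b` with `K h ∣ b - a` and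
all terms are `≥ 0` (see `CC_le` in `Lib_MP_f1937f_jb/Avg.lean`). -/
theorem Fam.le {K p : ℕ} {u : ℤ → ℝ} {C : ℕ → ℤ → ℝ} (hF : Fam K p u C) (hK : 0 < K) (h : ℕ) (a : ℤ) (hh : 0 < h) (hc : p.Coprime h) :
    C h a ≤ h * u a := by
  have h1 := hF.avg h 1 a hh one_pos hc
  rw [Nat.gcd_one_right, Nat.div_one, mul_one, mul_one, hF.one] at h1
  have hKh : (0 : ℤ) < ((K * h : ℕ) : ℤ) := by exact_mod_cast Nat.mul_pos hK hh
  have h0 : 0 ≤ a % ((K * h : ℕ) : ℤ) := Int.emod_nonneg _ hKh.ne'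
  have h2 : a % ((K * h : ℕ) : ℤ) < ((K * h : ℕ) : ℤ) := Int.emod_lt_of_pos _ hKh
  have h4 : ((K * h : ℕ) : ℤ) ∣ a - a % ((K * h : ℕ) : ℤ) :=
    ⟨a / ((K * h : ℕ) : ℤ), by have := Int.emod_add_mul_ediv a ((K * h : ℕ) : ℤ); linear_combination -this⟩
  have h3 : C h a = C h (((a % ((K * h : ℕ) : ℤ)).toNat : ℕ) : ℤ) := by
    refine hF.per h _ _ hh ?_
    rw [Int.toNat_of_nonneg h0]
    exact h4
  rw [h3, ← h1]
  refine Finset.single_le_sum (f := fun b : ℕ => C h (b : ℤ)) (fun b _ => hF.nonneg h b) ?_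
  rw [Finset.mem_filter, Finset.mem_range]
  refine ⟨by omega, ?_⟩
  rw [Int.toNat_of_nonneg h0]
  have h5 : (K : ℤ) ∣ ((K * h : ℕ) : ℤ) := by
    rw [Nat.cast_mul]
    exact Dvd.intro _ rfl
  have h6 := h5.trans h4
  have h7 : a % ((K * h : ℕ) : ℤ) - a = -(a - a % ((K * h : ℕ) : ℤ)) := by ring
  rw [h7]
  exact (dvd_neg.2 h6)

theorem Dn_nonneg {K p : ℕ} {u : ℤ → ℝ} {C : ℕ → ℤ → ℝ} (hF : Fam K p u C) (q : ℕ) (t : ℤ) : 0 ≤ Dn K C q t := by
  unfold Dn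
  refine div_nonneg (Finset.sum_nonneg fun g _ => mul_nonneg (div_nonneg (Nat.cast_nonneg _) (Nat.cast_nonneg _))
    (hF.nonneg g t)) (Nat.cast_nonneg _)

/-- `C g t ≤ g u t ≤ g K`, `φ (q / g) * g ≤ q`, at most `q` divisors. -/
theorem Dn_le {K p : ℕ} {c : ℝ} {u : ℤ → ℝ} {C : ℕ → ℤ → ℝ} (hF : Fam K p u C) (hK : 0 < K) (hu : UV K c u) (q : ℕ) (hq : 0 < q)
    (hc : p.Coprime q) (t : ℤ) : Dn K C q t ≤ 1 := by
  have hq' : (0 : ℝ) < q := Nat.cast_pos.mpr hq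
  have hK' : (0 : ℝ) < K := Nat.cast_pos.mpr hK
  have h1 : ∀ g ∈ q.divisors, ((q / g).totient : ℝ) / q * C g t ≤ K := by
    intro g hg
    have hgn : g ∣ q := Nat.dvd_of_mem_divisors hg
    have hg0 : 0 < g := Nat.pos_of_dvd_of_pos hgn hq
    have h2 : C g t ≤ g * K :=
      (hF.le hK g t hg0 (Nat.Coprime.coprime_dvd_right hgn hc)).trans
        (mul_le_mul_of_nonneg_left (hu.le t) (Nat.cast_nonneg _))
    have h3 : ((q / g).totient : ℝ) ≤ ((q / g : ℕ) : ℝ) := Nat.cast_le.mpr (Nat.totient_le _)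
    have h4 : ((q / g : ℕ) : ℝ) * g = q := by
      rw [← Nat.cast_mul, Nat.div_mul_cancel hgn]
    rw [div_mul_eq_mul_div, div_le_iff₀ hq']
    calc ((q / g).totient : ℝ) * C g t ≤ ((q / g : ℕ) : ℝ) * (g * K) :=
          mul_le_mul h3 h2 (hF.nonneg g t) (Nat.cast_nonneg _)
      _ = (((q / g : ℕ) : ℝ) * g) * K := by ring
      _ = K * q := by rw [h4]; ring
  unfold Dn
  rw [div_le_one (by positivity)]
  refine (Finset.sum_le_sum h1).trans ?_
  rw [Finset.sum_const, nsmul_eq_mul, Nat.cast_mul, mul_comm]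
  exact mul_le_mul_of_nonneg_left (Nat.cast_le.mpr (Nat.card_divisors_le_self q)) hK'.le

theorem Dn_one {K p : ℕ} {u : ℤ → ℝ} {C : ℕ → ℤ → ℝ} (hF : Fam K p u C) (t : ℤ) : Dn K C 1 t = u t / K := by
  unfold Dn
  simp [hF.one]

end Pool.Agent.JD
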