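import Pool.Agent.Lib_MP_f1937f_jd.BaseF
import Pool.Agent.Lib_MP_f1937f_jb.AsymJ
import Pool.Agent.Lib_MP_f1937f_tb.Spike
import Pool.Agent.Lib_MP_f1937f_tb.SpikeEqui
import Pool.Agent.Lib_MP_f1937f_tb.LawSpike

/-!
# The law without small traces
-/

set_option autoImplicit false

namespace Pool.Agent.JD

open Finset Pool.Agent.TB Pool.Agent.JB

/-- the number of the integers `a` with `|a| ≤ x` -/
private theorem ej_card (s : Finset ℤ) {x : ℝ} (hx : 0 ≤ x) (hs : ∀ a ∈ s, |(a : ℝ)| ≤ x) :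
    (s.card : ℝ) ≤ 2 * x + 1 := by
  have h1 : s ⊆ Finset.Icc (-⌊x⌋) ⌊x⌋ := by
    intro a ha
    have h := abs_le.1 (hs a ha)
    rw [Finset.mem_Icc]
    constructor
    · have : -a ≤ ⌊x⌋ := by
        rw [Int.le_floor]
        push_cast
        linarith [h.1]
      omega
    · rw [Int.le_floor]
      exact h.2
  have h2 : s.card ≤ (Finset.Icc (-⌊x⌋) ⌊x⌋).card := Finset.card_le_card h1
  rw [Int.card_Icc] at h2
  have h3 : 0 ≤ ⌊x⌋ := Int.floor_nonneg.2 hx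
  have h4 : ((⌊x⌋ + 1 - -⌊x⌋).toNat : ℤ) = 2 * ⌊x⌋ + 1 := by
    rw [Int.toNat_of_nonneg (by omega)]
    ring
  have h5 : (s.card : ℤ) ≤ 2 * ⌊x⌋ + 1 := by
    rw [← h4]
    exact_mod_cast h2
  have h6 : (s.card : ℝ) ≤ 2 * (⌊x⌋ : ℝ) + 1 := by exact_mod_cast h5
  have h7 := Int.floor_le x
  linarith

private noncomputable def ejg (M : ℕ) (ν : ℤ → ℝ) (a₀ a : ℤ) : ℝ :=
  (if a = a₀ then 1 else 0) - (if (M : ℤ) ∣ a - a₀ then ν ((a - a₀) / M) else 0)

private theorem ejg_self (M : ℕ) (ν : ℤ → ℝ) (a : ℤ) : ejg M ν a a = 1 - ν 0 := by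
  unfold ejg
  rw [if_pos rfl, sub_self, if_pos (dvd_zero _), Int.zero_ediv]

private theorem ejg_ne (M : ℕ) (hM : 0 < M) (ν : ℤ → ℝ) {a₀ a : ℤ} (ha : a ≠ a₀) :
    ejg M ν a₀ a = 0 ∨ ∃ x : ℤ, x ≠ 0 ∧ a - a₀ = M * x ∧ ejg M ν a₀ a = -ν x := by
  have hMz : (M : ℤ) ≠ 0 := by exact_mod_cast hM.ne'
  unfold ejg
  rw [if_neg ha]
  by_cases h : (M : ℤ) ∣ a - a₀
  · obtain ⟨x, hx⟩ := h
    refine Or.inr ⟨x, ?_, hx, ?_⟩
    · rintro rfl
      rw [mul_zero] at hx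
      exact ha (by linarith)
    · rw [if_pos ⟨x, hx⟩, hx, Int.mul_ediv_cancel_left x hMz, zero_sub]
  · exact Or.inl (by rw [if_neg h, sub_zero])

/-- one term of the correction -/
private theorem ej_term (M : ℕ) (hM : 0 < M) (p : ℕ) (hp : 1 ≤ p) (R : ℝ) (hR : 0 ≤ R) (ν : ℤ → ℝ)
    (hsupp : ∀ x : ℤ, √(p : ℝ) / (4 * M) < |(x : ℝ)| → ν x = 0)
    (hsize : ∀ x : ℤ, x ≠ 0 → |ν x| ≤ 24 * (R / (√(p : ℝ) / (4 * M))) * (x.natAbs.divisors.card : ℝ))
    (hzero : |ν 0| ≤ 1 / 2) (B Q : ℝ) (hQ0 : 0 ≤ Q)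
    (hQ : ∀ n : ℕ, n ≠ 0 → (n : ℝ) ≤ √(p : ℝ) →
      48 * (B * (R / (√(p : ℝ) / (4 * M)))) * (n.divisors.card : ℝ) ≤ Q)
    (b₀ : ℝ) (hb0 : 0 ≤ b₀) (hbB : b₀ ≤ B) {a₀ a : ℤ} (ha : a ≠ a₀) :
    |b₀ * (ejg M ν a₀ a / (1 - ν 0))| ≤ Q := by
  have hM' : (0 : ℝ) < (M : ℝ) := by exact_mod_cast hM
  have hM1 : (1 : ℝ) ≤ (M : ℝ) := by exact_mod_cast hM
  have hs0 : 0 < √(p : ℝ) := Real.sqrt_pos.2 (by exact_mod_cast hp)
  rcases ejg_ne M hM ν ha with h | ⟨x, hx0, hx, h⟩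
  · rw [h, zero_div, mul_zero, abs_zero]
    exact hQ0
  · rw [h]
    by_cases hY : √(p : ℝ) / (4 * M) < |(x : ℝ)|
    · rw [hsupp x hY, neg_zero, zero_div, mul_zero, abs_zero]
      exact hQ0
    · rw [not_lt] at hY
      have hz := (abs_le.1 hzero).2
      have h1 : (1 : ℝ) / 2 ≤ 1 - ν 0 := by linarith
      have hxn : ((x.natAbs : ℕ) : ℝ) = |(x : ℝ)| := by
        rw [Nat.cast_natAbs, Int.cast_abs]
      have hxs : ((x.natAbs : ℕ) : ℝ) ≤ √(p : ℝ) := by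
        rw [hxn]
        refine hY.trans ?_
        rw [div_le_iff₀ (by positivity)]
        nlinarith
      have h2 := hQ x.natAbs (Int.natAbs_ne_zero.2 hx0) hxs
      have h3 := hsize x hx0
      rw [abs_mul, abs_div, abs_neg, abs_of_nonneg hb0, abs_of_pos (by linarith : 0 < 1 - ν 0)]
      have h4 : |ν x| / (1 - ν 0) ≤
          2 * (24 * (R / (√(p : ℝ) / (4 * M))) * (x.natAbs.divisors.card : ℝ)) := by
        rw [div_le_iff₀ (by linarith)]
        have h5 : 0 ≤ 24 * (R / (√(p : ℝ) / (4 * M))) * (x.natAbs.divisors.card : ℝ) := by positivity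
        nlinarith
      have h6 : 0 ≤ 2 * (24 * (R / (√(p : ℝ) / (4 * M))) * (x.natAbs.divisors.card : ℝ)) := by
        positivity
      calc b₀ * (|ν x| / (1 - ν 0))
          ≤ B * (2 * (24 * (R / (√(p : ℝ) / (4 * M))) * (x.natAbs.divisors.card : ℝ))) :=
            mul_le_mul hbB h4 (by positivity) (hb0.trans hbB)
        _ = 48 * (B * (R / (√(p : ℝ) / (4 * M)))) * (x.natAbs.divisors.card : ℝ) := by ring
        _ ≤ Q := h2

/-- a class mod `m` of the corrected law: the three parts of the sum -/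
private theorem ej_split (M : ℕ) (ν : ℤ → ℝ) (hν : 1 - ν 0 ≠ 0) (b : ℤ → ℝ) (A F : Finset ℤ)
    (U : ℤ → ℝ) :
    ∑ a ∈ F, (if a ∈ A then 0 else b a - ∑ a₀ ∈ A.erase a, b a₀ * (ejg M ν a₀ a / (1 - ν 0))) * U a =
      ∑ a ∈ F, b a * U a - ∑ a₀ ∈ A, (b a₀ / (1 - ν 0)) * ∑ a ∈ F, ejg M ν a₀ a * U a +
        ∑ a ∈ F.filter (· ∈ A), (∑ a₀ ∈ A.erase a, b a₀ * (ejg M ν a₀ a / (1 - ν 0))) * U a := by
  have h1 : ∑ a₀ ∈ A, (b a₀ / (1 - ν 0)) * ∑ a ∈ F, ejg M ν a₀ a * U a =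
      ∑ a ∈ F, (∑ a₀ ∈ A, b a₀ * (ejg M ν a₀ a / (1 - ν 0))) * U a := by
    simp_rw [mul_sum, sum_mul]
    rw [sum_comm]
    refine sum_congr rfl fun a _ => sum_congr rfl fun a₀ _ => ?_
    ring
  rw [h1, sum_filter, ← sum_sub_distrib, ← sum_add_distrib]
  refine sum_congr rfl fun a _ => ?_
  by_cases ha : a ∈ A
  · rw [if_pos ha, if_pos ha, ← Finset.add_sum_erase A _ ha, ejg_self, div_self hν]
    ring
  · rw [if_neg ha, if_neg ha, Finset.erase_eq_of_notMem ha]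
    ring

/-- PIECE [JD-A6] (about 330 lines, adapt `empty_J` of `Lib_MP_f1937f_jb/EmptyJ.lean`, copy its private lemmas; `M` becomes `K`, `u a * W a * sw p a` becomes `W a * sw p a`, `m₁ n` becomes `K q`, no normalisation at the end). PROOF. As there:
`b a = W a * sw p a`, `A = {a : |a| ≤ log p}`, `μ a = 0` on `A`, `μ a = b a - S a` outside. `b a ≤ E p ^ (1/6) / √p = E p ^ (-1/3)`. `spike_equi K` with the modulus `K q`: `7 ((K q) √(K q)) (k + 1) / R ≤ 7 (K √K) q ^ 2 (k + 1) / R` (constants depend on `K`).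
New: use `asym_empty` with `c' / 2` in place of `c' = cu * c * (3 / 10)`, so that all corrections together are at most HALF of the lower bound `c' / log p / √p` of `b a` (`b a ≥ (c / log p) (u a) (sw p a)`, `u a ≥ cu` where `u a > 0`,
`sw p a ≥ (3 / 10) / √p` for `|a| ≤ √p / 2`); this gives the last but one claim. `u a = 0` : `b a = 0` (`W a = 0`), and a term of `S a` which is not `0` has `b a₀ ≠ 0`, so `u a₀ ≠ 0`, and `K ∣ a - a₀`, so `u a = u a₀`. -/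
theorem empty_F (K : ℕ) (hK : 0 < K) (cu : ℝ) (hcu : 0 < cu) : ∃ (E c' : ℝ) (p₀ : ℕ), 0 ≤ E ∧ 0 < c' ∧ 2 ≤ p₀ ∧ ∀ p : ℕ, p.Prime → p₀ ≤ p →
    ∀ (u : ℤ → ℝ) (C : ℕ → ℤ → ℝ), Fam K p u C → UV K cu u → ∃ μ : ℤ → ℝ,
      (∀ a, 0 ≤ μ a) ∧ (∀ a : ℤ, |(a : ℝ)| ≤ Real.log p → μ a = 0) ∧ (∀ a, u a = 0 → μ a = 0) ∧
      (∀ a : ℤ, 0 < u a → Real.log p < |(a : ℝ)| → |(a : ℝ)| ≤ √(p : ℝ) / 2 → c' / Real.log p / √(p : ℝ) ≤ μ a) ∧
      ∀ q : ℕ, 0 < q → q ≤ p → ¬ p ∣ q → ∀ (t : ℤ) (k : ℕ),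
        |∑ a ∈ (V p).filter (fun a => ((K * q : ℕ) : ℤ) ∣ a - t), μ a * Uk k (xx p a) - (if k = 0 then Dn K C q t else 0)| ≤
          E * (q : ℝ) ^ 2 * (k + 1) * (Real.log p / √(p : ℝ)) := by
  classical
  obtain ⟨E, c, p₁, hE0, hc, hp₁2, hbase⟩ := base_F K hK
  have hK' : (0 : ℝ) < (K : ℝ) := by exact_mod_cast hK
  have hK1 : (1 : ℝ) ≤ (K : ℝ) := by exact_mod_cast hK
  obtain ⟨c'', hc''⟩ : ∃ c'', c'' = cu * c * (3 / 10) := ⟨_, rfl⟩
  have hc''0 : 0 < c'' := by rw [hc'']; positivity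
  obtain ⟨c', hc'⟩ : ∃ c', c' = c'' / 2 := ⟨_, rfl⟩
  have hc'0 : 0 < c' := by rw [hc']; positivity
  obtain ⟨Ac, hAc⟩ : ∃ Ac, Ac = 192 * (K : ℝ) * E := ⟨_, rfl⟩
  have hAc0 : 0 ≤ Ac := by rw [hAc]; positivity
  obtain ⟨p₂, hp₂2, hasym⟩ := asym_empty K hK Ac c' hAc0 hc'0
  obtain ⟨E', hE'⟩ : ∃ E', E' = E + (28 + 8 * c') * (K * √(K : ℝ)) := ⟨_, rfl⟩
  have hE'0 : 0 ≤ E' := by rw [hE']; positivity
  refine ⟨E', c', max p₁ p₂, hE'0, hc'0, le_trans hp₁2 (le_max_left _ _),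
    fun p hpr hp u C hFam hu => ?_⟩
  have hpp₁ : p₁ ≤ p := le_trans (le_max_left _ _) hp
  have hpp₂ : p₂ ≤ p := le_trans (le_max_right _ _) hp
  have hp2 : 2 ≤ p := hpr.two_le
  have hp1 : 1 ≤ p := by omega
  have hp0 : (0 : ℝ) < (p : ℝ) := by exact_mod_cast hp1
  have hs0 : 0 < √(p : ℝ) := Real.sqrt_pos.2 hp0
  obtain ⟨hR1, hRY, hlog4, hasy1, hasy2⟩ := hasym p hpp₂
  obtain ⟨W, hW, hWz, hWe⟩ := hbase p hpr hpp₁ cu u C hFam hu
  have hlog : 1 / 2 ≤ Real.log p := by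
    have h3 : Real.log 2 ≤ Real.log p := Real.log_le_log (by norm_num) (by exact_mod_cast hp2)
    have := Real.log_two_gt_d9
    linarith
  have hlog0 : 0 < Real.log p := by linarith
  obtain ⟨R, hR⟩ : ∃ R, R = (p : ℝ) ^ (1 / 5 : ℝ) := ⟨_, rfl⟩
  rw [← hR] at hR1 hRY hasy1 hasy2
  have hR0 : 0 < R := by linarith
  obtain ⟨ν, hsupp, hsize, hzero, hmain⟩ := spike (√(p : ℝ) / (4 * K)) R hR1 hRY
  have hν1 : (1 : ℝ) / 2 ≤ 1 - ν 0 := by
    have := (abs_le.1 hzero).2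
    linarith
  have hν0 : 0 < 1 - ν 0 := by linarith
  -- the base law
  obtain ⟨b, hb⟩ : ∃ b : ℤ → ℝ, ∀ a, b a = W a * sw p a := ⟨_, fun _ => rfl⟩
  have hW0 : ∀ a, 0 ≤ W a := fun a =>
    le_trans (mul_nonneg (by positivity) (hu.nonneg a)) (hW a).1
  have hsw : ∀ a, 0 ≤ sw p a ∧ sw p a ≤ 1 / √(p : ℝ) := fun a =>
    ⟨(sw_bounds p hp1 a).1, (sw_bounds p hp1 a).2.1⟩
  have hb0 : ∀ a, 0 ≤ b a := by
    intro a
    rw [hb]
    exact mul_nonneg (hW0 a) (hsw a).1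
  obtain ⟨P3, hP3⟩ : ∃ P3, P3 = (p : ℝ) ^ (-(1 / 3) : ℝ) := ⟨_, rfl⟩
  rw [← hP3] at hasy1 hasy2
  have hP30 : 0 < P3 := by rw [hP3]; positivity
  have hP6 : (p : ℝ) ^ (1 / 6 : ℝ) * (1 / √(p : ℝ)) = P3 := by
    have e1 : 1 / √(p : ℝ) = (p : ℝ) ^ (-(1 / 2) : ℝ) := by
      rw [Real.sqrt_eq_rpow, Real.rpow_neg hp0.le]
      exact one_div _
    rw [hP3, e1, ← Real.rpow_add hp0]
    congr 1
    norm_num
  obtain ⟨B, hB⟩ : ∃ B, B = E * P3 := ⟨_, rfl⟩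
  have hB0 : 0 ≤ B := by rw [hB]; positivity
  have hbB : ∀ a, b a ≤ B := by
    intro a
    rw [hb, hB, ← hP6]
    calc W a * sw p a ≤ (E * (p : ℝ) ^ (1 / 6 : ℝ)) * (1 / √(p : ℝ)) :=
          mul_le_mul (hW a).2 (hsw a).2 (hsw a).1 (by positivity)
      _ = E * ((p : ℝ) ^ (1 / 6 : ℝ) * (1 / √(p : ℝ))) := by ring
  -- the small traces
  obtain ⟨A, hA⟩ : ∃ A : Finset ℤ, A = (V p).filter (fun a : ℤ => |(a : ℝ)| ≤ Real.log p) := ⟨_, rfl⟩
  have hmemV : ∀ a : ℤ, |(a : ℝ)| ≤ Real.log p → a ∈ V p := by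
    intro a ha
    have h1 : (a : ℝ) ^ 2 ≤ 4 * p := by
      rw [← sq_abs]
      have h2 : |(a : ℝ)| ≤ √(p : ℝ) / 4 := by linarith
      have h3 := pow_le_pow_left₀ (abs_nonneg _) h2 2
      have h4 : (√(p : ℝ) / 4) ^ 2 = p / 16 := by
        rw [div_pow, Real.sq_sqrt hp0.le]
        norm_num
      linarith
    have h2 : a ^ 2 ≤ 4 * (p : ℤ) := by exact_mod_cast h1
    have h3 : a.natAbs ≤ Nat.sqrt (4 * p) := by
      rw [Nat.le_sqrt]
      have h4 : ((a.natAbs * a.natAbs : ℕ) : ℤ) ≤ ((4 * p : ℕ) : ℤ) := by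
        rw [Int.natAbs_mul_self]
        push_cast
        nlinarith
      exact_mod_cast h4
    unfold V
    rw [mem_Icc]
    omega
  have hmemA : ∀ a : ℤ, a ∈ A ↔ |(a : ℝ)| ≤ Real.log p := by
    intro a
    rw [hA, mem_filter]
    exact ⟨fun h => h.2, fun h => ⟨hmemV a h, h⟩⟩
  have hcA : (A.card : ℝ) ≤ 2 * Real.log p + 1 :=
    ej_card A hlog0.le fun a ha => (hmemA a).1 ha
  obtain ⟨ℓ, hℓ⟩ : ∃ ℓ, ℓ = 2 * Real.log p + 1 := ⟨_, rfl⟩
  rw [← hℓ] at hasy1 hasy2 hcA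
  have hℓ1 : 1 ≤ ℓ := by rw [hℓ]; linarith
  obtain ⟨θ, hθ⟩ : ∃ θ, θ = c' / Real.log p / √(p : ℝ) / ℓ := ⟨_, rfl⟩
  have hθ0 : 0 < θ := by rw [hθ]; positivity
  -- the corrections
  obtain ⟨S, hS⟩ : ∃ S : ℤ → ℝ, ∀ a, S a = ∑ a₀ ∈ A.erase a, b a₀ * (ejg K ν a₀ a / (1 - ν 0)) :=
    ⟨_, fun _ => rfl⟩
  have hterm : ∀ a₀ a : ℤ, a ≠ a₀ → |b a₀ * (ejg K ν a₀ a / (1 - ν 0))| ≤ θ / ℓ := by
    intro a₀ a ha
    refine ej_term K hK p hp1 R hR0.le ν hsupp hsize hzero B (θ / ℓ) (by positivity) ?_ (b a₀)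
      (hb0 a₀) (hbB a₀) ha
    intro n hn hns
    have h1 := hasy2 n hn hns
    rw [le_div_iff₀ (by positivity), hθ]
    refine le_trans (le_of_eq ?_) h1
    rw [hB, hAc]
    field_simp
    ring
  have hSle : ∀ a, |S a| ≤ θ := by
    intro a
    rw [hS]
    calc |∑ a₀ ∈ A.erase a, b a₀ * (ejg K ν a₀ a / (1 - ν 0))|
        ≤ ∑ a₀ ∈ A.erase a, |b a₀ * (ejg K ν a₀ a / (1 - ν 0))| := abs_sum_le_sum_abs _ _
      _ ≤ ∑ _a₀ ∈ A.erase a, θ / ℓ :=
          sum_le_sum fun a₀ ha₀ => hterm a₀ a (Ne.symm (Finset.ne_of_mem_erase ha₀))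
      _ = ((A.erase a).card : ℝ) * (θ / ℓ) := by rw [sum_const, nsmul_eq_mul]
      _ ≤ ℓ * (θ / ℓ) := by
          refine mul_le_mul_of_nonneg_right ?_ (by positivity)
          refine le_trans ?_ hcA
          exact_mod_cast Finset.card_le_card (Finset.erase_subset a A)
      _ = θ := by field_simp
  -- the law
  obtain ⟨μ, hμd⟩ : ∃ μ : ℤ → ℝ, ∀ a, μ a = if a ∈ A then 0 else b a - S a := ⟨_, fun _ => rfl⟩
  have hS_ne : ∀ a, S a ≠ 0 → ∃ a₀ x : ℤ, 0 < u a₀ ∧ |(a₀ : ℝ)| ≤ Real.log p ∧ a - a₀ = K * x ∧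
      |(x : ℝ)| ≤ √(p : ℝ) / (4 * K) := by
    intro a hSa
    have hex : ∃ a₀ ∈ A.erase a, b a₀ * (ejg K ν a₀ a / (1 - ν 0)) ≠ 0 := by
      by_contra hcon
      push Not at hcon
      exact hSa (by rw [hS]; exact sum_eq_zero hcon)
    obtain ⟨a₀, ha₀, hne⟩ := hex
    have hne1 : b a₀ ≠ 0 := left_ne_zero_of_mul hne
    have hne2 : ejg K ν a₀ a ≠ 0 := fun h => by
      rw [h, zero_div, mul_zero] at hne
      exact hne rfl
    have haa : a ≠ a₀ := Ne.symm (Finset.ne_of_mem_erase ha₀)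
    have hua₀ : 0 < u a₀ := by
      refine lt_of_le_of_ne (hu.nonneg a₀) fun h => ?_
      rw [hb, hWz a₀ h.symm, zero_mul] at hne1
      exact hne1 rfl
    rcases ejg_ne K hK ν haa with h | ⟨x, hx0, hx, h⟩
    · exact absurd h hne2
    · refine ⟨a₀, x, hua₀, (hmemA a₀).1 (Finset.mem_of_mem_erase ha₀), hx, ?_⟩
      by_contra hcon
      rw [not_le] at hcon
      rw [h, hsupp x hcon, neg_zero] at hne2
      exact hne2 rfl
  have hlow : ∀ a : ℤ, 0 < u a → |(a : ℝ)| ≤ √(p : ℝ) / 2 → 2 * c' / Real.log p / √(p : ℝ) ≤ b a := by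
    intro a hua haY
    have hua1 : cu ≤ u a := hu.low a hua
    have hsw3 := (sw_bounds p hp1 a).2.2 haY
    rw [hb, hc', hc'']
    calc 2 * (cu * c * (3 / 10) / 2) / Real.log p / √(p : ℝ)
        = (c / Real.log p * cu) * (3 / 10 / √(p : ℝ)) := by ring
      _ ≤ W a * sw p a := by
        refine mul_le_mul ?_ hsw3 (by positivity) (hW0 a)
        exact le_trans (mul_le_mul_of_nonneg_left hua1 (by positivity)) (hW a).1
  have hθle : θ ≤ c' / Real.log p / √(p : ℝ) := by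
    rw [hθ]
    exact div_le_self (by positivity) hℓ1
  have hmulow : ∀ a : ℤ, 0 < u a → a ∉ A → |(a : ℝ)| ≤ √(p : ℝ) / 2 → c' / Real.log p / √(p : ℝ) ≤ μ a := by
    intro a hua haA haY
    rw [hμd, if_neg haA]
    have h1 := hlow a hua haY
    have h2 := (abs_le.1 (hSle a)).2
    have h3 : 2 * c' / Real.log p / √(p : ℝ) = 2 * (c' / Real.log p / √(p : ℝ)) := by ring
    rw [h3] at h1
    linarith
  have hμ0 : ∀ a, 0 ≤ μ a := by
    intro a
    by_cases ha : a ∈ A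
    · rw [hμd, if_pos ha]
    · by_cases hSa : S a = 0
      · rw [hμd, if_neg ha, hSa, sub_zero]
        exact hb0 a
      · obtain ⟨a₀, x, hua₀, ha₀l, hx, hxY⟩ := hS_ne a hSa
        have hax : (a : ℝ) = a₀ + K * x := by
          have : (a : ℤ) = a₀ + K * x := by linarith
          exact_mod_cast this
        have hKx : (K : ℝ) * |(x : ℝ)| ≤ √(p : ℝ) / 4 := by
          have h1 := mul_le_mul_of_nonneg_left hxY hK'.le
          have h2 : (K : ℝ) * (√(p : ℝ) / (4 * K)) = √(p : ℝ) / 4 := by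
            field_simp
          linarith
        have haY : |(a : ℝ)| ≤ √(p : ℝ) / 2 := by
          rw [hax]
          refine (abs_add_le _ _).trans ?_
          rw [abs_mul, abs_of_pos hK']
          linarith
        have hua : u a = u a₀ := hu.per a a₀ ⟨x, hx⟩
        refine le_trans ?_ (hmulow a (by rw [hua]; exact hua₀) ha haY)
        positivity
  have hμz : ∀ a, u a = 0 → μ a = 0 := by
    intro a hua
    by_cases ha : a ∈ A
    · rw [hμd, if_pos ha]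
    · have hSa : S a = 0 := by
        by_contra hcon
        obtain ⟨a₀, x, hua₀, -, hx, -⟩ := hS_ne a hcon
        rw [← hu.per a a₀ ⟨x, hx⟩, hua] at hua₀
        exact lt_irrefl _ hua₀
      rw [hμd, if_neg ha, hSa, sub_zero, hb, hWz a hua, zero_mul]
  refine ⟨μ, hμ0, fun a ha => by rw [hμd, if_pos ((hmemA a).2 ha)], hμz,
    fun a hua hal haY => hmulow a hua (fun h => absurd ((hmemA a).1 h) (not_le.2 hal)) haY, ?_⟩
  · intro n hn0 hnp hpn t k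
    have h1 := hWe n hn0 hnp hpn t k
    obtain ⟨F, hF⟩ : ∃ F, F = (V p).filter (fun a => ((K * n : ℕ) : ℤ) ∣ a - t) := ⟨_, rfl⟩
    obtain ⟨T, hT⟩ : ∃ T, T = (if k = 0 then Dn K C n t else 0) := ⟨_, rfl⟩
    rw [← hF, ← hT] at h1 ⊢
    have hmpos : 0 < K * n := Nat.mul_pos hK hn0
    have e1 : ∑ a ∈ F, μ a * Uk k (xx p a) =
        ∑ a ∈ F, b a * Uk k (xx p a) -
          ∑ a₀ ∈ A, (b a₀ / (1 - ν 0)) * ∑ a ∈ F, ejg K ν a₀ a * Uk k (xx p a) +
        ∑ a ∈ F.filter (· ∈ A), S a * Uk k (xx p a) := by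
      have := ej_split K ν hν0.ne' b A F fun a => Uk k (xx p a)
      simp only [hμd, hS]
      exact this
    -- the sizes
    obtain ⟨Z, hZ⟩ : ∃ Z : ℝ, Z = (K * √(K : ℝ)) * (n : ℝ) ^ 2 * (k + 1) := ⟨_, rfl⟩
    have hm1 : (1 : ℝ) ≤ K := hK1
    have hn1 : (1 : ℝ) ≤ n := by exact_mod_cast hn0
    have hk0 : (0 : ℝ) ≤ k := Nat.cast_nonneg k
    have hsm1 : (1 : ℝ) ≤ √(K : ℝ) := Real.one_le_sqrt.2 hm1
    have hmn : ((K * n : ℕ) : ℝ) * √((K * n : ℕ) : ℝ) * (k + 1) ≤ Z := by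
      rw [hZ]
      push_cast
      rw [Real.sqrt_mul (by positivity)]
      have h2 : √(n : ℝ) ≤ n := by
        rw [Real.sqrt_le_left (by positivity)]
        nlinarith
      have h3 : (K : ℝ) * n * (√(K : ℝ) * √(n : ℝ)) ≤ (K * √(K : ℝ)) * (n : ℝ) ^ 2 := by
        calc (K : ℝ) * n * (√(K : ℝ) * √(n : ℝ)) = (K * √(K : ℝ)) * (n * √(n : ℝ)) := by ring
          _ ≤ (K * √(K : ℝ)) * (n * n) := by gcongr
          _ = _ := by ring
      exact mul_le_mul_of_nonneg_right h3 (by linarith)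
    have hZ1 : 1 ≤ Z := by
      rw [hZ]
      have h2 : (1 : ℝ) ≤ (K * √(K : ℝ)) := one_le_mul_of_one_le_of_one_le hm1 hsm1
      have h3 : (1 : ℝ) ≤ (n : ℝ) ^ 2 := one_le_pow₀ hn1
      exact one_le_mul_of_one_le_of_one_le (one_le_mul_of_one_le_of_one_le h2 h3) (by linarith)
    have e2 : |∑ a₀ ∈ A, (b a₀ / (1 - ν 0)) * ∑ a ∈ F, ejg K ν a₀ a * Uk k (xx p a)| ≤
        28 * Z * (Real.log p / √(p : ℝ)) := by
      have h2 : ∀ a₀ ∈ A, |(b a₀ / (1 - ν 0)) * ∑ a ∈ F, ejg K ν a₀ a * Uk k (xx p a)| ≤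
          2 * B * (7 * Z / R) := by
        intro a₀ ha₀
        have ha₀l : |(a₀ : ℝ)| ≤ √(p : ℝ) / 4 := by
          have := (hmemA a₀).1 ha₀
          linarith
        have h3 := spike_equi K hK a₀ p hp2 ha₀l R hR1 ν hsupp hmain (K * n) hmpos
          (Dvd.intro _ rfl) t k
        rw [← hF] at h3
        have h4 : |∑ a ∈ F, ejg K ν a₀ a * Uk k (xx p a)| ≤ 7 * Z / R := by
          refine le_trans h3 ?_
          refine div_le_div_of_nonneg_right ?_ hR0.le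
          calc 7 * (((K * n : ℕ) : ℝ) * √((K * n : ℕ) : ℝ)) * (k + 1)
              = 7 * (((K * n : ℕ) : ℝ) * √((K * n : ℕ) : ℝ) * (k + 1)) := by ring
            _ ≤ 7 * Z := by linarith
        rw [abs_mul, abs_div, abs_of_nonneg (hb0 a₀), abs_of_pos hν0]
        have h5 : b a₀ / (1 - ν 0) ≤ 2 * B := by
          rw [div_le_iff₀ hν0]
          have := hbB a₀
          nlinarith
        exact mul_le_mul h5 h4 (abs_nonneg _) (by positivity)
      calc |∑ a₀ ∈ A, (b a₀ / (1 - ν 0)) * ∑ a ∈ F, ejg K ν a₀ a * Uk k (xx p a)|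
          ≤ ∑ a₀ ∈ A, |(b a₀ / (1 - ν 0)) * ∑ a ∈ F, ejg K ν a₀ a * Uk k (xx p a)| :=
            abs_sum_le_sum_abs _ _
        _ ≤ ∑ _a₀ ∈ A, 2 * B * (7 * Z / R) := sum_le_sum h2
        _ = (A.card : ℝ) * (2 * B * (7 * Z / R)) := by rw [sum_const, nsmul_eq_mul]
        _ ≤ ℓ * (2 * B * (7 * Z / R)) := by
            refine mul_le_mul_of_nonneg_right hcA ?_
            have : 0 ≤ Z := by linarith
            positivity
        _ = 14 * Z * (ℓ * B / R) := by ring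
        _ ≤ 14 * Z * (1 / √(p : ℝ)) := by
            have h6 : ℓ * B / R ≤ 1 / √(p : ℝ) := by
              refine le_trans ?_ hasy1
              refine div_le_div_of_nonneg_right ?_ hR0.le
              refine mul_le_mul_of_nonneg_left ?_ (by linarith)
              rw [hB, hAc]
              refine mul_le_mul_of_nonneg_right ?_ hP30.le
              nlinarith
            have : 0 ≤ 14 * Z := by linarith
            exact mul_le_mul_of_nonneg_left h6 this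
        _ ≤ 28 * Z * (Real.log p / √(p : ℝ)) := by
            have h7 : 28 * Z * (Real.log p / √(p : ℝ)) = 14 * Z * ((2 * Real.log p) / √(p : ℝ)) := by
              ring
            rw [h7]
            have : 0 ≤ 14 * Z := by linarith
            refine mul_le_mul_of_nonneg_left ?_ this
            exact div_le_div_of_nonneg_right (by linarith) hs0.le
    have e3 : |∑ a ∈ F.filter (· ∈ A), S a * Uk k (xx p a)| ≤
        8 * c' * Z * (Real.log p / √(p : ℝ)) := by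
      have h2 : ∀ a ∈ F.filter (· ∈ A), |S a * Uk k (xx p a)| ≤ θ * 2 := by
        intro a ha
        have ha' := (hmemA a).1 (mem_filter.1 ha).2
        have hx : |xx p a| ≤ 1 / 2 := by
          unfold xx
          rw [abs_div, abs_of_pos (by positivity : (0 : ℝ) < 2 * √(p : ℝ)),
            div_le_div_iff₀ (by positivity) (by norm_num)]
          linarith
        rw [abs_mul]
        exact mul_le_mul (hSle a) (Uk_le_two k hx) (abs_nonneg _) hθ0.le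
      have h3 : ((F.filter (· ∈ A)).card : ℝ) ≤ ℓ := by
        refine le_trans ?_ hcA
        exact_mod_cast Finset.card_le_card fun a ha => (mem_filter.1 ha).2
      calc |∑ a ∈ F.filter (· ∈ A), S a * Uk k (xx p a)|
          ≤ ∑ a ∈ F.filter (· ∈ A), |S a * Uk k (xx p a)| := abs_sum_le_sum_abs _ _
        _ ≤ ∑ _a ∈ F.filter (· ∈ A), θ * 2 := sum_le_sum h2
        _ = ((F.filter (· ∈ A)).card : ℝ) * (θ * 2) := by rw [sum_const, nsmul_eq_mul]
        _ ≤ ℓ * (θ * 2) := mul_le_mul_of_nonneg_right h3 (by positivity)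
        _ = 2 * (c' / Real.log p / √(p : ℝ)) := by
            rw [hθ]
            field_simp
        _ ≤ 8 * c' * 1 * (Real.log p / √(p : ℝ)) := by
            have h4 : c' / Real.log p ≤ 4 * c' * Real.log p := by
              rw [div_le_iff₀ hlog0]
              have h5 : 1 ≤ 4 * (Real.log p * Real.log p) := by nlinarith
              nlinarith
            have h6 : 2 * (c' / Real.log p / √(p : ℝ)) = 2 * (c' / Real.log p) / √(p : ℝ) := by ring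
            have h7 : 8 * c' * 1 * (Real.log p / √(p : ℝ)) = 2 * (4 * c' * Real.log p) / √(p : ℝ) := by
              ring
            rw [h6, h7]
            exact div_le_div_of_nonneg_right (by linarith) hs0.le
        _ ≤ 8 * c' * Z * (Real.log p / √(p : ℝ)) := by
            have h8 : 0 ≤ Real.log p / √(p : ℝ) := by positivity
            gcongr
    have e4 : ∑ a ∈ F, b a * Uk k (xx p a) = ∑ a ∈ F, W a * sw p a * Uk k (xx p a) :=
      sum_congr rfl fun a _ => by rw [hb]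
    rw [e1, e4]
    have e5 : ∀ x y z : ℝ, |x - y + z - T| ≤ |x - T| + |y| + |z| := by
      intro x y z
      have h2 : x - y + z - T = (x - T) + (-y + z) := by ring
      rw [h2]
      refine (abs_add_le _ _).trans ?_
      have h3 := abs_add_le (-y) z
      rw [abs_neg] at h3
      linarith
    refine (e5 _ _ _).trans ?_
    have e6 : E' * (n : ℝ) ^ 2 * (k + 1) * (Real.log p / √(p : ℝ)) =
        E * (n : ℝ) ^ 2 * (k + 1) * (Real.log p / √(p : ℝ)) +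
          28 * Z * (Real.log p / √(p : ℝ)) + 8 * c' * Z * (Real.log p / √(p : ℝ)) := by
      rw [hE', hZ]
      ring
    rw [e6]
    exact add_le_add (add_le_add h1 e2) e3

end Pool.Agent.JD
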