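import Pool.Agent.Lib_MP_f1937f_jd.Fib3
import Pool.Agent.Lib_MP_f1937f_jb.UJf

/-!
# Properties of the bottom function
-/

set_option autoImplicit false

namespace Pool.Agent.JD

open Finset Pool.Agent.TB Pool.Agent.JB

private theorem uu_eq (M : ℕ) (G : Subgroup (GL (Fin 2) (ZMod M))) (d : ℕ) (t : ℤ) :
    uu M G d t = uJ (M ^ 2) (G.comap (Matrix.GeneralLinearGroup.map
      (ZMod.castHom (dvd_pow_self M two_ne_zero) (ZMod M)))) d t := by
  unfold uu dG uJ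
  rw [← mul_div_assoc]
  rfl

/-- PIECE [JD-P18] (both theorems, about 100 lines). PROOF. `uu M G d = uJ (M ^ 2) G' d` where `G'` is the preimage of `G` in `GL₂(ℤ/M²)` (`Subgroup.comap`), by unfolding `uu`, `dG`, `uJ` (`Subgroup.mem_comap`).
`uJ_facts` for `M ^ 2`, `G'`: a unit `d` modulo `M²` is the determinant of an element of `G'` : an element of `G` with determinant `d` modulo `M` (`hG`) has `M³ > 0` lifts of determinant `d` (`fib3` with `m = M`, `m' = M ^ 2`). -/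
theorem uu_facts (M : ℕ) (hM : 0 < M) (G : Subgroup (GL (Fin 2) (ZMod M)))
    (hG : ∀ d : (ZMod M)ˣ, ∃ g ∈ G, g.val.det = (d : ZMod M)) :
    ∃ c : ℝ, 0 < c ∧ ∀ d : ℕ, d.Coprime M → UV (M ^ 2) c (uu M G d) := by
  have hM2 : 0 < M ^ 2 := pow_pos hM 2
  have hdiv : M ∣ M ^ 2 := dvd_pow_self M two_ne_zero
  obtain ⟨c, hc, h⟩ := uJ_facts (M ^ 2) hM2 (G.comap (Matrix.GeneralLinearGroup.map
      (ZMod.castHom hdiv (ZMod M)))) (by
    intro d
    obtain ⟨g₀, hg₀, hdet⟩ := hG (Units.map (ZMod.castHom hdiv (ZMod M)).toMonoidHom d)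
    have h1 := fib3 M (M ^ 2) hdiv hM2 (fun l hl hl2 => hl.dvd_of_dvd_pow hl2) g₀ (d : ZMod (M ^ 2))
      d.isUnit (by rw [hdet]; rfl)
    have h2 : 0 < (M ^ 2 / M) ^ 3 :=
      pow_pos (Nat.div_pos (Nat.le_of_dvd hM2 hdiv) hM) 3
    rw [← h1] at h2
    obtain ⟨⟨g, hg1, hg2⟩⟩ := (Nat.card_pos_iff.1 h2).1
    refine ⟨g, ?_, hg2⟩
    rw [Subgroup.mem_comap, hg1]
    exact hg₀)
  refine ⟨c, hc, fun d hd => ?_⟩
  have h1 := h d (Nat.Coprime.pow_right 2 hd)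
  have h2 : uu M G d = uJ (M ^ 2) (G.comap (Matrix.GeneralLinearGroup.map
      (ZMod.castHom hdiv (ZMod M)))) d := funext fun t => uu_eq M G d t
  rw [h2]
  exact h1

theorem uu_per (M : ℕ) (G : Subgroup (GL (Fin 2) (ZMod M))) (d d' : ℕ) (t : ℤ) (h : d ≡ d' [MOD M ^ 2]) :
    uu M G d t = uu M G d' t := by
  rw [uu_eq, uu_eq]
  exact uJ_per (M ^ 2) _ d d' t h

end Pool.Agent.JD
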