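import Pool.Agent.Lib_MP_f1937f_jd.Cnt
import Pool.Agent.Lib_MP_f1937f_jd.CgL
import Pool.Agent.Lib_MP_f1937f_jd.AvgS
import Pool.Agent.Lib_MP_f1937f_jd.BlkE
import Pool.Agent.Lib_MP_f1937f_jd.UVf

/-!
# The weights of a group
-/

set_option autoImplicit false

namespace Pool.Agent.JD

open Finset Pool.Agent.TB Pool.Agent.JB

private theorem dG_cast_famg (M : ℕ) (G : Subgroup (GL (Fin 2) (ZMod M))) {m m' : ℕ} (e : m = m') (h : M ∣ m)
    (h' : M ∣ m') (d : ℕ) (t : ℤ) : dG M G m h d t = dG M G m' h' d t := by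
  subst e
  rfl

private theorem det_map_famg {M m : ℕ} (h : M ∣ m) (g : GL (Fin 2) (ZMod m)) :
    (Matrix.GeneralLinearGroup.map (ZMod.castHom h (ZMod M)) g).val.det =
      ZMod.castHom h (ZMod M) g.val.det := by
  rw [Matrix.det_fin_two, Matrix.det_fin_two, map_sub, map_mul, map_mul]
  rfl

/-- counting by fibres over the matrices modulo `M` -/
private theorem num_famg (M Q : ℕ) (hM : 0 < M) (hQ : 0 < Q) (h : M ∣ Q) (G : Subgroup (GL (Fin 2) (ZMod M)))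
    (p : ℕ) (P : GL (Fin 2) (ZMod Q) → Prop)
    [Fintype {g : GL (Fin 2) (ZMod M) // g ∈ G ∧ g.val.det = (p : ZMod M)}] :
    Nat.card {g : GL (Fin 2) (ZMod Q) // Matrix.GeneralLinearGroup.map (ZMod.castHom h (ZMod M)) g ∈ G ∧
        g.val.det = (p : ZMod Q) ∧ P g} =
      ∑ y : {g : GL (Fin 2) (ZMod M) // g ∈ G ∧ g.val.det = (p : ZMod M)},
        Nat.card {g : GL (Fin 2) (ZMod Q) // Matrix.GeneralLinearGroup.map (ZMod.castHom h (ZMod M)) g = y.1 ∧
          g.val.det = (p : ZMod Q) ∧ P g} := by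
  classical
  have : NeZero M := ⟨hM.ne'⟩
  have : NeZero Q := ⟨hQ.ne'⟩
  have key : ∀ g : GL (Fin 2) (ZMod Q), (Matrix.GeneralLinearGroup.map (ZMod.castHom h (ZMod M)) g ∈ G ∧
        g.val.det = (p : ZMod Q) ∧ P g) →
      Matrix.GeneralLinearGroup.map (ZMod.castHom h (ZMod M)) g ∈ G ∧
        (Matrix.GeneralLinearGroup.map (ZMod.castHom h (ZMod M)) g).val.det = (p : ZMod M) := by
    intro g hg
    refine ⟨hg.1, ?_⟩
    rw [det_map_famg, hg.2.1, map_natCast]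
  let f : {g : GL (Fin 2) (ZMod Q) // Matrix.GeneralLinearGroup.map (ZMod.castHom h (ZMod M)) g ∈ G ∧
        g.val.det = (p : ZMod Q) ∧ P g} →
      {g : GL (Fin 2) (ZMod M) // g ∈ G ∧ g.val.det = (p : ZMod M)} :=
    fun g => ⟨Matrix.GeneralLinearGroup.map (ZMod.castHom h (ZMod M)) g.1, key g.1 g.2⟩
  have h1 : Nat.card {g : GL (Fin 2) (ZMod Q) // Matrix.GeneralLinearGroup.map (ZMod.castHom h (ZMod M)) g ∈ G ∧
        g.val.det = (p : ZMod Q) ∧ P g} =
      ∑ y : {g : GL (Fin 2) (ZMod M) // g ∈ G ∧ g.val.det = (p : ZMod M)}, Nat.card {x // f x = y} := by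
    rw [← Nat.card_sigma]
    exact (Nat.card_congr (Equiv.sigmaFiberEquiv f)).symm
  rw [h1]
  refine Finset.sum_congr rfl fun y _ => ?_
  refine Nat.card_congr ⟨fun x => ⟨x.1.1, congrArg Subtype.val x.2, x.1.2.2⟩,
    fun x => ⟨⟨x.1, ?_, x.2.2⟩, Subtype.ext x.2.1⟩, fun x => rfl, fun x => rfl⟩
  rw [x.2.1]
  exact y.2.1

/-- the total number -/
private theorem tot_famg (m : ℕ) (hm : 0 < m) (P : GL (Fin 2) (ZMod m) → Prop) :
    (Nat.card {g : GL (Fin 2) (ZMod m) // P g} : ℝ) =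
      ∑ t ∈ range m, (Nat.card {g : GL (Fin 2) (ZMod m) // P g ∧
        g.val.trace = (((t : ℕ) : ℤ) : ZMod m)} : ℝ) := by
  classical
  have : NeZero m := ⟨hm.ne'⟩
  let f : {g : GL (Fin 2) (ZMod m) // P g} → ZMod m := fun g => g.1.val.trace
  have h1 : Nat.card {g : GL (Fin 2) (ZMod m) // P g} =
      ∑ y : ZMod m, Nat.card {x // f x = y} := by
    rw [← Nat.card_sigma]
    exact (Nat.card_congr (Equiv.sigmaFiberEquiv f)).symm
  have h2 : ∀ y : ZMod m, Nat.card {x // f x = y} =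
      Nat.card {g : GL (Fin 2) (ZMod m) // P g ∧ g.val.trace = y} := by
    intro y
    exact Nat.card_congr ⟨fun x => ⟨x.1.1, x.1.2, x.2⟩, fun x => ⟨⟨x.1, x.2.1⟩, x.2.2⟩,
      fun x => rfl, fun x => rfl⟩
  rw [h1, Nat.cast_sum]
  refine Finset.sum_nbij' (fun s => s.val) (fun t => ((t : ℕ) : ZMod m)) ?_ ?_ ?_ ?_ ?_
  · intro s _
    exact Finset.mem_range.2 (ZMod.val_lt s)
  · intro t _
    exact Finset.mem_univ _
  · intro s _
    exact ZMod.natCast_zmod_val s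
  · intro t ht
    exact ZMod.val_cast_of_lt (Finset.mem_range.1 ht)
  · intro s _
    rw [h2, Int.cast_natCast, ZMod.natCast_zmod_val]

/-- the sum over all classes -/
private theorem sum_famg (K : ℕ) (hK : 0 < K) (p : ℕ) (T : ℕ → ℤ → ℝ)
    (per : ∀ (h : ℕ) (a a' : ℤ), 0 < h → ((K * h : ℕ) : ℤ) ∣ a - a' → T h a = T h a')
    (avg : ∀ (h m : ℕ) (t : ℤ), 0 < h → 0 < m → p.Coprime h →
      ∑ b ∈ (range (K * (h / Nat.gcd h m * m))).filter (fun b : ℕ => ((K * m : ℕ) : ℤ) ∣ (b : ℤ) - t), T h b =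
        ((h / Nat.gcd h m : ℕ) : ℝ) * T (Nat.gcd h m) t)
    (q g : ℕ) (hq : 0 < q) (hpq : p.Coprime q) (hg : g ∣ q) :
    ∑ t ∈ range (K * q), T g (t : ℤ) = q * ∑ t ∈ range K, T 1 (t : ℤ) := by
  obtain ⟨r, hr⟩ := hg
  have hg0 : 0 < g := Nat.pos_of_ne_zero (by rintro rfl; simp at hr; omega)
  have hKg : 0 < K * g := Nat.mul_pos hK hg0
  have hpg : p.Coprime g := Nat.Coprime.coprime_dvd_right ⟨r, hr⟩ hpq
  have h1 := per_sum (K * g) r hKg (fun b => T g (b : ℤ)) (fun b => by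
    refine per g _ _ hg0 ⟨-((b / (K * g) : ℕ) : ℤ), ?_⟩
    have h2 : ((b % (K * g) : ℕ) : ℤ) + ((K * g : ℕ) : ℤ) * ((b / (K * g) : ℕ) : ℤ) = (b : ℤ) := by
      exact_mod_cast Nat.mod_add_div b (K * g)
    linear_combination h2)
  have h3 : K * q = r * (K * g) := by rw [hr]; ring
  rw [h3, h1]
  have h4 : ∑ b ∈ range (K * g), T g (b : ℤ) = g * ∑ t ∈ range K, T 1 (t : ℤ) := by
    rw [← Finset.sum_fiberwise_of_maps_to (g := fun b => b % K) (t := range K)
      (fun b _ => Finset.mem_range.2 (Nat.mod_lt _ hK)), Finset.mul_sum]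
    refine Finset.sum_congr rfl fun t ht => ?_
    have ht' : t < K := Finset.mem_range.1 ht
    have h5 := avg g 1 t hg0 one_pos hpg
    rw [Nat.gcd_one_right, Nat.div_one, mul_one, mul_one] at h5
    rw [← h5]
    refine Finset.sum_congr (Finset.filter_congr fun b _ => ?_) fun _ _ => rfl
    constructor
    · intro h6
      have h7 : (b : ℤ) % K = (t : ℤ) := by exact_mod_cast h6
      rw [← h7]
      exact ⟨(b : ℤ) / K, by have := Int.emod_add_mul_ediv (b : ℤ) (K : ℤ); linear_combination -this⟩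
    · intro h6
      have h7 : (b : ℤ) % K = (t : ℤ) % K :=
        Int.emod_eq_emod_iff_emod_sub_eq_zero.mpr (Int.emod_eq_zero_of_dvd h6)
      rw [Int.emod_eq_of_lt (a := (t : ℤ)) (by positivity) (by exact_mod_cast ht')] at h7
      exact_mod_cast h7
  rw [h4, hr]
  push_cast
  ring

/-- PIECE [JD-P19] (about 200 lines). PROOF. `X = {g₀ ∈ G : det g₀ = p}` (finite, not empty). For `g₀ ∈ X` choose `N, S` by `blk_exists` (entries `.val`) and let `C h t` be the mean over `X` of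
`Cg M N S .. p h t`. `nonneg`, `per`: `Cg_nonneg`, `Cg_per`. `avg`: `avg_of_step` with the mean of `Cg_step` (`IsCoprime p (h l)`). Let `c_q = ∏ kap l > 0` over the primes of `q` not dividing `M`. For `q ≥ 1` prime to `p`, by fibres over
`X` and `count_g`, `c_q * #{g modulo M² q : g mod M ∈ G, det g = p, tr g = t} = M q |X| ∑_{g ∣ q} φ (q / g) C g t`. (`card` of the set = sum over `g₀ ∈ X` of `NN M (M² q) g₀ t p`.)
Sum over `t < M² q` (the traces): `∑_{t < M² q} C g t = (q / g) ∑_{t < M² g} C g t = (q / g) g ∑_{t < M²} C 1 t` (`per_sum`, `avg` with `m = 1`), so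
`c_q * #{g modulo M² q : .. det g = p} = M q |X| * q * q * Σ₁`, `Σ₁ = ∑_{t < M²} C 1 t` (`sum_tot`). For `q = 1`: the count is `|X| M³` (`fib3` for every `g₀`), so `Σ₁ = M²`. Hence
`dG (M² q) p t = ∑ φ (q / g) C g t / (q² M²) = Dn (M ^ 2) C q t`. `one`: `q = 1`, `uu = M² dG (M²) = M² Dn 1 = C 1 t` (mind `M ^ 2 * 1` and `M ^ 2`: prove the count formula for all `Q` with `Q = M ^ 2 * q`). -/
theorem fam_G (M : ℕ) (hM : 0 < M) (G : Subgroup (GL (Fin 2) (ZMod M)))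
    (hG : ∀ d : (ZMod M)ˣ, ∃ g ∈ G, g.val.det = (d : ZMod M)) (p : ℕ) (hp : p.Coprime M) :
    ∃ C : ℕ → ℤ → ℝ, Fam (M ^ 2) p (uu M G p) C ∧
      ∀ (q : ℕ) (h : M ∣ M ^ 2 * q), 0 < q → p.Coprime q → ∀ t : ℤ, dG M G (M ^ 2 * q) h p t = Dn (M ^ 2) C q t := by
  classical
  have hNZ : NeZero M := ⟨hM.ne'⟩
  have hfin : Finite (GL (Fin 2) (ZMod M)) := inferInstance
  have hft : Fintype {g : GL (Fin 2) (ZMod M) // g ∈ G ∧ g.val.det = (p : ZMod M)} := Fintype.ofFinite _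
  have hne : Nonempty {g : GL (Fin 2) (ZMod M) // g ∈ G ∧ g.val.det = (p : ZMod M)} := by
    obtain ⟨g, hg, hgd⟩ := hG (ZMod.unitOfCoprime p hp)
    rw [ZMod.coe_unitOfCoprime] at hgd
    exact ⟨⟨g, hg, hgd⟩⟩
  have hK : 0 < M ^ 2 := pow_pos hM 2
  have hblk : ∀ y : GL (Fin 2) (ZMod M), ∃ NS : ℕ × ℕ, Blk M NS.1 NS.2 ((y 0 0).val : ℤ) ((y 0 1).val : ℤ)
      ((y 1 0).val : ℤ) ((y 1 1).val : ℤ) := by
    intro y
    obtain ⟨N, S, h⟩ := blk_exists M hM ((y 0 0).val : ℤ) ((y 0 1).val : ℤ) ((y 1 0).val : ℤ) ((y 1 1).val : ℤ)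
    exact ⟨(N, S), h⟩
  choose NS hNS using hblk
  have hpM : IsCoprime (p : ℤ) (M : ℤ) := Nat.isCoprime_iff_coprime.2 hp
  obtain ⟨T, hT⟩ : ∃ T : ℕ → ℤ → ℝ, ∀ h t, T h t =
      ∑ y : {g : GL (Fin 2) (ZMod M) // g ∈ G ∧ g.val.det = (p : ZMod M)},
        Cg M (NS y.1).1 (NS y.1).2 ((y.1 0 0).val : ℤ) ((y.1 0 1).val : ℤ) ((y.1 1 0).val : ℤ)
          ((y.1 1 1).val : ℤ) (p : ℤ) h t := ⟨_, fun _ _ => rfl⟩
  have Tnn : ∀ h t, 0 ≤ T h t := fun h t => by
    rw [hT]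
    exact Finset.sum_nonneg fun y _ => Cg_nonneg _ _ _ _ _ _ _ _ _ _
  have Tper : ∀ (h : ℕ) (a a' : ℤ), 0 < h → ((M ^ 2 * h : ℕ) : ℤ) ∣ a - a' → T h a = T h a' := by
    intro h a a' hh hd
    rw [hT, hT]
    exact Finset.sum_congr rfl fun y _ => Cg_per M _ _ (hNS y.1).mul _ _ _ _ _ h a a' hh hd
  have Tstep : ∀ (h l : ℕ) (t : ℤ), 0 < h → l.Prime → p.Coprime (h * l) →
      ∑ i ∈ range l, T (h * l) (t + ((M ^ 2 * h : ℕ) : ℤ) * i) = l * T h t := by
    intro h l t hh hl hc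
    simp only [hT]
    rw [Finset.sum_comm, Finset.mul_sum]
    exact Finset.sum_congr rfl fun y _ => Cg_step M _ _ hM (hNS y.1).mul (hNS y.1).cop _ _ _ _ _ hpM h l t hh hl
      (Nat.isCoprime_iff_coprime.2 hc)
  have Tavg := avg_of_step (M ^ 2) p hK T Tper Tstep
  obtain ⟨S1, hS1⟩ : ∃ S1 : ℝ, S1 = ∑ t ∈ range (M ^ 2), T 1 (t : ℤ) := ⟨_, rfl⟩
  have hM' : (0 : ℝ) < (M : ℝ) := by exact_mod_cast hM
  -- the number of matrices with given trace
  have hA : ∀ (q : ℕ) (h : M ∣ M ^ 2 * q), 0 < q → p.Coprime q → ∀ t : ℤ,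
      (∏ l ∈ q.primeFactors.filter (fun l => ¬ l ∣ M), kap l) *
        (Nat.card {g : GL (Fin 2) (ZMod (M ^ 2 * q)) //
          Matrix.GeneralLinearGroup.map (ZMod.castHom h (ZMod M)) g ∈ G ∧
            g.val.det = (p : ZMod (M ^ 2 * q)) ∧ g.val.trace = (t : ZMod (M ^ 2 * q))} : ℝ) =
      M * q * ∑ g ∈ q.divisors, ((q / g).totient : ℝ) * T g t := by
    intro q h hq hpq t
    rw [num_famg M (M ^ 2 * q) hM (Nat.mul_pos hK hq) h G p (fun g => g.val.trace = (t : ZMod (M ^ 2 * q))),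
      Nat.cast_sum, Finset.mul_sum]
    simp only [hT, Finset.mul_sum]
    rw [Finset.sum_comm]
    refine Finset.sum_congr rfl fun y _ => ?_
    have h1 := count_g M (NS y.1).1 (NS y.1).2 q hM hq h y.1 t (p : ℤ) (hNS y.1) (by
      rw [y.2.2, Int.cast_natCast]) (Nat.isCoprime_iff_coprime.2 (Nat.Coprime.mul_right hp hpq))
    rw [← Finset.mul_sum, ← h1]
    unfold NN
    rw [Int.cast_natCast]
  -- the number of matrices
  have hB : ∀ (q : ℕ) (h : M ∣ M ^ 2 * q), 0 < q → p.Coprime q →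
      (∏ l ∈ q.primeFactors.filter (fun l => ¬ l ∣ M), kap l) *
        (Nat.card {g : GL (Fin 2) (ZMod (M ^ 2 * q)) //
          Matrix.GeneralLinearGroup.map (ZMod.castHom h (ZMod M)) g ∈ G ∧
            g.val.det = (p : ZMod (M ^ 2 * q))} : ℝ) = M * q ^ 3 * S1 := by
    intro q h hq hpq
    rw [tot_famg (M ^ 2 * q) (Nat.mul_pos hK hq), Finset.mul_sum]
    simp only [and_assoc]
    rw [Finset.sum_congr rfl fun (t : ℕ) _ => hA q h hq hpq (t : ℤ), ← Finset.mul_sum, Finset.sum_comm]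
    have h1 : ∀ g ∈ q.divisors, ∑ t ∈ range (M ^ 2 * q), ((q / g).totient : ℝ) * T g (t : ℤ) =
        ((q / g).totient : ℝ) * (q * S1) := by
      intro g hg
      rw [← Finset.mul_sum, sum_famg (M ^ 2) hK p T Tper Tavg q g hq hpq (Nat.dvd_of_mem_divisors hg), hS1]
    rw [Finset.sum_congr rfl h1, ← Finset.sum_mul, sum_tot q hq]
    ring
  have hX : (0 : ℝ) < (Fintype.card {g : GL (Fin 2) (ZMod M) // g ∈ G ∧ g.val.det = (p : ZMod M)} : ℝ) := by
    exact_mod_cast Fintype.card_pos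
  obtain ⟨c, hc⟩ : ∃ c : ℝ, c = (Fintype.card {g : GL (Fin 2) (ZMod M) // g ∈ G ∧ g.val.det = (p : ZMod M)} : ℝ) :=
    ⟨_, rfl⟩
  rw [← hc] at hX
  have hS1c : S1 = c * M ^ 2 := by
    have hdv : M ∣ M ^ 2 * 1 := (dvd_pow_self M two_ne_zero).mul_right 1
    have h1 := hB 1 hdv one_pos (Nat.coprime_one_right p)
    have h2 : Nat.card {g : GL (Fin 2) (ZMod (M ^ 2 * 1)) //
          Matrix.GeneralLinearGroup.map (ZMod.castHom hdv (ZMod M)) g ∈ G ∧
            g.val.det = (p : ZMod (M ^ 2 * 1))} =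
        Fintype.card {g : GL (Fin 2) (ZMod M) // g ∈ G ∧ g.val.det = (p : ZMod M)} * M ^ 3 := by
      have h3 := num_famg M (M ^ 2 * 1) hM (by positivity) hdv G p (fun _ => True)
      simp only [and_true] at h3
      rw [h3]
      have h4 : ∀ y : {g : GL (Fin 2) (ZMod M) // g ∈ G ∧ g.val.det = (p : ZMod M)},
          Nat.card {g : GL (Fin 2) (ZMod (M ^ 2 * 1)) //
            Matrix.GeneralLinearGroup.map (ZMod.castHom hdv (ZMod M)) g = y.1 ∧
              g.val.det = (p : ZMod (M ^ 2 * 1))} = M ^ 3 := by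
        intro y
        rw [fib3 M (M ^ 2 * 1) hdv (by positivity) (fun l hl h5 => by
          rw [mul_one] at h5
          exact hl.dvd_of_dvd_pow h5) y.1 (p : ZMod (M ^ 2 * 1)) (by
            rw [ZMod.isUnit_iff_coprime, mul_one]
            exact hp.pow_right 2) (by rw [map_natCast, y.2.2])]
        congr 1
        rw [mul_one, sq, Nat.mul_div_cancel_left M hM]
      rw [Finset.sum_congr rfl fun y _ => h4 y, Finset.sum_const, smul_eq_mul, Finset.card_univ]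
    rw [h2] at h1
    simp only [Nat.primeFactors_one, Finset.filter_empty, Finset.prod_empty, one_mul] at h1
    push_cast at h1
    rw [← hc] at h1
    have h5 : (M : ℝ) * S1 = M * (c * M ^ 2) := by
      linear_combination -h1
    exact mul_left_cancel₀ hM'.ne' h5
  have hkap : ∀ q : ℕ, (∏ l ∈ q.primeFactors.filter (fun l => ¬ l ∣ M), kap l) ≠ 0 := by
    intro q
    refine Finset.prod_ne_zero_iff.2 fun l hl => ?_
    have hl2 : l.Prime := Nat.prime_of_mem_primeFactors (Finset.mem_filter.1 hl).1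
    have hl3 : (2 : ℝ) ≤ (l : ℝ) := by exact_mod_cast hl2.two_le
    unfold kap
    have h1 : (0 : ℝ) < (l : ℝ) ^ 2 - 1 := by nlinarith
    have h2 : (0 : ℝ) < (l : ℝ) ^ 2 := by positivity
    exact (div_pos h2 h1).ne'
  have hD : ∀ (q : ℕ) (h : M ∣ M ^ 2 * q), 0 < q → p.Coprime q → ∀ t : ℤ,
      dG M G (M ^ 2 * q) h p t = Dn (M ^ 2) (fun h t => T h t / c) q t := by
    intro q h hq hpq t
    have h1 := hA q h hq hpq t
    have h2 := hB q h hq hpq
    have hq' : (0 : ℝ) < (q : ℝ) := by exact_mod_cast hq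
    unfold dG Dn
    rw [← mul_div_mul_left _ _ (hkap q), h1, h2, hS1c]
    have h3 : ∑ g ∈ q.divisors, ((q / g).totient : ℝ) / q * (T g t / c) =
        (∑ g ∈ q.divisors, ((q / g).totient : ℝ) * T g t) / (q * c) := by
      rw [Finset.sum_div]
      refine Finset.sum_congr rfl fun g _ => ?_
      field_simp
    rw [h3]
    push_cast
    field_simp
  refine ⟨fun h t => T h t / c, ⟨fun h a => div_nonneg (Tnn h a) hX.le, fun h a a' hh hd => ?_, fun a => ?_,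
    fun h m t hh hm hph => ?_⟩, hD⟩
  · show T h a / c = T h a' / c
    rw [Tper h a a' hh hd]
  · have h1 := hD 1 ((dvd_pow_self M two_ne_zero).mul_right 1) one_pos (Nat.coprime_one_right p) a
    unfold uu
    rw [← dG_cast_famg M G (mul_one (M ^ 2)) ((dvd_pow_self M two_ne_zero).mul_right 1)
      (dvd_pow_self M two_ne_zero) p a, h1]
    unfold Dn
    simp only [Nat.divisors_one, Finset.sum_singleton, Nat.div_self one_pos, Nat.totient_one, Nat.cast_one,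
      div_one, one_mul, mul_one]
    have h2 : ((M ^ 2 : ℕ) : ℝ) ≠ 0 := by
      exact_mod_cast hK.ne'
    field_simp
  · show ∑ b ∈ (range (M ^ 2 * (h / Nat.gcd h m * m))).filter (fun b : ℕ => ((M ^ 2 * m : ℕ) : ℤ) ∣ (b : ℤ) - t),
      T h b / c = ((h / Nat.gcd h m : ℕ) : ℝ) * (T (Nat.gcd h m) t / c)
    rw [← Finset.sum_div, Tavg h m t hh hm hph, mul_div_assoc]

end Pool.Agent.JD
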