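import Mathlib

/-!
# Following a slowly growing function
-/

set_option autoImplicit false

namespace Pool.Agent.JD

open Finset

open Classical in
/-- the greedy counting function -/
private noncomputable def grN (T : ℕ → ℝ) (S : ℕ → Prop) : ℕ → ℕ
  | 0 => 0
  | x + 1 => if S (x + 1) ∧ (grN T S x : ℝ) + 1 ≤ T (x + 1) then grN T S x + 1 else grN T S x

/-- PIECE [JD-B1] (about 120 lines). PROOF. `N : ℕ → ℕ` recursively, `N 0 = 0`, `N (x + 1) = N x + 1` if `S (x + 1)` and `(N x : ℝ) + 1 ≤ T (x + 1)`, otherwise `N (x + 1) = N x`; `B` = the numbers `x + 1` of the first case. The number of the elements of `B` up to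
`x` is `N x`. `N x ≤ T x` by induction (`T` monotone, `T 0 = 0`). Claim: `T s < N s + 1` for every `s` with `S s`, `1 ≤ s`: strong induction; let `s'` be the previous one (or `0`); `T s ≤ T s' + 1 < N s' + 2 = N (s - 1) + 2` (`hgap`; `T s' = 0 < N 0 + 1` for
`s' = 0`); in the first case `N s = N (s - 1) + 1`, in the second `T s < N (s - 1) + 1`. For `x` arbitrary let `s ≤ x` be the last one with `S` (or `0`): `T x ≤ T s + 1 < N s + 2 = N x + 2`. -/
theorem greedy (T : ℕ → ℝ) (S : ℕ → Prop) (hT0 : T 0 = 0) (hmono : Monotone T)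
    (hgap : ∀ x y : ℕ, x ≤ y → (∀ z, x < z → z < y → ¬ S z) → T y - T x ≤ 1) :
    ∃ B : Set ℕ, (∀ z ∈ B, S z) ∧ ∀ x : ℕ,
      (open Classical in (((range (x + 1)).filter (fun z => z ∈ B)).card : ℝ)) ≤ T x ∧
      T x ≤ (open Classical in (((range (x + 1)).filter (fun z => z ∈ B)).card : ℝ)) + 2 := by
  classical
  have h0 : grN T S 0 = 0 := rfl
  have h1 : ∀ x, S (x + 1) ∧ (grN T S x : ℝ) + 1 ≤ T (x + 1) → grN T S (x + 1) = grN T S x + 1 :=
    fun x h => if_pos h
  have h2 : ∀ x, ¬ (S (x + 1) ∧ (grN T S x : ℝ) + 1 ≤ T (x + 1)) → grN T S (x + 1) = grN T S x :=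
    fun x h => if_neg h
  have hm : Monotone (grN T S) := by
    refine monotone_nat_of_le_succ fun x => ?_
    by_cases h : S (x + 1) ∧ (grN T S x : ℝ) + 1 ≤ T (x + 1)
    · rw [h1 x h]; omega
    · rw [h2 x h]
  refine ⟨{z | ∃ x, z = x + 1 ∧ S (x + 1) ∧ (grN T S x : ℝ) + 1 ≤ T (x + 1)}, ?_, ?_⟩
  · rintro z ⟨x, rfl, hx, -⟩
    exact hx
  have hcard : ∀ x : ℕ, ((range (x + 1)).filter (fun z => z ∈ {z | ∃ x, z = x + 1 ∧ S (x + 1) ∧
      (grN T S x : ℝ) + 1 ≤ T (x + 1)})).card = grN T S x := by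
    intro x
    induction x with
    | zero =>
      rw [h0, card_eq_zero, filter_eq_empty_iff]
      rintro z hz ⟨y, hy, -⟩
      rw [mem_range] at hz
      omega
    | succ x ih =>
      rw [range_add_one, filter_insert]
      by_cases h : S (x + 1) ∧ (grN T S x : ℝ) + 1 ≤ T (x + 1)
      · have hin : (x + 1) ∈ {z | ∃ x, z = x + 1 ∧ S (x + 1) ∧ (grN T S x : ℝ) + 1 ≤ T (x + 1)} :=
          ⟨x, rfl, h⟩
        rw [if_pos hin, card_insert_of_notMem (by simp), ih, h1 x h]
      · have hin : (x + 1) ∉ {z | ∃ x, z = x + 1 ∧ S (x + 1) ∧ (grN T S x : ℝ) + 1 ≤ T (x + 1)} := by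
          rintro ⟨y, hy, hy'⟩
          obtain rfl : x = y := by omega
          exact h hy'
        rw [if_neg hin, ih, h2 x h]
  have hle : ∀ x : ℕ, (grN T S x : ℝ) ≤ T x := by
    intro x
    induction x with
    | zero => rw [h0, hT0]; norm_num
    | succ x ih =>
      by_cases h : S (x + 1) ∧ (grN T S x : ℝ) + 1 ≤ T (x + 1)
      · rw [h1 x h]; push_cast; exact h.2
      · rw [h2 x h]; exact ih.trans (hmono (Nat.le_succ x))
  have hP : ∀ x : ℕ, ∃ s ≤ x, (∀ z, s < z → z ≤ x → ¬ S z) ∧ T s < (grN T S s : ℝ) + 1 := by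
    intro x
    induction x with
    | zero => exact ⟨0, le_rfl, fun z hz hz' => absurd hz (by omega), by rw [hT0, h0]; norm_num⟩
    | succ x ih =>
      obtain ⟨s, hs, hs1, hs2⟩ := ih
      by_cases hS : S (x + 1)
      · have e1 := hgap s (x + 1) (by omega) (fun z hz hz' => hs1 z hz (by omega))
        have e2 : (grN T S s : ℝ) ≤ grN T S x := by exact_mod_cast hm hs
        refine ⟨x + 1, le_rfl, fun z hz hz' => absurd hz (by omega), ?_⟩
        by_cases h : (grN T S x : ℝ) + 1 ≤ T (x + 1)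
        · rw [h1 x ⟨hS, h⟩]; push_cast; linarith
        · rw [h2 x (fun h' => h h'.2)]; exact not_le.1 h
      · refine ⟨s, by omega, fun z hz hz' => ?_, hs2⟩
        rcases Nat.lt_or_ge z (x + 1) with h | h
        · exact hs1 z hz (by omega)
        · obtain rfl : z = x + 1 := by omega
          exact hS
  intro x
  rw [hcard x]
  refine ⟨hle x, ?_⟩
  obtain ⟨s, hs, hs1, hs2⟩ := hP x
  have e1 := hgap s x hs (fun z hz hz' => hs1 z hz (by omega))
  have e2 : (grN T S s : ℝ) ≤ grN T S x := by exact_mod_cast hm hs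
  linarith

end Pool.Agent.JD
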