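import Pool.Agent.Lib_MP_f1937f_jd.Fib3

/-!
# Densities for a smaller modulus
-/

set_option autoImplicit false

namespace Pool.Agent.JD

open Finset Pool.Agent.TB Pool.Agent.JB

/-- the number of the lifts of given determinant of the matrices with the property `P` -/
private theorem card_lift_liftd (m m' : ℕ) (h : m ∣ m') (hm : 0 < m) (hm' : 0 < m')
    (hp : ∀ l : ℕ, l.Prime → l ∣ m' → l ∣ m) (d : ZMod m') (hd : IsUnit d)
    (P : GL (Fin 2) (ZMod m) → Prop) (hP : ∀ g, P g → g.val.det = ZMod.castHom h (ZMod m) d) :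
    Nat.card {g : GL (Fin 2) (ZMod m') // P (Matrix.GeneralLinearGroup.map (ZMod.castHom h (ZMod m)) g) ∧
      g.val.det = d} = (m' / m) ^ 3 * Nat.card {g : GL (Fin 2) (ZMod m) // P g} := by
  classical
  haveI : NeZero m := ⟨hm.ne'⟩
  haveI : NeZero m' := ⟨hm'.ne'⟩
  rw [Nat.card_eq_fintype_card, Nat.card_eq_fintype_card, Fintype.card_subtype, Fintype.card_subtype]
  rw [Finset.card_eq_sum_card_fiberwise
    (f := fun g => Matrix.GeneralLinearGroup.map (ZMod.castHom h (ZMod m)) g) (t := univ.filter P)]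
  · rw [Finset.sum_congr rfl (g := fun _ => (m' / m) ^ 3)]
    · rw [Finset.sum_const, smul_eq_mul, mul_comm]
    · intro g hg
      have hg2 := (mem_filter.1 hg).2
      have h1 := fib3 m m' h hm' hp g d hd (hP g hg2).symm
      rw [Nat.card_eq_fintype_card, Fintype.card_subtype] at h1
      rw [← h1]
      congr 1
      ext x
      simp only [mem_filter, mem_univ, true_and]
      constructor
      · rintro ⟨⟨_, h2⟩, h3⟩
        exact ⟨h3, h2⟩
      · rintro ⟨h3, h2⟩
        exact ⟨⟨by rw [h3]; exact hg2, h2⟩, h3⟩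
  · intro g hg
    have hg2 := (mem_filter.1 (Finset.mem_coe.1 hg)).2
    exact Finset.mem_coe.2 (mem_filter.2 ⟨mem_univ _, hg2.1⟩)

/-- reduction of matrices -/
private theorem map_map_liftd (M m m' : ℕ) (h : M ∣ m) (h' : M ∣ m') (hmm : m ∣ m') (g : GL (Fin 2) (ZMod m')) :
    Matrix.GeneralLinearGroup.map (ZMod.castHom h (ZMod M))
      (Matrix.GeneralLinearGroup.map (ZMod.castHom hmm (ZMod m)) g) =
      Matrix.GeneralLinearGroup.map (ZMod.castHom h' (ZMod M)) g := by
  have h1 : (ZMod.castHom h (ZMod M)).comp (ZMod.castHom hmm (ZMod m)) = ZMod.castHom h' (ZMod M) :=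
    Subsingleton.elim _ _
  rw [← h1]
  apply Units.ext
  rfl

private theorem det_map_liftd (m m' : ℕ) (hmm : m ∣ m') (g : GL (Fin 2) (ZMod m')) :
    (Matrix.GeneralLinearGroup.map (ZMod.castHom hmm (ZMod m)) g).val.det =
      ZMod.castHom hmm (ZMod m) g.val.det := by
  rw [RingHom.map_det]
  rfl

private theorem trace_map_liftd (m m' : ℕ) (hmm : m ∣ m') (g : GL (Fin 2) (ZMod m')) :
    (Matrix.GeneralLinearGroup.map (ZMod.castHom hmm (ZMod m)) g).val.trace =
      ZMod.castHom hmm (ZMod m) g.val.trace := by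
  rw [Matrix.trace_fin_two, Matrix.trace_fin_two, map_add]
  rfl

/-- sum over the traces -/
private theorem sum_trace_liftd (m m' : ℕ) (hm : 0 < m) (hm' : 0 < m') (hmm : m ∣ m')
    (P : GL (Fin 2) (ZMod m') → Prop) (t : ℤ) :
    ∑ t' ∈ (range m').filter (fun t' : ℕ => (m : ℤ) ∣ (t' : ℤ) - t),
      Nat.card {g : GL (Fin 2) (ZMod m') // P g ∧ g.val.trace = ((t' : ℤ) : ZMod m')} =
      Nat.card {g : GL (Fin 2) (ZMod m') // P g ∧ ZMod.castHom hmm (ZMod m) g.val.trace = (t : ZMod m)} := by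
  classical
  haveI : NeZero m := ⟨hm.ne'⟩
  haveI : NeZero m' := ⟨hm'.ne'⟩
  have key : ∀ x : ZMod m', (m : ℤ) ∣ (x.val : ℤ) - t ↔ ZMod.castHom hmm (ZMod m) x = (t : ZMod m) := by
    intro x
    have h1 : ZMod.castHom hmm (ZMod m) x = ((x.val : ℤ) : ZMod m) := by
      conv_lhs => rw [← ZMod.natCast_zmod_val x]
      rw [map_natCast]
      push_cast
      rfl
    rw [h1, eq_comm, ZMod.intCast_eq_intCast_iff_dvd_sub]
  rw [Nat.card_eq_fintype_card, Fintype.card_subtype]
  rw [Finset.card_eq_sum_card_fiberwise (f := fun g : GL (Fin 2) (ZMod m') => (g.val.trace).val)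
    (t := (range m').filter (fun t' : ℕ => (m : ℤ) ∣ (t' : ℤ) - t))]
  · refine Finset.sum_congr rfl fun t' ht' => ?_
    have ht1 := mem_range.1 (mem_filter.1 ht').1
    have ht2 := (mem_filter.1 ht').2
    rw [Nat.card_eq_fintype_card, Fintype.card_subtype]
    congr 1
    ext g
    simp only [mem_filter, mem_univ, true_and]
    constructor
    · rintro ⟨h1, h2⟩
      have h3 : (g.val.trace).val = t' := by
        rw [h2, Int.cast_natCast, ZMod.val_natCast, Nat.mod_eq_of_lt ht1]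
      refine ⟨⟨h1, ?_⟩, h3⟩
      rw [← key, h3]
      exact ht2
    · rintro ⟨⟨h1, _⟩, h3⟩
      refine ⟨h1, ?_⟩
      rw [← h3, Int.cast_natCast, ZMod.natCast_zmod_val]
  · intro g hg
    have hg2 := (mem_filter.1 (Finset.mem_coe.1 hg)).2
    refine Finset.mem_coe.2 (mem_filter.2 ⟨mem_range.2 (ZMod.val_lt _), ?_⟩)
    exact (key _).2 hg2.2

/-- PIECE [JD-P20] (about 120 lines). PROOF. `m' = M² q = lcm (M²) m` is a multiple of `m` with the same primes (`M ∣ m`). By `fib3` every `g` modulo `m` with `g mod M ∈ G`, `det g = d` has `(m' / m)³` lifts of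
determinant `d` modulo `m'`, and they all reduce into `G`; so the denominator for `m'` is `(m' / m)³` times the denominator for `m`, and the sum over the `t' < m'`, `t' = t` modulo `m`, of the numerators for `m'` (the `g`
modulo `m'` whose trace is `t` modulo `m`) is `(m' / m)³` times the numerator for `m`. (If the denominator is `0` both sides are `0`.) -/
theorem dG_lift (M : ℕ) (hM : 0 < M) (G : Subgroup (GL (Fin 2) (ZMod M))) (m q : ℕ) (hm : 0 < m) (h : M ∣ m) (h' : M ∣ M ^ 2 * q)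
    (hq : M ^ 2 * q = Nat.lcm (M ^ 2) m) (d : ℕ) (hd : d.Coprime m) (t : ℤ) :
    dG M G m h d t = ∑ t' ∈ (range (M ^ 2 * q)).filter (fun t' : ℕ => (m : ℤ) ∣ (t' : ℤ) - t), dG M G (M ^ 2 * q) h' d t' := by
  classical
  generalize hm'def : M ^ 2 * q = m' at *
  have hmm : m ∣ m' := by
    rw [hq]
    exact Nat.dvd_lcm_right _ _
  have hm' : 0 < m' := by
    rw [hq]
    exact Nat.lcm_pos (pow_pos hM 2) hm
  have hp : ∀ l : ℕ, l.Prime → l ∣ m' → l ∣ m := by
    intro l hl hlm
    rw [hq] at hlm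
    have h1 : l ∣ M ^ 2 * m := hlm.trans (Nat.lcm_dvd_mul _ _)
    rcases (Nat.Prime.dvd_mul hl).1 h1 with h1 | h1
    · exact (hl.dvd_of_dvd_pow h1).trans h
    · exact h1
  have hdc : d.Coprime m' := by
    refine Nat.coprime_of_dvd fun l hl h1 h2 => ?_
    have h3 := Nat.dvd_gcd h1 (hp l hl h2)
    rw [Nat.Coprime] at hd
    rw [hd] at h3
    exact hl.one_lt.ne' (Nat.dvd_one.1 h3)
  have hdu : IsUnit ((d : ℕ) : ZMod m') := (ZMod.isUnit_iff_coprime d m').2 hdc
  have hcast : ZMod.castHom hmm (ZMod m) ((d : ℕ) : ZMod m') = ((d : ℕ) : ZMod m) := map_natCast _ _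
  -- denominators
  have hden := card_lift_liftd m m' hmm hm hm' hp (d : ZMod m') hdu
    (fun g => Matrix.GeneralLinearGroup.map (ZMod.castHom h (ZMod M)) g ∈ G ∧ g.val.det = (d : ZMod m))
    (fun g hg => by rw [hg.2, hcast])
  have hden2 : Nat.card {g : GL (Fin 2) (ZMod m') // (Matrix.GeneralLinearGroup.map (ZMod.castHom h (ZMod M))
      (Matrix.GeneralLinearGroup.map (ZMod.castHom hmm (ZMod m)) g) ∈ G ∧
      (Matrix.GeneralLinearGroup.map (ZMod.castHom hmm (ZMod m)) g).val.det = (d : ZMod m)) ∧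
      g.val.det = (d : ZMod m')} =
      Nat.card {g : GL (Fin 2) (ZMod m') // Matrix.GeneralLinearGroup.map (ZMod.castHom h' (ZMod M)) g ∈ G ∧
      g.val.det = (d : ZMod m')} := by
    refine Nat.card_congr (Equiv.subtypeEquivRight fun g => ?_)
    rw [map_map_liftd M m m' h h' hmm, det_map_liftd]
    constructor
    · rintro ⟨⟨h1, _⟩, h2⟩
      exact ⟨h1, h2⟩
    · rintro ⟨h1, h2⟩
      exact ⟨⟨h1, by rw [h2, hcast]⟩, h2⟩
  -- numerators
  have hnum := card_lift_liftd m m' hmm hm hm' hp (d : ZMod m') hdu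
    (fun g => Matrix.GeneralLinearGroup.map (ZMod.castHom h (ZMod M)) g ∈ G ∧ g.val.det = (d : ZMod m) ∧
      g.val.trace = (t : ZMod m))
    (fun g hg => by rw [hg.2.1, hcast])
  have hnum2 : Nat.card {g : GL (Fin 2) (ZMod m') // (Matrix.GeneralLinearGroup.map (ZMod.castHom h (ZMod M))
      (Matrix.GeneralLinearGroup.map (ZMod.castHom hmm (ZMod m)) g) ∈ G ∧
      (Matrix.GeneralLinearGroup.map (ZMod.castHom hmm (ZMod m)) g).val.det = (d : ZMod m) ∧
      (Matrix.GeneralLinearGroup.map (ZMod.castHom hmm (ZMod m)) g).val.trace = (t : ZMod m)) ∧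
      g.val.det = (d : ZMod m')} =
      ∑ t' ∈ (range m').filter (fun t' : ℕ => (m : ℤ) ∣ (t' : ℤ) - t),
      Nat.card {g : GL (Fin 2) (ZMod m') // Matrix.GeneralLinearGroup.map (ZMod.castHom h' (ZMod M)) g ∈ G ∧
      g.val.det = (d : ZMod m') ∧ g.val.trace = ((t' : ℤ) : ZMod m')} := by
    have h1 := sum_trace_liftd m m' hm hm' hmm
      (fun g => Matrix.GeneralLinearGroup.map (ZMod.castHom h' (ZMod M)) g ∈ G ∧ g.val.det = (d : ZMod m')) t
    simp only [and_assoc] at h1
    rw [h1]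
    refine Nat.card_congr (Equiv.subtypeEquivRight fun g => ?_)
    rw [map_map_liftd M m m' h h' hmm, det_map_liftd, trace_map_liftd]
    constructor
    · rintro ⟨⟨h1, _, h3⟩, h2⟩
      exact ⟨h1, h2, h3⟩
    · rintro ⟨h1, h2, h3⟩
      exact ⟨⟨h1, by rw [h2, hcast], h3⟩, h2⟩
  have hk : ((m' / m : ℕ) : ℝ) ^ 3 ≠ 0 := by
    have h1 : 0 < m' / m := Nat.div_pos (Nat.le_of_dvd hm' hmm) hm
    positivity
  unfold dG
  rw [← Finset.sum_div, ← Nat.cast_sum, ← hnum2, ← hden2, hnum, hden]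
  push_cast
  rw [mul_div_mul_left _ _ hk]

end Pool.Agent.JD
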