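import Pool.Agent.Lib_MP_f1937f_jd.Defs
import Pool.Agent.Lib_MP_f1937f_jb.AvgP

/-!
# From the moduli `M² q` to all multiples of `M`
-/

set_option autoImplicit false

namespace Pool.Agent.JD

open Finset Pool.Agent.TB Pool.Agent.JB

/-- the classes modulo `L` above the class `t` modulo `m` partition it -/
private theorem split_liftf (L m : ℕ) (hL : 0 < L) (hm : m ∣ L) (t : ℤ) (S : Finset ℤ) (f : ℤ → ℝ) :
    ∑ a ∈ S.filter (fun a => (m : ℤ) ∣ a - t), f a =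
      ∑ t' ∈ (range L).filter (fun t' : ℕ => (m : ℤ) ∣ (t' : ℤ) - t),
        ∑ a ∈ S.filter (fun a => (L : ℤ) ∣ a - (t' : ℤ)), f a := by
  have hL' : (0 : ℤ) < (L : ℤ) := by exact_mod_cast hL
  have hmL : (m : ℤ) ∣ (L : ℤ) := by exact_mod_cast hm
  rw [← Finset.sum_fiberwise_of_maps_to (s := S.filter (fun a => (m : ℤ) ∣ a - t))
    (t := (range L).filter (fun t' : ℕ => (m : ℤ) ∣ (t' : ℤ) - t)) (g := fun a => (a % (L : ℤ)).toNat)]
  · refine Finset.sum_congr rfl fun t' ht' => ?_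
    have h1 := Finset.mem_filter.1 ht'
    have h2 : t' < L := Finset.mem_range.1 h1.1
    refine Finset.sum_congr ?_ fun _ _ => rfl
    ext a
    simp only [Finset.mem_filter]
    have h3 := Int.emod_nonneg a hL'.ne'
    have h4 := Int.emod_lt_of_pos a hL'
    have h5 := Int.emod_add_mul_ediv a (L : ℤ)
    constructor
    · rintro ⟨⟨h6, _⟩, h7⟩
      refine ⟨h6, ⟨a / L, ?_⟩⟩
      have h8 : a % (L : ℤ) = t' := by omega
      linear_combination (-1 : ℤ) * h5 + h8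
    · rintro ⟨h6, h7⟩
      have h8 : (m : ℤ) ∣ a - t := by
        have := dvd_add (hmL.trans h7) h1.2
        rwa [sub_add_sub_cancel] at this
      refine ⟨⟨h6, h8⟩, ?_⟩
      have h9 : a % (L : ℤ) = (t' : ℤ) % L :=
        Int.emod_eq_emod_iff_emod_sub_eq_zero.mpr (Int.emod_eq_zero_of_dvd h7)
      have h10 : (t' : ℤ) % (L : ℤ) = t' :=
        Int.emod_eq_of_lt (Int.natCast_nonneg t') (by exact_mod_cast h2)
      rw [h10] at h9
      omega
  · intro a ha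
    have h1 := (Finset.mem_filter.1 ha).2
    have h3 := Int.emod_nonneg a hL'.ne'
    have h4 := Int.emod_lt_of_pos a hL'
    have h5 := Int.emod_add_mul_ediv a (L : ℤ)
    refine Finset.mem_filter.2 ⟨Finset.mem_range.2 (by omega), ?_⟩
    have h6 : (((a % (L : ℤ)).toNat : ℕ) : ℤ) = a % (L : ℤ) := Int.toNat_of_nonneg h3
    rw [h6]
    have h7 : a % (L : ℤ) - t = (a - t) - L * (a / L) := by linear_combination h5
    rw [h7]
    exact dvd_sub h1 (hmL.mul_right _)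

/-- PIECE [JD-A9] (about 120 lines). PROOF. Given `m` let `M² q = lcm (M²) m` (`M ^ 2 ∣ lcm`); `q = m / gcd (M²) m ≤ m ≤ p`, `q ∣ m`, so `¬ p ∣ q`. The `a` with `m ∣ a - t` are partitioned by the class `t' < M² q` of `a` modulo `M² q`
(`m ∣ t' - t`); there are `M² q / m ≤ M` such `t'` (`lcm (M²) (M m₀) ∣ M (M m₀)`; count with `count_per`-like or: `M² q = m r`, the `t'` are determined by `t' / m`). Sum `hg.equi` over them. -/
theorem lift_F (M : ℕ) (hM : 0 < M) (D D' : ℕ → ℤ → ℝ) (C : ℝ) (hC : 0 ≤ C) (p : ℕ) (hp : p.Prime) (ρ : ℤ → ℝ) (hg : GLK (M ^ 2) D C p ρ)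
    (hD : ∀ (m q : ℕ) (t : ℤ), 0 < m → M ∣ m → m ≤ p → ¬ p ∣ m → M ^ 2 * q = Nat.lcm (M ^ 2) m →
      D' m t = ∑ t' ∈ (range (M ^ 2 * q)).filter (fun t' : ℕ => (m : ℤ) ∣ (t' : ℤ) - t), D q t') :
    GLM M D' (C * M) p ρ := by
  refine ⟨hg.nonneg, hg.supp, hg.total, ?_⟩
  intro m hm hMm hmp hpm t k
  have hM2 : 0 < M ^ 2 := by positivity
  obtain ⟨q, hq⟩ : M ^ 2 ∣ Nat.lcm (M ^ 2) m := Nat.dvd_lcm_left _ _
  obtain ⟨r, hr⟩ : m ∣ Nat.lcm (M ^ 2) m := Nat.dvd_lcm_right _ _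
  have hL0 : 0 < Nat.lcm (M ^ 2) m := Nat.lcm_pos hM2 hm
  have hq0 : 0 < q := by
    rcases Nat.eq_zero_or_pos q with h | h
    · rw [h, mul_zero] at hq; omega
    · exact h
  have hqm : q ∣ m := by
    have h1 : M ^ 2 * q ∣ M ^ 2 * m := by
      rw [← hq]
      exact Nat.lcm_dvd_mul _ _
    exact Nat.dvd_of_mul_dvd_mul_left hM2 h1
  have hqle : q ≤ m := Nat.le_of_dvd hm hqm
  have hpq : ¬ p ∣ q := fun h => hpm (h.trans hqm)
  have hrM : r ≤ M := by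
    obtain ⟨m₀, hm₀⟩ := hMm
    have h1 : Nat.lcm (M ^ 2) m ∣ M * m := by
      refine Nat.lcm_dvd ?_ (dvd_mul_left _ _)
      rw [hm₀, ← mul_assoc, ← pow_two]
      exact dvd_mul_right _ _
    rw [hr, mul_comm M m] at h1
    exact Nat.le_of_dvd hM (Nat.dvd_of_mul_dvd_mul_left hm h1)
  have hcard : (((range (M ^ 2 * q)).filter (fun t' : ℕ => (m : ℤ) ∣ (t' : ℤ) - t)).card : ℝ) = r := by
    have h1 := count_per m r hm t
    rw [mul_comm r m, ← hr, hq, ← Finset.sum_filter, Finset.sum_const, nsmul_eq_mul, mul_one] at h1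
    exact h1
  have hmL : m ∣ M ^ 2 * q := by rw [← hq]; exact Nat.dvd_lcm_right _ _
  rw [split_liftf (M ^ 2 * q) m (by rw [← hq]; exact hL0) hmL t (V p) (fun a => ρ a * Uk k (xx p a))]
  have hDD : (if k = 0 then D' m t else 0) =
      ∑ t' ∈ (range (M ^ 2 * q)).filter (fun t' : ℕ => (m : ℤ) ∣ (t' : ℤ) - t), (if k = 0 then D q t' else 0) := by
    by_cases hk : k = 0
    · simp only [hk, if_true]
      exact hD m q t hm hMm hmp hpm hq.symm
    · simp only [hk, if_false, Finset.sum_const_zero]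
  rw [hDD, ← Finset.sum_sub_distrib]
  have hlog : 0 ≤ Real.log p / √(p : ℝ) := by
    have : (1 : ℝ) ≤ p := by exact_mod_cast hp.one_lt.le
    have := Real.log_nonneg this
    positivity
  have hB : ∀ t' ∈ (range (M ^ 2 * q)).filter (fun t' : ℕ => (m : ℤ) ∣ (t' : ℤ) - t),
      |∑ a ∈ (V p).filter (fun a => ((M ^ 2 * q : ℕ) : ℤ) ∣ a - (t' : ℤ)), ρ a * Uk k (xx p a) -
        (if k = 0 then D q t' else 0)| ≤ C * (q : ℝ) ^ 2 * (k + 1) * (Real.log p / √(p : ℝ)) :=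
    fun t' _ => hg.equi q hq0 (hqle.trans hmp) hpq t' k
  refine (Finset.abs_sum_le_sum_abs _ _).trans ((Finset.sum_le_sum hB).trans ?_)
  rw [Finset.sum_const, nsmul_eq_mul, hcard]
  have hr' : (r : ℝ) ≤ M := by exact_mod_cast hrM
  have hq' : (q : ℝ) ≤ m := by exact_mod_cast hqle
  have hq2 : (q : ℝ) ^ 2 ≤ (m : ℝ) ^ 2 := pow_le_pow_left₀ (Nat.cast_nonneg q) hq' 2
  have hk1 : (0 : ℝ) ≤ (k : ℝ) + 1 := by positivity
  have h1 : (0 : ℝ) ≤ C * (m : ℝ) ^ 2 * (k + 1) * (Real.log p / √(p : ℝ)) := by positivity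
  calc (r : ℝ) * (C * (q : ℝ) ^ 2 * (k + 1) * (Real.log p / √(p : ℝ)))
      ≤ (r : ℝ) * (C * (m : ℝ) ^ 2 * (k + 1) * (Real.log p / √(p : ℝ))) := by gcongr
    _ ≤ (M : ℝ) * (C * (m : ℝ) ^ 2 * (k + 1) * (Real.log p / √(p : ℝ))) :=
        mul_le_mul_of_nonneg_right hr' h1
    _ = C * M * (m : ℝ) ^ 2 * (k + 1) * (Real.log p / √(p : ℝ)) := by ring

end Pool.Agent.JD
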