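import Pool.Agent.Lib_MP_f1937f_jd.DnF
import Pool.Agent.Lib_MP_f1937f_tb.LawNorm

/-!
# Normalisation
-/

set_option autoImplicit false

namespace Pool.Agent.JD

open Finset Pool.Agent.TB Pool.Agent.JB

private theorem norm_classesF (M : ℕ) (hM : 0 < M) (S : Finset ℤ) (μ : ℤ → ℝ) :
    ∑ t ∈ range M, ∑ a ∈ S.filter (fun a => (M : ℤ) ∣ a - (t : ℤ)), μ a = ∑ a ∈ S, μ a := by
  have hM' : (0 : ℤ) < M := by exact_mod_cast hM
  simp_rw [sum_filter]
  rw [sum_comm]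
  refine sum_congr rfl fun a _ => ?_
  have h0 : 0 ≤ a % M := Int.emod_nonneg _ hM'.ne'
  have h1 : a % M < M := Int.emod_lt_of_pos _ hM'
  have h2 : ((a % M).toNat : ℤ) = a % M := Int.toNat_of_nonneg h0
  rw [sum_eq_single (a % M).toNat]
  · rw [if_pos]
    rw [h2]
    exact Int.dvd_self_sub_emod
  · intro t ht hne
    rw [if_neg]
    intro hd
    apply hne
    have ht' : (t : ℤ) < M := by exact_mod_cast mem_range.1 ht
    have h3 : a % M = (t : ℤ) % M := (Int.modEq_iff_dvd.2 hd).symm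
    have h4 : (t : ℤ) % M = t := Int.emod_eq_of_lt (by positivity) ht'
    have h5 : (t : ℤ) = ((a % M).toNat : ℤ) := by rw [h2, h3, h4]
    exact_mod_cast h5
  · intro hn
    exfalso
    apply hn
    rw [mem_range]
    have : ((a % M).toNat : ℤ) < M := by rw [h2]; exact h1
    exact_mod_cast this

/-- PIECE [JD-A5] (about 130 lines, adapt `norm_J` of `Lib_MP_f1937f_jb/NormJ.lean`, copy its private lemma). PROOF. `Z = ∑ a ∈ V p, μ a`; `hμ` with `q = 1`, `k = 0`, summed over `t < K` (`Dn_one`, `hu.sum`):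
`|Z - 1| ≤ E K (log p / √p) ≤ 1 / 2`. `ρ = μ / Z` on `V p`. `|Dn| ≤ 1` (`Dn_nonneg`, `Dn_le`; `p.Coprime q` as `¬ p ∣ q`). -/
theorem norm_F (K : ℕ) (hK : 0 < K) (c : ℝ) (u : ℤ → ℝ) (C : ℕ → ℤ → ℝ) (p : ℕ) (hp : p.Prime) (hF : Fam K p u C) (hu : UV K c u)
    (E : ℝ) (hE : 0 ≤ E) (hsmall : E * K * (Real.log p / √(p : ℝ)) ≤ 1 / 2) (μ : ℤ → ℝ) (hμ0 : ∀ a, 0 ≤ μ a)
    (hμ : ∀ q : ℕ, 0 < q → q ≤ p → ¬ p ∣ q → ∀ (t : ℤ) (k : ℕ),
      |∑ a ∈ (V p).filter (fun a => ((K * q : ℕ) : ℤ) ∣ a - t), μ a * Uk k (xx p a) - (if k = 0 then Dn K C q t else 0)| ≤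
        E * (q : ℝ) ^ 2 * (k + 1) * (Real.log p / √(p : ℝ))) :
    ∃ ρ : ℤ → ℝ, GLK K (Dn K C) (2 * E + 2 * E * K) p ρ ∧ (∀ a ∈ V p, μ a / 2 ≤ ρ a) ∧ (∀ a, μ a = 0 → ρ a = 0) := by
  set L : ℝ := Real.log p / √(p : ℝ) with hL
  have hL0 : 0 ≤ L := by
    have : 0 ≤ Real.log p := Real.log_nonneg (by exact_mod_cast hp.one_lt.le)
    positivity
  set Z : ℝ := ∑ a ∈ V p, μ a with hZ
  have hU0 : ∀ y, Uk 0 y = 1 := by
    intro y
    simp [Uk]
  have hM1 : (1 : ℝ) ≤ K := by exact_mod_cast hK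
  have hM0 : (K : ℝ) ≠ 0 := by linarith
  -- the total mass
  have hcl : ∀ t : ℕ, |∑ a ∈ (V p).filter (fun a => (K : ℤ) ∣ a - (t : ℤ)), μ a - u (t : ℤ) / K| ≤
      E * L := by
    intro t
    have h := hμ 1 one_pos hp.one_lt.le (fun h => hp.one_lt.ne' (Nat.dvd_one.mp h)) (t : ℤ) 0
    simp only [hU0, mul_one, if_true, Nat.cast_zero, zero_add, Dn_one hF, Nat.cast_one, one_pow] at h
    exact h
  have hsumu : ∑ t ∈ range K, u (t : ℤ) / (K : ℝ) = 1 := by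
    rw [← Finset.sum_div, hu.sum, div_self hM0]
  have hZ1 : |Z - 1| ≤ E * K * L := by
    have h1 : Z - 1 = ∑ t ∈ range K,
        (∑ a ∈ (V p).filter (fun a => (K : ℤ) ∣ a - (t : ℤ)), μ a - u (t : ℤ) / K) := by
      rw [sum_sub_distrib, norm_classesF K hK, hsumu]
    rw [h1]
    calc _ ≤ ∑ t ∈ range K, |∑ a ∈ (V p).filter (fun a => (K : ℤ) ∣ a - (t : ℤ)), μ a - u (t : ℤ) / K| :=
          abs_sum_le_sum_abs _ _
      _ ≤ ∑ _t ∈ range K, E * L := sum_le_sum fun t _ => hcl t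
      _ = E * K * L := by
          rw [sum_const, card_range, nsmul_eq_mul]; ring
  have hZh : |Z - 1| ≤ 1 / 2 := hZ1.trans hsmall
  have hZl : 1 / 2 ≤ Z := by
    have := (abs_le.1 hZh).1
    linarith
  have hZu : Z ≤ 2 := by
    have := (abs_le.1 hZh).2
    linarith
  have hZp : 0 < Z := by linarith
  have hZi : Z⁻¹ ≤ 2 := by
    rw [inv_le_comm₀ hZp (by norm_num)]
    linarith
  refine ⟨fun a => if a ∈ V p then μ a / Z else 0, ⟨?_, ?_, ?_, ?_⟩, ?_, ?_⟩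
  · intro a
    split_ifs
    · exact div_nonneg (hμ0 a) hZp.le
    · exact le_refl _
  · intro a ha
    by_contra hn
    exact ha (if_neg hn)
  · have : ∑ a ∈ V p, (if a ∈ V p then μ a / Z else 0) = ∑ a ∈ V p, μ a / Z :=
      sum_congr rfl fun a ha => if_pos ha
    rw [this, ← sum_div, ← hZ, div_self hZp.ne']
  · intro q hq hqp hpq t k
    set A : ℝ := ∑ a ∈ (V p).filter (fun a => ((K * q : ℕ) : ℤ) ∣ a - t), μ a * Uk k (xx p a) with hA
    set T : ℝ := if k = 0 then Dn K C q t else 0 with hT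
    have h1 : ∑ a ∈ (V p).filter (fun a => ((K * q : ℕ) : ℤ) ∣ a - t),
        (if a ∈ V p then μ a / Z else 0) * Uk k (xx p a) = A * Z⁻¹ := by
      rw [hA, sum_mul]
      refine sum_congr rfl fun a ha => ?_
      rw [if_pos (mem_filter.1 ha).1]
      ring
    have h2 : |A - T| ≤ E * (q : ℝ) ^ 2 * (k + 1) * L := hμ q hq hqp hpq t k
    have hq1 : (1 : ℝ) ≤ q := by exact_mod_cast hq
    have h3 : |T| ≤ 1 := by
      rw [hT]
      split_ifs
      · rw [abs_of_nonneg (Dn_nonneg hF q t)]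
        exact Dn_le hF hK hu q hq ((Nat.Prime.coprime_iff_not_dvd hp).mpr hpq) t
      · rw [abs_zero]; norm_num
    have h4 : A * Z⁻¹ - T = (A - T) * Z⁻¹ + T * (1 - Z) * Z⁻¹ := by
      field_simp
      ring
    have hk1 : (1 : ℝ) ≤ k + 1 := by
      have : (0 : ℝ) ≤ k := Nat.cast_nonneg k
      linarith
    have hW : 1 ≤ (q : ℝ) ^ 2 * (k + 1) :=
      one_le_mul_of_one_le_of_one_le (one_le_pow₀ hq1 (n := 2)) hk1
    have h5 : |1 - Z| ≤ E * K * L := by rw [abs_sub_comm]; exact hZ1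
    have hZi0 : 0 ≤ Z⁻¹ := by positivity
    have hEKL : 0 ≤ 2 * E * K * L := by positivity
    rw [h1, h4]
    calc |(A - T) * Z⁻¹ + T * (1 - Z) * Z⁻¹|
        ≤ |A - T| * Z⁻¹ + |T| * |1 - Z| * Z⁻¹ := by
          refine (abs_add_le _ _).trans (le_of_eq ?_)
          rw [abs_mul, abs_mul, abs_mul, abs_of_nonneg hZi0]
      _ ≤ (E * (q : ℝ) ^ 2 * (k + 1) * L) * 2 + 1 * (E * K * L) * 2 := by
          gcongr
      _ = 2 * E * ((q : ℝ) ^ 2 * (k + 1)) * L + 2 * E * K * L * 1 := by ring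
      _ ≤ 2 * E * ((q : ℝ) ^ 2 * (k + 1)) * L + 2 * E * K * L * ((q : ℝ) ^ 2 * (k + 1)) := by
          gcongr
      _ = (2 * E + 2 * E * K) * (q : ℝ) ^ 2 * (k + 1) * L := by ring
  · intro a ha
    dsimp only
    rw [if_pos ha]
    exact div_le_div_of_nonneg_left (hμ0 a) hZp hZu
  · intro a ha
    dsimp only
    rw [ha, zero_div, ite_self]

end Pool.Agent.JD
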