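import Pool.Agent.Lib_MP_f1937f_jd.Defs
import Pool.Agent.Lib_MP_f1937f_tb.Cheb

/-!
# Small primes
-/

set_option autoImplicit false

namespace Pool.Agent.JD

open Finset Pool.Agent.TB Pool.Agent.JB

private lemma smallF_zero_mem (p : ℕ) : (0 : ℤ) ∈ V p := by
  unfold V
  rw [Finset.mem_Icc]
  constructor
  · have : (0 : ℤ) ≤ (Nat.sqrt (4 * p) : ℤ) := Int.natCast_nonneg _
    linarith
  · exact Int.natCast_nonneg _

/-- PIECE [JD-A8] (about 70 lines, adapt `Lib_MP_f1937f_jb/SmallJ.lean`). The point mass at `0`. -/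
theorem small_F (M p₀ : ℕ) : ∃ C : ℝ, 0 ≤ C ∧ ∀ p : ℕ, p.Prime → p < p₀ → ∀ D : ℕ → ℤ → ℝ,
    (∀ (m : ℕ) (t : ℤ), 0 < m → 0 ≤ D m t ∧ D m t ≤ 1) → ∃ ρ : ℤ → ℝ, GLM M D C p ρ := by
  refine ⟨3 * √(p₀ : ℝ), by positivity, fun p hp hp0 D hD => ⟨fun a => if a = 0 then 1 else 0, ?_⟩⟩
  have hl2 : 0 < Real.log 2 := Real.log_pos (by norm_num)
  have hl2' : 2 / 3 ≤ Real.log 2 := by
    have := Real.log_two_gt_d9
    linarith
  have hp2 : (2 : ℝ) ≤ p := by exact_mod_cast hp.two_le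
  have hpp : (p : ℝ) ≤ p₀ := by exact_mod_cast hp0.le
  have hs0 : 0 < √(p : ℝ) := Real.sqrt_pos.2 (by linarith)
  have hs : √(p : ℝ) ≤ √(p₀ : ℝ) := Real.sqrt_le_sqrt hpp
  have hs1 : 0 < √(p₀ : ℝ) := lt_of_lt_of_le hs0 hs
  have hlog : Real.log 2 ≤ Real.log p := Real.log_le_log (by norm_num) hp2
  refine ⟨?_, ?_, ?_, ?_⟩
  · intro a
    split_ifs
    · exact zero_le_one
    · exact le_rfl
  · intro a ha
    by_cases h : a = 0
    · rw [h]
      exact smallF_zero_mem p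
    · simp [h] at ha
  · rw [Finset.sum_ite_eq', if_pos (smallF_zero_mem p)]
  · intro m hm0 _ _ _ t k
    have hk : (1 : ℝ) ≤ (k : ℝ) + 1 := by
      have : (0 : ℝ) ≤ k := Nat.cast_nonneg k
      linarith
    have hm1 : (1 : ℝ) ≤ m := by exact_mod_cast hm0
    have h1 : |∑ a ∈ (V p).filter (fun a => (m : ℤ) ∣ a - t),
        (if a = 0 then (1 : ℝ) else 0) * Uk k (xx p a)| ≤ k + 1 := by
      have e : ∀ a : ℤ, (if a = 0 then (1 : ℝ) else 0) * Uk k (xx p a) =
          if a = 0 then Uk k 0 else 0 := by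
        intro a
        by_cases h : a = 0
        · subst h
          simp [xx]
        · simp [h]
      simp only [e]
      rw [Finset.sum_ite_eq']
      have h0 : |Uk k 0| ≤ (k : ℝ) + 1 := Uk_le k (by norm_num)
      split_ifs
      · exact h0
      · rw [abs_zero]
        linarith
    have h2 : |(if k = 0 then D m t else 0)| ≤ 1 := by
      split_ifs
      · obtain ⟨hD0, hD1⟩ := hD m t hm0
        rw [abs_of_nonneg hD0]
        exact hD1
      · rw [abs_zero]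
        exact zero_le_one
    have h3 : |∑ a ∈ (V p).filter (fun a => (m : ℤ) ∣ a - t),
        (if a = 0 then (1 : ℝ) else 0) * Uk k (xx p a) -
        (if k = 0 then D m t else 0)| ≤ (k + 1) + 1 :=
      (abs_sub _ _).trans (add_le_add h1 h2)
    refine h3.trans ?_
    have h5 : (1 : ℝ) ≤ (m : ℝ) ^ 2 := by nlinarith
    have h6 : Real.log 2 / √(p₀ : ℝ) ≤ Real.log p / √(p : ℝ) :=
      div_le_div₀ (hl2.le.trans hlog) hlog hs0 hs
    have h9 : 0 < Real.log 2 / √(p₀ : ℝ) := by positivity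
    calc ((k : ℝ) + 1) + 1 ≤ 2 * (k + 1) := by linarith
      _ ≤ 3 * Real.log 2 * (k + 1) := mul_le_mul_of_nonneg_right (by linarith) (by linarith)
      _ = 3 * √(p₀ : ℝ) * 1 * (k + 1) * (Real.log 2 / √(p₀ : ℝ)) := by field_simp
      _ ≤ 3 * √(p₀ : ℝ) * (m : ℝ) ^ 2 * (k + 1) * (Real.log p / √(p : ℝ)) := by
        refine mul_le_mul ?_ h6 h9.le (by positivity)
        refine mul_le_mul_of_nonneg_right ?_ (by linarith)
        exact mul_le_mul_of_nonneg_left h5 (by positivity)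

end Pool.Agent.JD
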