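import Pool.Agent.Lib_MP_f1937f_jd.Defs
import Pool.Agent.Lib_MP_f1937f_jb.AsymJ
import Pool.Agent.Lib_MP_f1937f_tb.Cheb
import Pool.Agent.Lib_MP_f1937f_tb.Spike
import Pool.Agent.Lib_MP_f1937f_tb.SpikeEqui
import Pool.Agent.Lib_MP_f1937f_tb.LawSpike

/-!
# Adding a spike
-/

set_option autoImplicit false

namespace Pool.Agent.JD

open Finset Pool.Agent.TB Pool.Agent.JB

/-- the number of the integers `a` with `|a| ≤ x` -/
private theorem sf_card (s : Finset ℤ) {x : ℝ} (hx : 0 ≤ x) (hs : ∀ a ∈ s, |(a : ℝ)| ≤ x) :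
    (s.card : ℝ) ≤ 2 * x + 1 := by
  have h1 : s ⊆ Finset.Icc (-⌊x⌋) ⌊x⌋ := by
    intro a ha
    have h := abs_le.1 (hs a ha)
    rw [Finset.mem_Icc]
    constructor
    · have : -a ≤ ⌊x⌋ := by
        rw [Int.le_floor]
        push_cast
        linarith [h.1]
      omega
    · rw [Int.le_floor]
      exact h.2
  have h2 : s.card ≤ (Finset.Icc (-⌊x⌋) ⌊x⌋).card := Finset.card_le_card h1
  rw [Int.card_Icc] at h2
  have h3 : 0 ≤ ⌊x⌋ := Int.floor_nonneg.2 hx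
  have h4 : ((⌊x⌋ + 1 - -⌊x⌋).toNat : ℤ) = 2 * ⌊x⌋ + 1 := by
    rw [Int.toNat_of_nonneg (by omega)]
    ring
  have h5 : (s.card : ℤ) ≤ 2 * ⌊x⌋ + 1 := by
    rw [← h4]
    exact_mod_cast h2
  have h6 : (s.card : ℝ) ≤ 2 * (⌊x⌋ : ℝ) + 1 := by exact_mod_cast h5
  have h7 := Int.floor_le x
  linarith

/-- the spike -/
private noncomputable def sfg (K : ℕ) (ν : ℤ → ℝ) (a₀ a : ℤ) : ℝ :=
  (if a = a₀ then 1 else 0) - (if (K : ℤ) ∣ a - a₀ then ν ((a - a₀) / K) else 0)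

private theorem sfg_self (K : ℕ) (ν : ℤ → ℝ) (a : ℤ) : sfg K ν a a = 1 - ν 0 := by
  unfold sfg
  rw [if_pos rfl, sub_self, if_pos (dvd_zero _), Int.zero_ediv]

/-- away from `a₀` the spike is small, and it vanishes outside the class of `a₀` modulo `K` and for `|a| > √p / 2` -/
private theorem sfg_ne (K : ℕ) (hK : 0 < K) (p : ℕ) (hp : 1 ≤ p) (a₀ : ℤ) (R η : ℝ)
    (hη0 : 0 < η) (hη : η = R / √(p : ℝ)) (haa : |(a₀ : ℝ)| ≤ √(p : ℝ) / 4) (Q : ℝ) (ν : ℤ → ℝ)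
    (hsupp : ∀ x : ℤ, √(p : ℝ) / (4 * K) < |(x : ℝ)| → ν x = 0)
    (hsize : ∀ x : ℤ, x ≠ 0 → |ν x| ≤ 24 * (R / (√(p : ℝ) / (4 * K))) * (x.natAbs.divisors.card : ℝ))
    (hasym : ∀ n : ℕ, n ≠ 0 → (n : ℝ) ≤ √(p : ℝ) → 96 * K * R ^ 2 * (n.divisors.card : ℝ) / p ≤ Q)
    {a : ℤ} (ha : a ≠ a₀) :
    sfg K ν a₀ a = 0 ∨ ((K : ℤ) ∣ a - a₀ ∧ |(a : ℝ)| ≤ √(p : ℝ) / 2 ∧ |η * sfg K ν a₀ a| ≤ Q) := by
  have hK' : (0 : ℝ) < (K : ℝ) := by exact_mod_cast hK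
  have hK1 : (1 : ℝ) ≤ (K : ℝ) := by exact_mod_cast hK
  have hKz : (K : ℤ) ≠ 0 := by exact_mod_cast hK.ne'
  have hp0 : (0 : ℝ) < (p : ℝ) := by exact_mod_cast hp
  have hs0 : 0 < √(p : ℝ) := Real.sqrt_pos.2 hp0
  have hs2 : √(p : ℝ) * √(p : ℝ) = p := Real.mul_self_sqrt hp0.le
  by_cases h : (K : ℤ) ∣ a - a₀
  · obtain ⟨x, hx⟩ := h
    have hx0 : x ≠ 0 := by
      rintro rfl
      rw [mul_zero] at hx
      exact ha (by linarith)
    have hdiv : (a - a₀) / (K : ℤ) = x := by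
      rw [hx]
      exact Int.mul_ediv_cancel_left x hKz
    have hval : sfg K ν a₀ a = -ν x := by
      unfold sfg
      rw [if_neg ha, if_pos ⟨x, hx⟩, hdiv, zero_sub]
    by_cases hY : √(p : ℝ) / (4 * K) < |(x : ℝ)|
    · left
      rw [hval, hsupp x hY, neg_zero]
    · right
      rw [not_lt] at hY
      have hax : (a : ℝ) = a₀ + K * x := by
        have : (a : ℤ) = a₀ + K * x := by linarith
        exact_mod_cast this
      have hMx : (K : ℝ) * |(x : ℝ)| ≤ √(p : ℝ) / 4 := by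
        have h1 := mul_le_mul_of_nonneg_left hY hK'.le
        have h2 : (K : ℝ) * (√(p : ℝ) / (4 * K)) = √(p : ℝ) / 4 := by
          field_simp
        linarith
      have haY : |(a : ℝ)| ≤ √(p : ℝ) / 2 := by
        rw [hax]
        refine (abs_add_le _ _).trans ?_
        rw [abs_mul, abs_of_pos hK']
        linarith
      refine ⟨⟨x, hx⟩, haY, ?_⟩
      have hxn : ((x.natAbs : ℕ) : ℝ) = |(x : ℝ)| := by
        rw [Nat.cast_natAbs, Int.cast_abs]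
      have hxs : ((x.natAbs : ℕ) : ℝ) ≤ √(p : ℝ) := by
        rw [hxn]
        have : |(x : ℝ)| ≤ K * |(x : ℝ)| := le_mul_of_one_le_left (abs_nonneg _) hK1
        linarith
      have hn := hasym x.natAbs (Int.natAbs_ne_zero.2 hx0) hxs
      have hsz := hsize x hx0
      rw [hval, abs_mul, abs_neg, abs_of_pos hη0]
      refine (mul_le_mul_of_nonneg_left hsz hη0.le).trans ?_
      refine le_trans (le_of_eq ?_) hn
      rw [hη, LawSpike_id _ _ _ _ hs0.ne' hK'.ne', hs2]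
  · left
    unfold sfg
    rw [if_neg ha, if_neg h, sub_zero]

private theorem sf_mem (p : ℕ) (hp : 1 ≤ p) (a : ℤ) (haa : |(a : ℝ)| ≤ √(p : ℝ) / 4) : a ∈ V p := by
  have hp0 : (0 : ℝ) < (p : ℝ) := by exact_mod_cast hp
  have h1 : (a : ℝ) ^ 2 ≤ 4 * p := by
    rw [← sq_abs]
    have h2 := pow_le_pow_left₀ (abs_nonneg _) haa 2
    have h3 : (√(p : ℝ) / 4) ^ 2 = p / 16 := by
      rw [div_pow, Real.sq_sqrt hp0.le]
      norm_num
    linarith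
  have h2 : a ^ 2 ≤ 4 * (p : ℤ) := by exact_mod_cast h1
  have h3 : a.natAbs ≤ Nat.sqrt (4 * p) := by
    rw [Nat.le_sqrt]
    have h4 : ((a.natAbs * a.natAbs : ℕ) : ℤ) ≤ ((4 * p : ℕ) : ℤ) := by
      rw [Int.natAbs_mul_self]
      push_cast
      nlinarith
    exact_mod_cast h4
  unfold V
  rw [mem_Icc]
  omega

/-- PIECE [JD-A7] (about 250 lines, adapt `spike_J` and `spk_nonneg` of `Lib_MP_f1937f_jb/SpikeJ.lean`). PROOF. `p₁` from `asym_spike K` with `c'`. `R = p ^ (1/4 - ε)`, `η = p ^ (-1/4 - ε) = R / √p`, `ν` from `spike` with `Y = √p / (4 K)`,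
`δ a = [a = a₀] - [K ∣ a - a₀] ν ((a - a₀) / K)`, `μ' a = 0` if `|a| ≤ log p`, `a ≠ a₀`, otherwise `μ' a = μ a + η δ a`. For large `p`, `|a₀| ≤ log p ≤ √p / 8`, so `μ a₀ = 0`, `μ' a₀ = η (1 - ν 0) ≥ η / 2`. `μ' ≥ 0`: for `|a| > log p`, `K ∣ a - a₀`,
`x = (a - a₀) / K ≠ 0`: `ν x = 0` if `|x| > √p / (4 K)`; else `|a| ≤ √p / 2`, `u a = u a₀ > 0`, `μ a ≥ c' / log p / √p ≥ η |ν x|` (`asym_spike`: `η |ν x| ≤ 96 K R ^ 2 τ(|x|) / p`). Equidistribution: the sum for `μ'` is the sum for `μ`, plus `η ∑ δ U`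
(`spike_equi K`: `η 7 ((K q) √(K q)) (k+1) / R = 7 ((K q) √(K q)) (k + 1) / √p ≤ 14 (K √K) q ^ 2 (k + 1) log p / √p`), minus `η ∑ δ a U` over the `a` with `|a| ≤ log p`, `a ≠ a₀`: at most `2 log p + 1` terms (`ej_card` in `EmptyJ.lean`), each at most `c' / log p / √p * 2`
(`Uk_le_two`, `|xx p a| ≤ 1/2`), total `≤ 8 c' (log p / √p)` say (`log p ≥ 1/2`). The constant: `E + 14 K √K + 16 c'`. -/
theorem spike_F (K : ℕ) (hK : 0 < K) (c' : ℝ) (hc' : 0 < c') (a₀ : ℤ) (ε : ℝ) (hε : 0 < ε) (hε' : ε ≤ 1 / 8) :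
    ∃ p₀ : ℕ, ∀ (p : ℕ) (cu : ℝ) (u : ℤ → ℝ) (T : ℕ → ℤ → ℝ) (E : ℝ) (μ : ℤ → ℝ), p.Prime → p₀ ≤ p → UV K cu u → 0 < u a₀ → 0 ≤ E →
      (∀ a, 0 ≤ μ a) → (∀ a : ℤ, |(a : ℝ)| ≤ Real.log p → μ a = 0) → (∀ a, u a = 0 → μ a = 0) →
      (∀ a : ℤ, 0 < u a → Real.log p < |(a : ℝ)| → |(a : ℝ)| ≤ √(p : ℝ) / 2 → c' / Real.log p / √(p : ℝ) ≤ μ a) →
      (∀ q : ℕ, 0 < q → q ≤ p → ¬ p ∣ q → ∀ (t : ℤ) (k : ℕ),
        |∑ a ∈ (V p).filter (fun a => ((K * q : ℕ) : ℤ) ∣ a - t), μ a * Uk k (xx p a) - (if k = 0 then T q t else 0)| ≤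
          E * (q : ℝ) ^ 2 * (k + 1) * (Real.log p / √(p : ℝ))) →
      ∃ μ' : ℤ → ℝ, a₀ ∈ V p ∧ (∀ a, 0 ≤ μ' a) ∧ (∀ a : ℤ, |(a : ℝ)| ≤ Real.log p → a ≠ a₀ → μ' a = 0) ∧ (∀ a, u a = 0 → μ' a = 0) ∧
        (p : ℝ) ^ (-(1 / 4) - ε) / 2 ≤ μ' a₀ ∧
        ∀ q : ℕ, 0 < q → q ≤ p → ¬ p ∣ q → ∀ (t : ℤ) (k : ℕ),
          |∑ a ∈ (V p).filter (fun a => ((K * q : ℕ) : ℤ) ∣ a - t), μ' a * Uk k (xx p a) - (if k = 0 then T q t else 0)| ≤
            (E + 14 * (K * √(K : ℝ)) + 16 * c') * (q : ℝ) ^ 2 * (k + 1) * (Real.log p / √(p : ℝ)) := by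
  obtain ⟨p₁, hp₁2, hp₁⟩ := asym_spike K hK c' hc' a₀ ε hε hε'
  obtain ⟨p₂, hp₂⟩ := LawSpike_log 4
  obtain ⟨p₃, hp₃⟩ : ∃ p₃ : ℕ, ∀ p : ℕ, p₃ ≤ p → |(a₀ : ℝ)| ≤ Real.log p := by
    have h := (Real.tendsto_log_atTop.comp (tendsto_natCast_atTop_atTop (R := ℝ))).eventually
      (Filter.eventually_ge_atTop |(a₀ : ℝ)|)
    exact Filter.eventually_atTop.1 h
  refine ⟨max p₁ (max p₂ p₃), fun p cu u T E μ hpr hp hu hua hE hμ0 hμs hμu hlow heq => ?_⟩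
  have hpp₁ : p₁ ≤ p := le_trans (le_max_left _ _) hp
  have hpp₂ : p₂ ≤ p := le_trans (le_trans (le_max_left _ _) (le_max_right _ _)) hp
  have hpp₃ : p₃ ≤ p := le_trans (le_trans (le_max_right _ _) (le_max_right _ _)) hp
  have hp2 : 2 ≤ p := hpr.two_le
  have hp1 : 1 ≤ p := by omega
  have hp0 : (0 : ℝ) < (p : ℝ) := by exact_mod_cast hp1
  have hs0 : 0 < √(p : ℝ) := Real.sqrt_pos.2 hp0
  have hlog : 1 / 2 ≤ Real.log p := by
    have h3 : Real.log 2 ≤ Real.log p := Real.log_le_log (by norm_num) (by exact_mod_cast hp2)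
    have := Real.log_two_gt_d9
    linarith
  have hlog0 : 0 < Real.log p := by linarith
  have hlog8 : Real.log p ≤ √(p : ℝ) / 8 := by
    have h1 := hp₂ p hpp₂
    have h2 : 4 * Real.log p / √(p : ℝ) ≤ 1 / 2 := by
      refine le_trans (le_of_eq ?_) h1
      ring
    rw [div_le_iff₀ hs0] at h2
    linarith
  have hal := hp₃ p hpp₃
  obtain ⟨hR1, hRY, haa, hasym⟩ := hp₁ p hpp₁
  have hη : (p : ℝ) ^ (-(1 / 4) - ε) = (p : ℝ) ^ (1 / 4 - ε) / √(p : ℝ) := by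
    rw [Real.sqrt_eq_rpow, ← Real.rpow_sub hp0]
    congr 1
    ring
  obtain ⟨R, hR⟩ : ∃ R, R = (p : ℝ) ^ (1 / 4 - ε) := ⟨_, rfl⟩
  obtain ⟨η, hη'⟩ : ∃ η, η = (p : ℝ) ^ (-(1 / 4) - ε) := ⟨_, rfl⟩
  rw [← hR] at hR1 hRY hasym hη
  rw [← hη'] at hη ⊢
  have hη0 : 0 < η := by
    rw [hη]
    positivity
  obtain ⟨ν, hsupp, hsize, hzero, hmain⟩ := spike (√(p : ℝ) / (4 * K)) R hR1 hRY
  have hz := (abs_le.1 hzero).2
  have hQ0 : 0 ≤ c' / Real.log p / √(p : ℝ) := by positivity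
  have hne : ∀ a : ℤ, a ≠ a₀ → sfg K ν a₀ a = 0 ∨ ((K : ℤ) ∣ a - a₀ ∧ |(a : ℝ)| ≤ √(p : ℝ) / 2 ∧
      |η * sfg K ν a₀ a| ≤ c' / Real.log p / √(p : ℝ)) := fun a ha =>
    sfg_ne K hK p hp1 a₀ R η hη0 hη haa _ ν hsupp hsize hasym ha
  have hle : ∀ a : ℤ, a ≠ a₀ → |η * sfg K ν a₀ a| ≤ c' / Real.log p / √(p : ℝ) := by
    intro a ha
    rcases hne a ha with h | h
    · rw [h, mul_zero, abs_zero]
      exact hQ0
    · exact h.2.2
  classical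
  obtain ⟨μ', hμ'⟩ : ∃ μ' : ℤ → ℝ, ∀ a, μ' a =
      if |(a : ℝ)| ≤ Real.log p ∧ a ≠ a₀ then 0 else μ a + η * sfg K ν a₀ a := ⟨_, fun _ => rfl⟩
  have hspike : η / 2 ≤ μ' a₀ := by
    rw [hμ', if_neg (fun h => h.2 rfl), sfg_self]
    have h1 := hμ0 a₀
    nlinarith
  refine ⟨μ', sf_mem p hp1 a₀ haa, ?_, ?_, ?_, hspike, ?_⟩
  · intro a
    by_cases ha : a = a₀
    · rw [ha]
      linarith
    · rw [hμ']
      split_ifs with h
      · exact le_rfl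
      · have hal' : Real.log p < |(a : ℝ)| := by
          by_contra hcon
          exact h ⟨not_lt.1 hcon, ha⟩
        rcases hne a ha with h1 | ⟨hd, haY, hb⟩
        · rw [h1, mul_zero, add_zero]
          exact hμ0 a
        · have hua' : 0 < u a := by
            rw [hu.per a a₀ hd]
            exact hua
          have h2 := hlow a hua' hal' haY
          have h3 := (abs_le.1 hb).1
          linarith
  · intro a ha hne'
    rw [hμ', if_pos ⟨ha, hne'⟩]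
  · intro a ha
    have hane : a ≠ a₀ := by
      rintro rfl
      exact hua.ne' ha
    rw [hμ']
    split_ifs with h
    · rfl
    · rcases hne a hane with h1 | ⟨hd, -, -⟩
      · rw [h1, mul_zero, add_zero]
        exact hμu a ha
      · exact absurd ((hu.per a a₀ hd).symm.trans ha) hua.ne'
  · intro q hq hqp hpq t k
    have h1 := heq q hq hqp hpq t k
    have hm : 0 < K * q := Nat.mul_pos hK hq
    have h2 := spike_equi K hK a₀ p hp2 haa R hR1 ν hsupp hmain (K * q) hm (Dvd.intro q rfl) t k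
    obtain ⟨F, hF⟩ : ∃ F, F = (V p).filter (fun a => ((K * q : ℕ) : ℤ) ∣ a - t) := ⟨_, rfl⟩
    obtain ⟨τ, hτ⟩ : ∃ τ, τ = (if k = 0 then T q t else 0) := ⟨_, rfl⟩
    rw [← hF] at h1 h2 ⊢
    rw [← hτ] at h1 ⊢
    obtain ⟨G, hG⟩ : ∃ G, G = F.filter (fun a : ℤ => |(a : ℝ)| ≤ Real.log p ∧ a ≠ a₀) := ⟨_, rfl⟩
    have e1 : ∑ a ∈ F, μ' a * Uk k (xx p a) = ∑ a ∈ F, μ a * Uk k (xx p a) +
        η * ∑ a ∈ F, sfg K ν a₀ a * Uk k (xx p a) -
          ∑ a ∈ G, η * sfg K ν a₀ a * Uk k (xx p a) := by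
      rw [hG, sum_filter, mul_sum, ← sum_add_distrib, ← sum_sub_distrib]
      refine sum_congr rfl fun a _ => ?_
      rw [hμ']
      split_ifs with h
      · rw [hμs a h.1]
        ring
      · ring
    have hq1 : (1 : ℝ) ≤ q := by exact_mod_cast hq
    have hK1 : (1 : ℝ) ≤ K := by exact_mod_cast hK
    have hk0 : (0 : ℝ) ≤ k := Nat.cast_nonneg k
    have hR0 : 0 < R := by linarith
    have hmm : ((K * q : ℕ) : ℝ) * √((K * q : ℕ) : ℝ) ≤ (K * √(K : ℝ)) * (q : ℝ) ^ 2 := by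
      push_cast
      rw [Real.sqrt_mul (by positivity)]
      have h5 : √(q : ℝ) ≤ q := by
        rw [Real.sqrt_le_left (by positivity)]
        nlinarith
      calc (K : ℝ) * q * (√(K : ℝ) * √(q : ℝ)) = (K * √(K : ℝ)) * (q * √(q : ℝ)) := by ring
        _ ≤ (K * √(K : ℝ)) * (q * q) := by gcongr
        _ = _ := by ring
    have h4 : η * (7 * (((K * q : ℕ) : ℝ) * √((K * q : ℕ) : ℝ)) * (k + 1) / R) ≤
        14 * (K * √(K : ℝ)) * (q : ℝ) ^ 2 * (k + 1) * (Real.log p / √(p : ℝ)) := by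
      have e2 : η * (7 * (((K * q : ℕ) : ℝ) * √((K * q : ℕ) : ℝ)) * (k + 1) / R) =
          7 * (((((K * q : ℕ) : ℝ) * √((K * q : ℕ) : ℝ)) * (k + 1)) / √(p : ℝ)) := by
        rw [hη]
        field_simp
      rw [e2]
      calc 7 * (((((K * q : ℕ) : ℝ) * √((K * q : ℕ) : ℝ)) * (k + 1)) / √(p : ℝ))
          ≤ 7 * ((((K * √(K : ℝ)) * (q : ℝ) ^ 2) * (k + 1)) / √(p : ℝ)) := by gcongr
        _ = (14 * (1 / 2)) * ((((K * √(K : ℝ)) * (q : ℝ) ^ 2) * (k + 1)) / √(p : ℝ)) := by norm_num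
        _ ≤ (14 * Real.log p) * ((((K * √(K : ℝ)) * (q : ℝ) ^ 2) * (k + 1)) / √(p : ℝ)) := by gcongr
        _ = _ := by ring
    have e3 : |η * ∑ a ∈ F, sfg K ν a₀ a * Uk k (xx p a)| ≤
        14 * (K * √(K : ℝ)) * (q : ℝ) ^ 2 * (k + 1) * (Real.log p / √(p : ℝ)) := by
      rw [abs_mul, abs_of_pos hη0]
      exact (mul_le_mul_of_nonneg_left h2 hη0.le).trans h4
    have e4 : |∑ a ∈ G, η * sfg K ν a₀ a * Uk k (xx p a)| ≤
        16 * c' * (q : ℝ) ^ 2 * (k + 1) * (Real.log p / √(p : ℝ)) := by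
      have hterm : ∀ a ∈ G, |η * sfg K ν a₀ a * Uk k (xx p a)| ≤ c' / Real.log p / √(p : ℝ) * 2 := by
        intro a ha
        rw [hG, mem_filter] at ha
        rw [abs_mul]
        refine mul_le_mul (hle a ha.2.2) (Uk_le_two k ?_) (abs_nonneg _) hQ0
        unfold xx
        rw [abs_div, abs_of_pos (by positivity : (0 : ℝ) < 2 * √(p : ℝ)), div_le_iff₀ (by positivity)]
        have := ha.2.1
        linarith
      have hcard : (G.card : ℝ) ≤ 2 * Real.log p + 1 := by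
        refine sf_card G hlog0.le fun a ha => ?_
        rw [hG, mem_filter] at ha
        exact ha.2.1
      have hX : (1 : ℝ) ≤ (q : ℝ) ^ 2 * (k + 1) :=
        one_le_mul_of_one_le_of_one_le (one_le_pow₀ hq1) (by linarith)
      calc |∑ a ∈ G, η * sfg K ν a₀ a * Uk k (xx p a)|
          ≤ ∑ a ∈ G, |η * sfg K ν a₀ a * Uk k (xx p a)| := abs_sum_le_sum_abs _ _
        _ ≤ ∑ _a ∈ G, c' / Real.log p / √(p : ℝ) * 2 := sum_le_sum hterm
        _ = (G.card : ℝ) * (c' / Real.log p / √(p : ℝ) * 2) := by rw [sum_const, nsmul_eq_mul]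
        _ ≤ (4 * Real.log p) * (c' / Real.log p / √(p : ℝ) * 2) :=
            mul_le_mul_of_nonneg_right (by linarith) (by positivity)
        _ = 16 * c' * (1 / 2) / √(p : ℝ) := by
            field_simp
            norm_num
        _ ≤ 16 * c' * Real.log p / √(p : ℝ) := by gcongr
        _ = 16 * c' * (Real.log p / √(p : ℝ)) * 1 := by ring
        _ ≤ 16 * c' * (Real.log p / √(p : ℝ)) * ((q : ℝ) ^ 2 * (k + 1)) :=
            mul_le_mul_of_nonneg_left hX (by positivity)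
        _ = _ := by ring
    rw [e1]
    have e5 : ∑ a ∈ F, μ a * Uk k (xx p a) + η * ∑ a ∈ F, sfg K ν a₀ a * Uk k (xx p a) -
          ∑ a ∈ G, η * sfg K ν a₀ a * Uk k (xx p a) - τ =
        (∑ a ∈ F, μ a * Uk k (xx p a) - τ) + η * ∑ a ∈ F, sfg K ν a₀ a * Uk k (xx p a) -
          ∑ a ∈ G, η * sfg K ν a₀ a * Uk k (xx p a) := by ring
    rw [e5]
    refine (abs_sub _ _).trans ((add_le_add ((abs_add_le _ _).trans (add_le_add h1 e3)) e4).trans ?_)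
    refine le_of_eq ?_
    ring

end Pool.Agent.JD
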