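import Pool.Agent.Lib_MP_f1937f_jd.FamG
import Pool.Agent.Lib_MP_f1937f_jd.LiftD
import Pool.Agent.Lib_MP_f1937f_jd.DGf
import Pool.Agent.Lib_MP_f1937f_jd.NormF
import Pool.Agent.Lib_MP_f1937f_jd.EmptyF
import Pool.Agent.Lib_MP_f1937f_jd.SpikeF
import Pool.Agent.Lib_MP_f1937f_jd.SmallF
import Pool.Agent.Lib_MP_f1937f_jd.LiftF

/-!
# The laws for all primes
-/

set_option autoImplicit false

namespace Pool.Agent.JD

open Finset Pool.Agent.TB Pool.Agent.JB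

theorem GLM.mono {M : ℕ} {D : ℕ → ℤ → ℝ} {A B : ℝ} {p : ℕ} {ρ : ℤ → ℝ} (hAB : A ≤ B) (hg : GLM M D A p ρ) :
    GLM M D B p ρ := by
  refine ⟨hg.nonneg, hg.supp, hg.total, fun m hm hMm hmp hpm t k => (hg.equi m hm hMm hmp hpm t k).trans ?_⟩
  have h2 : (0 : ℝ) ≤ Real.log p / √(p : ℝ) := div_nonneg (Real.log_natCast_nonneg p) (Real.sqrt_nonneg _)
  gcongr

/-- the point mass at `0` -/
theorem point_law (p : ℕ) : ∃ ρ : ℤ → ℝ, (∀ a, 0 ≤ ρ a) ∧ (∀ a, ρ a ≠ 0 → a ∈ V p) ∧ ∑ a ∈ V p, ρ a = 1 := by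
  classical
  have h0 : (0 : ℤ) ∈ V p := by
    unfold V
    rw [mem_Icc]
    constructor <;> simp
  refine ⟨fun a => if a = 0 then 1 else 0, fun a => by dsimp only; split_ifs <;> norm_num, fun a ha => ?_, ?_⟩
  · by_cases h : a = 0
    · rw [h]
      exact h0
    · exact absurd (if_neg h) ha
  · rw [Finset.sum_ite_eq' (V p) (0 : ℤ) (fun _ => (1 : ℝ)), if_pos h0]

/-- from a weight to a law -/
theorem law_of_mu (M : ℕ) (hM : 0 < M) (G : Subgroup (GL (Fin 2) (ZMod M))) (c : ℝ) (p : ℕ) (hp : p.Prime)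
    (C : ℕ → ℤ → ℝ) (hF : Fam (M ^ 2) p (uu M G p) C) (hu : UV (M ^ 2) c (uu M G p))
    (hC : ∀ (q : ℕ) (h : M ∣ M ^ 2 * q), 0 < q → p.Coprime q → ∀ t : ℤ, dG M G (M ^ 2 * q) h p t = Dn (M ^ 2) C q t)
    (E : ℝ) (hE : 0 ≤ E) (hsmall : E * ((M ^ 2 : ℕ) : ℝ) * (Real.log p / √(p : ℝ)) ≤ 1 / 2) (μ : ℤ → ℝ) (hμ0 : ∀ a, 0 ≤ μ a)
    (hμ : ∀ q : ℕ, 0 < q → q ≤ p → ¬ p ∣ q → ∀ (t : ℤ) (k : ℕ),
      |∑ a ∈ (V p).filter (fun a => ((M ^ 2 * q : ℕ) : ℤ) ∣ a - t), μ a * Uk k (xx p a) - (if k = 0 then Dn (M ^ 2) C q t else 0)| ≤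
        E * (q : ℝ) ^ 2 * (k + 1) * (Real.log p / √(p : ℝ))) :
    ∃ ρ : ℤ → ℝ, GLM M (DG M G p) ((2 * E + 2 * E * ((M ^ 2 : ℕ) : ℝ)) * M) p ρ ∧ (∀ a ∈ V p, μ a / 2 ≤ ρ a) ∧
      (∀ a, μ a = 0 → ρ a = 0) := by
  obtain ⟨ρ, h1, h2, h3⟩ := norm_F (M ^ 2) (by positivity) c (uu M G p) C p hp hF hu E hE hsmall μ hμ0 hμ
  refine ⟨ρ, lift_F M hM (Dn (M ^ 2) C) (DG M G p) _ (by positivity) p hp ρ h1 ?_, h2, h3⟩
  intro m q t hm hMm hmp hpm hq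
  have h' : M ∣ M ^ 2 * q := (dvd_pow_self M two_ne_zero).mul_right q
  have hpm' : p.Coprime m := (Nat.Prime.coprime_iff_not_dvd hp).2 hpm
  have hq0 : 0 < q := by
    rcases Nat.eq_zero_or_pos q with h | h
    · rw [h, mul_zero] at hq
      have := Nat.lcm_pos (m := M ^ 2) (n := m) (by positivity) hm
      omega
    · exact h
  have hlcm : M ^ 2 * q ∣ M ^ 2 * m := by
    rw [hq]
    exact Nat.lcm_dvd (dvd_mul_right _ _) (dvd_mul_left _ _)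
  have hqm : q ∣ m := Nat.dvd_of_mul_dvd_mul_left (by positivity) hlcm
  have hpq : p.Coprime q := Nat.Coprime.coprime_dvd_right hqm hpm'
  unfold DG
  rw [dif_pos hMm, dG_lift M hM G m q hm hMm h' hq p hpm' t]
  exact sum_congr rfl fun t' _ => hC q h' hq0 hpq t'

/-- laws for large primes: `P a₀ n` is a threshold for the spike at `a₀` with `ε = 1 / n` -/
theorem law_large (M : ℕ) (hM : 0 < M) (G : Subgroup (GL (Fin 2) (ZMod M)))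
    (hG : ∀ d : (ZMod M)ˣ, ∃ g ∈ G, g.val.det = (d : ZMod M)) :
    ∃ (B : ℝ) (p₂ : ℕ) (P : ℤ → ℕ → ℕ), 0 ≤ B ∧ ∀ p : ℕ, p.Prime → p.Coprime M → p₂ ≤ p →
      (∃ ρ : ℤ → ℝ, GLM M (DG M G p) B p ρ ∧ (∀ a : ℤ, |(a : ℝ)| ≤ Real.log p → ρ a = 0) ∧
        (∀ a, uu M G p a = 0 → ρ a = 0)) ∧
      ∀ (a₀ : ℤ) (n : ℕ), 8 ≤ n → P a₀ n ≤ p → 0 < uu M G p a₀ →
        ∃ ρ : ℤ → ℝ, GLM M (DG M G p) B p ρ ∧ (∀ a : ℤ, |(a : ℝ)| ≤ Real.log p → a ≠ a₀ → ρ a = 0) ∧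
          (∀ a, uu M G p a = 0 → ρ a = 0) ∧ (p : ℝ) ^ (-(1 / 4) - 1 / (n : ℝ)) / 4 ≤ ρ a₀ := by
  have hK : 0 < M ^ 2 := by positivity
  obtain ⟨c, hc, hu⟩ := uu_facts M hM G hG
  obtain ⟨E, c', p₀, hE, hc', hp₀, hemp⟩ := empty_F (M ^ 2) hK c hc
  have hsp := spike_F (M ^ 2) hK c' hc'
  choose! P hP using hsp
  set E₂ : ℝ := E + 14 * (((M ^ 2 : ℕ) : ℝ) * √((M ^ 2 : ℕ) : ℝ)) + 16 * c' with hE₂
  have hEE : E ≤ E₂ := by
    rw [hE₂]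
    have : (0 : ℝ) ≤ 14 * (((M ^ 2 : ℕ) : ℝ) * √((M ^ 2 : ℕ) : ℝ)) := by positivity
    linarith
  have hE₂0 : 0 ≤ E₂ := hE.trans hEE
  obtain ⟨p₃, hp₃⟩ := LawSpike_log (E₂ * ((M ^ 2 : ℕ) : ℝ))
  refine ⟨(2 * E₂ + 2 * E₂ * ((M ^ 2 : ℕ) : ℝ)) * M, max p₀ p₃, fun a₀ n => P a₀ (1 / (n : ℝ)), by positivity, ?_⟩
  intro p hp hpM hpp
  have hp0 : p₀ ≤ p := (le_max_left _ _).trans hpp
  have hp3 : p₃ ≤ p := (le_max_right _ _).trans hpp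
  have hlog : (0 : ℝ) ≤ Real.log p / √(p : ℝ) := div_nonneg (Real.log_natCast_nonneg p) (Real.sqrt_nonneg _)
  obtain ⟨C, hF, hC⟩ := fam_G M hM G hG p hpM
  obtain ⟨μ, h0, h1, h2, h3, h4⟩ := hemp p hp hp0 (uu M G p) C hF (hu p hpM)
  have h4' : ∀ q : ℕ, 0 < q → q ≤ p → ¬ p ∣ q → ∀ (t : ℤ) (k : ℕ),
      |∑ a ∈ (V p).filter (fun a => ((M ^ 2 * q : ℕ) : ℤ) ∣ a - t), μ a * Uk k (xx p a) - (if k = 0 then Dn (M ^ 2) C q t else 0)| ≤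
        E₂ * (q : ℝ) ^ 2 * (k + 1) * (Real.log p / √(p : ℝ)) := by
    intro q hq hqp hpq t k
    refine (h4 q hq hqp hpq t k).trans ?_
    gcongr
  constructor
  · obtain ⟨ρ, g1, g2, g3⟩ := law_of_mu M hM G c p hp C hF (hu p hpM) hC E₂ hE₂0 (hp₃ p hp3) μ h0 h4'
    exact ⟨ρ, g1, fun a ha => g3 a (h1 a ha), fun a ha => g3 a (h2 a ha)⟩
  · intro a₀ n hn hPn hua
    have hn' : (8 : ℝ) ≤ n := by exact_mod_cast hn
    obtain ⟨μ', hV, k0, k1, k2, k3, k4⟩ := hP a₀ (1 / (n : ℝ)) (by positivity) (one_div_le_one_div_of_le (by norm_num) hn')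
      p c (uu M G p) (Dn (M ^ 2) C) E μ hp hPn (hu p hpM) hua hE h0 h1 h2 h3 h4
    obtain ⟨ρ, g1, g2, g3⟩ := law_of_mu M hM G c p hp C hF (hu p hpM) hC E₂ hE₂0 (hp₃ p hp3) μ' k0 k4
    refine ⟨ρ, g1, fun a ha haa => g3 a (k1 a ha haa), fun a ha => g3 a (k2 a ha), ?_⟩
    have := g2 a₀ hV
    linarith

/-- laws for all primes: the integers of `A` receive spikes, the other ones are avoided -/
theorem law_all (M : ℕ) (hM : 0 < M) (G : Subgroup (GL (Fin 2) (ZMod M)))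
    (hG : ∀ d : (ZMod M)ˣ, ∃ g ∈ G, g.val.det = (d : ZMod M)) (A : Set ℤ) (r : ℕ → ℤ) :
    ∃ (B : ℝ) (ρ : ℕ → ℤ → ℝ) (p₂ : ℕ) (P : ℤ → ℕ → ℕ), 0 ≤ B ∧ (∀ p : ℕ, p.Prime → ∀ a, 0 ≤ ρ p a) ∧
      (∀ p : ℕ, p.Prime → ∀ a, ρ p a ≠ 0 → a ∈ V p) ∧ (∀ p : ℕ, p.Prime → ∑ a ∈ V p, ρ p a = 1) ∧
      (∀ p : ℕ, p.Prime → p.Coprime M → GLM M (DG M G p) B p (ρ p)) ∧
      ∀ p : ℕ, p.Prime → p.Coprime M → p₂ ≤ p →
        (∀ a : ℤ, |(a : ℝ)| ≤ Real.log p → a ∉ A → ρ p a = 0) ∧ (∀ a, uu M G p a = 0 → ρ p a = 0) ∧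
        ∀ n : ℕ, 8 ≤ n → n ≤ p → P (r p) n ≤ p → r p ∈ A → 0 < uu M G p (r p) →
          (p : ℝ) ^ (-(1 / 4) - 1 / (n : ℝ)) / 4 ≤ ρ p (r p) := by
  classical
  obtain ⟨B, p₂, P, hB, hL⟩ := law_large M hM G hG
  obtain ⟨C₁, hC₁, h1⟩ := small_F M p₂
  have key : ∀ p : ℕ, ∃ ρ : ℤ → ℝ, (p.Prime → (∀ a, 0 ≤ ρ a) ∧ (∀ a, ρ a ≠ 0 → a ∈ V p) ∧ ∑ a ∈ V p, ρ a = 1) ∧
      (p.Prime → p.Coprime M → GLM M (DG M G p) (max B C₁) p ρ) ∧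
      (p.Prime → p.Coprime M → p₂ ≤ p →
        (∀ a : ℤ, |(a : ℝ)| ≤ Real.log p → a ∉ A → ρ a = 0) ∧ (∀ a, uu M G p a = 0 → ρ a = 0) ∧
        ∀ n : ℕ, 8 ≤ n → n ≤ p → P (r p) n ≤ p → r p ∈ A → 0 < uu M G p (r p) →
          (p : ℝ) ^ (-(1 / 4) - 1 / (n : ℝ)) / 4 ≤ ρ (r p)) := by
    intro p
    by_cases hpp : p.Prime
    · by_cases hpM : p.Coprime M
      · by_cases hp : p₂ ≤ p
        · obtain ⟨hL1, hL2⟩ := hL p hpp hpM hp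
          by_cases hup : r p ∈ A ∧ 0 < uu M G p (r p)
          · set N : Finset ℕ := (Icc 8 p).filter (fun n => P (r p) n ≤ p) with hN
            rcases N.eq_empty_or_nonempty with hN0 | hN0
            · obtain ⟨ρ, hρ, g1, g2⟩ := hL1
              have hg := hρ.mono (le_max_left B C₁)
              refine ⟨ρ, fun _ => ⟨hg.nonneg, hg.supp, hg.total⟩, fun _ _ => hg, fun _ _ _ => ⟨fun a ha _ => g1 a ha, g2, ?_⟩⟩
              intro n hn8 hnp hPn _ _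
              have : n ∈ N := mem_filter.mpr ⟨mem_Icc.mpr ⟨hn8, hnp⟩, hPn⟩
              rw [hN0] at this
              simp at this
            · set n₁ := N.max' hN0 with hn₁
              have hmem : n₁ ∈ N := N.max'_mem hN0
              rw [hN, mem_filter, mem_Icc] at hmem
              obtain ⟨⟨h8, hnp⟩, hPn⟩ := hmem
              have h8' : (8 : ℝ) ≤ n₁ := by exact_mod_cast h8
              obtain ⟨ρ, hρ, g1, g2, g3⟩ := hL2 (r p) n₁ h8 hPn hup.2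
              have hg := hρ.mono (le_max_left B C₁)
              refine ⟨ρ, fun _ => ⟨hg.nonneg, hg.supp, hg.total⟩, fun _ _ => hg, fun _ _ _ =>
                ⟨fun a ha haA => g1 a ha (fun h => haA (h ▸ hup.1)), g2, ?_⟩⟩
              intro n hn8 hnp' hPn' _ _
              have hle : n ≤ n₁ := N.le_max' n (mem_filter.mpr ⟨mem_Icc.mpr ⟨hn8, hnp'⟩, hPn'⟩)
              have hn0 : (0 : ℝ) < n := by exact_mod_cast (by omega : 0 < n)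
              have hp1 : (1 : ℝ) ≤ p := by exact_mod_cast hpp.one_le
              have h5 : 1 / (n₁ : ℝ) ≤ 1 / (n : ℝ) := one_div_le_one_div_of_le hn0 (by exact_mod_cast hle)
              have h6 := Real.rpow_le_rpow_of_exponent_le hp1 (by linarith : -(1 / 4) - 1 / (n : ℝ) ≤ -(1 / 4) - 1 / (n₁ : ℝ))
              linarith
          · obtain ⟨ρ, hρ, g1, g2⟩ := hL1
            have hg := hρ.mono (le_max_left B C₁)
            refine ⟨ρ, fun _ => ⟨hg.nonneg, hg.supp, hg.total⟩, fun _ _ => hg, fun _ _ _ => ⟨fun a ha _ => g1 a ha, g2, ?_⟩⟩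
            intro n _ _ _ hA hu0
            exact absurd ⟨hA, hu0⟩ hup
        · obtain ⟨ρ, hρ⟩ := h1 p hpp (by omega) (DG M G p) (fun m t hm => ⟨DG_nonneg M G p m t, DG_le_one M G p m hm t⟩)
          have hg := hρ.mono (le_max_right B C₁)
          exact ⟨ρ, fun _ => ⟨hg.nonneg, hg.supp, hg.total⟩, fun _ _ => hg, fun _ _ h => absurd h hp⟩
      · obtain ⟨ρ, hρ1, hρ2, hρ3⟩ := point_law p
        exact ⟨ρ, fun _ => ⟨hρ1, hρ2, hρ3⟩, fun _ h => absurd h hpM, fun _ h => absurd h hpM⟩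
    · exact ⟨0, fun h => absurd h hpp, fun h => absurd h hpp, fun h => absurd h hpp⟩
  choose ρ hρ1 hρ2 hρ3 using key
  exact ⟨max B C₁, ρ, p₂, P, hB.trans (le_max_left _ _), fun p hp => (hρ1 p hp).1, fun p hp => (hρ1 p hp).2.1,
    fun p hp => (hρ1 p hp).2.2, hρ2, hρ3⟩

end Pool.Agent.JD
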