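import Pool.Agent.Lib_MP_f1937f_jd.Defs
import Pool.Agent.Lib_MP_f1937f_tb.Cheb

/-!
# Changing a sequence at few primes
-/

set_option autoImplicit false

namespace Pool.Agent.JD

open Finset Pool.Agent.TB Pool.Agent.JB

private theorem modi_xx_le_one {p : ℕ} (hp : p.Prime) {a : ℤ} (ha : a ∈ V p) : |xx p a| ≤ 1 := by
  have hp0 : (0 : ℝ) < p := by exact_mod_cast hp.pos
  have h1 : |a| ≤ (Nat.sqrt (4 * p) : ℤ) := by
    unfold V at ha
    rw [Finset.mem_Icc] at ha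
    exact abs_le.2 ha
  have h2 : ((Nat.sqrt (4 * p) : ℕ) : ℝ) ^ 2 ≤ 4 * p := by
    have := Nat.sqrt_le' (4 * p)
    exact_mod_cast this
  have h3 : |(a : ℝ)| ≤ (Nat.sqrt (4 * p) : ℕ) := by exact_mod_cast h1
  have h4 : |(a : ℝ)| ≤ 2 * √(p : ℝ) := by
    have h5 : |(a : ℝ)| ^ 2 ≤ (2 * √(p : ℝ)) ^ 2 := by
      rw [mul_pow, Real.sq_sqrt hp0.le]
      have : |(a : ℝ)| ^ 2 ≤ ((Nat.sqrt (4 * p) : ℕ) : ℝ) ^ 2 := by gcongr
      linarith
    exact abs_le_of_sq_le_sq' h5 (by positivity) |>.2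
  unfold xx
  rw [abs_div, abs_of_pos (show (0 : ℝ) < 2 * √(p : ℝ) by positivity)]
  exact (div_le_one (by positivity)).2 h4

/-- PIECE [JD-B3] (about 120 lines). PROOF. The two sums differ at most in the terms of the primes `p ≤ x` with `a p ≠ a' p`; such a prime contributes at most one term `≤ k + 1` in absolute value (`Uk_le`, `|xx p a| ≤ 1` for `a ∈ V p`, see `rj_xx` in
`Lib_MP_f1937f_jb/RealJ2.lean`) to each of the two sums. So the difference is at most `2 (k + 1) √x log x`, and `m ≥ 1`, `log (m (k + 2) x) ≥ log x`. -/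
theorem info_mod (M : ℕ) (D : ℕ → ℕ → ℤ → ℝ) (a a' : ℕ → ℤ) (ha : ∀ p : ℕ, p.Prime → a p ∈ V p) (ha' : ∀ p : ℕ, p.Prime → a' p ∈ V p)
    (hI : InfoD M D a 1)
    (hmod : ∀ x : ℕ, 2 ≤ x → ((((range (x + 1)).filter Nat.Prime).filter (fun p => a p ≠ a' p)).card : ℝ) ≤ √(x : ℝ) * Real.log x) :
    InfoD M D a' 1 := by
  classical
  obtain ⟨C, hC⟩ := hI
  refine ⟨C + 2, fun m hm hMm t d hd k x hx => ?_⟩
  have h := hC m hm hMm t d hd k x hx
  have hcard := hmod x hx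
  obtain ⟨Q, hQ⟩ : ∃ Q : Finset ℕ, Q = (range (x + 1)).filter Nat.Prime := ⟨_, rfl⟩
  have hprime : ∀ p ∈ Q, p.Prime := fun p hp => by
    rw [hQ] at hp
    exact (Finset.mem_filter.1 hp).2
  rw [← hQ] at h hcard ⊢
  -- one term
  obtain ⟨g, hg⟩ : ∃ g : (ℕ → ℤ) → ℕ → ℝ, g = fun b p =>
    if (p ≡ d [MOD m] ∧ (m : ℤ) ∣ b p - t) then Uk k (xx p (b p)) else 0 := ⟨_, rfl⟩
  have hsum : ∀ b : ℕ → ℤ, ∑ p ∈ Q.filter (fun p => p ≡ d [MOD m] ∧ (m : ℤ) ∣ b p - t),
      Uk k (xx p (b p)) = ∑ p ∈ Q, g b p := by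
    intro b
    rw [hg]
    exact Finset.sum_filter _ _
  have hgle : ∀ b : ℕ → ℤ, (∀ p : ℕ, p.Prime → b p ∈ V p) → ∀ p ∈ Q, |g b p| ≤ (k : ℝ) + 1 := by
    intro b hb p hp
    have hpp := hprime p hp
    rw [hg]
    simp only
    split_ifs with hc
    · exact Uk_le k (modi_xx_le_one hpp (hb p hpp))
    · rw [abs_zero]
      positivity
  have hdiff : |∑ p ∈ Q, g a' p - ∑ p ∈ Q, g a p| ≤ 2 * ((k : ℝ) + 1) * (√(x : ℝ) * Real.log x) := by
    have h1 : ∑ p ∈ Q, g a' p - ∑ p ∈ Q, g a p =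
        ∑ p ∈ Q.filter (fun p => a p ≠ a' p), (g a' p - g a p) := by
      rw [← Finset.sum_sub_distrib]
      symm
      refine Finset.sum_subset (Finset.filter_subset _ _) fun p hp hn => ?_
      have h2 : a p = a' p := by
        by_contra h3
        exact hn (Finset.mem_filter.2 ⟨hp, h3⟩)
      rw [hg]
      simp only [h2, sub_self]
    rw [h1]
    refine (Finset.abs_sum_le_sum_abs _ _).trans ?_
    have h2 : ∀ p ∈ Q.filter (fun p => a p ≠ a' p), |g a' p - g a p| ≤ 2 * ((k : ℝ) + 1) := by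
      intro p hp
      have hp' := (Finset.mem_filter.1 hp).1
      have h3 := hgle a ha p hp'
      have h4 := hgle a' ha' p hp'
      have h5 := abs_sub (g a' p) (g a p)
      linarith
    refine (Finset.sum_le_sum h2).trans ?_
    rw [Finset.sum_const, nsmul_eq_mul, mul_comm]
    exact mul_le_mul_of_nonneg_left hcard (by positivity)
  rw [hsum] at h ⊢
  have hm1 : (1 : ℝ) ≤ m := by exact_mod_cast hm
  have hx2 : (2 : ℝ) ≤ x := by exact_mod_cast hx
  have hk0 : (0 : ℝ) ≤ k := Nat.cast_nonneg k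
  have hlx : 0 ≤ Real.log x := Real.log_nonneg (by linarith)
  rw [Real.rpow_one] at h ⊢
  have hlog : Real.log x ≤ Real.log ((m : ℝ) * (k + 2) * x) := by
    refine Real.log_le_log (by linarith) ?_
    have h2 : (1 : ℝ) ≤ (m : ℝ) * (k + 2) := by nlinarith
    nlinarith
  have hfin : 2 * ((k : ℝ) + 1) * (√(x : ℝ) * Real.log x) ≤
      2 * m * (k + 1) * √(x : ℝ) * Real.log ((m : ℝ) * (k + 2) * x) := by
    have h1 : √(x : ℝ) * Real.log x ≤ √(x : ℝ) * Real.log ((m : ℝ) * (k + 2) * x) :=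
      mul_le_mul_of_nonneg_left hlog (Real.sqrt_nonneg _)
    have h2 : 0 ≤ √(x : ℝ) * Real.log ((m : ℝ) * (k + 2) * x) :=
      mul_nonneg (Real.sqrt_nonneg _) (hlx.trans hlog)
    calc 2 * ((k : ℝ) + 1) * (√(x : ℝ) * Real.log x)
        ≤ 2 * ((k : ℝ) + 1) * (√(x : ℝ) * Real.log ((m : ℝ) * (k + 2) * x)) :=
          mul_le_mul_of_nonneg_left h1 (by positivity)
      _ ≤ m * (2 * ((k : ℝ) + 1) * (√(x : ℝ) * Real.log ((m : ℝ) * (k + 2) * x))) :=
          le_mul_of_one_le_left (by positivity) hm1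
      _ = _ := by ring
  have htri : ∀ u v w : ℝ, |u - w| ≤ |v - w| + |u - v| := by
    intro u v w
    have := abs_add_le (v - w) (u - v)
    rwa [show v - w + (u - v) = u - w by ring] at this
  refine (htri _ (∑ p ∈ Q, g a p) _).trans ((add_le_add h (hdiff.trans hfin)).trans (le_of_eq ?_))
  ring

end Pool.Agent.JD
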