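import Pool.Agent.Lib_MP_f1937f_jd.Defs
import Pool.Agent.Lib_MP_f1937f_tb.Cheb

/-!
# Moments
-/

set_option autoImplicit false

namespace Pool.Agent.JD

open Finset Pool.Agent.TB Pool.Agent.JB

private theorem momf_fiber (M : ℕ) (hM : 0 < M) (a : ℤ) (t : ℕ) (ht : t ∈ range M) :
    (a % (M : ℤ)).toNat = t ↔ (M : ℤ) ∣ a - t := by
  have hM' : (0 : ℤ) < M := by exact_mod_cast hM
  have h0 : 0 ≤ a % (M : ℤ) := Int.emod_nonneg _ hM'.ne'
  have h1 : a % (M : ℤ) < M := Int.emod_lt_of_pos _ hM'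
  have ht' : (t : ℤ) < M := by exact_mod_cast mem_range.1 ht
  constructor
  · intro h
    have h2 : (a % (M : ℤ)) = t := by omega
    rw [← h2]
    exact Int.dvd_self_sub_emod
  · intro h
    have h3 : a % (M : ℤ) = (t : ℤ) % (M : ℤ) :=
      Int.emod_eq_emod_iff_emod_sub_eq_zero.2 (Int.emod_eq_zero_of_dvd h)
    rw [h3, Int.emod_eq_of_lt (by positivity) ht']
    simp

private theorem momf_xx_le_one {p : ℕ} (hp : p.Prime) {a : ℤ} (ha : a ∈ V p) : |xx p a| ≤ 1 := by
  have hp0 : (0 : ℝ) < p := by exact_mod_cast hp.pos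
  have h1 : |a| ≤ (Nat.sqrt (4 * p) : ℤ) := by
    unfold V at ha
    rw [Finset.mem_Icc] at ha
    exact abs_le.2 ha
  have h2 : ((Nat.sqrt (4 * p) : ℕ) : ℝ) ^ 2 ≤ 4 * p := by
    have := Nat.sqrt_le' (4 * p)
    exact_mod_cast this
  have h3 : |(a : ℝ)| ≤ (Nat.sqrt (4 * p) : ℕ) := by exact_mod_cast h1
  have h4 : |(a : ℝ)| ≤ 2 * √(p : ℝ) := by
    have h5 : |(a : ℝ)| ^ 2 ≤ (2 * √(p : ℝ)) ^ 2 := by
      rw [mul_pow, Real.sq_sqrt hp0.le]
      have : |(a : ℝ)| ^ 2 ≤ ((Nat.sqrt (4 * p) : ℕ) : ℝ) ^ 2 := by gcongr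
      linarith
    exact abs_le_of_sq_le_sq' h5 (by positivity) |>.2
  unfold xx
  rw [abs_div, abs_of_pos (show (0 : ℝ) < 2 * √(p : ℝ) by positivity)]
  exact (div_le_one (by positivity)).2 h4

/-- PIECE [JD-A11] (about 200 lines, adapt `Lib_MP_f1937f_jb/MomJ.lean`, copy its private lemmas). PROOF. Sum `InfoD` with `m = M` over `t < M` and the `d < M` prime to `M` (`hsum`): the primes not dividing `M`; the at most `M` primes dividing
`M` contribute at most `M (k + 1) + M`. -/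
theorem mom_F (M : ℕ) (hM : 0 < M) (D : ℕ → ℕ → ℤ → ℝ) (hsum : ∀ d : ℕ, d.Coprime M → ∑ t ∈ range M, D d M (t : ℤ) = 1) (a : ℕ → ℤ)
    (ha : ∀ p : ℕ, p.Prime → a p ∈ V p) (s : ℝ) (hs : 0 ≤ s) (hI : InfoD M D a s) :
    ∃ C : ℝ, 0 ≤ C ∧ ∀ k x : ℕ, 3 ≤ x → k ≤ x →
      |∑ p ∈ (range (x + 1)).filter Nat.Prime, Uk k (xx p (a p)) - (if k = 0 then (Nat.primeCounting x : ℝ) else 0)| ≤
        C * (k + 1) * √(x : ℝ) * Real.log x ^ s := by
  classical
  obtain ⟨C, hC⟩ := hI
  have hM1 : (1 : ℝ) ≤ M := by exact_mod_cast hM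
  have hM0 : (M : ℝ) ≠ 0 := by linarith
  have hlM : 0 ≤ Real.log M := Real.log_nonneg hM1
  set E : ℝ := |C| * M with hE
  have hE0 : 0 ≤ E := by positivity
  set L : ℝ := (Real.log M + 3) ^ s with hL
  have hL0 : 0 ≤ L := Real.rpow_nonneg (by linarith) _
  refine ⟨M * (M * (E * L)) + 2 * M, by positivity, fun k x hx hkx => ?_⟩
  have hx3 : (3 : ℝ) ≤ x := by exact_mod_cast hx
  have hkx' : (k : ℝ) ≤ x := by exact_mod_cast hkx
  have hk0 : (0 : ℝ) ≤ k := Nat.cast_nonneg k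
  have hlx : 1 ≤ Real.log x := by
    rw [Real.le_log_iff_exp_le (by linarith)]
    linarith [Real.exp_one_lt_d9]
  have hlog : Real.log ((M : ℝ) * (k + 2) * x) ^ s ≤ L * Real.log x ^ s := by
    rw [hL, ← Real.mul_rpow (by linarith) (by linarith)]
    have h1 : (1 : ℝ) ≤ (M : ℝ) * (k + 2) * x := by
      have h2 : (1 : ℝ) ≤ (k : ℝ) + 2 := by linarith
      have h3 : (1 : ℝ) ≤ (M : ℝ) * (k + 2) := one_le_mul_of_one_le_of_one_le hM1 h2
      exact one_le_mul_of_one_le_of_one_le h3 (by linarith)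
    refine Real.rpow_le_rpow (Real.log_nonneg h1) ?_ hs
    rw [Real.log_mul (by positivity) (by positivity), Real.log_mul hM0 (by positivity)]
    have h4 : Real.log ((k : ℝ) + 2) ≤ 2 * Real.log x := by
      have h5 : Real.log ((k : ℝ) + 2) ≤ Real.log ((x : ℝ) ^ 2) :=
        Real.log_le_log (by positivity) (by nlinarith)
      rw [Real.log_pow] at h5
      exact_mod_cast h5
    nlinarith
  set P : Finset ℕ := (range (x + 1)).filter Nat.Prime with hP
  set Pc : Finset ℕ := P.filter (fun p => p.Coprime M) with hPc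
  set Pn : Finset ℕ := P.filter (fun p => ¬ p.Coprime M) with hPn
  have hprime : ∀ p ∈ P, p.Prime := fun p hp => (Finset.mem_filter.1 hp).2
  have hcardP : P.card = Nat.primeCounting x := by
    rw [hP, Nat.primeCounting, Nat.primeCounting', Nat.count_eq_card_filter_range]
  have hPnM : Pn.card ≤ M := by
    have h1 : Pn ⊆ Finset.Icc 1 M := by
      intro p hp
      rw [hPn, Finset.mem_filter] at hp
      have hpp := hprime p hp.1
      have h2 : p ∣ M := by
        by_contra hcon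
        exact hp.2 ((Nat.Prime.coprime_iff_not_dvd hpp).2 hcon)
      rw [Finset.mem_Icc]
      exact ⟨hpp.one_le, Nat.le_of_dvd hM h2⟩
    have h2 := Finset.card_le_card h1
    rw [Nat.card_Icc] at h2
    omega
  have hsplit0 : ∑ p ∈ P, Uk k (xx p (a p))
      = ∑ p ∈ Pc, Uk k (xx p (a p)) + ∑ p ∈ Pn, Uk k (xx p (a p)) :=
    (Finset.sum_filter_add_sum_filter_not P (fun p => p.Coprime M) _).symm
  have hcard0 : (P.card : ℝ) = Pc.card + Pn.card := by
    have h1 := Finset.card_filter_add_card_filter_not (s := P) (fun p => p.Coprime M)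
    rw [← hPc, ← hPn] at h1
    exact_mod_cast h1.symm
  -- the classes
  set R : Finset ℕ := (range M).filter (fun d => d.Coprime M) with hR
  have hmaps : ∀ p ∈ Pc, p % M ∈ R := by
    intro p hp
    rw [hPc, Finset.mem_filter] at hp
    rw [hR, Finset.mem_filter, Finset.mem_range]
    refine ⟨Nat.mod_lt _ hM, ?_⟩
    have h1 : Nat.gcd (p % M) M = Nat.gcd M p := (Nat.gcd_rec M p).symm
    have h2 : Nat.gcd p M = 1 := hp.2
    show Nat.gcd (p % M) M = 1
    rw [h1, Nat.gcd_comm]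
    exact h2
  have hfil : ∀ d ∈ R, Pc.filter (fun p => p % M = d) = P.filter (fun p => p ≡ d [MOD M]) := by
    intro d hd
    rw [hR, Finset.mem_filter, Finset.mem_range] at hd
    ext p
    have h1 : p ≡ d [MOD M] ↔ p % M = d := by
      unfold Nat.ModEq
      rw [Nat.mod_eq_of_lt hd.1]
    have e1 : p ∈ Pc.filter (fun p => p % M = d) ↔ (p ∈ P ∧ p.Coprime M) ∧ p % M = d := by
      rw [Finset.mem_filter, hPc, Finset.mem_filter]
    have e2 : p ∈ P.filter (fun p => p ≡ d [MOD M]) ↔ p ∈ P ∧ p % M = d := by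
      rw [Finset.mem_filter, h1]
    rw [e1, e2]
    constructor
    · rintro ⟨⟨h2, h3⟩, h4⟩
      exact ⟨h2, h4⟩
    · rintro ⟨h2, h4⟩
      refine ⟨⟨h2, ?_⟩, h4⟩
      have h5 : Nat.gcd (p % M) M = Nat.gcd M p := (Nat.gcd_rec M p).symm
      rw [h4] at h5
      show Nat.gcd p M = 1
      rw [Nat.gcd_comm, ← h5]
      exact hd.2
  have hsplit1 : ∑ p ∈ Pc, Uk k (xx p (a p)) = ∑ d ∈ R, ∑ t ∈ range M,
      ∑ p ∈ P.filter (fun p => p ≡ d [MOD M] ∧ (M : ℤ) ∣ a p - (t : ℕ)),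
        Uk k (xx p (a p)) := by
    rw [← Finset.sum_fiberwise_of_maps_to (g := fun p => p % M) (t := R) hmaps]
    refine Finset.sum_congr rfl fun d hd => ?_
    rw [hfil d hd]
    rw [← Finset.sum_fiberwise_of_maps_to (g := fun p => (a p % (M : ℤ)).toNat) (t := range M)]
    · refine Finset.sum_congr rfl fun t ht => Finset.sum_congr ?_ fun _ _ => rfl
      rw [Finset.filter_filter]
      refine Finset.filter_congr fun p _ => ?_
      rw [momf_fiber M hM (a p) t ht]
    · intro p _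
      have hM' : (0 : ℤ) < M := by exact_mod_cast hM
      have h0 : 0 ≤ a p % (M : ℤ) := Int.emod_nonneg _ hM'.ne'
      have h1 : a p % (M : ℤ) < M := Int.emod_lt_of_pos _ hM'
      rw [mem_range]
      omega
  have hmain : (if k = 0 then (Pc.card : ℝ) else 0)
      = ∑ d ∈ R, ∑ t ∈ range M,
        (if k = 0 then D d M (t : ℤ) else 0) *
          ((P.filter (fun p => p ≡ d [MOD M])).card : ℝ) := by
    split_ifs with h
    · have h1 : Pc.card = ∑ d ∈ R, (P.filter (fun p => p ≡ d [MOD M])).card := by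
        rw [Finset.card_eq_sum_card_fiberwise (f := fun p => p % M) (t := R)
          (fun p hp => hmaps p hp)]
        refine Finset.sum_congr rfl fun d hd => ?_
        rw [hfil d hd]
      rw [h1]
      push_cast
      refine Finset.sum_congr rfl fun d hd => ?_
      rw [← Finset.sum_mul]
      have hd2 : d.Coprime M := (Finset.mem_filter.1 hd).2
      have h2 : ∑ t ∈ range M, D d M (t : ℤ) = 1 := hsum d hd2
      rw [h2, one_mul]
    · simp
  have hone : ∀ d ∈ R, ∀ t ∈ range M,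
      |∑ p ∈ P.filter (fun p => p ≡ d [MOD M] ∧ (M : ℤ) ∣ a p - (t : ℕ)),
        Uk k (xx p (a p)) -
        (if k = 0 then D d M (t : ℤ) else 0) *
          ((P.filter (fun p => p ≡ d [MOD M])).card : ℝ)|
      ≤ E * L * (k + 1) * √(x : ℝ) * Real.log x ^ s := by
    intro d hd t _
    have hd2 : d.Coprime M := (Finset.mem_filter.1 hd).2
    refine (hC M hM dvd_rfl (t : ℤ) d hd2 k x (by omega)).trans ?_
    have h0 : (1 : ℝ) ≤ (M : ℝ) * (k + 2) * x := by
      have h2 : (1 : ℝ) ≤ (k : ℝ) + 2 := by linarith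
      have h3 : (1 : ℝ) ≤ (M : ℝ) * (k + 2) := one_le_mul_of_one_le_of_one_le hM1 h2
      exact one_le_mul_of_one_le_of_one_le h3 (by linarith)
    have h1 : C * M * (k + 1) * √(x : ℝ) * Real.log ((M : ℝ) * (k + 2) * x) ^ s
        ≤ E * (k + 1) * √(x : ℝ) * Real.log ((M : ℝ) * (k + 2) * x) ^ s := by
      have h2 : C * M ≤ E :=
        mul_le_mul_of_nonneg_right (le_abs_self C) (by positivity)
      have h3 : 0 ≤ Real.log ((M : ℝ) * (k + 2) * x) ^ s :=
        Real.rpow_nonneg (Real.log_nonneg h0) _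
      gcongr
    refine h1.trans ?_
    have h4 : E * (k + 1) * √(x : ℝ) * Real.log ((M : ℝ) * (k + 2) * x) ^ s
        ≤ E * (k + 1) * √(x : ℝ) * (L * Real.log x ^ s) :=
      mul_le_mul_of_nonneg_left hlog (by positivity)
    refine h4.trans (le_of_eq ?_)
    ring
  have hcop : |∑ p ∈ Pc, Uk k (xx p (a p)) - (if k = 0 then (Pc.card : ℝ) else 0)|
      ≤ M * (M * (E * L)) * (k + 1) * √(x : ℝ) * Real.log x ^ s := by
    rw [hsplit1, hmain, ← Finset.sum_sub_distrib]
    refine (Finset.abs_sum_le_sum_abs _ _).trans ?_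
    have h1 : ∀ d ∈ R, |∑ t ∈ range M,
        ∑ p ∈ P.filter (fun p => p ≡ d [MOD M] ∧ (M : ℤ) ∣ a p - (t : ℕ)),
          Uk k (xx p (a p)) -
        ∑ t ∈ range M,
          (if k = 0 then D d M (t : ℤ) else 0) *
          ((P.filter (fun p => p ≡ d [MOD M])).card : ℝ)|
        ≤ M * (E * L * (k + 1) * √(x : ℝ) * Real.log x ^ s) := by
      intro d hd
      rw [← Finset.sum_sub_distrib]
      refine (Finset.abs_sum_le_sum_abs _ _).trans ?_
      refine (Finset.sum_le_sum (hone d hd)).trans (le_of_eq ?_)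
      rw [Finset.sum_const, card_range, nsmul_eq_mul]
    refine (Finset.sum_le_sum h1).trans ?_
    rw [Finset.sum_const, nsmul_eq_mul]
    have h2 : (R.card : ℝ) ≤ M := by
      have h3 : R.card ≤ (range M).card := Finset.card_le_card (Finset.filter_subset _ _)
      rw [card_range] at h3
      exact_mod_cast h3
    have h3 : 0 ≤ Real.log x ^ s := Real.rpow_nonneg (by linarith) _
    calc (R.card : ℝ) * (M * (E * L * (k + 1) * √(x : ℝ) * Real.log x ^ s))
        ≤ M * (M * (E * L * (k + 1) * √(x : ℝ) * Real.log x ^ s)) := by gcongr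
      _ = M * (M * (E * L)) * (k + 1) * √(x : ℝ) * Real.log x ^ s := by ring
  have hnon : |∑ p ∈ Pn, Uk k (xx p (a p))| ≤ M * (k + 1) := by
    refine (Finset.abs_sum_le_sum_abs _ _).trans ?_
    have h1 : ∀ p ∈ Pn, |Uk k (xx p (a p))| ≤ (k : ℝ) + 1 := by
      intro p hp
      have hpp := hprime p (Finset.mem_filter.1 hp).1
      exact Uk_le k (momf_xx_le_one hpp (ha p hpp))
    refine (Finset.sum_le_sum h1).trans ?_
    rw [Finset.sum_const, nsmul_eq_mul]
    have h2 : (Pn.card : ℝ) ≤ M := by exact_mod_cast hPnM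
    gcongr
  have hcn : |(if k = 0 then (Pn.card : ℝ) else 0)| ≤ M * (k + 1) := by
    have h2 : (Pn.card : ℝ) ≤ M := by exact_mod_cast hPnM
    split_ifs with h
    · rw [abs_of_nonneg (Nat.cast_nonneg _)]
      nlinarith
    · rw [abs_zero]
      positivity
  have hfin : ∑ p ∈ P, Uk k (xx p (a p)) - (if k = 0 then (Nat.primeCounting x : ℝ) else 0)
      = (∑ p ∈ Pc, Uk k (xx p (a p)) - (if k = 0 then (Pc.card : ℝ) else 0))
        + (∑ p ∈ Pn, Uk k (xx p (a p)) - (if k = 0 then (Pn.card : ℝ) else 0)) := by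
    rw [hsplit0, ← hcardP, hcard0]
    split_ifs <;> ring
  rw [hfin]
  have h1 := abs_add_le (∑ p ∈ Pc, Uk k (xx p (a p)) - (if k = 0 then (Pc.card : ℝ) else 0))
    (∑ p ∈ Pn, Uk k (xx p (a p)) - (if k = 0 then (Pn.card : ℝ) else 0))
  have h2 := abs_sub (∑ p ∈ Pn, Uk k (xx p (a p))) (if k = 0 then (Pn.card : ℝ) else 0)
  have h3 : (1 : ℝ) ≤ √(x : ℝ) := by
    rw [Real.one_le_sqrt]
    linarith
  have h4 : (1 : ℝ) ≤ Real.log x ^ s := Real.one_le_rpow hlx hs
  have h5 : 2 * (M : ℝ) * (k + 1) ≤ 2 * M * (k + 1) * √(x : ℝ) * Real.log x ^ s := by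
    have h6 : (1 : ℝ) ≤ √(x : ℝ) * Real.log x ^ s := one_le_mul_of_one_le_of_one_le h3 h4
    calc 2 * (M : ℝ) * (k + 1) ≤ 2 * (M : ℝ) * (k + 1) * (√(x : ℝ) * Real.log x ^ s) :=
          le_mul_of_one_le_right (by positivity) h6
      _ = _ := by ring
  have h7 : (M * (M * (E * L)) + 2 * M) * (k + 1) * √(x : ℝ) * Real.log x ^ s
      = M * (M * (E * L)) * (k + 1) * √(x : ℝ) * Real.log x ^ s
        + 2 * M * (k + 1) * √(x : ℝ) * Real.log x ^ s := by ring
  rw [h7]
  linarith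


end Pool.Agent.JD
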