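import Pool.Agent.Lib_MP_f1937f_jd.Laws
import Pool.Agent.Lib_MP_f1937f_jd.RealF
import Pool.Agent.Lib_MP_f1937f_jb.RankJ

/-!
# The sequence before the prescription
-/

set_option autoImplicit false

namespace Pool.Agent.JD

open Finset Pool.Agent.TB Pool.Agent.JB

theorem base_seq (M : ℕ) (hM : 0 < M) (G : Subgroup (GL (Fin 2) (ZMod M)))
    (hG : ∀ d : (ZMod M)ˣ, ∃ g ∈ G, g.val.det = (d : ZMod M)) (A : Set ℤ) (e : ℕ ≃ ℤ) :
    ∃ (a : ℕ → ℤ) (p₂ : ℕ), (∀ p : ℕ, p.Prime → a p ∈ V p) ∧ InfoD M (DG M G) a 1 ∧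
      (∀ p : ℕ, p.Prime → p₂ ≤ p → p.Coprime M ∧ 0 < uu M G p (a p)) ∧
      (∀ b : ℤ, b ∉ A → {p : ℕ | p.Prime ∧ a p = b}.Finite) ∧
      (∀ b : ℤ, b ∈ A → ∀ d : ℕ, d.Coprime M → 0 < uu M G d b → ∀ C ε : ℝ, 0 < ε → ∃ x₀ : ℕ, ∀ x : ℕ, x₀ ≤ x →
        (x : ℝ) ^ (3 / 4 - ε) + C * √(x : ℝ) * Real.log x ≤
          ((((range (x + 1)).filter Nat.Prime).filter (fun p => a p = b)).card : ℝ)) := by
  classical
  have hcop : ∀ p : ℕ, p.Prime → M + 1 ≤ p → p.Coprime M := fun p hp hpm =>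
    (Nat.Prime.coprime_iff_not_dvd hp).2 fun h => by
      have := Nat.le_of_dvd hM h
      omega
  obtain ⟨B, ρ, p₂, P, hB, hρ0, hρs, hρ1, hρg, hL⟩ := law_all M hM G hG A (fun p => e (rkJ (M ^ 2) p))
  obtain ⟨a, C₃, ha, hI, hcount⟩ := realize_F M hM (DG M G) (fun d m t hm => ⟨DG_nonneg M G d m t, DG_le_one M G d m hm t⟩)
    (fun d d' m t h => DG_congr M G d d' m t h) B hB ρ hρ0 hρs hρ1 hρg
  refine ⟨a, max p₂ (M + 1), fun p hp => (ha p hp).1, hI, ?_, ?_, ?_⟩
  · intro p hp hpp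
    have hpM := hcop p hp ((le_max_right _ _).trans hpp)
    refine ⟨hpM, ?_⟩
    obtain ⟨-, h2, -⟩ := hL p hp hpM ((le_max_left _ _).trans hpp)
    have hnn : 0 ≤ uu M G p (a p) := by
      obtain ⟨c, hc, hu⟩ := uu_facts M hM G hG
      exact (hu p hpM).nonneg _
    rcases hnn.lt_or_eq with h | h
    · exact h
    · have := (ha p hp).2
      rw [h2 (a p) h.symm] at this
      exact absurd this (lt_irrefl _)
  · intro b hb
    obtain ⟨n₀, hn₀⟩ := exists_nat_ge (Real.exp |(b : ℝ)|)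
    refine (Set.finite_Iio (max (max p₂ (M + 1)) (n₀ + 1))).subset ?_
    rintro p ⟨hp, hab⟩
    rw [Set.mem_Iio]
    by_contra hlt
    push Not at hlt
    have hp1 : p₂ ≤ p := (le_max_left _ _).trans ((le_max_left _ _).trans hlt)
    have hp3 : M + 1 ≤ p := (le_max_right _ _).trans ((le_max_left _ _).trans hlt)
    have hp2 : n₀ + 1 ≤ p := (le_max_right _ _).trans hlt
    have h5 : |(b : ℝ)| ≤ Real.log p := by
      rw [Real.le_log_iff_exp_le (by exact_mod_cast hp.pos)]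
      refine hn₀.trans ?_
      exact_mod_cast (by omega : n₀ ≤ p)
    have h6 := (hL p hp (hcop p hp hp3) hp1).1 b h5 hb
    have h7 := (ha p hp).2
    rw [hab, h6] at h7
    exact lt_irrefl _ h7
  · intro b hb d hd hud C ε hε
    obtain ⟨n₀, hn₀⟩ := exists_nat_ge (max 8 (2 / ε))
    have hn8r : (8 : ℝ) ≤ n₀ := (le_max_left _ _).trans hn₀
    have hn8 : 8 ≤ n₀ := by exact_mod_cast hn8r
    have hnε : 2 / ε ≤ n₀ := (le_max_right _ _).trans hn₀
    have hn0 : (0 : ℝ) < n₀ := by linarith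
    have hε' : 1 / (n₀ : ℝ) ≤ 1 / 8 := one_div_le_one_div_of_le (by norm_num) hn8r
    have hε2 : 2 * (1 / (n₀ : ℝ)) ≤ ε := by
      rw [div_le_iff₀ hε] at hnε
      rw [mul_one_div, div_le_iff₀ hn0]
      linarith
    set j : ℕ := e.symm b with hj
    have hej : e j = b := by rw [hj, Equiv.apply_symm_apply]
    obtain ⟨x₀, hx₀⟩ := rank_J (M ^ 2) (by positivity) d (Nat.Coprime.pow_right 2 hd) (1 / (n₀ : ℝ)) (by positivity) hε' (C + C₃) j
      (max p₂ (max n₀ (P b n₀)))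
    refine ⟨max x₀ 2, fun x hx => ?_⟩
    have hx2 : 2 ≤ x := (le_max_right _ _).trans hx
    have hx1 : 1 ≤ x := by omega
    have h5 := hcount b x hx2
    have h6 := hx₀ x ((le_max_left _ _).trans hx)
    have h7 : ∑ p ∈ ((range (x + 1)).filter Nat.Prime).filter
          (fun p => p ≡ d [MOD M ^ 2] ∧ rkJ (M ^ 2) p = j ∧ max p₂ (max n₀ (P b n₀)) ≤ p),
            (p : ℝ) ^ (-(1 / 4) - 1 / (n₀ : ℝ)) / 4 ≤
        ∑ p ∈ (range (x + 1)).filter Nat.Prime, ρ p b := by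
      calc _ ≤ ∑ p ∈ ((range (x + 1)).filter Nat.Prime).filter (fun p => p ≡ d [MOD M ^ 2] ∧ rkJ (M ^ 2) p = j ∧
              max p₂ (max n₀ (P b n₀)) ≤ p), ρ p b := by
            refine sum_le_sum fun p hp => ?_
            rw [mem_filter, mem_filter] at hp
            obtain ⟨⟨hp1, hpp⟩, hpd, hpj, hpm⟩ := hp
            have hpM : p.Coprime M := by
              have h8 : p ≡ d [MOD M] := hpd.of_dvd (dvd_pow_self M two_ne_zero)
              rw [Nat.Coprime, Nat.ModEq.gcd_eq h8]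
              exact hd
            have hq := (hL p hpp hpM ((le_max_left _ _).trans hpm)).2.2 n₀ hn8
              ((le_max_left _ _).trans ((le_max_right _ _).trans hpm))
            simp only [hpj, hej] at hq
            rw [uu_per M G p d b hpd] at hq
            exact hq ((le_max_right _ _).trans ((le_max_right _ _).trans hpm)) hb hud
        _ ≤ _ := by
            refine sum_le_sum_of_subset_of_nonneg (filter_subset _ _) fun p hp _ => ?_
            exact hρ0 p (mem_filter.mp hp).2 b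
    have h8 : (x : ℝ) ^ (3 / 4 - ε) ≤ (x : ℝ) ^ (3 / 4 - 2 * (1 / (n₀ : ℝ))) := by
      apply Real.rpow_le_rpow_of_exponent_le
      · exact_mod_cast hx1
      · linarith
    have h9 := (abs_le.mp h5).1
    have h10 := h6.trans h7
    have h11 : (C + C₃) * √(x : ℝ) * Real.log x = C * √(x : ℝ) * Real.log x + C₃ * √(x : ℝ) * Real.log x := by ring
    linarith

end Pool.Agent.JD
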