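import Pool.Agent.Lib_MP_f1937f_jd.Defs

/-!
# Triples, a prime at which the matrix is not scalar
-/

set_option autoImplicit false

namespace Pool.Agent.JD

open Finset Pool.Agent.TB Pool.Agent.JB

private theorem st_fib {A B : Type} [AddGroup A] [AddGroup B] [Fintype A] [Fintype B]
    [DecidableEq B] (f : A →+ B) (hf : Function.Surjective f) (b : B) :
    Fintype.card B * (univ.filter fun a => f a = b).card = Fintype.card A := by
  classical
  have h1 : (univ : Finset A).card = ∑ c : B, (univ.filter fun a => f a = c).card :=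
    Finset.card_eq_sum_card_fiberwise (fun a _ => mem_univ _)
  have h2 : ∀ c ∈ (univ : Finset B), (univ.filter fun a => f a = c).card =
      (univ.filter fun a => f a = b).card :=
    fun c _ => AddMonoidHom.card_fiber_eq_of_mem_range f (hf c) (hf b)
  rw [Finset.sum_congr rfl h2, sum_const, card_univ, card_univ, smul_eq_mul] at h1
  exact h1.symm

/-- the class -/
private def st_cl (M Q : ℕ) (h : M ∣ Q) (al be ga : ℤ) (v : ZMod Q × ZMod Q × ZMod Q) : Prop :=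
  ZMod.castHom h (ZMod M) v.1 = (al : ZMod M) ∧
    ZMod.castHom h (ZMod M) v.2.1 = (be : ZMod M) ∧ ZMod.castHom h (ZMod M) v.2.2 = (ga : ZMod M)

/-- the form -/
private def st_fm (Q : ℕ) (t : ℤ) (v : ZMod Q × ZMod Q × ZMod Q) : ZMod Q :=
  v.1 * ((t : ZMod Q) - v.1) - v.2.1 * v.2.2

open scoped Classical in
private theorem st_T3 (M Q : ℕ) [NeZero Q] (h : M ∣ Q) (al be ga t d : ℤ) :
    T3 M Q h al be ga t d =
      (univ.filter fun v => st_cl M Q h al be ga v ∧ st_fm Q t v = (d : ZMod Q)).card := by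
  unfold T3
  rw [Nat.card_eq_fintype_card, Fintype.card_subtype]
  refine congrArg Finset.card (Finset.ext fun v => ?_)
  simp only [mem_filter, mem_univ, true_and]
  rfl

private theorem st_cl_int (M Q : ℕ) (h : M ∣ Q) (al be ga x y z : ℤ) :
    st_cl M Q h al be ga ((x : ZMod Q), (y : ZMod Q), (z : ZMod Q)) ↔
      (M : ℤ) ∣ x - al ∧ (M : ℤ) ∣ y - be ∧ (M : ℤ) ∣ z - ga := by
  unfold st_cl
  simp only [map_intCast]
  have e : ∀ a b : ℤ, ((a : ℤ) : ZMod M) = (b : ZMod M) ↔ (M : ℤ) ∣ a - b := by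
    intro a b
    rw [eq_comm, ZMod.intCast_eq_intCast_iff_dvd_sub]
  rw [e, e, e]

private theorem st_shift (M R : ℕ) (h : M ∣ R) (al be ga t w X0 Y0 Z0 q : ℤ) (h1 : (M : ℤ) ∣ w)
    (h2 : (R : ℤ) ∣ w ^ 2)
    (h3 : ∀ x y z : ℤ, (M : ℤ) ∣ x - al → (M : ℤ) ∣ y - be → (M : ℤ) ∣ z - ga →
      (R : ℤ) ∣ w * ((t - 2 * x) * X0 - z * Y0 - y * Z0) - q)
    (v : ZMod R × ZMod R × ZMod R) :
    (st_cl M R h al be ga (v + (((w * X0 : ℤ) : ZMod R), ((w * Y0 : ℤ) : ZMod R),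
      ((w * Z0 : ℤ) : ZMod R))) ↔ st_cl M R h al be ga v) ∧
    (st_cl M R h al be ga v → st_fm R t (v + (((w * X0 : ℤ) : ZMod R), ((w * Y0 : ℤ) : ZMod R),
      ((w * Z0 : ℤ) : ZMod R))) = st_fm R t v + (q : ZMod R)) := by
  obtain ⟨v1, v2, v3⟩ := v
  obtain ⟨x, rfl⟩ := ZMod.intCast_surjective v1
  obtain ⟨y, rfl⟩ := ZMod.intCast_surjective v2
  obtain ⟨z, rfl⟩ := ZMod.intCast_surjective v3
  have e0 : (((x : ℤ) : ZMod R), ((y : ℤ) : ZMod R), ((z : ℤ) : ZMod R)) +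
      (((w * X0 : ℤ) : ZMod R), ((w * Y0 : ℤ) : ZMod R), ((w * Z0 : ℤ) : ZMod R)) =
      (((x + w * X0 : ℤ) : ZMod R), ((y + w * Y0 : ℤ) : ZMod R), ((z + w * Z0 : ℤ) : ZMod R)) := by
    simp only [Prod.mk_add_mk, Int.cast_add]
  rw [e0, st_cl_int, st_cl_int]
  constructor
  · have e : ∀ a b c : ℤ, (M : ℤ) ∣ a + w * c - b ↔ (M : ℤ) ∣ a - b := by
      intro a b c
      have h4 : a + w * c - b = (a - b) + w * c := by ring
      rw [h4]
      exact dvd_add_left (h1.mul_right c)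
    rw [e, e, e]
  · rintro ⟨hx, hy, hz⟩
    have h4 := h3 x y z hx hy hz
    have h5 : (R : ℤ) ∣ ((x + w * X0) * (t - (x + w * X0)) - (y + w * Y0) * (z + w * Z0)) -
        ((x * (t - x) - y * z) + q) := by
      have h6 : ((x + w * X0) * (t - (x + w * X0)) - (y + w * Y0) * (z + w * Z0)) -
          ((x * (t - x) - y * z) + q) =
          (w * ((t - 2 * x) * X0 - z * Y0 - y * Z0) - q) - w ^ 2 * (X0 ^ 2 + Y0 * Z0) := by ring
      rw [h6]
      exact dvd_sub h4 (h2.mul_right _)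
    have h7 := (ZMod.intCast_eq_intCast_iff_dvd_sub ((x * (t - x) - y * z) + q)
      ((x + w * X0) * (t - (x + w * X0)) - (y + w * Y0) * (z + w * Z0)) R).2 h5
    unfold st_fm
    push_cast at h7 ⊢
    exact h7.symm

private theorem st_inv {l : ℕ} (hl : l.Prime) (b : ℕ) (u : ℤ) (h1 : ((l ^ b : ℕ) : ℤ) ∣ u)
    (h2 : ¬ ((l ^ (b + 1) : ℕ) : ℤ) ∣ u) :
    ∃ m : ℤ, ((l ^ (b + 1) : ℕ) : ℤ) ∣ u * m - ((l ^ b : ℕ) : ℤ) := by
  obtain ⟨c, rfl⟩ := h1
  have h3 : ¬ (l : ℤ) ∣ c := by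
    rintro ⟨e, rfl⟩
    apply h2
    exact ⟨e, by push_cast; ring⟩
  have hlZ : Prime (l : ℤ) := Nat.prime_iff_prime_int.mp hl
  have h4 : IsCoprime (l : ℤ) c := (Prime.coprime_iff_not_dvd hlZ).mpr h3
  obtain ⟨r, m, h5⟩ := h4
  refine ⟨m, -r, ?_⟩
  push_cast
  have h6 : m * c = 1 - r * l := by linarith
  calc (l : ℤ) ^ b * c * m - (l : ℤ) ^ b = (l : ℤ) ^ b * (m * c) - (l : ℤ) ^ b := by ring
    _ = (l : ℤ) ^ b * (1 - r * l) - (l : ℤ) ^ b := by rw [h6]
    _ = (l : ℤ) ^ (b + 1) * -r := by ring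

/-- the vector of the translation -/
private theorem st_vec {M Q l v : ℕ} (hM : 0 < M) (h : M ∣ Q) (hl : l.Prime)
    (hv : v = M.factorization l) (hQv : l ^ (2 * v) ∣ Q) (al be ga de t : ℤ)
    (ht : (M : ℤ) ∣ t - (al + de))
    (hns : ¬ (((l ^ v : ℕ) : ℤ) ∣ be ∧ ((l ^ v : ℕ) : ℤ) ∣ ga ∧ ((l ^ v : ℕ) : ℤ) ∣ al - de)) :
    ∃ w X0 Y0 Z0 : ℤ, (M : ℤ) ∣ w ∧ ((Q * l : ℕ) : ℤ) ∣ w ^ 2 ∧
      ∀ x y z : ℤ, (M : ℤ) ∣ x - al → (M : ℤ) ∣ y - be → (M : ℤ) ∣ z - ga →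
        ((Q * l : ℕ) : ℤ) ∣ w * ((t - 2 * x) * X0 - z * Y0 - y * Z0) - (Q : ℤ) := by
  classical
  -- the level
  have hex : ∃ n : ℕ, ¬ (((l ^ n : ℕ) : ℤ) ∣ be ∧ ((l ^ n : ℕ) : ℤ) ∣ ga ∧
      ((l ^ n : ℕ) : ℤ) ∣ al - de) := ⟨v, hns⟩
  have hfv : Nat.find hex ≤ v := Nat.find_min' hex hns
  have hf0 : Nat.find hex ≠ 0 := by
    intro h0
    have h1 := Nat.find_spec hex
    rw [h0] at h1
    apply h1
    simp
  obtain ⟨b, hb⟩ : ∃ b, Nat.find hex = b + 1 := ⟨Nat.find hex - 1, by omega⟩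
  have hbv : b + 1 ≤ v := by omega
  have hnot := Nat.find_spec hex
  rw [hb] at hnot
  have hyes : ((l ^ b : ℕ) : ℤ) ∣ be ∧ ((l ^ b : ℕ) : ℤ) ∣ ga ∧ ((l ^ b : ℕ) : ℤ) ∣ al - de := by
    by_contra hcon
    have := Nat.find_min' hex hcon
    omega
  -- the coefficients
  have hco : ∃ X0 Y0 Z0 : ℤ, ((l ^ (b + 1) : ℕ) : ℤ) ∣
      (de - al) * X0 - ga * Y0 - be * Z0 - ((l ^ b : ℕ) : ℤ) := by
    by_cases c1 : ((l ^ (b + 1) : ℕ) : ℤ) ∣ be
    · by_cases c2 : ((l ^ (b + 1) : ℕ) : ℤ) ∣ ga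
      · have c3 : ¬ ((l ^ (b + 1) : ℕ) : ℤ) ∣ al - de := fun c3 => hnot ⟨c1, c2, c3⟩
        obtain ⟨m, hm⟩ := st_inv hl b (al - de) hyes.2.2 c3
        refine ⟨-m, 0, 0, ?_⟩
        have e : (de - al) * -m - ga * 0 - be * 0 - ((l ^ b : ℕ) : ℤ) =
            (al - de) * m - ((l ^ b : ℕ) : ℤ) := by ring
        rw [e]
        exact hm
      · obtain ⟨m, hm⟩ := st_inv hl b ga hyes.2.1 c2
        refine ⟨0, -m, 0, ?_⟩
        have e : (de - al) * 0 - ga * -m - be * 0 - ((l ^ b : ℕ) : ℤ) =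
            ga * m - ((l ^ b : ℕ) : ℤ) := by ring
        rw [e]
        exact hm
    · obtain ⟨m, hm⟩ := st_inv hl b be hyes.1 c1
      refine ⟨0, 0, -m, ?_⟩
      have e : (de - al) * 0 - ga * 0 - be * -m - ((l ^ b : ℕ) : ℤ) =
          be * m - ((l ^ b : ℕ) : ℤ) := by ring
      rw [e]
      exact hm
  obtain ⟨X0, Y0, Z0, hco⟩ := hco
  obtain ⟨Q', rfl⟩ := hQv
  refine ⟨((l ^ (2 * v - b) * Q' : ℕ) : ℤ), X0, Y0, Z0, ?_, ?_, ?_⟩
  · -- divisibility by `M`
    have h1 : l ^ v * (M / l ^ v) = M := by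
      rw [hv]
      exact Nat.ordProj_mul_ordCompl_eq_self M l
    have h2 : l.Coprime (M / l ^ v) := by
      rw [hv]
      exact Nat.coprime_ordCompl hl hM.ne'
    have h3 : M / l ^ v ∣ Q' := by
      have h4 : M / l ^ v ∣ l ^ (2 * v) * Q' := (Dvd.intro_left _ h1).trans h
      exact (Nat.Coprime.pow_left (2 * v) h2).symm.dvd_of_dvd_mul_left h4
    have h4 : M ∣ l ^ (2 * v - b) * Q' := by
      rw [← h1]
      exact Nat.mul_dvd_mul (pow_dvd_pow l (by omega)) h3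
    exact_mod_cast h4
  · have h1 : l ^ (2 * v) * Q' * l ∣ (l ^ (2 * v - b) * Q') ^ 2 := by
      refine ⟨l ^ (2 * (2 * v - b) - (2 * v + 1)) * Q', ?_⟩
      have h2 : 2 * (2 * v - b) = (2 * v + 1) + (2 * (2 * v - b) - (2 * v + 1)) := by omega
      calc (l ^ (2 * v - b) * Q') ^ 2 = l ^ (2 * (2 * v - b)) * (Q' * Q') := by
            rw [mul_pow, ← pow_mul, mul_comm (2 * v - b) 2]
            ring
        _ = l ^ ((2 * v + 1) + (2 * (2 * v - b) - (2 * v + 1))) * (Q' * Q') := by rw [← h2]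
        _ = l ^ (2 * v) * Q' * l * (l ^ (2 * (2 * v - b) - (2 * v + 1)) * Q') := by
            rw [pow_add, pow_succ]
            ring
    exact_mod_cast h1
  · intro x y z hx hy hz
    have hlM : ((l ^ (b + 1) : ℕ) : ℤ) ∣ (M : ℤ) := by
      have h1 : l ^ (b + 1) ∣ M := by
        refine (pow_dvd_pow l hbv).trans ?_
        rw [hv]
        exact Nat.ordProj_dvd M l
      exact_mod_cast h1
    have h1 : ((l ^ (b + 1) : ℕ) : ℤ) ∣ (t - 2 * x) * X0 - z * Y0 - y * Z0 - ((l ^ b : ℕ) : ℤ) := by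
      have e : (t - 2 * x) * X0 - z * Y0 - y * Z0 - ((l ^ b : ℕ) : ℤ) =
          ((de - al) * X0 - ga * Y0 - be * Z0 - ((l ^ b : ℕ) : ℤ)) +
          ((t - (al + de)) * X0 - (x - al) * (2 * X0) - (z - ga) * Y0 - (y - be) * Z0) := by ring
      rw [e]
      refine dvd_add hco (hlM.trans ?_)
      exact dvd_sub (dvd_sub (dvd_sub (ht.mul_right _) (hx.mul_right _)) (hz.mul_right _))
        (hy.mul_right _)
    obtain ⟨k, hk⟩ := h1
    have h2 : (t - 2 * x) * X0 - z * Y0 - y * Z0 = ((l ^ b : ℕ) : ℤ) + ((l ^ (b + 1) : ℕ) : ℤ) * k := by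
      linarith
    rw [h2]
    refine ⟨k, ?_⟩
    have h3 : (l : ℤ) ^ (2 * v) = (l : ℤ) ^ (2 * v - b) * (l : ℤ) ^ b := by
      rw [← pow_add]
      congr 1
      omega
    push_cast
    rw [h3, pow_succ]
    ring

/-- PIECE [JD-P9] (about 200 lines). `v` is the exact exponent of `l` in `M`, `l ^ (2 v) ∣ Q`. PROOF. Let `b < v` be maximal such that `l ^ b` divides `be`, `ga` and `al - de`.
`X` = triples modulo `Q l` in the class with `x (t - x) - y z = d` modulo `Q`; `|X| = l³ * T3 M Q` (fibres of `ZMod (Q l) → ZMod Q`). Let `w = Q / l ^ b`. Then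
`M ∣ w`, and `Q l ∣ w²` (exponent of `l`: `2 (v_Q - b) ≥ v_Q + 1` as `v_Q ≥ 2 v ≥ 2 b + 2`). For `(x, y, z)` in the class, `l ^ b` divides `t - 2 x`, `y`, `z`, and
the quotients modulo `l` do not depend on `(x, y, z)` (`t - 2 x = de - al` modulo `l ^ v` by `ht`; `b + 1 ≤ v`); they are `(de - al) / l ^ b`, `be / l ^ b`, `ga / l ^ b` modulo `l`, not all
`0` by the maximality of `b`. Choose integers `X₀, Y₀, Z₀` with `((de - al) X₀ - ga Y₀ - be Z₀) / l ^ b = 1` modulo `l`. The translation by `w (X₀, Y₀, Z₀)` maps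
`{form = d + i Q}` bijectively to `{form = d + (i + 1) Q}` (`form (x + w X₀, ..) = form + w ((t - 2 x) X₀ - z Y₀ - y Z₀) - w² (X₀² + Y₀ Z₀)`). So the `l` sets
`{form = d + i Q modulo Q l}`, `i < l`, which partition `X`, have the same size `|X| / l = l² T3 M Q`, and `i = 0` is `T3 M (Q l)`. -/
theorem strip (M Q l v : ℕ) (hM : 0 < M) (hQ : 0 < Q) (h : M ∣ Q) (h' : M ∣ Q * l) (hl : l.Prime) (hv : v = M.factorization l)
    (hQv : l ^ (2 * v) ∣ Q) (al be ga de t d : ℤ) (ht : (M : ℤ) ∣ t - (al + de))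
    (hns : ¬ (((l ^ v : ℕ) : ℤ) ∣ be ∧ ((l ^ v : ℕ) : ℤ) ∣ ga ∧ ((l ^ v : ℕ) : ℤ) ∣ al - de)) :
    T3 M (Q * l) h' al be ga t d = l ^ 2 * T3 M Q h al be ga t d := by
  classical
  have hl0 : 0 < l := hl.pos
  haveI : NeZero Q := ⟨hQ.ne'⟩
  haveI : NeZero (Q * l) := ⟨(Nat.mul_pos hQ hl0).ne'⟩
  obtain ⟨w, X0, Y0, Z0, w1, w2, w3⟩ := st_vec hM h hl hv hQv al be ga de t ht hns
  have hshift := st_shift M (Q * l) h' al be ga t w X0 Y0 Z0 (Q : ℤ) w1 w2 w3
  obtain ⟨c, hc⟩ : ∃ c : ZMod (Q * l) × ZMod (Q * l) × ZMod (Q * l),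
    c = (((w * X0 : ℤ) : ZMod (Q * l)), ((w * Y0 : ℤ) : ZMod (Q * l)),
      ((w * Z0 : ℤ) : ZMod (Q * l))) := ⟨_, rfl⟩
  rw [← hc] at hshift
  -- the fibres of the form
  obtain ⟨Nf, hNf⟩ : ∃ Nf : ZMod (Q * l) → ℕ, Nf = fun r =>
    (univ.filter fun v => st_cl M (Q * l) h' al be ga v ∧ st_fm (Q * l) t v = r).card := ⟨_, rfl⟩
  have hN1 : ∀ r, Nf r = Nf (r + ((Q : ℤ) : ZMod (Q * l))) := by
    intro r
    rw [hNf]
    refine Finset.card_equiv (Equiv.addRight c) fun v => ?_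
    rw [mem_filter, mem_filter]
    simp only [mem_univ, true_and, Equiv.coe_addRight]
    rw [(hshift v).1]
    constructor
    · rintro ⟨h1, h2⟩
      exact ⟨h1, by rw [(hshift v).2 h1, h2]⟩
    · rintro ⟨h1, h2⟩
      refine ⟨h1, ?_⟩
      rw [(hshift v).2 h1] at h2
      exact add_right_cancel h2
  have hN2 : ∀ (i : ℕ) (r), Nf (r + ((Q * i : ℕ) : ZMod (Q * l))) = Nf r := by
    intro i
    induction i with
    | zero =>
      intro r
      rw [mul_zero, Nat.cast_zero, add_zero]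
    | succ i ih =>
      intro r
      have e : r + ((Q * (i + 1) : ℕ) : ZMod (Q * l)) =
          (r + ((Q * i : ℕ) : ZMod (Q * l))) + ((Q : ℤ) : ZMod (Q * l)) := by
        push_cast
        ring
      rw [e, ← hN1, ih]
  obtain ⟨π, hπ⟩ : ∃ π : ZMod (Q * l) →+* ZMod Q, π = ZMod.castHom (dvd_mul_right Q l) (ZMod Q) :=
    ⟨_, rfl⟩
  have hN3 : ∀ r, π r = (d : ZMod Q) → Nf r = Nf (d : ZMod (Q * l)) := by
    intro r hr
    have h1 : π (r - (d : ZMod (Q * l))) = 0 := by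
      rw [map_sub, hr, map_intCast, sub_self]
    obtain ⟨u, hu⟩ : ∃ u : ℕ, ((u : ℕ) : ZMod (Q * l)) = r - (d : ZMod (Q * l)) :=
      ⟨_, ZMod.natCast_zmod_val _⟩
    rw [← hu, map_natCast, ZMod.natCast_eq_zero_iff] at h1
    obtain ⟨i, rfl⟩ := h1
    have h2 : r = (d : ZMod (Q * l)) + ((Q * i : ℕ) : ZMod (Q * l)) := by
      rw [hu]
      ring
    rw [h2, hN2]
  -- the set `X`
  obtain ⟨X, hX⟩ : ∃ X : Finset (ZMod (Q * l) × ZMod (Q * l) × ZMod (Q * l)),
    X = univ.filter fun v => st_cl M (Q * l) h' al be ga v ∧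
      π (st_fm (Q * l) t v) = (d : ZMod Q) := ⟨_, rfl⟩
  have hsurj : Function.Surjective π := by
    rw [hπ]
    exact ZMod.castHom_surjective _
  have hX1 : X.card = l * Nf (d : ZMod (Q * l)) := by
    have h1 : X.card = ∑ r ∈ univ.filter (fun r => π r = (d : ZMod Q)),
        (X.filter fun v => st_fm (Q * l) t v = r).card := by
      refine Finset.card_eq_sum_card_fiberwise fun v hv => ?_
      rw [hX] at hv
      have h2 := (mem_filter.1 (mem_coe.1 hv)).2.2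
      simp only [coe_filter, mem_univ, true_and]
      exact h2
    have h2 : ∀ r ∈ univ.filter (fun r => π r = (d : ZMod Q)),
        (X.filter fun v => st_fm (Q * l) t v = r).card = Nf (d : ZMod (Q * l)) := by
      intro r hr
      have hr' := (mem_filter.1 hr).2
      rw [← hN3 r hr', hNf, hX, filter_filter]
      congr 1
      refine filter_congr fun v _ => ?_
      constructor
      · rintro ⟨⟨h3, _⟩, h5⟩
        exact ⟨h3, h5⟩
      · rintro ⟨h3, h5⟩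
        exact ⟨⟨h3, by rw [h5]; exact hr'⟩, h5⟩
    rw [h1, sum_congr rfl h2, sum_const, smul_eq_mul]
    congr 1
    have h3 := st_fib π.toAddMonoidHom hsurj (d : ZMod Q)
    rw [ZMod.card, ZMod.card] at h3
    exact Nat.eq_of_mul_eq_mul_left hQ h3
  obtain ⟨F, hF⟩ : ∃ F : ZMod (Q * l) × ZMod (Q * l) × ZMod (Q * l) →+
    ZMod Q × ZMod Q × ZMod Q, F = AddMonoidHom.prodMap π.toAddMonoidHom
      (AddMonoidHom.prodMap π.toAddMonoidHom π.toAddMonoidHom) := ⟨_, rfl⟩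
  have hFv : ∀ v, F v = (π v.1, π v.2.1, π v.2.2) := by
    intro v
    rw [hF]
    rfl
  have hFsurj : Function.Surjective F := by
    rintro ⟨a, b, c⟩
    obtain ⟨a', rfl⟩ := hsurj a
    obtain ⟨b', rfl⟩ := hsurj b
    obtain ⟨c', rfl⟩ := hsurj c
    exact ⟨(a', b', c'), hFv _⟩
  have hcl : ∀ v, st_cl M Q h al be ga (F v) ↔ st_cl M (Q * l) h' al be ga v := by
    intro v
    have e : ∀ x : ZMod (Q * l), ZMod.castHom h (ZMod M) (π x) = ZMod.castHom h' (ZMod M) x := by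
      intro x
      obtain ⟨x, rfl⟩ := ZMod.intCast_surjective x
      rw [map_intCast, map_intCast, map_intCast]
    unfold st_cl
    rw [hFv]
    simp only [e]
  have hfm : ∀ v, st_fm Q t (F v) = π (st_fm (Q * l) t v) := by
    intro v
    unfold st_fm
    rw [hFv, map_sub, map_mul, map_sub, map_mul, map_intCast]
  have hX2 : X.card = T3 M Q h al be ga t d * l ^ 3 := by
    rw [st_T3]
    have h1 : X.card = ∑ q ∈ univ.filter (fun v => st_cl M Q h al be ga v ∧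
        st_fm Q t v = (d : ZMod Q)), (X.filter fun v => F v = q).card := by
      refine Finset.card_eq_sum_card_fiberwise fun v hv => ?_
      rw [hX] at hv
      have h2 := (mem_filter.1 (mem_coe.1 hv)).2
      simp only [coe_filter, mem_univ, true_and]
      exact ⟨(hcl v).2 h2.1, by rw [hfm]; exact h2.2⟩
    have h2 : ∀ q ∈ univ.filter (fun v => st_cl M Q h al be ga v ∧
        st_fm Q t v = (d : ZMod Q)), (X.filter fun v => F v = q).card = l ^ 3 := by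
      intro q hq
      have hq' := (mem_filter.1 hq).2
      have h3 : (X.filter fun v => F v = q) = univ.filter fun v => F v = q := by
        rw [hX, filter_filter]
        refine filter_congr fun v _ => ?_
        constructor
        · exact fun h4 => h4.2
        · intro h4
          refine ⟨⟨?_, ?_⟩, h4⟩
          · rw [← hcl, h4]
            exact hq'.1
          · rw [← hfm, h4]
            exact hq'.2
      rw [h3]
      have h4 := st_fib F hFsurj q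
      simp only [Fintype.card_prod, ZMod.card] at h4
      have h5 : Q * (Q * Q) * (univ.filter fun v => F v = q).card = Q * (Q * Q) * l ^ 3 := by
        rw [h4]
        ring
      exact Nat.eq_of_mul_eq_mul_left (by positivity) h5
    rw [h1, sum_congr rfl h2, sum_const, smul_eq_mul]
  have hfin : l * T3 M (Q * l) h' al be ga t d = l * (l ^ 2 * T3 M Q h al be ga t d) := by
    have h1 : T3 M (Q * l) h' al be ga t d = Nf (d : ZMod (Q * l)) := by
      rw [st_T3, hNf]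
    rw [h1, ← hX1, hX2]
    ring
  exact Nat.eq_of_mul_eq_mul_left hl0 hfin

end Pool.Agent.JD
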